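import Pool.Agent.Lib_helper68.JOF.DefsF

/-! Project JO, part M, block RIE. -/

namespace Pool.Agent.JOM

open MeasureTheory Filter Topology UpperHalfPlane
open scoped MatrixGroups Modular ArithmeticFunction.Moebius

theorem rie_cont {g : ℝ → ℝ} {Λ : ℝ} (hΛ : 0 ≤ Λ)
    (hg : ∀ x y, |g x - g y| ≤ Λ * |x - y|) : Continuous g := by
  have h : LipschitzWith ⟨Λ, hΛ⟩ g := by
    apply LipschitzWith.of_dist_le_mul
    intro x y
    rw [Real.dist_eq, Real.dist_eq]
    exact hg x y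
  exact h.continuous

theorem rie_cell {g : ℝ → ℝ} {Λ h : ℝ} (hΛ : 0 ≤ Λ) (hh : 0 < h)
    (hg : ∀ x y, |g x - g y| ≤ Λ * |x - y|) (u : ℝ) :
    |h * g u - ∫ x in u..(u + h), g x| ≤ Λ * h ^ 2 := by
  have hc := rie_cont hΛ hg
  have e1 : h * g u = ∫ x in u..(u + h), g u := by
    rw [intervalIntegral.integral_const, smul_eq_mul]
    ring
  rw [e1, ← intervalIntegral.integral_sub (continuous_const.intervalIntegrable _ _)
    (hc.intervalIntegrable _ _)]
  have h2 : ‖∫ x in u..(u + h), (g u - g x)‖ ≤ (Λ * h) * |u + h - u| := by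
    apply intervalIntegral.norm_integral_le_of_norm_le_const
    intro x hx
    rw [Set.uIoc_of_le (by linarith)] at hx
    rw [Real.norm_eq_abs]
    refine le_trans (hg u x) ?_
    apply mul_le_mul_of_nonneg_left _ hΛ
    rw [abs_le]
    constructor <;> linarith [hx.1, hx.2]
  rw [Real.norm_eq_abs] at h2
  have h3 : |u + h - u| = h := by
    rw [add_sub_cancel_left, abs_of_pos hh]
  rw [h3] at h2
  calc _ ≤ Λ * h * h := h2
    _ = Λ * h ^ 2 := by ring

theorem riemann_pr {g : ℝ → ℝ} {Λ a b h t : ℝ} (hΛ : 0 ≤ Λ) (hab : a ≤ b) (hh : 0 < h)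
    (hg : ∀ x y, |g x - g y| ≤ Λ * |x - y|) (hs : ∀ x, x ∉ Set.Icc a b → g x = 0)
    (S : Finset ℤ) (hS : ∀ k : ℤ, g (h * k + t) ≠ 0 → k ∈ S) :
    |h * ∑ k ∈ S, g (h * k + t) - ∫ x, g x| ≤ Λ * h * (b - a + 2 * h) := by
  have hc := rie_cont hΛ hg
  obtain ⟨k₀, hk₀⟩ : ∃ k₀ : ℤ, k₀ = ⌊(a - t) / h⌋ := ⟨_, rfl⟩
  obtain ⟨k₁, hk₁⟩ : ∃ k₁ : ℤ, k₁ = ⌊(b - t) / h⌋ := ⟨_, rfl⟩
  have ha1 : h * k₀ + t ≤ a := by
    have h1 : (k₀ : ℝ) ≤ (a - t) / h := by rw [hk₀]; exact Int.floor_le _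
    rw [le_div_iff₀ hh] at h1
    linarith
  have ha2 : a < h * (k₀ + 1) + t := by
    have h1 : (a - t) / h < k₀ + 1 := by rw [hk₀]; exact Int.lt_floor_add_one _
    rw [div_lt_iff₀ hh] at h1
    linarith
  have hb1 : h * k₁ + t ≤ b := by
    have h1 : (k₁ : ℝ) ≤ (b - t) / h := by rw [hk₁]; exact Int.floor_le _
    rw [le_div_iff₀ hh] at h1
    linarith
  have hb2 : b < h * (k₁ + 1) + t := by
    have h1 : (b - t) / h < k₁ + 1 := by rw [hk₁]; exact Int.lt_floor_add_one _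
    rw [div_lt_iff₀ hh] at h1
    linarith
  have hkk : k₀ ≤ k₁ := by
    rw [hk₀, hk₁]
    apply Int.floor_le_floor
    apply div_le_div_of_nonneg_right _ hh.le
    linarith
  obtain ⟨n, hn⟩ : ∃ n : ℕ, (n : ℤ) = k₁ - k₀ + 1 :=
    ⟨(k₁ - k₀ + 1).toNat, Int.toNat_of_nonneg (by omega)⟩
  have hnr : (n : ℝ) = (k₁ : ℝ) - k₀ + 1 := by
    have := congrArg (fun z : ℤ => (z : ℝ)) hn
    push_cast at this
    exact this
  -- the sum over `S`
  have hsum : ∑ k ∈ S, g (h * k + t) = ∑ i ∈ Finset.range n, g (h * ((k₀ + i : ℤ) : ℝ) + t) := by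
    classical
    have e1 : ∑ i ∈ Finset.range n, g (h * ((k₀ + i : ℤ) : ℝ) + t) =
        ∑ k ∈ (Finset.range n).image (fun i : ℕ => k₀ + (i : ℤ)), g (h * (k : ℝ) + t) := by
      rw [Finset.sum_image]
      intro i _ j _ hij
      simp only [add_right_inj, Nat.cast_inj] at hij
      exact hij
    rw [e1]
    have hmem : ∀ k : ℤ, g (h * k + t) ≠ 0 →
        k ∈ (Finset.range n).image (fun i : ℕ => k₀ + (i : ℤ)) := by
      intro k hk
      have hk2 : h * (k : ℝ) + t ∈ Set.Icc a b := by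
        by_contra hcon
        exact hk (hs _ hcon)
      have h3 : k₀ ≤ k := by
        rw [hk₀]
        have : ((⌊(a - t) / h⌋ : ℤ) : ℝ) ≤ k := by
          refine le_trans (Int.floor_le _) ?_
          rw [div_le_iff₀ hh]
          linarith [hk2.1]
        exact_mod_cast this
      have h4 : k ≤ k₁ := by
        rw [hk₁, Int.le_floor, le_div_iff₀ hh]
        linarith [hk2.2]
      rw [Finset.mem_image]
      refine ⟨(k - k₀).toNat, ?_, ?_⟩
      · rw [Finset.mem_range]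
        omega
      · omega
    have e2 : ∑ k ∈ S, g (h * k + t) = ∑ k ∈ S ∪ (Finset.range n).image
        (fun i : ℕ => k₀ + (i : ℤ)), g (h * (k : ℝ) + t) := by
      apply Finset.sum_subset Finset.subset_union_left
      intro k _ hk
      by_contra hcon
      exact hk (hS k hcon)
    have e3 : ∑ k ∈ (Finset.range n).image (fun i : ℕ => k₀ + (i : ℤ)), g (h * (k : ℝ) + t) =
        ∑ k ∈ S ∪ (Finset.range n).image
        (fun i : ℕ => k₀ + (i : ℤ)), g (h * (k : ℝ) + t) := by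
      apply Finset.sum_subset Finset.subset_union_right
      intro k _ hk
      by_contra hcon
      exact hk (hmem k hcon)
    rw [e2, e3]
  -- the integral
  have hint : ∫ x, g x = ∑ i ∈ Finset.range n,
      ∫ x in (h * ((k₀ + i : ℤ) : ℝ) + t)..(h * ((k₀ + i : ℤ) : ℝ) + t + h), g x := by
    have hle : h * (k₀ : ℝ) + t ≤ h * ((k₁ : ℝ) + 1) + t := by linarith
    have e1 : ∫ x, g x = ∫ x in (h * (k₀ : ℝ) + t)..(h * ((k₁ : ℝ) + 1) + t), g x := by
      rw [intervalIntegral.integral_of_le hle, ← integral_Icc_eq_integral_Ioc,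
        setIntegral_eq_integral_of_forall_compl_eq_zero]
      intro x hx
      apply hs
      intro hx2
      exact hx ⟨by linarith [hx2.1], by linarith [hx2.2]⟩
    rw [e1]
    have hII : ∀ k < n, IntervalIntegrable g volume
        ((fun i : ℕ => h * ((k₀ + i : ℤ) : ℝ) + t) k)
        ((fun i : ℕ => h * ((k₀ + i : ℤ) : ℝ) + t) (k + 1)) :=
      fun k _ => hc.intervalIntegrable _ _
    have e2 := intervalIntegral.sum_integral_adjacent_intervals hII
    have e3 : h * ((k₀ + (n : ℕ) : ℤ) : ℝ) + t = h * ((k₁ : ℝ) + 1) + t := by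
      push_cast
      rw [hnr]
      ring
    have e4 : h * ((k₀ + ((0 : ℕ) : ℤ) : ℤ) : ℝ) + t = h * (k₀ : ℝ) + t := by
      simp
    simp only [e3, e4] at e2
    rw [← e2]
    apply Finset.sum_congr rfl
    intro i _
    congr 1
    push_cast
    ring
  rw [hsum, hint, Finset.mul_sum, ← Finset.sum_sub_distrib]
  refine le_trans (Finset.abs_sum_le_sum_abs _ _) ?_
  have hcell : ∀ i ∈ Finset.range n, |h * g (h * ((k₀ + i : ℤ) : ℝ) + t) -
      ∫ x in (h * ((k₀ + i : ℤ) : ℝ) + t)..(h * ((k₀ + i : ℤ) : ℝ) + t + h), g x| ≤ Λ * h ^ 2 :=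
    fun i _ => rie_cell hΛ hh hg _
  refine le_trans (Finset.sum_le_sum hcell) ?_
  rw [Finset.sum_const, Finset.card_range, nsmul_eq_mul]
  have h5 : (n : ℝ) * h ≤ b - a + 2 * h := by
    rw [hnr]
    nlinarith
  calc (n : ℝ) * (Λ * h ^ 2) = (Λ * h) * (n * h) := by ring
    _ ≤ (Λ * h) * (b - a + 2 * h) := by
        apply mul_le_mul_of_nonneg_left h5
        positivity

theorem riemann_mod_pr {g : ℝ → ℝ} {Λ a b h t : ℝ} (hΛ : 0 ≤ Λ) (hab : a ≤ b) (hh : 0 < h)
    (hg : ∀ x y, |g x - g y| ≤ Λ * |x - y|) (hs : ∀ x, x ∉ Set.Icc a b → g x = 0)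
    (q : ℕ) (hq : 0 < q) (k₀ : ℤ) (S : Finset ℤ)
    (hS : ∀ k : ℤ, g (h * k + t) ≠ 0 → k ∈ S) :
    |h * q * ∑ k ∈ S.filter (fun k => (q : ℤ) ∣ k - k₀), g (h * k + t) - ∫ x, g x| ≤
      Λ * (h * q) * (b - a + 2 * (h * q)) := by
  have hq0 : (0 : ℝ) < q := by exact_mod_cast hq
  have hqz : (q : ℤ) ≠ 0 := by exact_mod_cast hq.ne'
  have key := riemann_pr (t := h * k₀ + t) hΛ hab (mul_pos hh hq0) hg hs
    ((S.filter (fun k => (q : ℤ) ∣ k - k₀)).image (fun k => (k - k₀) / q)) (by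
      intro j hj
      rw [Finset.mem_image]
      refine ⟨k₀ + q * j, ?_, ?_⟩
      · rw [Finset.mem_filter]
        refine ⟨hS _ ?_, ?_⟩
        · have : h * (((k₀ + q * j : ℤ)) : ℝ) + t = h * q * j + (h * k₀ + t) := by
            push_cast
            ring
          rw [this]
          exact hj
        · exact ⟨j, by ring⟩
      · rw [add_sub_cancel_left]
        exact Int.mul_ediv_cancel_left _ hqz)
  rw [Finset.sum_image] at key
  · have e : ∑ k ∈ S.filter (fun k => (q : ℤ) ∣ k - k₀), g (h * k + t) =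
        ∑ k ∈ S.filter (fun k => (q : ℤ) ∣ k - k₀),
          g (h * q * (((k - k₀) / q : ℤ) : ℝ) + (h * k₀ + t)) := by
      apply Finset.sum_congr rfl
      intro k hk
      rw [Finset.mem_filter] at hk
      obtain ⟨j, hj⟩ := hk.2
      have h1 : (k - k₀) / (q : ℤ) = j := by
        rw [hj]
        exact Int.mul_ediv_cancel_left _ hqz
      have h2 : (k : ℝ) = k₀ + q * j := by
        have : k = k₀ + q * j := by linarith
        rw [this]
        push_cast
        ring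
      rw [h1, h2]
      congr 1
      ring
    rw [e]
    exact key
  · intro x hx y hy hxy
    rw [Finset.mem_coe, Finset.mem_filter] at hx hy
    simp only at hxy
    obtain ⟨i, hi⟩ := hx.2
    obtain ⟨j, hj⟩ := hy.2
    rw [hi, hj, Int.mul_ediv_cancel_left _ hqz, Int.mul_ediv_cancel_left _ hqz] at hxy
    rw [hxy] at hi
    linarith

theorem riemann : type_of% @riemann_pr := @riemann_pr
theorem riemann_mod : type_of% @riemann_mod_pr := @riemann_mod_pr

end Pool.Agent.JOM
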