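import Pool.Agent.Lib_helper68.JOF.DefsF
import Pool.Agent.Lib_helper68.JOF.RIE

namespace Pool.Agent.JOM

open MeasureTheory Filter Topology UpperHalfPlane
open scoped MatrixGroups Modular ArithmeticFunction.Moebius

/-- block CSU: `|ff|` -/
theorem abs_ff_le_pr (n c : ℕ) : |ff n c| ≤ c.divisors.card := by
  classical
  unfold ff
  calc _ ≤ ∑ e ∈ c.divisors.filter (fun e => e.Coprime n), |((μ e : ℤ) : ℝ) / e| :=
        Finset.abs_sum_le_sum_abs _ _
    _ ≤ ∑ e ∈ c.divisors.filter (fun e => e.Coprime n), 1 := by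
        apply Finset.sum_le_sum
        intro e he
        have he0 : 0 < e := Nat.pos_of_mem_divisors (Finset.mem_filter.1 he).1
        have he1 : (1 : ℝ) ≤ e := by exact_mod_cast he0
        have h1 : |((μ e : ℤ) : ℝ)| ≤ 1 := by
          have := ArithmeticFunction.abs_moebius_le_one (n := e)
          exact_mod_cast this
        rw [abs_div, abs_of_pos (by linarith : (0 : ℝ) < e), div_le_one (by linarith)]
        linarith
    _ = ((c.divisors.filter (fun e => e.Coprime n)).card : ℝ) := by simp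
    _ ≤ _ := by
        have : (c.divisors.filter (fun e => e.Coprime n)).card ≤ c.divisors.card :=
          Finset.card_filter_le _ _
        exact_mod_cast this

theorem csu_ff_prod (n : ℕ) {c : ℕ} (hc : c ≠ 0) :
    ff n c = ∏ p ∈ c.primeFactors.filter (fun p => ¬ p ∣ n), (1 - (p : ℝ)⁻¹) := by
  classical
  set P := c.primeFactors.filter (fun p => ¬ p ∣ n) with hP
  set r := ∏ p ∈ P, p with hr
  have hPp : ∀ p ∈ P, p.Prime := fun p hp => Nat.prime_of_mem_primeFactors (Finset.mem_filter.1 hp).1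
  have hrP : r.primeFactors = P := Nat.primeFactors_prod hPp
  have hr0 : r ≠ 0 := Finset.prod_ne_zero_iff.2 (fun p hp => (hPp p hp).ne_zero)
  have hsq : Squarefree r := by
    refine Finset.squarefree_prod_of_pairwise_isCoprime (fun p hp q hq hpq => ?_)
      fun p hp => (hPp p hp).squarefree
    simp only [← Nat.coprime_iff_isRelPrime]
    exact (Nat.coprime_primes (hPp p hp) (hPp q hq)).mpr hpq
  let f : ArithmeticFunction ℝ := ⟨fun e => (e : ℝ)⁻¹, by simp⟩
  have hf : f.IsMultiplicative := by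
    refine ⟨by simp [f], ?_⟩
    intro m n _
    simp [f, mul_comm]
  have h1 := ArithmeticFunction.IsMultiplicative.prodPrimeFactors_one_sub_of_squarefree f hf hsq
  rw [hrP] at h1
  have h2 : ∏ p ∈ P, (1 - (p : ℝ)⁻¹) = ∏ p ∈ P, (1 - f p) := rfl
  rw [h2, h1, ff]
  symm
  have hsub : r.divisors ⊆ c.divisors.filter (fun e => e.Coprime n) := by
    intro e he
    have her := Nat.dvd_of_mem_divisors he
    have hrc : r ∣ c := by
      have h3 : r ∣ ∏ p ∈ c.primeFactors, p :=
        Finset.prod_dvd_prod_of_subset _ _ _ (Finset.filter_subset _ _)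
      exact h3.trans (Nat.prod_primeFactors_dvd c)
    rw [Finset.mem_filter, Nat.mem_divisors]
    refine ⟨⟨her.trans hrc, hc⟩, ?_⟩
    have h4 : r.Coprime n := by
      rw [hr]
      apply Nat.Coprime.prod_left
      intro p hp
      exact (Nat.Prime.coprime_iff_not_dvd (hPp p hp)).2 (Finset.mem_filter.1 hp).2
    exact h4.coprime_dvd_left her
  apply (Finset.sum_subset hsub ?_).trans ?_
  · intro e he hne
    have he1 := Finset.mem_filter.1 he
    have hec := Nat.dvd_of_mem_divisors he1.1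
    have : ¬ Squarefree e := by
      intro hs
      apply hne
      rw [Nat.mem_divisors]
      refine ⟨?_, hr0⟩
      rw [← Nat.prod_primeFactors_of_squarefree hs, hr]
      apply Finset.prod_dvd_prod_of_subset
      intro p hp
      have hpp := Nat.prime_of_mem_primeFactors hp
      have hpe := Nat.dvd_of_mem_primeFactors hp
      rw [hP, Finset.mem_filter]
      refine ⟨Nat.mem_primeFactors.2 ⟨hpp, hpe.trans hec, hc⟩, ?_⟩
      exact (Nat.Prime.coprime_iff_not_dvd hpp).1 (he1.2.coprime_dvd_left hpe)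
    rw [ArithmeticFunction.moebius_eq_zero_of_not_squarefree this]
    simp
  · apply Finset.sum_congr rfl
    intro e _
    simp [f, div_eq_mul_inv]

/-- block CSU -/
theorem ff_nonneg_pr (n c : ℕ) : 0 ≤ ff n c := by
  classical
  rcases eq_or_ne c 0 with rfl | hc
  · simp [ff]
  rw [csu_ff_prod n hc]
  apply Finset.prod_nonneg
  intro p hp
  have hpp := Nat.prime_of_mem_primeFactors (Finset.mem_filter.1 hp).1
  have : (1 : ℝ) ≤ p := by exact_mod_cast hpp.one_lt.le
  have := inv_le_one_of_one_le₀ this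
  linarith

/-- block CSU -/
theorem ff_le_one_pr (n c : ℕ) : ff n c ≤ 1 := by
  classical
  rcases eq_or_ne c 0 with rfl | hc
  · simp [ff]
  rw [csu_ff_prod n hc]
  apply Finset.prod_le_one
  · intro p hp
    have hpp := Nat.prime_of_mem_primeFactors (Finset.mem_filter.1 hp).1
    have : (1 : ℝ) ≤ p := by exact_mod_cast hpp.one_lt.le
    have := inv_le_one_of_one_le₀ this
    linarith
  · intro p _
    have : (0 : ℝ) ≤ (p : ℝ)⁻¹ := by positivity
    linarith

/-- tails of `∑ 1/e²` -/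
theorem csu_tail (m N : ℕ) (hm : 0 < m) :
    ∑ i ∈ Finset.range N, 1 / (((i + m : ℕ) : ℝ) ^ 2) ≤ (2 : ℝ) / m := by
  have hm' : (0 : ℝ) < m := by exact_mod_cast hm
  have h : ∑ i ∈ Finset.range N, 1 / (((i + m : ℕ) : ℝ) ^ 2) ≤ 2 / m - 2 / ((m : ℝ) + N) := by
    induction N with
    | zero => simp
    | succ k ih =>
      rw [Finset.sum_range_succ]
      have hk : (0 : ℝ) ≤ k := by positivity
      have h1 : 1 / (((k + m : ℕ) : ℝ) ^ 2) ≤ 2 / ((m : ℝ) + k) - 2 / ((m : ℝ) + (k + 1 : ℕ)) := by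
        push_cast
        have h2 : 2 / ((m : ℝ) + k) - 2 / ((m : ℝ) + (k + 1)) =
            2 / (((m : ℝ) + k) * ((m : ℝ) + (k + 1))) := by
          field_simp; ring
        rw [h2, div_le_div_iff₀ (by positivity) (by positivity)]
        have : (1 : ℝ) ≤ m := by exact_mod_cast hm
        nlinarith
      linarith
  have : (0 : ℝ) ≤ 2 / ((m : ℝ) + N) := by positivity
  linarith

/-- `∑ 1/e ≤ 2 √E` -/
theorem csu_harm (E : ℕ) : ∑ e ∈ Finset.Icc 1 E, (1 : ℝ) / e ≤ 2 * √E := by
  induction E with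
  | zero => simp
  | succ k ih =>
    rw [Finset.sum_Icc_succ_top (by omega)]
    have h1 : (1 : ℝ) / ((k + 1 : ℕ) : ℝ) ≤ 2 * √((k + 1 : ℕ) : ℝ) - 2 * √k := by
      push_cast
      have hk : (0 : ℝ) ≤ k := by positivity
      set a := √((k : ℝ) + 1)
      set b := √(k : ℝ)
      have ha : a ^ 2 = k + 1 := Real.sq_sqrt (by positivity)
      have hb : b ^ 2 = k := Real.sq_sqrt hk
      have ha1 : 1 ≤ a := by
        rw [Real.one_le_sqrt]; linarith
      have hb0 : 0 ≤ b := Real.sqrt_nonneg _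
      have hab : b ≤ a := Real.sqrt_le_sqrt (by linarith)
      rw [← ha, div_le_iff₀ (by positivity)]
      have h2 : (a - b) * (a + b) = 1 := by nlinarith
      have h3 : 1 ≤ (a - b) * (2 * a) := by nlinarith
      nlinarith
    linarith

/-- the test function `t β(t² θ)` -/
noncomputable def csu_g (β : ℝ → ℝ) (θ T : ℝ) (t : ℝ) : ℝ :=
  max 0 (min t T) * β ((max 0 (min t T)) ^ 2 * θ)

theorem csu_beta_le {β : ℝ → ℝ} {Λ κ : ℝ} (hβ : Tst β Λ κ) {t : ℝ} (ht : 0 ≤ t) :
    |β t| ≤ Λ * κ := by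
  obtain ⟨hΛ, hκ, hlip, hz⟩ := hβ
  rcases le_total κ t with h | h
  · rw [hz t h, abs_zero]; positivity
  · have := hlip t κ
    rw [hz κ le_rfl, sub_zero, abs_of_nonpos (by linarith : t - κ ≤ 0)] at this
    calc _ ≤ _ := this
      _ ≤ _ := by gcongr; linarith

theorem csu_g_lip {β : ℝ → ℝ} {Λ κ : ℝ} (hβ : Tst β Λ κ) {θ T : ℝ} (hθ : 0 < θ) (hT : 0 ≤ T)
    (hTθ : T ^ 2 * θ = κ) (x y : ℝ) :
    |csu_g β θ T x - csu_g β θ T y| ≤ 3 * Λ * κ * |x - y| := by
  obtain ⟨hΛ, hκ, hlip, hz⟩ := hβ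
  have h0 : ∀ s t : ℝ, 0 ≤ s → s ≤ T → 0 ≤ t → t ≤ T →
      |s * β (s ^ 2 * θ) - t * β (t ^ 2 * θ)| ≤ 3 * Λ * κ * |s - t| := by
    intro s t hs hsT ht htT
    have h1 : s * β (s ^ 2 * θ) - t * β (t ^ 2 * θ) =
        (s - t) * β (s ^ 2 * θ) + t * (β (s ^ 2 * θ) - β (t ^ 2 * θ)) := by ring
    rw [h1]
    have h2 : |β (s ^ 2 * θ)| ≤ Λ * κ := csu_beta_le ⟨hΛ, hκ, hlip, hz⟩ (by positivity)
    have h3 : |β (s ^ 2 * θ) - β (t ^ 2 * θ)| ≤ Λ * (2 * T * θ * |s - t|) := by
      calc _ ≤ Λ * |s ^ 2 * θ - t ^ 2 * θ| := hlip _ _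
        _ = Λ * ((s + t) * θ * |s - t|) := by
            congr 1
            have : s ^ 2 * θ - t ^ 2 * θ = ((s + t) * θ) * (s - t) := by ring
            rw [this, abs_mul, abs_of_nonneg (by positivity)]
        _ ≤ Λ * (2 * T * θ * |s - t|) := by gcongr; linarith
    calc _ ≤ |(s - t) * β (s ^ 2 * θ)| + |t * (β (s ^ 2 * θ) - β (t ^ 2 * θ))| := abs_add_le _ _
      _ = |s - t| * |β (s ^ 2 * θ)| + t * |β (s ^ 2 * θ) - β (t ^ 2 * θ)| := by
          rw [abs_mul, abs_mul, abs_of_nonneg ht]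
      _ ≤ |s - t| * (Λ * κ) + T * (Λ * (2 * T * θ * |s - t|)) := by gcongr
      _ = |s - t| * (Λ * κ) + 2 * Λ * (T ^ 2 * θ) * |s - t| := by ring
      _ = 3 * Λ * κ * |s - t| := by rw [hTθ]; ring
  unfold csu_g
  set s := max 0 (min x T) with hs
  set t := max 0 (min y T) with ht
  have h1 := h0 s t (le_max_left _ _) (max_le hT (min_le_right _ _)) (le_max_left _ _)
    (max_le hT (min_le_right _ _))
  have h2 : |s - t| ≤ |x - y| := by
    calc |s - t| ≤ |min x T - min y T| := by
          rw [hs, ht, max_comm 0, max_comm 0]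
          exact abs_max_sub_max_le_abs _ _ _
      _ ≤ |x - y| := by
          have := abs_min_sub_min_le_max x T y T
          simpa using this
  calc _ ≤ _ := h1
    _ ≤ _ := by gcongr

/-- the integral of the test function -/
theorem csu_g_int {β : ℝ → ℝ} {Λ κ : ℝ} (hβ : Tst β Λ κ) {θ T : ℝ} (hθ : 0 < θ) (hT : 0 ≤ T)
    (hTθ : T ^ 2 * θ = κ) :
    ∫ x, csu_g β θ T x = 1 / (2 * θ) * ∫ t in (0 : ℝ)..κ, β t := by
  have hcβ : Continuous β := by
    obtain ⟨hΛ, hκ, hlip, hz⟩ := hβ
    have : LipschitzWith Λ.toNNReal β := by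
      apply LipschitzWith.of_dist_le_mul
      intro q q'
      rw [Real.dist_eq, Real.dist_eq, Real.coe_toNNReal _ hΛ]
      exact hlip q q'
    exact this.continuous
  have h1 : ∫ x, csu_g β θ T x = ∫ x in (0 : ℝ)..T, csu_g β θ T x := by
    rw [intervalIntegral.integral_of_le hT]
    symm
    apply setIntegral_eq_integral_of_forall_compl_eq_zero
    intro q hq
    rw [Set.mem_Ioc, not_and_or, not_lt, not_le] at hq
    unfold csu_g
    rcases hq with hq | hq
    · have : max 0 (min q T) = 0 := max_eq_left (min_le_of_left_le hq)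
      rw [this]; simp
    · have : max 0 (min q T) = T := by
        rw [min_eq_right hq.le, max_eq_right hT]
      rw [this, hTθ, hβ.2.2.2 κ le_rfl, mul_zero]
  have h2 : ∫ x in (0 : ℝ)..T, csu_g β θ T x = ∫ x in (0 : ℝ)..T, x * β (x ^ 2 * θ) := by
    apply intervalIntegral.integral_congr
    intro x hx
    rw [Set.uIcc_of_le hT] at hx
    have : max 0 (min x T) = x := by rw [min_eq_left hx.2, max_eq_right hx.1]
    simp only [csu_g, this]
  have h3 : ∫ x in (0 : ℝ)..T, β (x ^ 2 * θ) * (2 * x * θ) = ∫ t in (0 : ℝ)..κ, β t := by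
    have := intervalIntegral.integral_comp_mul_deriv (a := 0) (b := T) (f := fun x => x ^ 2 * θ)
      (f' := fun x => 2 * x * θ) (g := β) (by
        intro x _
        have := ((hasDerivAt_id x).pow 2).mul_const θ
        simpa using this) (by fun_prop) hcβ
    simp only [Function.comp_def] at this
    rw [this, hTθ]
    simp
  rw [h1, h2, ← h3, ← intervalIntegral.integral_const_mul]
  apply intervalIntegral.integral_congr
  intro x _
  simp only
  field_simp

theorem csu_pow {T : ℝ} {E : ℕ} (hT0 : 0 < T) (hET : (E : ℝ) ≤ T) (hTE : T < E + 1) :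
    T * (2 * √E) ≤ 2 * (T * √T) ∧ (E : ℝ) ≤ T * √T ∧ T ^ 2 / ((E : ℝ) + 1) ≤ T * √T := by
  have hsq : √T * √T = T := Real.mul_self_sqrt hT0.le
  have hsqpos : 0 < √T := Real.sqrt_pos.2 hT0
  have hE0 : (0 : ℝ) ≤ E := by positivity
  refine ⟨?_, ?_, ?_⟩
  · have : √(E : ℝ) ≤ √T := Real.sqrt_le_sqrt hET
    calc T * (2 * √E) ≤ T * (2 * √T) := by gcongr
      _ = _ := by ring
  · rcases Nat.eq_zero_or_pos E with h | h
    · rw [h]; push_cast; positivity
    · have h1 : (1 : ℝ) ≤ T := by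
        have : (1 : ℝ) ≤ E := by exact_mod_cast h
        linarith
      have h2 : 1 ≤ √T := by rw [Real.one_le_sqrt]; exact h1
      calc (E : ℝ) ≤ T := hET
        _ = T * 1 := by ring
        _ ≤ T * √T := by gcongr
  · rw [div_le_iff₀ (by positivity)]
    rcases le_total T 1 with h | h
    · have h2 : √T ≤ 1 := by rw [Real.sqrt_le_left (by norm_num)]; simpa using h
      have h3 : T ≤ √T := by
        calc T = √T * √T := hsq.symm
          _ ≤ √T * 1 := by gcongr
          _ = √T := by ring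
      calc T ^ 2 = T * T * 1 := by ring
        _ ≤ T * √T * (E + 1) := by gcongr; linarith
    · have h2 : 1 ≤ √T := by rw [Real.one_le_sqrt]; exact h
      calc T ^ 2 = T * 1 * T := by ring
        _ ≤ T * √T * (E + 1) := by gcongr

open Classical in
/-- block CSU: the sum over the rows -/
theorem c_sum_pr {β : ℝ → ℝ} {Λ κ : ℝ} (hβ : Tst β Λ κ) : ∃ C₀ : ℝ, 0 < C₀ ∧
    ∀ (n : ℕ) (C : ℤ) (θ : ℝ) (M : ℕ), 0 < n → 0 < θ → κ ≤ (M : ℝ) ^ 2 * θ →
      |∑ c ∈ (Finset.Icc 1 M).filter (fun c : ℕ => (n : ℤ) ∣ c - C),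
          (c : ℝ) * ff n c * β ((c : ℝ) ^ 2 * θ) -
        kk n / (2 * n * θ) * ∫ t in (0 : ℝ)..κ, β t| ≤ C₀ * n * θ ^ (-(3 / 4) : ℝ) := by
  have hΛ := hβ.1
  have hκ := hβ.2.1
  set Lg : ℝ := 3 * Λ * κ with hLg
  have hLg0 : 0 ≤ Lg := by positivity
  set J : ℝ := |∫ t in (0 : ℝ)..κ, β t| with hJ
  have hJ0 : 0 ≤ J := abs_nonneg _
  refine ⟨(4 * Lg + J + 1) * κ ^ (3 / 4 : ℝ), by positivity, ?_⟩
  intro n C θ M hn hθ hM
  have hn1 : (1 : ℝ) ≤ n := by exact_mod_cast hn
  have hn0 : (0 : ℝ) < n := by linarith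
  have hκ0 : (0 : ℝ) < κ := by linarith
  set T : ℝ := √(κ / θ) with hT
  have hT0 : 0 < T := Real.sqrt_pos.2 (by positivity)
  have hTsq : T ^ 2 = κ / θ := Real.sq_sqrt (by positivity)
  have hTθ : T ^ 2 * θ = κ := by rw [hTsq]; field_simp
  have hTM : T ≤ M := by
    rw [hT, Real.sqrt_le_left (by positivity), div_le_iff₀ hθ]
    exact hM
  set g := csu_g β θ T with hg
  have hglip := csu_g_lip hβ hθ hT0.le hTθ
  rw [← hg] at hglip
  set I := ∫ x, g x with hI
  have hIeq : I = 1 / (2 * θ) * ∫ t in (0 : ℝ)..κ, β t := csu_g_int hβ hθ hT0.le hTθ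
  have hIabs : |I| ≤ J / (2 * θ) := by
    rw [hIeq, abs_mul, abs_of_pos (by positivity)]
    apply le_of_eq; ring
  -- values of `g`
  have hgval : ∀ c : ℕ, g c = (c : ℝ) * β ((c : ℝ) ^ 2 * θ) := by
    intro c
    rw [hg]
    unfold csu_g
    have hc0 : (0 : ℝ) ≤ c := by positivity
    rcases le_total (c : ℝ) T with h | h
    · rw [min_eq_left h, max_eq_right hc0]
    · rw [min_eq_right h, max_eq_right hT0.le, hTθ, hβ.2.2.2 κ le_rfl, mul_zero]
      have : κ ≤ (c : ℝ) ^ 2 * θ := by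
        rw [← hTθ]
        gcongr
      rw [hβ.2.2.2 _ this, mul_zero]
  have hgzero : ∀ x, x ∉ Set.Icc 0 T → g x = 0 := by
    intro q hq
    rw [Set.mem_Icc, not_and_or, not_le, not_le] at hq
    rw [hg]
    unfold csu_g
    rcases hq with hq | hq
    · have : max 0 (min q T) = 0 := max_eq_left (min_le_of_left_le hq.le)
      rw [this]; simp
    · have : max 0 (min q T) = T := by
        rw [min_eq_right hq.le, max_eq_right hT0.le]
      rw [this, hTθ, hβ.2.2.2 κ le_rfl, mul_zero]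
  have hgT : g T = 0 := by
    rw [hg]; unfold csu_g
    rw [min_self, max_eq_right hT0.le, hTθ, hβ.2.2.2 κ le_rfl, mul_zero]
  have hg0 : g 0 = 0 := by
    rw [hg]; unfold csu_g
    rw [min_eq_left hT0.le, max_self]; simp
  -- classes
  have hk0 : ∀ e : ℕ, e.Coprime n → ∃ k₀ : ℤ, ∀ d : ℤ, (((e * n : ℕ) : ℤ) ∣ d - k₀ ↔
      (e : ℤ) ∣ d ∧ (n : ℤ) ∣ d - C) := by
    intro e hco
    have hco' : IsCoprime (e : ℤ) (n : ℤ) := Nat.isCoprime_iff_coprime.2 hco
    obtain ⟨a, b, hab⟩ := id hco'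
    refine ⟨a * e * C, ?_⟩
    intro d
    have hd1 : (e : ℤ) ∣ d - a * e * C ↔ (e : ℤ) ∣ d := by
      constructor
      · intro h
        have := dvd_add h (Dvd.intro (a * C) (by ring) : (e : ℤ) ∣ a * e * C)
        simpa using this
      · intro h
        exact dvd_sub h (Dvd.intro (a * C) (by ring))
    have hd2 : (n : ℤ) ∣ d - a * e * C ↔ (n : ℤ) ∣ d - C := by
      have : d - a * e * C = (d - C) + n * (b * C) := by
        have : a * e = 1 - b * n := by linarith
        rw [this]; ring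
      rw [this]
      constructor
      · intro h
        have := dvd_sub h (Dvd.intro (b * C) rfl : (n : ℤ) ∣ n * (b * C))
        simpa using this
      · intro h
        exact dvd_add h (Dvd.intro (b * C) rfl)
    rw [← hd1, ← hd2]
    push_cast
    constructor
    · intro h
      exact ⟨(Dvd.intro _ rfl).trans h, (Dvd.intro_left _ rfl).trans h⟩
    · rintro ⟨h1, h2⟩
      exact hco'.mul_dvd h1 h2
  choose! k₀ hk₀ using hk0
  set S₀ := (Finset.Icc 1 M).filter (fun c : ℕ => (n : ℤ) ∣ c - C) with hS₀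
  -- inner sums
  set U : ℕ → ℝ := fun e => ∑ c ∈ S₀.filter (fun c => e ∣ c), g c with hU
  have hUest : ∀ e : ℕ, 0 < e → e.Coprime n → |U e - 1 / (e * n) * I| ≤ Lg * (T + 2 * (e * n)) := by
    intro e he hco
    have he' : (0 : ℝ) < e := by exact_mod_cast he
    have h1 := riemann_mod (g := g) (Λ := Lg) (a := 0) (b := T) (h := 1) (t := 0) hLg0
      hT0.le one_pos hglip hgzero (e * n) (Nat.mul_pos he hn) (k₀ e)
      ((Finset.Icc 1 M).map ⟨(fun c : ℕ => (c : ℤ)), Nat.cast_injective⟩) (by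
        intro k hk
        simp only [one_mul, add_zero] at hk
        have h2 : (k : ℝ) ∈ Set.Icc 0 T := by
          by_contra h
          exact hk (hgzero _ h)
        have h3 : 0 ≤ k := by exact_mod_cast h2.1
        obtain ⟨c, rfl⟩ := Int.eq_ofNat_of_zero_le h3
        rw [Finset.mem_map]
        refine ⟨c, ?_, rfl⟩
        rw [Finset.mem_Icc]
        constructor
        · by_contra h
          have h4 : c = 0 := by omega
          subst h4
          apply hk
          simpa using hg0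
        · have : ((c : ℕ) : ℝ) ≤ M := by
            have := h2.2
            simp only [Int.cast_natCast] at this
            linarith
          exact_mod_cast this)
    rw [Finset.filter_map, Finset.sum_map] at h1
    simp only [one_mul, add_zero, Function.Embedding.coeFn_mk, sub_zero, Int.cast_natCast] at h1
    have h2 : (Finset.Icc 1 M).filter ((fun k : ℤ => ((e * n : ℕ) : ℤ) ∣ k - k₀ e) ∘
        (fun c : ℕ => (c : ℤ))) = S₀.filter (fun c => e ∣ c) := by
      ext c
      rw [Finset.mem_filter, Finset.mem_filter, hS₀, Finset.mem_filter]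
      simp only [Function.comp_apply]
      rw [hk₀ e hco, Int.natCast_dvd_natCast]
      tauto
    rw [h2] at h1
    have h3 : U e - 1 / (e * n) * I = (((e * n : ℕ) : ℝ) * U e - I) / ((e * n : ℕ) : ℝ) := by
      push_cast
      field_simp
    have h4 : (0 : ℝ) < ((e * n : ℕ) : ℝ) := by positivity
    rw [h3, abs_div, abs_of_pos h4, div_le_iff₀ h4]
    calc _ ≤ _ := h1
      _ = _ := by push_cast; ring
  -- swapping
  have hswap : ∑ c ∈ S₀, (c : ℝ) * ff n c * β ((c : ℝ) ^ 2 * θ) =
      ∑ e ∈ (Finset.Icc 1 M).filter (fun e => e.Coprime n), (μ e : ℝ) / e * U e := by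
    have h1 : ∀ c ∈ S₀, (c : ℝ) * ff n c * β ((c : ℝ) ^ 2 * θ) =
        ∑ e ∈ (Finset.Icc 1 M).filter (fun e => e.Coprime n),
          if e ∣ c then (μ e : ℝ) / e * g c else 0 := by
      intro c hc
      have hc1 := Finset.mem_Icc.1 (Finset.mem_filter.1 hc).1
      rw [← Finset.sum_filter, ← Finset.sum_mul, hgval]
      have h2 : ((Finset.Icc 1 M).filter (fun e => e.Coprime n)).filter (fun e => e ∣ c) =
          c.divisors.filter (fun e => e.Coprime n) := by
        ext e
        simp only [Finset.mem_filter, Finset.mem_Icc, Nat.mem_divisors]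
        constructor
        · rintro ⟨⟨-, h3⟩, h4⟩
          exact ⟨⟨h4, by omega⟩, h3⟩
        · rintro ⟨⟨h3, -⟩, h4⟩
          exact ⟨⟨⟨Nat.pos_of_dvd_of_pos h3 (by omega), (Nat.le_of_dvd (by omega) h3).trans hc1.2⟩,
            h4⟩, h3⟩
      rw [h2, ff]
      ring
    rw [Finset.sum_congr rfl h1, Finset.sum_comm]
    apply Finset.sum_congr rfl
    intro e _
    rw [hU]
    simp only
    rw [Finset.mul_sum]
    symm
    rw [Finset.sum_filter]
  -- the cut
  set E := ⌊T⌋₊ with hE
  have hET : (E : ℝ) ≤ T := Nat.floor_le hT0.le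
  have hTE : T < E + 1 := Nat.lt_floor_add_one T
  have hEM : E ≤ M := by
    have : (E : ℝ) ≤ M := hET.trans hTM
    exact_mod_cast this
  have hUzero : ∀ e, E < e → U e = 0 := by
    intro e he
    rw [hU]
    apply Finset.sum_eq_zero
    intro c hc
    have h1 := Finset.mem_filter.1 hc
    have h2 := (Finset.mem_Icc.1 (Finset.mem_filter.1 h1.1).1).1
    have h3 : e ≤ c := Nat.le_of_dvd (by omega) h1.2
    have h4 : T < c := by
      have : (E : ℝ) + 1 ≤ c := by exact_mod_cast (by omega : E + 1 ≤ c)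
      linarith
    apply hgzero
    intro h
    have := h.2
    linarith
  have hcut : ∑ e ∈ (Finset.Icc 1 M).filter (fun e => e.Coprime n), (μ e : ℝ) / e * U e =
      ∑ e ∈ (Finset.Icc 1 E).filter (fun e => e.Coprime n), (μ e : ℝ) / e * U e := by
    symm
    apply Finset.sum_subset
    · apply Finset.filter_subset_filter
      exact Finset.Icc_subset_Icc le_rfl hEM
    · intro e he hne
      have h1 := Finset.mem_filter.1 he
      have h2 := Finset.mem_Icc.1 h1.1
      have h3 : E < e := by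
        by_contra h
        apply hne
        rw [Finset.mem_filter, Finset.mem_Icc]
        exact ⟨⟨h2.1, by omega⟩, h1.2⟩
      rw [hUzero e h3, mul_zero]
  -- the series
  set φ : ℕ → ℝ := fun e => if e.Coprime n then (μ e : ℝ) / (e : ℝ) ^ 2 else 0 with hφ
  have hφle : ∀ e, |φ e| ≤ 1 / (e : ℝ) ^ 2 := by
    intro e
    rw [hφ]
    simp only
    have h1 : |((μ e : ℤ) : ℝ)| ≤ 1 := by
      have := ArithmeticFunction.abs_moebius_le_one (n := e)
      exact_mod_cast this
    split_ifs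
    · rw [abs_div, abs_of_nonneg (by positivity : (0 : ℝ) ≤ (e : ℝ) ^ 2)]
      gcongr
    · rw [abs_zero]; positivity
  have hsum : Summable φ := by
    apply Summable.of_norm_bounded (g := fun e : ℕ => 1 / (e : ℝ) ^ 2)
    · exact Real.summable_one_div_nat_pow.2 (by norm_num)
    · intro e; rw [Real.norm_eq_abs]; exact hφle e
  have hkk : kk n = ∑ e ∈ Finset.range (E + 1), φ e + ∑' i, φ (i + (E + 1)) := by
    rw [hsum.sum_add_tsum_nat_add]
    rfl
  have htail : |∑' i, φ (i + (E + 1))| ≤ 2 / ((E : ℝ) + 1) := by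
    have hs2 : Summable (fun i => |φ (i + (E + 1))|) := ((summable_nat_add_iff (E + 1)).2 hsum).abs
    have h1 : |∑' i, φ (i + (E + 1))| ≤ ∑' i, |φ (i + (E + 1))| := by
      have := norm_tsum_le_tsum_norm (f := fun i => φ (i + (E + 1))) (by simpa using hs2)
      simpa using this
    refine h1.trans ?_
    apply hs2.tsum_le_of_sum_range_le
    intro N
    calc _ ≤ ∑ i ∈ Finset.range N, 1 / (((i + (E + 1) : ℕ) : ℝ) ^ 2) :=
          Finset.sum_le_sum (fun i _ => hφle _)
      _ ≤ 2 / ((E + 1 : ℕ) : ℝ) := csu_tail (E + 1) N (by omega)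
      _ = _ := by push_cast; rfl
  have hrange : ∑ e ∈ Finset.range (E + 1), φ e =
      ∑ e ∈ (Finset.Icc 1 E).filter (fun e => e.Coprime n), (μ e : ℝ) / (e : ℝ) ^ 2 := by
    rw [Finset.sum_filter]
    have : Finset.range (E + 1) = insert 0 (Finset.Icc 1 E) := by
      ext k
      simp only [Finset.mem_range, Finset.mem_insert, Finset.mem_Icc]
      omega
    rw [this, Finset.sum_insert (by simp)]
    have h0 : φ 0 = 0 := by
      rw [hφ]; simp
    rw [h0, zero_add]
  -- putting together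
  have hmain : kk n / (2 * n * θ) * ∫ t in (0 : ℝ)..κ, β t = kk n / n * I := by
    rw [hIeq]; field_simp
  rw [hswap, hcut, hmain, hkk, hrange]
  set Z := ∑' i, φ (i + (E + 1)) with hZ
  have hdec : ∑ e ∈ (Finset.Icc 1 E).filter (fun e => e.Coprime n), (μ e : ℝ) / e * U e -
      (∑ e ∈ (Finset.Icc 1 E).filter (fun e => e.Coprime n), (μ e : ℝ) / (e : ℝ) ^ 2 + Z) / n * I =
      ∑ e ∈ (Finset.Icc 1 E).filter (fun e => e.Coprime n), (μ e : ℝ) / e * (U e - 1 / (e * n) * I) -
      Z / n * I := by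
    rw [add_div, add_mul, Finset.sum_div, Finset.sum_mul]
    have : ∑ e ∈ (Finset.Icc 1 E).filter (fun e => e.Coprime n),
        (μ e : ℝ) / e * (U e - 1 / (e * n) * I) =
        ∑ e ∈ (Finset.Icc 1 E).filter (fun e => e.Coprime n), (μ e : ℝ) / e * U e -
        ∑ e ∈ (Finset.Icc 1 E).filter (fun e => e.Coprime n), (μ e : ℝ) / (e : ℝ) ^ 2 / n * I := by
      rw [← Finset.sum_sub_distrib]
      apply Finset.sum_congr rfl
      intro e he
      have he1 := (Finset.mem_Icc.1 (Finset.mem_filter.1 he).1).1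
      have he' : (0 : ℝ) < e := by exact_mod_cast he1
      field_simp
    rw [this]; ring
  rw [hdec]
  -- the first error
  have hE1 : |∑ e ∈ (Finset.Icc 1 E).filter (fun e => e.Coprime n),
      (μ e : ℝ) / e * (U e - 1 / (e * n) * I)| ≤ Lg * (T * (2 * √E)) + 2 * Lg * n * E := by
    calc _ ≤ ∑ e ∈ (Finset.Icc 1 E).filter (fun e => e.Coprime n),
          |(μ e : ℝ) / e * (U e - 1 / (e * n) * I)| := Finset.abs_sum_le_sum_abs _ _
      _ ≤ ∑ e ∈ (Finset.Icc 1 E).filter (fun e => e.Coprime n), 1 / e * (Lg * (T + 2 * (e * n))) := by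
          apply Finset.sum_le_sum
          intro e he
          have he1 := (Finset.mem_Icc.1 (Finset.mem_filter.1 he).1).1
          have he' : (0 : ℝ) < e := by exact_mod_cast he1
          have h1 : |((μ e : ℤ) : ℝ)| ≤ 1 := by
            have := ArithmeticFunction.abs_moebius_le_one (n := e)
            exact_mod_cast this
          rw [abs_mul, abs_div, abs_of_pos he']
          apply mul_le_mul _ (hUest e he1 (Finset.mem_filter.1 he).2) (abs_nonneg _) (by positivity)
          gcongr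
      _ ≤ ∑ e ∈ Finset.Icc 1 E, 1 / (e : ℝ) * (Lg * (T + 2 * (e * n))) := by
          apply Finset.sum_le_sum_of_subset_of_nonneg (Finset.filter_subset _ _)
          intro e _ _
          positivity
      _ = ∑ e ∈ Finset.Icc 1 E, (Lg * T * (1 / (e : ℝ)) + 2 * Lg * n) := by
          apply Finset.sum_congr rfl
          intro e he
          have he1 := (Finset.mem_Icc.1 he).1
          have he' : (0 : ℝ) < e := by exact_mod_cast he1
          field_simp
      _ = Lg * T * ∑ e ∈ Finset.Icc 1 E, 1 / (e : ℝ) + 2 * Lg * n * E := by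
          rw [Finset.sum_add_distrib, ← Finset.mul_sum]
          simp
          ring
      _ ≤ Lg * T * (2 * √E) + 2 * Lg * n * E := by
          have := csu_harm E
          gcongr
      _ = _ := by ring
  -- powers
  have hT32 : T * √T = κ ^ (3 / 4 : ℝ) * θ ^ (-(3 / 4) : ℝ) := by
    have h1 : T = (κ / θ) ^ (1 / 2 : ℝ) := by rw [hT, Real.sqrt_eq_rpow]
    have h2 : √T = (κ / θ) ^ (1 / 4 : ℝ) := by
      rw [Real.sqrt_eq_rpow, h1, ← Real.rpow_mul (by positivity)]
      norm_num
    rw [h2]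
    nth_rewrite 1 [h1]
    rw [← Real.rpow_add (by positivity), Real.div_rpow hκ0.le hθ.le, Real.rpow_neg hθ.le,
      div_eq_mul_inv]
    norm_num
  set Q : ℝ := κ ^ (3 / 4 : ℝ) * θ ^ (-(3 / 4) : ℝ) with hQ
  have hQ0 : 0 ≤ Q := by positivity
  obtain ⟨hf1, hf2, hf3⟩ := csu_pow hT0 hET hTE
  rw [hT32] at hf1 hf2 hf3
  have hE2 : |Z / n * I| ≤ J * Q := by
    rw [abs_mul, abs_div, abs_of_pos hn0]
    calc |Z| / n * |I| ≤ (2 / ((E : ℝ) + 1)) / 1 * (J / (2 * θ)) := by gcongr
      _ = J * (1 / θ / ((E : ℝ) + 1)) := by field_simp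
      _ ≤ J * (T ^ 2 / ((E : ℝ) + 1)) := by
          rw [hTsq]
          gcongr
      _ ≤ J * Q := by gcongr
  calc _ ≤ |∑ e ∈ (Finset.Icc 1 E).filter (fun e => e.Coprime n),
        (μ e : ℝ) / e * (U e - 1 / (e * n) * I)| + |Z / n * I| := abs_sub _ _
    _ ≤ (Lg * (T * (2 * √E)) + 2 * Lg * n * E) + J * Q := add_le_add hE1 hE2
    _ ≤ (Lg * (2 * Q) + 2 * Lg * n * Q) + J * Q := by gcongr
    _ = Q * (Lg * 2 * 1 + 2 * Lg * n + J * 1) := by ring
    _ ≤ Q * (Lg * 2 * n + 2 * Lg * n + J * n) := by gcongr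
    _ ≤ Q * ((4 * Lg + J + 1) * n) := by
        apply mul_le_mul_of_nonneg_left _ hQ0
        nlinarith
    _ = _ := by rw [hQ]; ring

theorem abs_ff_le : type_of% @abs_ff_le_pr := @abs_ff_le_pr
theorem ff_nonneg : type_of% @ff_nonneg_pr := @ff_nonneg_pr
theorem ff_le_one : type_of% @ff_le_one_pr := @ff_le_one_pr
theorem c_sum : type_of% @c_sum_pr := @c_sum_pr

end Pool.Agent.JOM
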