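import Pool.Agent.Lib_helper68.JOF.DefsF
import Pool.Agent.Lib_helper68.JOF.RIE
import Pool.Agent.Lib_helper68.JOF.CSU

namespace Pool.Agent.JOM

open MeasureTheory Filter Topology UpperHalfPlane
open scoped MatrixGroups Modular ArithmeticFunction.Moebius

/-- the number of integers in a real interval -/
theorem cop_card (S : Finset ℤ) (α β : ℝ) (hS : ∀ k ∈ S, α ≤ (k : ℝ) ∧ (k : ℝ) ≤ β)
    (hab : α ≤ β) : (S.card : ℝ) ≤ β - α + 1 := by
  have hsub : S ⊆ Finset.Icc ⌈α⌉ ⌊β⌋ := by
    intro k hk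
    rw [Finset.mem_Icc]
    exact ⟨Int.ceil_le.2 (hS k hk).1, Int.le_floor.2 (hS k hk).2⟩
  have h1 : S.card ≤ (⌊β⌋ + 1 - ⌈α⌉).toNat := by
    have := Finset.card_le_card hsub
    rwa [Int.card_Icc] at this
  have h2 : ((⌊β⌋ + 1 - ⌈α⌉).toNat : ℝ) ≤ β - α + 1 := by
    have h3 : (((⌊β⌋ + 1 - ⌈α⌉).toNat : ℤ) : ℝ) = max ((⌊β⌋ : ℝ) + 1 - ⌈α⌉) 0 := by
      rw [Int.toNat_eq_max]; push_cast; rfl
    have h4 : ((⌊β⌋ + 1 - ⌈α⌉).toNat : ℝ) = max ((⌊β⌋ : ℝ) + 1 - ⌈α⌉) 0 := by
      rw [← h3]; norm_cast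
    rw [h4]
    refine max_le ?_ (by linarith)
    have := Int.floor_le β
    have := Int.le_ceil α
    linarith
  calc (S.card : ℝ) ≤ ((⌊β⌋ + 1 - ⌈α⌉).toNat : ℝ) := by exact_mod_cast h1
    _ ≤ _ := h2

/-- the indicator of admissibility -/
theorem cop_ind {n c : ℕ} {A B C D d : ℤ} (hc : 0 < c) (h : Cls n A B C D)
    (hcC : (n : ℤ) ∣ c - C) (hd : (n : ℤ) ∣ d - D) :
    (∑ e ∈ c.divisors.filter (fun e => e.Coprime n), if (e : ℤ) ∣ d then (μ e : ℤ) else 0) =
      if IsCoprime (c : ℤ) d then 1 else 0 := by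
  classical
  have hkey : ∀ e : ℕ, e ∣ c → (e : ℤ) ∣ d → e.Coprime n := by
    intro e hec hed
    rw [Nat.coprime_iff_gcd_eq_one]
    by_contra hne
    obtain ⟨p, hp, hpd⟩ := Nat.exists_prime_and_dvd hne
    have hpe : p ∣ e := hpd.trans (Nat.gcd_dvd_left _ _)
    have hpn : p ∣ n := hpd.trans (Nat.gcd_dvd_right _ _)
    have hpn' : (p : ℤ) ∣ n := by exact_mod_cast hpn
    have hpc : (p : ℤ) ∣ c := by exact_mod_cast hpe.trans hec
    have hpd' : (p : ℤ) ∣ d := (by exact_mod_cast hpe : (p : ℤ) ∣ e).trans hed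
    have hpC : (p : ℤ) ∣ C := by
      have := dvd_sub hpc (hpn'.trans hcC)
      simpa using this
    have hpD : (p : ℤ) ∣ D := by
      have := dvd_sub hpd' (hpn'.trans hd)
      simpa using this
    have h1 : (p : ℤ) ∣ A * D - B * C - 1 := hpn'.trans h
    have h2 : (p : ℤ) ∣ 1 := by
      have h3 : (p : ℤ) ∣ A * D - B * C := dvd_sub (hpD.mul_left A) (hpC.mul_left B)
      have := dvd_sub h3 h1
      simpa using this
    have h4 : p ∣ 1 := by exact_mod_cast h2
    exact hp.one_lt.ne' (Nat.dvd_one.1 h4)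
  have h1 : (∑ e ∈ c.divisors.filter (fun e => e.Coprime n),
      if (e : ℤ) ∣ d then (μ e : ℤ) else 0) = ∑ e ∈ (Nat.gcd c d.natAbs).divisors, (μ e : ℤ) := by
    rw [← Finset.sum_filter]
    apply Finset.sum_congr _ (fun _ _ => rfl)
    ext e
    simp only [Finset.mem_filter, Nat.mem_divisors]
    have hg : Nat.gcd c d.natAbs ≠ 0 := (Nat.gcd_pos_of_pos_left _ hc).ne'
    constructor
    · rintro ⟨⟨⟨h1, -⟩, -⟩, h3⟩
      exact ⟨Nat.dvd_gcd h1 (Int.natCast_dvd.1 h3), hg⟩
    · rintro ⟨h1, -⟩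
      have h2 := h1.trans (Nat.gcd_dvd_left _ _)
      have h3 : (e : ℤ) ∣ d := Int.natCast_dvd.2 (h1.trans (Nat.gcd_dvd_right _ _))
      exact ⟨⟨⟨h2, hc.ne'⟩, hkey e h2 h3⟩, h3⟩
  rw [h1]
  rw [← ArithmeticFunction.coe_mul_zeta_apply, ArithmeticFunction.moebius_mul_coe_zeta,
    ArithmeticFunction.one_apply]
  congr 1
  rw [Int.isCoprime_iff_gcd_eq_one]
  simp [Int.gcd]

open Classical in
/-- block COP: the sum over the admissible `d` -/
theorem coprime_sum_pr : ∃ C₀ : ℝ, 0 < C₀ ∧ ∀ (n c : ℕ) (A B C D : ℤ) (R Λ u : ℝ) (g : ℝ → ℝ)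
    (S : Finset ℤ), 0 < n → 0 < c → Cls n A B C D → (n : ℤ) ∣ c - C → 1 ≤ R → 0 ≤ Λ →
    (∀ x y, |g x - g y| ≤ Λ * |x - y|) → (∀ x, R < |x| → g x = 0) →
    (∀ d : ℤ, g (d / c + u) ≠ 0 → d ∈ S) →
    |∑ d ∈ S.filter (fun d => Adm n D c d), g (d / c + u) - c / n * ff n c * ∫ x, g x| ≤
      C₀ * Λ * (R + n) * c.divisors.card := by
  refine ⟨2, by norm_num, ?_⟩
  intro n c A B C D R Λ u g S hn hc hcls hcC hR hΛ hg hsupp hS
  have hc' : (0 : ℝ) < c := by exact_mod_cast hc
  have hn' : (0 : ℝ) < n := by exact_mod_cast hn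
  have hR0 : (0 : ℝ) < R := by linarith
  set F := c.divisors.filter (fun e => e.Coprime n) with hF
  -- the classes
  have hk0 : ∀ e ∈ F, ∃ k₀ : ℤ, ∀ d : ℤ, (((e * n : ℕ) : ℤ) ∣ d - k₀ ↔
      (e : ℤ) ∣ d ∧ (n : ℤ) ∣ d - D) := by
    intro e he
    have hco : e.Coprime n := (Finset.mem_filter.1 he).2
    have hco' : IsCoprime (e : ℤ) (n : ℤ) := Nat.isCoprime_iff_coprime.2 hco
    obtain ⟨a, b, hab⟩ := hco'
    refine ⟨a * e * D, ?_⟩
    intro d
    have hd1 : (e : ℤ) ∣ d - a * e * D ↔ (e : ℤ) ∣ d := by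
      constructor
      · intro h
        have := dvd_add h (Dvd.intro (a * D) (by ring) : (e : ℤ) ∣ a * e * D)
        simpa using this
      · intro h
        exact dvd_sub h (Dvd.intro (a * D) (by ring))
    have hd2 : (n : ℤ) ∣ d - a * e * D ↔ (n : ℤ) ∣ d - D := by
      have : d - a * e * D = (d - D) + n * (b * D) := by
        have : a * e = 1 - b * n := by linarith
        rw [this]; ring
      rw [this]
      constructor
      · intro h
        have := dvd_sub h (Dvd.intro (b * D) rfl : (n : ℤ) ∣ n * (b * D))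
        simpa using this
      · intro h
        exact dvd_add h (Dvd.intro (b * D) rfl)
    rw [← hd1, ← hd2]
    push_cast
    constructor
    · intro h
      exact ⟨(Dvd.intro _ rfl).trans h, (Dvd.intro_left _ rfl).trans h⟩
    · rintro ⟨h1, h2⟩
      exact (Nat.isCoprime_iff_coprime.2 hco).mul_dvd h1 h2
  choose! k₀ hk₀ using hk0
  -- rewriting the sum
  have hsum : ∑ d ∈ S.filter (fun d => Adm n D c d), g (d / c + u) =
      ∑ e ∈ F, (μ e : ℝ) * ∑ d ∈ S.filter (fun d => ((e * n : ℕ) : ℤ) ∣ d - k₀ e),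
        g (1 / c * d + u) := by
    have h1 : ∑ d ∈ S.filter (fun d => Adm n D c d), g (d / c + u) =
        ∑ d ∈ S.filter (fun d => (n : ℤ) ∣ d - D), (∑ e ∈ F, if (e : ℤ) ∣ d then (μ e : ℝ) else 0) *
          g (1 / c * d + u) := by
      have h2 : S.filter (fun d => Adm n D c d) =
          (S.filter (fun d => (n : ℤ) ∣ d - D)).filter (fun d => IsCoprime (c : ℤ) d) := by
        ext d
        rw [Finset.mem_filter, Finset.mem_filter, Finset.mem_filter]
        unfold Adm
        tauto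
      rw [h2, Finset.sum_filter]
      apply Finset.sum_congr rfl
      intro d hd
      have hdD := (Finset.mem_filter.1 hd).2
      have h3 := cop_ind (d := d) hc hcls hcC hdD
      have h4 : (∑ e ∈ F, if (e : ℤ) ∣ d then (μ e : ℝ) else 0) =
          if IsCoprime (c : ℤ) d then 1 else 0 := by
        have := congrArg (fun z : ℤ => (z : ℝ)) h3
        push_cast at this
        rw [← hF] at this
        convert this using 2
      rw [h4]
      have h5 : (d : ℝ) / c + u = 1 / c * d + u := by ring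
      rw [h5]
      split_ifs <;> simp
    rw [h1]
    simp_rw [Finset.sum_mul]
    rw [Finset.sum_comm]
    apply Finset.sum_congr rfl
    intro e he
    rw [Finset.mul_sum]
    have h6 : S.filter (fun d => ((e * n : ℕ) : ℤ) ∣ d - k₀ e) =
        (S.filter (fun d => (n : ℤ) ∣ d - D)).filter (fun d => (e : ℤ) ∣ d) := by
      ext d
      simp only [Finset.mem_filter, hk₀ e he d]
      tauto
    rw [h6]
    symm
    rw [Finset.sum_filter]
    apply Finset.sum_congr rfl
    intro d _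
    split_ifs <;> simp
  -- each inner sum
  have hin : ∀ e ∈ F, |∑ d ∈ S.filter (fun d => ((e * n : ℕ) : ℤ) ∣ d - k₀ e), g (1 / c * d + u) -
      c / (e * n) * ∫ x, g x| ≤ 2 * Λ * (R + n) := by
    intro e he
    have hedvd : e ∣ c := Nat.dvd_of_mem_divisors (Finset.mem_filter.1 he).1
    have he0 : 0 < e := Nat.pos_of_dvd_of_pos hedvd hc
    have he' : (0 : ℝ) < e := by exact_mod_cast he0
    have hec : (e : ℝ) ≤ c := by exact_mod_cast Nat.le_of_dvd hc hedvd
    have hsupp' : ∀ x, x ∉ Set.Icc (-R) R → g x = 0 := by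
      intro x hx
      apply hsupp
      by_contra h
      exact hx (abs_le.1 (not_lt.1 h))
    have h1 := riemann_mod (g := g) (Λ := Λ) (a := -R) (b := R) (h := 1 / c) (t := u) hΛ
      (by linarith) (by positivity) hg hsupp' (e * n) (Nat.mul_pos he0 hn) (k₀ e) S
      (fun k hk => hS k (by
        have : (k : ℝ) / c + u = 1 / c * k + u := by ring
        rw [this]; exact hk))
    set I := ∫ x, g x
    set T := ∑ d ∈ S.filter (fun d => ((e * n : ℕ) : ℤ) ∣ d - k₀ e), g (1 / c * d + u)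
    have hq : (0 : ℝ) < 1 / c * (e * n : ℕ) := by positivity
    have h2 : T - c / (e * n) * I = (1 / c * (e * n : ℕ) * T - I) / (1 / c * (e * n : ℕ)) := by
      push_cast
      field_simp
    rw [h2, abs_div, abs_of_pos hq, div_le_iff₀ hq]
    have h3 : 1 / (c : ℝ) * (e * n : ℕ) ≤ n := by
      push_cast
      rw [div_mul_eq_mul_div, one_mul, div_le_iff₀ hc']
      nlinarith
    calc |1 / (c : ℝ) * (e * n : ℕ) * T - I| ≤
          Λ * (1 / c * (e * n : ℕ)) * (R - -R + 2 * (1 / c * (e * n : ℕ))) := h1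
      _ ≤ Λ * (1 / c * (e * n : ℕ)) * (R - -R + 2 * n) := by
          gcongr
      _ = 2 * Λ * (R + n) * (1 / c * (e * n : ℕ)) := by ring
  rw [hsum]
  have hmain : c / n * ff n c * ∫ x, g x = ∑ e ∈ F, (μ e : ℝ) * (c / (e * n) * ∫ x, g x) := by
    rw [ff, Finset.mul_sum, Finset.sum_mul]
    apply Finset.sum_congr rfl
    intro e he
    have hedvd : e ∣ c := Nat.dvd_of_mem_divisors (Finset.mem_filter.1 he).1
    have he0 : 0 < e := Nat.pos_of_dvd_of_pos hedvd hc
    have he' : (0 : ℝ) < e := by exact_mod_cast he0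
    field_simp
  rw [hmain, ← Finset.sum_sub_distrib]
  calc |∑ e ∈ F, ((μ e : ℝ) * ∑ d ∈ S.filter (fun d => ((e * n : ℕ) : ℤ) ∣ d - k₀ e),
        g (1 / c * d + u) - (μ e : ℝ) * (c / (e * n) * ∫ x, g x))| ≤
      ∑ e ∈ F, |((μ e : ℝ) * ∑ d ∈ S.filter (fun d => ((e * n : ℕ) : ℤ) ∣ d - k₀ e),
        g (1 / c * d + u) - (μ e : ℝ) * (c / (e * n) * ∫ x, g x))| :=
        Finset.abs_sum_le_sum_abs _ _
    _ ≤ ∑ e ∈ F, 2 * Λ * (R + n) := by
        apply Finset.sum_le_sum
        intro e he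
        rw [← mul_sub, abs_mul]
        have h1 : |((μ e : ℤ) : ℝ)| ≤ 1 := by
          have := ArithmeticFunction.abs_moebius_le_one (n := e)
          exact_mod_cast this
        calc _ ≤ 1 * (2 * Λ * (R + n)) := by
              apply mul_le_mul h1 (hin e he) (abs_nonneg _) zero_le_one
          _ = _ := by ring
    _ = F.card * (2 * Λ * (R + n)) := by rw [Finset.sum_const, nsmul_eq_mul]
    _ ≤ c.divisors.card * (2 * Λ * (R + n)) := by
        have : F.card ≤ c.divisors.card := Finset.card_filter_le _ _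
        have : (F.card : ℝ) ≤ c.divisors.card := by exact_mod_cast this
        gcongr
    _ = _ := by ring

open Classical in
/-- block COP: the main term of a row -/
theorem row_main_pr : ∃ C₀ : ℝ, 0 < C₀ ∧ ∀ (n c : ℕ) (A B C D : ℤ) (R Λ x u : ℝ) (H : ℝ → ℝ → ℝ)
    (S : Finset ℤ), 0 < n → 0 < c → Cls n A B C D → (n : ℤ) ∣ c - C → 1 ≤ R → 0 ≤ Λ →
    (∀ p p' q q', |H p q - H p' q'| ≤ Λ * (|p - p'| + |q - q'|)) →
    (∀ p q, (R < |p| ∨ R < |q|) → H p q = 0) →
    (∀ d : ℤ, |(d : ℝ)| ≤ (R + |x| + |u|) * c → d ∈ S) →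
    |1 / (c * n) * ∑ a ∈ S, ∑ d ∈ S.filter (fun d => Adm n D c d),
        H (a / c - x) (d / c + u) - c * ff n c / n ^ 2 * ∫ p, ∫ q, H p q| ≤
      C₀ * Λ * n * R ^ 2 * c.divisors.card := by
  obtain ⟨C₁, hC₁, hcop⟩ := coprime_sum_pr
  refine ⟨6 * C₁ + 8, by positivity, ?_⟩
  intro n c A B C D R Λ x u H S hn hc hcls hcC hR hΛ hH hsupp hS
  have hc' : (1 : ℝ) ≤ c := by exact_mod_cast hc
  have hc0 : (0 : ℝ) < c := by linarith
  have hn' : (1 : ℝ) ≤ n := by exact_mod_cast hn
  have hn0 : (0 : ℝ) < n := by linarith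
  have hR0 : (0 : ℝ) < R := by linarith
  set τ : ℝ := ((c.divisors.card : ℕ) : ℝ) with hτ
  have hτ0 : 0 ≤ τ := by positivity
  set G : ℝ → ℝ := fun p => ∫ q, H p q with hG
  -- continuity of the slices
  have hcont : ∀ p, Continuous (H p) := by
    intro p
    have : LipschitzWith Λ.toNNReal (H p) := by
      apply LipschitzWith.of_dist_le_mul
      intro q q'
      rw [Real.dist_eq, Real.dist_eq, Real.coe_toNNReal _ hΛ]
      have := hH p p q q'
      simpa using this
    exact this.continuous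
  have hGeq : ∀ p, G p = ∫ q in (-R)..R, H p q := by
    intro p
    rw [hG]
    simp only
    rw [intervalIntegral.integral_of_le (by linarith)]
    symm
    apply setIntegral_eq_integral_of_forall_compl_eq_zero
    intro q hq
    rw [Set.mem_Ioc, not_and_or, not_lt, not_le] at hq
    rcases hq with hq | hq
    · rcases hq.lt_or_eq with hq | hq
      · exact hsupp _ _ (Or.inr (by rw [abs_of_nonpos (by linarith)]; linarith))
      · -- at the boundary, by continuity
        subst hq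
        have h1 : Tendsto (fun t => H p t) (𝓝[<] (-R)) (𝓝 (H p (-R))) :=
          ((hcont p).tendsto _).mono_left nhdsWithin_le_nhds
        have h2 : Tendsto (fun t => H p t) (𝓝[<] (-R)) (𝓝 0) := by
          apply tendsto_const_nhds.congr'
          filter_upwards [self_mem_nhdsWithin] with t ht
          have ht' : t < -R := ht
          rw [hsupp _ _ (Or.inr (by rw [abs_of_nonpos (by linarith)]; linarith))]
        exact tendsto_nhds_unique h1 h2
    · exact hsupp _ _ (Or.inr (by rw [abs_of_pos (by linarith)]; linarith))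
  have hGlip : ∀ p p', |G p - G p'| ≤ (2 * R * Λ) * |p - p'| := by
    intro p p'
    rw [hGeq, hGeq, ← intervalIntegral.integral_sub ((hcont p).intervalIntegrable _ _)
      ((hcont p').intervalIntegrable _ _)]
    have h1 : ∀ q ∈ Set.uIoc (-R) R, ‖H p q - H p' q‖ ≤ Λ * |p - p'| := by
      intro q _
      have := hH p p' q q
      simpa using this
    have := intervalIntegral.norm_integral_le_of_norm_le_const h1
    rw [Real.norm_eq_abs] at this
    calc _ ≤ _ := this
      _ = _ := by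
        rw [abs_of_nonneg (by linarith : (0 : ℝ) ≤ R - -R)]; ring
  have hGsupp : ∀ p, R < |p| → G p = 0 := by
    intro p hp
    rw [hG]
    simp only
    have : (fun q => H p q) = fun _ => 0 := by
      funext q; exact hsupp _ _ (Or.inl hp)
    rw [this]; simp
  -- each row
  have hrow : ∀ a : ℤ, |∑ d ∈ S.filter (fun d => Adm n D c d), H (a / c - x) (d / c + u) -
      c / n * ff n c * G (a / c - x)| ≤ if |(a : ℝ) / c - x| ≤ R then C₁ * Λ * (R + n) * τ else 0 := by
    intro a
    split_ifs with ha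
    · apply hcop n c A B C D R Λ u (H (a / c - x)) S hn hc hcls hcC hR hΛ
      · intro q q'
        have := hH (a / c - x) (a / c - x) q q'
        simpa using this
      · intro q hq
        exact hsupp _ _ (Or.inr hq)
      · intro d hd
        apply hS
        have h1 : |(d : ℝ) / c + u| ≤ R := by
          by_contra h
          exact hd (hsupp _ _ (Or.inr (not_le.1 h)))
        have h2 : |(d : ℝ) / c| ≤ R + |u| := by
          have : (d : ℝ) / c = (d / c + u) - u := by ring
          rw [this]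
          calc _ ≤ |(d : ℝ) / c + u| + |u| := abs_sub _ _
            _ ≤ _ := by linarith
        rw [abs_div, abs_of_pos hc0, div_le_iff₀ hc0] at h2
        have := abs_nonneg x
        nlinarith
    · have h0 : ∀ q, H (a / c - x) q = 0 := fun q => hsupp _ _ (Or.inl (not_le.1 ha))
      have h1 : G (a / c - x) = 0 := hGsupp _ (not_le.1 ha)
      rw [h1]
      simp [h0]
  -- the number of rows
  have hcard : (((S.filter (fun a : ℤ => |(a : ℝ) / c - x| ≤ R)).card : ℕ) : ℝ) ≤ 3 * R * c := by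
    have h1 := cop_card (S.filter (fun a : ℤ => |(a : ℝ) / c - x| ≤ R)) (c * (x - R)) (c * (x + R))
      (by
        intro k hk
        have h2 := (Finset.mem_filter.1 hk).2
        rw [abs_le] at h2
        have h3 : (k : ℝ) = c * (k / c) := by field_simp
        rw [h3]
        constructor
        · apply mul_le_mul_of_nonneg_left _ hc0.le
          linarith
        · apply mul_le_mul_of_nonneg_left _ hc0.le
          linarith) (by
        apply mul_le_mul_of_nonneg_left _ hc0.le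
        linarith)
    calc _ ≤ _ := h1
      _ ≤ 3 * R * c := by nlinarith
  have hA : |∑ a ∈ S, ∑ d ∈ S.filter (fun d => Adm n D c d), H (a / c - x) (d / c + u) -
      c / n * ff n c * ∑ a ∈ S, G (a / c - x)| ≤ 3 * R * c * (C₁ * Λ * (R + n) * τ) := by
    rw [Finset.mul_sum, ← Finset.sum_sub_distrib]
    calc _ ≤ ∑ a ∈ S, |∑ d ∈ S.filter (fun d => Adm n D c d), H (a / c - x) (d / c + u) -
          c / n * ff n c * G (a / c - x)| := Finset.abs_sum_le_sum_abs _ _
      _ ≤ ∑ a ∈ S, if |(a : ℝ) / c - x| ≤ R then C₁ * Λ * (R + n) * τ else 0 :=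
          Finset.sum_le_sum (fun a _ => hrow a)
      _ = ((S.filter (fun a : ℤ => |(a : ℝ) / c - x| ≤ R)).card : ℕ) * (C₁ * Λ * (R + n) * τ) := by
          rw [← Finset.sum_filter, Finset.sum_const, nsmul_eq_mul]
      _ ≤ _ := by gcongr
  have hB : |1 / c * ∑ a ∈ S, G (a / c - x) - ∫ p, G p| ≤ 8 * R ^ 2 * Λ / c := by
    have h1 := riemann (g := G) (Λ := 2 * R * Λ) (a := -R) (b := R) (h := 1 / c) (t := -x)
      (by positivity) (by linarith) (by positivity) hGlip (by
        intro p hp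
        apply hGsupp
        by_contra h
        exact hp (abs_le.1 (not_lt.1 h))) S (by
        intro k hk
        apply hS
        have h1 : |1 / (c : ℝ) * k + -x| ≤ R := by
          by_contra h
          exact hk (hGsupp _ (not_le.1 h))
        have h2 : |(k : ℝ) / c| ≤ R + |x| := by
          have : (k : ℝ) / c = (1 / c * k + -x) + x := by ring
          rw [this]
          calc _ ≤ |1 / (c : ℝ) * k + -x| + |x| := abs_add_le _ _
            _ ≤ _ := by linarith
        rw [abs_div, abs_of_pos hc0, div_le_iff₀ hc0] at h2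
        have := abs_nonneg u
        nlinarith)
    have h2 : ∀ a : ℤ, G (1 / c * a + -x) = G (a / c - x) := by
      intro a; congr 1; ring
    simp_rw [h2] at h1
    calc _ ≤ _ := h1
      _ = 2 * R * Λ / c * (2 * R + 2 / c) := by ring
      _ ≤ 2 * R * Λ / c * (2 * R + 2 * R) := by
          have : 2 / (c : ℝ) ≤ 2 * R := by
            rw [div_le_iff₀ hc0]; nlinarith
          gcongr
      _ = _ := by ring
  have hff : |ff n c| ≤ τ := abs_ff_le n c
  set P := ∑ a ∈ S, ∑ d ∈ S.filter (fun d => Adm n D c d), H (a / c - x) (d / c + u) with hP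
  set W := ∑ a ∈ S, G (a / c - x) with hW
  have hsplit : 1 / (c * n) * P - c * ff n c / n ^ 2 * ∫ p, ∫ q, H p q =
      1 / (c * n) * (P - c / n * ff n c * W) + c * ff n c / n ^ 2 * (1 / c * W - ∫ p, G p) := by
    have : (∫ p, ∫ q, H p q) = ∫ p, G p := rfl
    rw [this]
    field_simp
    ring
  rw [hsplit]
  have hE1 : |1 / (c * n) * (P - c / n * ff n c * W)| ≤ 6 * C₁ * Λ * R ^ 2 * τ := by
    rw [abs_mul, abs_of_pos (by positivity : (0 : ℝ) < 1 / (c * n))]
    calc _ ≤ 1 / (c * n) * (3 * R * c * (C₁ * Λ * (R + n) * τ)) := by gcongr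
      _ = 3 * R * C₁ * Λ * τ * (R / n + 1) := by field_simp
      _ ≤ 3 * R * C₁ * Λ * τ * (2 * R) := by
          have : R / n ≤ R := div_le_self hR0.le hn'
          gcongr
          linarith
      _ = _ := by ring
  have hE2 : |c * ff n c / n ^ 2 * (1 / c * W - ∫ p, G p)| ≤ 8 * Λ * R ^ 2 * τ := by
    rw [abs_mul, abs_div, abs_mul, abs_of_pos hc0, abs_of_pos (by positivity : (0 : ℝ) < (n : ℝ) ^ 2)]
    calc _ ≤ c * τ / n ^ 2 * (8 * R ^ 2 * Λ / c) := by gcongr
      _ = 8 * Λ * R ^ 2 * τ / n ^ 2 := by field_simp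
      _ ≤ 8 * Λ * R ^ 2 * τ := by
          apply div_le_self (by positivity)
          nlinarith
  calc _ ≤ |1 / (c * n) * (P - c / n * ff n c * W)| +
        |c * ff n c / n ^ 2 * (1 / c * W - ∫ p, G p)| := abs_add_le _ _
    _ ≤ 6 * C₁ * Λ * R ^ 2 * τ + 8 * Λ * R ^ 2 * τ := add_le_add hE1 hE2
    _ = (6 * C₁ + 8) * Λ * 1 * R ^ 2 * τ := by ring
    _ ≤ (6 * C₁ + 8) * Λ * n * R ^ 2 * τ := by gcongr

theorem coprime_sum : type_of% @coprime_sum_pr := @coprime_sum_pr
theorem row_main : type_of% @row_main_pr := @row_main_pr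

end Pool.Agent.JOM
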