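import Pool.Agent.Lib_helper68.JOF.DefsF

/-! Block GEO of project JO, part M (helper75). -/

namespace Pool.Agent.JOM

open MeasureTheory Filter Topology UpperHalfPlane
open scoped MatrixGroups Modular ArithmeticFunction.Moebius

theorem geo_alg {x y u v a b c d P Q : ℝ} (hy : 0 < y) (hQ : 0 < Q)
    (h1 : P * (c * u + d) - Q * (c * v) = a * u + b) (h2 : P * (c * v) + Q * (c * u + d) = a * v)
    (hdet : a * d - b * c = 1) :
    2 * y * v * (((x - P) ^ 2 + y ^ 2 + Q ^ 2) / (2 * y * Q)) =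
      (a - x * c) ^ 2 * v ^ 2 + ((a - x * c) * u + b - x * d) ^ 2 + y ^ 2 * c ^ 2 * v ^ 2 +
        y ^ 2 * (c * u + d) ^ 2 := by
  have hv : v = ((c * u + d) ^ 2 + (c * v) ^ 2) * Q := by
    linear_combination (-(v : ℝ)) * hdet - (c * u + d) * h2 + c * v * h1
  have e1 : (a - x * c) * v = -((x - P) * (c * v) - Q * (c * u + d)) := by
    linear_combination - h2
  have e2 : (a - x * c) * u + b - x * d = -((x - P) * (c * u + d) + Q * (c * v)) := by
    linear_combination - h1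
  have e3 : 2 * y * v * (((x - P) ^ 2 + y ^ 2 + Q ^ 2) / (2 * y * Q))
      = ((c * u + d) ^ 2 + (c * v) ^ 2) * ((x - P) ^ 2 + y ^ 2 + Q ^ 2) := by
    rw [mul_div_assoc']
    rw [div_eq_iff (by positivity)]
    linear_combination (2 * y * ((x - P) ^ 2 + y ^ 2 + Q ^ 2)) * hv
  rw [e3, e2, show (a - x * c) ^ 2 * v ^ 2 = ((a - x * c) * v) ^ 2 by ring, e1]
  ring

theorem cosh_dist_smul_pr (z w : ℍ) (g : SL(2, ℤ)) :
    2 * z.im * w.im * Real.cosh (dist z (g • w)) =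
      QF z.re z.im w.re w.im (g 0 0) (g 0 1) (g 1 0) (g 1 1) := by
  have hden : ((g 1 0 : ℤ) : ℂ) * (w : ℂ) + ((g 1 1 : ℤ) : ℂ) ≠ 0 := by
    have := denom_ne_zero (g : GL (Fin 2) ℝ) w
    simpa [denom] using this
  have hW : ((g • w : ℍ) : ℂ) * (((g 1 0 : ℤ) : ℂ) * (w : ℂ) + ((g 1 1 : ℤ) : ℂ))
      = ((g 0 0 : ℤ) : ℂ) * (w : ℂ) + ((g 0 1 : ℤ) : ℂ) := by
    rw [coe_specialLinearGroup_apply]
    simp only [algebraMap_int_eq, eq_intCast, Complex.ofReal_intCast]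
    rw [div_mul_cancel₀ _ hden]
  have h1 := congrArg Complex.re hW
  have h2 := congrArg Complex.im hW
  simp only [Complex.mul_re, Complex.mul_im, Complex.add_re, Complex.add_im, Complex.intCast_re,
    Complex.intCast_im, zero_mul, sub_zero, add_zero, coe_re, coe_im] at h1 h2
  have hdet : ((g 0 0 : ℤ) : ℝ) * ((g 1 1 : ℤ) : ℝ) - ((g 0 1 : ℤ) : ℝ) * ((g 1 0 : ℤ) : ℝ) = 1 := by
    have h := g.det_coe
    rw [Matrix.det_fin_two] at h
    exact_mod_cast h
  rw [cosh_dist']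
  exact geo_alg z.im_pos (g • w).im_pos h1 (by linarith [h2]) hdet

theorem QF_row_pr {x y u v a b c d : ℝ} (hc : c ≠ 0) (h : a * d - b * c = 1) :
    QF x y u v a b c d = c ^ 2 * (((a / c - x) ^ 2 + y ^ 2) * ((d / c + u) ^ 2 + v ^ 2)) -
      2 * (a / c - x) * (d / c + u) + 1 / c ^ 2 := by
  unfold QF
  have ha : a = c * (a / c) := by field_simp
  have hd : d = c * (d / c) := by field_simp
  have hi : c * (1 / c) = 1 := by field_simp
  have hb : b = a / c * d - 1 / c := by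
    field_simp
    linear_combination - h
  rw [show (1 : ℝ) / c ^ 2 = (1 / c) ^ 2 by field_simp]
  rw [hb]
  generalize a / c = α at *
  generalize d / c = δ at *
  generalize (1 : ℝ) / c = ι at *
  subst ha
  subst hd
  linear_combination (2 * (α - x) * (δ + u)) * (-hi)

theorem geo_sq_le {a b : ℝ} (hb : 0 ≤ b) (h : a ^ 2 ≤ b ^ 2) : |a| ≤ b :=
  abs_le_of_sq_le_sq h hb

theorem QF_bound_pr {x y u v a b c d T : ℝ} (hy : 1 / 2 ≤ y) (hv : 1 / 2 ≤ v) (hT : 0 ≤ T)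
    (h : QF x y u v a b c d ≤ 2 * y * v * T) :
    |c| ≤ 3 * √T ∧ |a| ≤ 3 * (1 + |x|) * (y + v) * √T + 3 * √T ∧
    |d| ≤ 3 * (1 + |u|) * (y + v) * √T + 3 * √T ∧
    |b| ≤ 20 * (1 + |x|) * (1 + |u|) * (y + v) ^ 2 * √T ∧
    (c ≠ 0 → |a / c - x| ≤ 3 * √(T * (y * v)) / |c| ∧ |d / c + u| ≤ 3 * √(T * (y * v)) / |c|) := by
  have hy0 : 0 < y := by linarith
  have hv0 : 0 < v := by linarith
  unfold QF at h
  set s := √T with hs
  have hs0 : 0 ≤ s := Real.sqrt_nonneg T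
  have hss : s ^ 2 = T := Real.sq_sqrt hT
  set ry := √y with hry
  have hry0 : 0 ≤ ry := Real.sqrt_nonneg y
  have hryy : ry ^ 2 = y := Real.sq_sqrt hy0.le
  set rv := √v with hrv
  have hrv0 : 0 ≤ rv := Real.sqrt_nonneg v
  have hrvv : rv ^ 2 = v := Real.sq_sqrt hv0.le
  have q1 : 0 ≤ (a - x * c) ^ 2 * v ^ 2 := by positivity
  have q2 : 0 ≤ ((a - x * c) * u + b - x * d) ^ 2 := by positivity
  have q3 : 0 ≤ y ^ 2 * c ^ 2 * v ^ 2 := by positivity
  have q4 : 0 ≤ y ^ 2 * (c * u + d) ^ 2 := by positivity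
  have k1 : (a - x * c) ^ 2 * v ^ 2 ≤ 2 * y * v * T := by linarith
  have k2 : ((a - x * c) * u + b - x * d) ^ 2 ≤ 2 * y * v * T := by linarith
  have k3 : y ^ 2 * c ^ 2 * v ^ 2 ≤ 2 * y * v * T := by linarith
  have k4 : y ^ 2 * (c * u + d) ^ 2 ≤ 2 * y * v * T := by linarith
  have m1 : |a - x * c| ≤ 2 * (ry * s) := by
    apply geo_sq_le (by positivity)
    have : (a - x * c) ^ 2 * v ≤ 2 * y * T := by
      have := le_of_mul_le_mul_right (show ((a - x * c) ^ 2 * v) * v ≤ (2 * y * T) * v by linarith) hv0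
      exact this
    have h2 : (a - x * c) ^ 2 * (1 / 2) ≤ (a - x * c) ^ 2 * v :=
      mul_le_mul_of_nonneg_left hv (sq_nonneg _)
    have h3 : (2 * (ry * s)) ^ 2 = 4 * (y * T) := by rw [← hryy, ← hss]; ring
    rw [h3]
    linarith
  have m4 : |c * u + d| ≤ 2 * (rv * s) := by
    apply geo_sq_le (by positivity)
    have : (c * u + d) ^ 2 * y ≤ 2 * v * T := by
      have := le_of_mul_le_mul_right (show ((c * u + d) ^ 2 * y) * y ≤ (2 * v * T) * y by linarith) hy0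
      exact this
    have h2 : (c * u + d) ^ 2 * (1 / 2) ≤ (c * u + d) ^ 2 * y :=
      mul_le_mul_of_nonneg_left hy (sq_nonneg _)
    have h3 : (2 * (rv * s)) ^ 2 = 4 * (v * T) := by rw [← hrvv, ← hss]; ring
    rw [h3]
    linarith
  have hyv : 1 / 4 ≤ y * v := by nlinarith
  have m3 : |c| ≤ 3 * s := by
    apply geo_sq_le (by positivity)
    have h1 : c ^ 2 * (y * v) ≤ 2 * T := by
      have := le_of_mul_le_mul_right
        (show (c ^ 2 * (y * v)) * (y * v) ≤ (2 * T) * (y * v) by linarith) (mul_pos hy0 hv0)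
      exact this
    have h2 : c ^ 2 * (1 / 4) ≤ c ^ 2 * (y * v) := mul_le_mul_of_nonneg_left hyv (sq_nonneg _)
    have h3 : (3 * s) ^ 2 = 9 * T := by rw [← hss]; ring
    rw [h3]
    linarith
  have m2 : |(a - x * c) * u + b - x * d| ≤ 2 * (ry * (rv * s)) := by
    apply geo_sq_le (by positivity)
    have h3 : (2 * (ry * (rv * s))) ^ 2 = 4 * (y * v * T) := by rw [← hryy, ← hrvv, ← hss]; ring
    rw [h3]
    have : 0 ≤ y * v * T := by positivity
    linarith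
  have ry_le : 2 * ry ≤ 3 * y := by
    have : (2 * ry) ^ 2 ≤ (3 * y) ^ 2 := by
      have : (2 * ry) ^ 2 = 4 * y := by rw [← hryy]; ring
      rw [this]
      nlinarith
    exact le_of_sq_le_sq this (by positivity)
  have rv_le : 2 * rv ≤ 3 * v := by
    have : (2 * rv) ^ 2 ≤ (3 * v) ^ 2 := by
      have : (2 * rv) ^ 2 = 4 * v := by rw [← hrvv]; ring
      rw [this]
      nlinarith
    exact le_of_sq_le_sq this (by positivity)
  have hax : 0 ≤ |x| := abs_nonneg x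
  have hau : 0 ≤ |u| := abs_nonneg u
  have hS : 1 ≤ y + v := by linarith
  have ma : |a| ≤ 2 * (ry * s) + |x| * (3 * s) := by
    calc |a| = |(a - x * c) + x * c| := by ring_nf
      _ ≤ |a - x * c| + |x * c| := abs_add_le _ _
      _ = |a - x * c| + |x| * |c| := by rw [abs_mul]
      _ ≤ 2 * (ry * s) + |x| * (3 * s) := by
          have := mul_le_mul_of_nonneg_left m3 hax
          linarith
  have md : |d| ≤ 2 * (rv * s) + |u| * (3 * s) := by
    calc |d| = |(c * u + d) - u * c| := by ring_nf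
      _ ≤ |c * u + d| + |u * c| := abs_sub _ _
      _ = |c * u + d| + |u| * |c| := by rw [abs_mul]
      _ ≤ 2 * (rv * s) + |u| * (3 * s) := by
          have := mul_le_mul_of_nonneg_left m3 hau
          linarith
  have mb : |b| ≤ 2 * (ry * (rv * s)) + |x| * (2 * (rv * s) + |u| * (3 * s)) + |u| * (2 * (ry * s)) := by
    calc |b| = |((a - x * c) * u + b - x * d) + x * d - u * (a - x * c)| := by ring_nf
      _ ≤ |((a - x * c) * u + b - x * d) + x * d| + |u * (a - x * c)| := abs_sub _ _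
      _ ≤ |(a - x * c) * u + b - x * d| + |x * d| + |u * (a - x * c)| := by
          have := abs_add_le ((a - x * c) * u + b - x * d) (x * d)
          linarith
      _ = |(a - x * c) * u + b - x * d| + |x| * |d| + |u| * |a - x * c| := by rw [abs_mul, abs_mul]
      _ ≤ _ := by
          have h1 := mul_le_mul_of_nonneg_left md hax
          have h2 := mul_le_mul_of_nonneg_left m1 hau
          linarith
  refine ⟨m3, ?_, ?_, ?_, ?_⟩
  · have h1 : 2 * ry * s ≤ 3 * y * s := mul_le_mul_of_nonneg_right ry_le hs0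
    have h2 : 0 ≤ |x| * s * (y + v - 1) := by
      have : 0 ≤ y + v - 1 := by linarith
      positivity
    have h3 : 0 ≤ v * s := by positivity
    nlinarith
  · have h1 : 2 * rv * s ≤ 3 * v * s := mul_le_mul_of_nonneg_right rv_le hs0
    have h2 : 0 ≤ |u| * s * (y + v - 1) := by
      have : 0 ≤ y + v - 1 := by linarith
      positivity
    have h3 : 0 ≤ y * s := by positivity
    nlinarith
  · set S := y + v with hSd
    have rS : ry ≤ 3 / 2 * S := by rw [hSd]; linarith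
    have vS : rv ≤ 3 / 2 * S := by rw [hSd]; linarith
    have hS2 : S ≤ S ^ 2 := by nlinarith
    have hS3 : 1 ≤ S ^ 2 := by nlinarith
    have t1 : ry * rv ≤ 9 / 4 * S ^ 2 := by
      calc ry * rv ≤ (3 / 2 * S) * (3 / 2 * S) := mul_le_mul rS vS hrv0 (by positivity)
        _ = 9 / 4 * S ^ 2 := by ring
    have key : 2 * (ry * rv) + |x| * (2 * rv + |u| * 3) + |u| * (2 * ry)
        ≤ 20 * (1 + |x|) * (1 + |u|) * S ^ 2 := by
      have a1 : |x| * rv ≤ |x| * (3 / 2 * S ^ 2) := mul_le_mul_of_nonneg_left (by linarith) hax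
      have a2 : |u| * ry ≤ |u| * (3 / 2 * S ^ 2) := mul_le_mul_of_nonneg_left (by linarith) hau
      have a3 : |x| * |u| * 1 ≤ |x| * |u| * S ^ 2 := mul_le_mul_of_nonneg_left hS3 (by positivity)
      have a4 : 0 ≤ |x| * S ^ 2 := by positivity
      have a5 : 0 ≤ |u| * S ^ 2 := by positivity
      have a6 : 0 ≤ |x| * |u| * S ^ 2 := by positivity
      have a7 : 0 ≤ S ^ 2 := by positivity
      have e : 20 * (1 + |x|) * (1 + |u|) * S ^ 2
          = 20 * S ^ 2 + 20 * (|x| * S ^ 2) + 20 * (|u| * S ^ 2) + 20 * (|x| * |u| * S ^ 2) := by ring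
      rw [e]
      linarith
    calc |b| ≤ _ := mb
      _ = (2 * (ry * rv) + |x| * (2 * rv + |u| * 3) + |u| * (2 * ry)) * s := by ring
      _ ≤ 20 * (1 + |x|) * (1 + |u|) * S ^ 2 * s := mul_le_mul_of_nonneg_right key hs0
  · intro hc
    have hc0 : 0 < |c| := abs_pos.mpr hc
    have e : √(T * (y * v)) = s * (ry * rv) := by
      rw [Real.sqrt_mul hT, Real.sqrt_mul hy0.le]
    have hr1 : 2 * 1 ≤ 3 * ry := by
      have : (2 : ℝ) ^ 2 ≤ (3 * ry) ^ 2 := by
        rw [mul_pow, hryy]; linarith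
      have := le_of_sq_le_sq this (by positivity)
      linarith
    have hr2 : 2 * 1 ≤ 3 * rv := by
      have : (2 : ℝ) ^ 2 ≤ (3 * rv) ^ 2 := by
        rw [mul_pow, hrvv]; linarith
      have := le_of_sq_le_sq this (by positivity)
      linarith
    have hpos : 0 ≤ s * ry := by positivity
    have hpos2 : 0 ≤ s * rv := by positivity
    constructor
    · rw [show a / c - x = (a - x * c) / c by field_simp, abs_div, e]
      apply div_le_div_of_nonneg_right _ hc0.le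
      have := mul_le_mul_of_nonneg_left hr2 hpos
      linarith
    · rw [show d / c + u = (c * u + d) / c by field_simp; ring, abs_div, e]
      apply div_le_div_of_nonneg_right _ hc0.le
      have := mul_le_mul_of_nonneg_left hr1 hpos2
      linarith

theorem WF_bound_pr {y v c p q T : ℝ} (hy : 1 / 2 ≤ y) (hv : 1 / 2 ≤ v) (hc : 0 < c) (hT : 0 ≤ T)
    (h : c ^ 2 * WF y v p q ≤ T) :
    c ≤ 3 * √T ∧ |p| ≤ 3 * √(T * (y * v)) / c ∧ |q| ≤ 3 * √(T * (y * v)) / c := by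
  have hy0 : 0 < y := by linarith
  have hv0 : 0 < v := by linarith
  have hyv : 1 / 4 ≤ y * v := by nlinarith
  have hyv0 : 0 < y * v := mul_pos hy0 hv0
  have h' : c ^ 2 * ((p ^ 2 + y ^ 2) * (q ^ 2 + v ^ 2)) ≤ 2 * y * v * T := by
    unfold WF at h
    rw [mul_div_assoc', div_le_iff₀ (by positivity)] at h
    linarith
  have e : √(T * (y * v)) ^ 2 = T * (y * v) := Real.sq_sqrt (by positivity)
  have hr0 : 0 ≤ √(T * (y * v)) := Real.sqrt_nonneg _
  have q1 : 0 ≤ c ^ 2 * (p ^ 2 * v ^ 2) := by positivity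
  have q2 : 0 ≤ c ^ 2 * (q ^ 2 * y ^ 2) := by positivity
  have q3 : 0 ≤ c ^ 2 * (y ^ 2 * v ^ 2) := by positivity
  have q4 : 0 ≤ c ^ 2 * (p ^ 2 * q ^ 2) := by positivity
  have k1 : c ^ 2 * (p ^ 2 * v ^ 2) ≤ 2 * y * v * T := by linarith
  have k2 : c ^ 2 * (q ^ 2 * y ^ 2) ≤ 2 * y * v * T := by linarith
  have k3 : c ^ 2 * (y ^ 2 * v ^ 2) ≤ 2 * y * v * T := by linarith
  refine ⟨?_, ?_, ?_⟩
  · have h1 : c ^ 2 * (y * v) ≤ 2 * T :=
      le_of_mul_le_mul_right (show (c ^ 2 * (y * v)) * (y * v) ≤ (2 * T) * (y * v) by linarith) hyv0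
    have h2 : c ^ 2 * (1 / 4) ≤ c ^ 2 * (y * v) := mul_le_mul_of_nonneg_left hyv (sq_nonneg _)
    have hs0 : 0 ≤ √T := Real.sqrt_nonneg T
    have h3 : (3 * √T) ^ 2 = 9 * T := by rw [mul_pow, Real.sq_sqrt hT]; ring
    exact le_of_sq_le_sq (by rw [h3]; linarith) (by positivity)
  · rw [le_div_iff₀ hc]
    have h1 : (c * p) ^ 2 * v ≤ 2 * y * T :=
      le_of_mul_le_mul_right (show ((c * p) ^ 2 * v) * v ≤ (2 * y * T) * v by linarith) hv0
    have h2 : (c * p) ^ 2 * (1 / 2) ≤ (c * p) ^ 2 * v := mul_le_mul_of_nonneg_left hv (sq_nonneg _)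
    have h3 : |c * p| ≤ 3 * √(T * (y * v)) := by
      apply geo_sq_le (by positivity)
      rw [mul_pow 3, e]
      have : y * T * (1 / 2) ≤ y * T * v := mul_le_mul_of_nonneg_left hv (by positivity)
      linarith
    rw [abs_mul, abs_of_pos hc] at h3
    linarith
  · rw [le_div_iff₀ hc]
    have h1 : (c * q) ^ 2 * y ≤ 2 * v * T :=
      le_of_mul_le_mul_right (show ((c * q) ^ 2 * y) * y ≤ (2 * v * T) * y by linarith) hy0
    have h2 : (c * q) ^ 2 * (1 / 2) ≤ (c * q) ^ 2 * y := mul_le_mul_of_nonneg_left hy (sq_nonneg _)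
    have h3 : |c * q| ≤ 3 * √(T * (y * v)) := by
      apply geo_sq_le (by positivity)
      rw [mul_pow 3, e]
      have : v * T * (1 / 2) ≤ v * T * y := mul_le_mul_of_nonneg_left hy (by positivity)
      linarith
    rw [abs_mul, abs_of_pos hc] at h3
    linarith

theorem geo_tst_abs {β : ℝ → ℝ} {Λ κ : ℝ} (hβ : Tst β Λ κ) {t : ℝ} (ht : 0 ≤ t) :
    |β t| ≤ Λ * κ := by
  obtain ⟨hΛ, hκ, hL, hz⟩ := hβ
  rcases le_total κ t with h | h
  · rw [hz t h, abs_zero]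
    positivity
  · have h1 := hL t κ
    rw [hz κ le_rfl, sub_zero] at h1
    refine h1.trans (mul_le_mul_of_nonneg_left ?_ hΛ)
    rw [abs_le]
    constructor <;> linarith

theorem geo_WF_nonneg {y v : ℝ} (hy : 0 < y) (hv : 0 < v) (p q : ℝ) : 0 ≤ WF y v p q := by
  unfold WF
  positivity

/-- one of the two arguments is below `κ` -/
theorem geo_lip1 {β : ℝ → ℝ} {Λ κ : ℝ} (hβ : Tst β Λ κ) {X y v c R : ℝ} (hX : 1 ≤ X)
    (hy : 1 / 2 ≤ y) (hv : 1 / 2 ≤ v) (hc : 0 < c) (hR : 1 ≤ R)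
    (hRc : 3 * √(κ * X * (y * v)) ≤ R * c) {p p' q q' : ℝ}
    (h : c ^ 2 * WF y v p q / X ≤ κ) (hd : |p - p'| + |q - q'| ≤ 1) :
    |β (c ^ 2 * WF y v p q / X) - β (c ^ 2 * WF y v p' q' / X)| ≤
        (96 * (Λ * κ)) * (R + y + v) ^ 3 * (|p - p'| + |q - q'|) := by
  obtain ⟨hΛ, hκ, hL, hz⟩ := hβ
  have hX0 : 0 < X := by linarith
  have hy0 : 0 < y := by linarith
  have hv0 : 0 < v := by linarith
  have hyv0 : 0 < y * v := mul_pos hy0 hv0
  have hT : 0 ≤ κ * X := by positivity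
  have h0 : c ^ 2 * WF y v p q ≤ κ * X := by
    rw [div_le_iff₀ hX0] at h
    exact h
  obtain ⟨-, hp, hq⟩ := WF_bound_pr hy hv hc hT h0
  have hp1 : |p| ≤ R := hp.trans (by rw [div_le_iff₀ hc]; exact hRc)
  have hq1 : |q| ≤ R := hq.trans (by rw [div_le_iff₀ hc]; exact hRc)
  set δ := |p - p'| with hδ
  set ε := |q - q'| with hε
  have hδ0 : 0 ≤ δ := abs_nonneg _
  have hε0 : 0 ≤ ε := abs_nonneg _
  have hp2 : |p'| ≤ R + 1 := by
    have : |p'| ≤ |p| + |p - p'| := by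
      have := abs_sub p (p - p')
      rwa [show p - (p - p') = p' by ring] at this
    linarith
  have hq2 : |q'| ≤ R + 1 := by
    have : |q'| ≤ |q| + |q - q'| := by
      have := abs_sub q (q - q')
      rwa [show q - (q - q') = q' by ring] at this
    linarith
  -- the size of `c ^ 2 / X`
  have hcX : c ^ 2 / X * (y * v) ≤ 2 * κ := by
    have h1 : c ^ 2 * ((p ^ 2 + y ^ 2) * (q ^ 2 + v ^ 2)) ≤ 2 * y * v * (κ * X) := by
      unfold WF at h0
      rw [mul_div_assoc', div_le_iff₀ (by positivity)] at h0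
      linarith
    have q1 : 0 ≤ c ^ 2 * (p ^ 2 * v ^ 2) := by positivity
    have q2 : 0 ≤ c ^ 2 * (q ^ 2 * y ^ 2) := by positivity
    have q4 : 0 ≤ c ^ 2 * (p ^ 2 * q ^ 2) := by positivity
    have k3 : c ^ 2 * (y ^ 2 * v ^ 2) ≤ 2 * y * v * (κ * X) := by linarith
    have k4 : c ^ 2 * (y * v) ≤ 2 * κ * X :=
      le_of_mul_le_mul_right (show (c ^ 2 * (y * v)) * (y * v) ≤ (2 * κ * X) * (y * v) by linarith) hyv0
    rw [div_mul_eq_mul_div, div_le_iff₀ hX0]
    exact k4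
  have hcX0 : 0 ≤ c ^ 2 / X := by positivity
  -- the difference of the forms
  have hsq1 : |p ^ 2 - p' ^ 2| ≤ (2 * R + 1) * δ := by
    rw [show p ^ 2 - p' ^ 2 = (p + p') * (p - p') by ring, abs_mul]
    apply mul_le_mul_of_nonneg_right _ hδ0
    have := abs_add_le p p'
    linarith
  have hsq2 : |q ^ 2 - q' ^ 2| ≤ (2 * R + 1) * ε := by
    rw [show q ^ 2 - q' ^ 2 = (q + q') * (q - q') by ring, abs_mul]
    apply mul_le_mul_of_nonneg_right _ hε0
    have := abs_add_le q q'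
    linarith
  have hq3 : q ^ 2 ≤ R ^ 2 := by
    rw [← sq_abs q]
    exact pow_le_pow_left₀ (abs_nonneg q) hq1 2
  have hp3 : p' ^ 2 ≤ (R + 1) ^ 2 := by
    rw [← sq_abs p']
    exact pow_le_pow_left₀ (abs_nonneg p') hp2 2
  set Z := R + y + v with hZ
  have hZ2 : 2 ≤ Z := by linarith
  have hR3 : 2 * R + 1 ≤ 3 * Z := by linarith
  have b1 : q ^ 2 + v ^ 2 ≤ 2 * Z ^ 2 := by
    rw [hZ]; nlinarith
  have b2 : p' ^ 2 + y ^ 2 ≤ 2 * Z ^ 2 := by
    rw [hZ]; nlinarith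
  have hnum : |(p ^ 2 + y ^ 2) * (q ^ 2 + v ^ 2) - (p' ^ 2 + y ^ 2) * (q' ^ 2 + v ^ 2)|
      ≤ 6 * Z ^ 3 * (δ + ε) := by
    rw [show (p ^ 2 + y ^ 2) * (q ^ 2 + v ^ 2) - (p' ^ 2 + y ^ 2) * (q' ^ 2 + v ^ 2)
      = (p ^ 2 - p' ^ 2) * (q ^ 2 + v ^ 2) + (p' ^ 2 + y ^ 2) * (q ^ 2 - q' ^ 2) by ring]
    refine (abs_add_le _ _).trans ?_
    rw [abs_mul, abs_mul, abs_of_nonneg (show 0 ≤ q ^ 2 + v ^ 2 by positivity),
      abs_of_nonneg (show 0 ≤ p' ^ 2 + y ^ 2 by positivity)]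
    have c1 : |p ^ 2 - p' ^ 2| * (q ^ 2 + v ^ 2) ≤ (3 * Z * δ) * (2 * Z ^ 2) :=
      mul_le_mul (hsq1.trans (mul_le_mul_of_nonneg_right hR3 hδ0)) b1 (by positivity) (by positivity)
    have c2 : (p' ^ 2 + y ^ 2) * |q ^ 2 - q' ^ 2| ≤ (2 * Z ^ 2) * (3 * Z * ε) :=
      mul_le_mul b2 (hsq2.trans (mul_le_mul_of_nonneg_right hR3 hε0)) (abs_nonneg _) (by positivity)
    calc _ ≤ (3 * Z * δ) * (2 * Z ^ 2) + (2 * Z ^ 2) * (3 * Z * ε) := add_le_add c1 c2
      _ = 6 * Z ^ 3 * (δ + ε) := by ring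
  have hdiff : |c ^ 2 * WF y v p q / X - c ^ 2 * WF y v p' q' / X| ≤ (96 * κ) * Z ^ 3 * (δ + ε) := by
    have e1 : c ^ 2 * WF y v p q / X - c ^ 2 * WF y v p' q' / X
        = (c ^ 2 / X) * (((p ^ 2 + y ^ 2) * (q ^ 2 + v ^ 2) - (p' ^ 2 + y ^ 2) * (q' ^ 2 + v ^ 2))
          / (2 * (y * v))) := by
      unfold WF
      field_simp
    rw [e1, abs_mul, abs_of_nonneg hcX0, abs_div, abs_of_pos (show 0 < 2 * (y * v) by positivity)]
    have hyv : 1 / 4 ≤ y * v := by nlinarith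
    -- `c²/X ≤ 8 κ`, `1/(2yv) ≤ 2`
    have d1 : c ^ 2 / X ≤ 8 * κ := by
      have := mul_le_mul_of_nonneg_left hyv hcX0
      linarith
    have d2 : |(p ^ 2 + y ^ 2) * (q ^ 2 + v ^ 2) - (p' ^ 2 + y ^ 2) * (q' ^ 2 + v ^ 2)| / (2 * (y * v))
        ≤ 2 * (6 * Z ^ 3 * (δ + ε)) := by
      rw [div_le_iff₀ (by positivity)]
      have w : 0 ≤ 6 * Z ^ 3 * (δ + ε) := by positivity
      have := mul_le_mul_of_nonneg_left hyv w
      linarith
    calc _ ≤ (8 * κ) * (2 * (6 * Z ^ 3 * (δ + ε))) := mul_le_mul d1 d2 (by positivity) (by positivity)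
      _ = (96 * κ) * Z ^ 3 * (δ + ε) := by ring
  calc |β (c ^ 2 * WF y v p q / X) - β (c ^ 2 * WF y v p' q' / X)|
      ≤ Λ * |c ^ 2 * WF y v p q / X - c ^ 2 * WF y v p' q' / X| := hL _ _
    _ ≤ Λ * ((96 * κ) * Z ^ 3 * (δ + ε)) := mul_le_mul_of_nonneg_left hdiff hΛ
    _ = (96 * (Λ * κ)) * Z ^ 3 * (δ + ε) := by ring

theorem WF_lip_pr {β : ℝ → ℝ} {Λ κ : ℝ} (hβ : Tst β Λ κ) : ∃ C₀ : ℝ, 0 < C₀ ∧
    ∀ (X y v c R : ℝ), 1 ≤ X → 1 / 2 ≤ y → 1 / 2 ≤ v → 0 < c → 1 ≤ R →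
      3 * √(κ * X * (y * v)) ≤ R * c →
      (∀ p q, |β (c ^ 2 * WF y v p q / X)| ≤ C₀) ∧
      (∀ p q, (R < |p| ∨ R < |q|) → β (c ^ 2 * WF y v p q / X) = 0) ∧
      ∀ p p' q q', |β (c ^ 2 * WF y v p q / X) - β (c ^ 2 * WF y v p' q' / X)| ≤
        C₀ * (R + y + v) ^ 3 * (|p - p'| + |q - q'|) := by
  have hβ' := hβ
  obtain ⟨hΛ, hκ, hL, hz⟩ := hβ'
  have hΛκ : 0 ≤ Λ * κ := by positivity
  refine ⟨96 * (Λ * κ) + 1, by positivity, ?_⟩
  intro X y v c R hX hy hv hc hR hRc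
  have hX0 : 0 < X := by linarith
  have hy0 : 0 < y := by linarith
  have hv0 : 0 < v := by linarith
  have habs : ∀ p q, |β (c ^ 2 * WF y v p q / X)| ≤ Λ * κ := by
    intro p q
    apply geo_tst_abs hβ
    have := geo_WF_nonneg hy0 hv0 p q
    positivity
  refine ⟨fun p q => (habs p q).trans (by linarith), ?_, ?_⟩
  · intro p q hpq
    apply hz
    by_contra hcon
    rw [not_le] at hcon
    have h0 : c ^ 2 * WF y v p q ≤ κ * X := by
      rw [div_lt_iff₀ hX0] at hcon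
      exact hcon.le
    obtain ⟨-, hp, hq⟩ := WF_bound_pr hy hv hc (show 0 ≤ κ * X by positivity) h0
    have hb : 3 * √(κ * X * (y * v)) / c ≤ R := by rw [div_le_iff₀ hc]; exact hRc
    rcases hpq with h | h
    · linarith
    · linarith
  · intro p p' q q'
    have hδ0 : 0 ≤ |p - p'| := abs_nonneg _
    have hε0 : 0 ≤ |q - q'| := abs_nonneg _
    have hZ1 : 1 ≤ (R + y + v) ^ 3 := one_le_pow₀ (by linarith)
    rcases le_total (|p - p'| + |q - q'|) 1 with hd | hd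
    · have fin : ∀ t : ℝ, t ≤ (96 * (Λ * κ)) * (R + y + v) ^ 3 * (|p - p'| + |q - q'|) →
          t ≤ (96 * (Λ * κ) + 1) * (R + y + v) ^ 3 * (|p - p'| + |q - q'|) := by
        intro t ht
        have : 0 ≤ (R + y + v) ^ 3 * (|p - p'| + |q - q'|) := by positivity
        calc t ≤ _ := ht
          _ ≤ (96 * (Λ * κ)) * (R + y + v) ^ 3 * (|p - p'| + |q - q'|)
              + (R + y + v) ^ 3 * (|p - p'| + |q - q'|) := by linarith
          _ = _ := by ring
      rcases le_total (c ^ 2 * WF y v p q / X) κ with h | h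
      · exact fin _ (geo_lip1 hβ hX hy hv hc hR hRc h hd)
      · rcases le_total (c ^ 2 * WF y v p' q' / X) κ with h' | h'
        · have hd' : |p' - p| + |q' - q| ≤ 1 := by
            rw [abs_sub_comm p', abs_sub_comm q']; exact hd
          have := geo_lip1 hβ hX hy hv hc hR hRc h' hd'
          rw [abs_sub_comm, abs_sub_comm p' p, abs_sub_comm q' q] at this
          exact fin _ this
        · rw [hz _ h, hz _ h', sub_self, abs_zero]
          positivity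
    · have h1 := habs p q
      have h2 := habs p' q'
      have h3 := abs_sub (β (c ^ 2 * WF y v p q / X)) (β (c ^ 2 * WF y v p' q' / X))
      have h4 : 1 ≤ (R + y + v) ^ 3 * (|p - p'| + |q - q'|) := by nlinarith
      have h5 : 0 ≤ 96 * (Λ * κ) + 1 := by positivity
      have h6 := mul_le_mul_of_nonneg_left h4 h5
      calc _ ≤ _ := h3
        _ ≤ Λ * κ + Λ * κ := add_le_add h1 h2
        _ ≤ (96 * (Λ * κ) + 1) * 1 := by linarith
        _ ≤ _ := by rw [mul_assoc]; exact h6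

theorem cosh_dist_smul : type_of% @cosh_dist_smul_pr := @cosh_dist_smul_pr
theorem QF_row : type_of% @QF_row_pr := @QF_row_pr
theorem QF_bound : type_of% @QF_bound_pr := @QF_bound_pr
theorem WF_bound : type_of% @WF_bound_pr := @WF_bound_pr
theorem WF_lip : type_of% @WF_lip_pr := @WF_lip_pr

end Pool.Agent.JOM
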