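import Pool.Agent.Lib_helper68.JOF.DefsF
import Pool.Agent.Lib_helper68.SEL.K2

/-! Block FEJ (project JO, part M): Fejer weights. -/

namespace Pool.Agent.JOM

open MeasureTheory Filter Topology UpperHalfPlane
open scoped MatrixGroups Modular ArithmeticFunction.Moebius

theorem fej_add (x y : ℝ) : ee (x + y) = ee x * ee y := by
  unfold ee
  rw [← Complex.exp_add]
  congr 1
  push_cast
  ring

theorem fej_norm (x : ℝ) : ‖ee x‖ = 1 := by
  unfold ee
  have : (2 * Real.pi * Complex.I * x : ℂ) = ((2 * Real.pi * x : ℝ) : ℂ) * Complex.I := by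
    push_cast; ring
  rw [this, Complex.norm_exp_ofReal_mul_I]

theorem fej_zero : ee 0 = 1 := by
  unfold ee
  simp

theorem fej_conj (x : ℝ) : starRingEnd ℂ (ee x) = ee (-x) := by
  unfold ee
  rw [← Complex.exp_conj]
  congr 1
  simp only [map_mul, Complex.conj_ofReal, Complex.conj_I, map_ofNat]
  push_cast
  ring

theorem fej_pow (m : ℕ) (x : ℝ) : ee (m * x) = ee x ^ m := by
  unfold ee
  rw [← Complex.exp_nat_mul]
  congr 1
  push_cast
  ring

theorem fej_eq_one {N : ℕ} (hN : 0 < N) (k : ℤ) : ee ((k : ℝ) / N) = 1 ↔ (N : ℤ) ∣ k := by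
  unfold ee
  rw [Complex.exp_eq_one_iff]
  have hN' : (N : ℂ) ≠ 0 := by exact_mod_cast hN.ne'
  have hpi : (2 * Real.pi * Complex.I : ℂ) ≠ 0 := by
    simp [Real.pi_ne_zero]
  constructor
  · rintro ⟨j, hj⟩
    refine ⟨j, ?_⟩
    have h1 : (2 * Real.pi * Complex.I : ℂ) * (((k : ℝ) / N : ℝ) : ℂ) =
        (2 * Real.pi * Complex.I : ℂ) * j := by rw [hj]; ring
    have h2 := mul_left_cancel₀ hpi h1
    push_cast at h2
    rw [div_eq_iff hN'] at h2
    have h3 : (k : ℂ) = ((j * N : ℤ) : ℂ) := by push_cast; exact h2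
    have h4 : k = j * N := by exact_mod_cast h3
    rw [h4, mul_comm]
  · rintro ⟨j, rfl⟩
    refine ⟨j, ?_⟩
    push_cast
    field_simp

/-- orthogonality -/
theorem fej_orth {N : ℕ} (hN : 0 < N) (k : ℤ) :
    ∑ m ∈ Finset.range N, ee ((m : ℝ) * k / N) = if (N : ℤ) ∣ k then (N : ℂ) else 0 := by
  have h1 : ∀ m : ℕ, ee ((m : ℝ) * k / N) = ee ((k : ℝ) / N) ^ m := by
    intro m
    rw [← fej_pow]
    congr 1
    ring
  simp only [h1]
  split_ifs with h
  · rw [(fej_eq_one hN k).2 h]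
    simp
  · have hw : ee ((k : ℝ) / N) ≠ 1 := fun h' => h ((fej_eq_one hN k).1 h')
    rw [geom_sum_eq hw, ← fej_pow]
    have h2 : (N : ℝ) * ((k : ℝ) / N) = ((k * N : ℤ) : ℝ) / N := by
      push_cast; ring
    rw [h2, (fej_eq_one hN _).2 (Dvd.intro_left _ rfl), sub_self, zero_div]

/-- the square of the exponential sum -/
theorem fej_sq (N L m : ℕ) : ((‖∑ i ∈ Finset.range L, ee ((m : ℝ) * i / N)‖ ^ 2 : ℝ) : ℂ) =
    ∑ i ∈ Finset.range L, ∑ i' ∈ Finset.range L, ee ((m : ℝ) * ((i : ℤ) - (i' : ℤ) : ℤ) / N) := by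
  push_cast
  rw [← Complex.mul_conj', map_sum, Finset.sum_mul]
  refine Finset.sum_congr rfl fun i _ => ?_
  rw [Finset.mul_sum]
  refine Finset.sum_congr rfl fun i' _ => ?_
  rw [fej_conj, ← fej_add]
  congr 1
  ring

/-- block FEJ: Fejer weights -/
theorem wgt_zero_pr {N L : ℕ} (hL : 0 < L) : wgt N L 0 = 1 := by
  unfold wgt
  have hL' : (L : ℝ) ≠ 0 := by exact_mod_cast hL.ne'
  simp only [Nat.cast_zero, zero_mul, zero_div, fej_zero, Finset.sum_const, Finset.card_range,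
    nsmul_eq_mul, mul_one, Complex.norm_natCast]
  exact div_self (pow_ne_zero 2 hL')

/-- block FEJ -/
theorem wgt_nonneg_pr (N L m : ℕ) : 0 ≤ wgt N L m := by
  unfold wgt
  positivity

/-- the weighted exponential sum counts pairs -/
theorem fej_wgt {N L : ℕ} (hN : 0 < N) (t : ℤ) :
    1 / (N : ℂ) * ∑ m ∈ Finset.range N, (wgt N L m : ℂ) * ee ((m : ℝ) * t / N) =
      1 / (L : ℂ) ^ 2 * ∑ i ∈ Finset.range L, ∑ i' ∈ Finset.range L,
        (if (N : ℤ) ∣ t + ((i : ℤ) - (i' : ℤ)) then (1 : ℂ) else 0) := by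
  have hN' : (N : ℂ) ≠ 0 := by exact_mod_cast hN.ne'
  have h1 : ∀ m : ℕ, (wgt N L m : ℂ) * ee ((m : ℝ) * t / N) = 1 / (L : ℂ) ^ 2 *
      ∑ i ∈ Finset.range L, ∑ i' ∈ Finset.range L,
        ee ((m : ℝ) * ((t + ((i : ℤ) - (i' : ℤ)) : ℤ) : ℝ) / N) := by
    intro m
    unfold wgt
    rw [Complex.ofReal_div, fej_sq, Finset.mul_sum, Finset.sum_div, Finset.sum_mul]
    refine Finset.sum_congr rfl fun i _ => ?_
    rw [Finset.mul_sum, Finset.sum_div, Finset.sum_mul]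
    refine Finset.sum_congr rfl fun i' _ => ?_
    have h2 : ee ((m : ℝ) * ((t + ((i : ℤ) - (i' : ℤ)) : ℤ) : ℝ) / N) =
        ee ((m : ℝ) * ((i : ℤ) - (i' : ℤ) : ℤ) / N) * ee ((m : ℝ) * t / N) := by
      rw [← fej_add]
      congr 1
      push_cast
      ring
    rw [h2]
    push_cast
    ring
  simp only [h1]
  rw [← Finset.mul_sum, Finset.sum_comm]
  have h3 : ∀ i ∈ Finset.range L, ∑ m ∈ Finset.range N, ∑ i' ∈ Finset.range L,
      ee ((m : ℝ) * ((t + ((i : ℤ) - (i' : ℤ)) : ℤ) : ℝ) / N) =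
      (N : ℂ) * ∑ i' ∈ Finset.range L,
        (if (N : ℤ) ∣ t + ((i : ℤ) - (i' : ℤ)) then (1 : ℂ) else 0) := by
    intro i _
    rw [Finset.sum_comm, Finset.mul_sum]
    refine Finset.sum_congr rfl fun i' _ => ?_
    rw [fej_orth hN]
    split_ifs <;> simp
  rw [Finset.sum_congr rfl h3, ← Finset.mul_sum]
  field_simp

/-- block FEJ -/
theorem wgt_sum_pr {N L : ℕ} (hN : 0 < N) (hL : 0 < L) (hLN : L ≤ N) :
    ∑ m ∈ Finset.range N, wgt N L m = (N : ℝ) / L := by
  have hN' : (N : ℂ) ≠ 0 := by exact_mod_cast hN.ne'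
  have hL' : (L : ℂ) ≠ 0 := by exact_mod_cast hL.ne'
  have h1 := fej_wgt (L := L) hN 0
  have h2 : ∀ i ∈ Finset.range L, ∑ i' ∈ Finset.range L,
      (if (N : ℤ) ∣ 0 + ((i : ℤ) - (i' : ℤ)) then (1 : ℂ) else 0) = 1 := by
    intro i hi
    rw [Finset.mem_range] at hi
    rw [Finset.sum_eq_single i]
    · simp
    · intro i' hi' hne
      rw [Finset.mem_range] at hi'
      rw [if_neg]
      intro hd
      have h3 : (i : ℤ) - i' = 0 := by
        rw [zero_add] at hd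
        refine Int.eq_zero_of_abs_lt_dvd hd ?_
        rw [abs_lt]
        constructor <;> omega
      apply hne
      omega
    · intro h
      exact absurd (Finset.mem_range.2 hi) h
  rw [Finset.sum_congr rfl h2, Finset.sum_const, Finset.card_range, nsmul_eq_mul, mul_one] at h1
  have h3 : ∀ m ∈ Finset.range N, (wgt N L m : ℂ) * ee ((m : ℝ) * ((0 : ℤ) : ℝ) / N) =
      (wgt N L m : ℂ) := by
    intro m _
    rw [Int.cast_zero, mul_zero, zero_div, fej_zero, mul_one]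
  rw [Finset.sum_congr rfl h3] at h1
  have h4 : (∑ m ∈ Finset.range N, (wgt N L m : ℂ)) = (N : ℂ) / L := by
    have h5 : (∑ m ∈ Finset.range N, (wgt N L m : ℂ)) =
        (N : ℂ) * (1 / (N : ℂ) * ∑ m ∈ Finset.range N, (wgt N L m : ℂ)) := by
      field_simp
    rw [h5, h1]
    field_simp
  apply Complex.ofReal_injective
  push_cast
  exact h4

/-- block FEJ -/
theorem wgt_le_pr {N L m : ℕ} (hL : 0 < L) (hm : 0 < m) (hmN : m < N) :
    wgt N L m ≤ ((N : ℝ) / (2 * L * min m (N - m) : ℕ)) ^ 2 := by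
  have hN : 0 < N := by omega
  have hN' : (0 : ℝ) < N := by exact_mod_cast hN
  have hL' : (0 : ℝ) < L := by exact_mod_cast hL
  set l := min m (N - m) with hl
  have hl0 : 0 < l := by
    rw [hl, lt_min_iff]
    omega
  have hl0' : (0 : ℝ) < l := by exact_mod_cast hl0
  have hsin : 2 * (l : ℝ) / N ≤ Real.sin (Real.pi * m / N) := by
    rcases le_total (2 * m) N with h | h
    · have h' : 2 * (m : ℝ) ≤ N := by exact_mod_cast h
      have h5 := Real.mul_le_sin (x := Real.pi * m / N) (by positivity) (by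
        rw [div_le_div_iff₀ hN' two_pos]
        nlinarith [Real.pi_pos])
      have h6 : 2 / Real.pi * (Real.pi * m / N) = 2 * m / N := by
        field_simp
      rw [h6] at h5
      refine le_trans ?_ h5
      have : (l : ℝ) ≤ m := by exact_mod_cast min_le_left _ _
      gcongr
    · have h' : (N : ℝ) ≤ 2 * m := by exact_mod_cast h
      have hpn : ((N - m : ℕ) : ℝ) = N - m := by
        rw [Nat.cast_sub hmN.le]
      have h5 := Real.mul_le_sin (x := Real.pi * (N - m : ℕ) / N) (by positivity) (by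
        rw [div_le_div_iff₀ hN' two_pos, hpn]
        nlinarith [Real.pi_pos])
      have h6 : 2 / Real.pi * (Real.pi * (N - m : ℕ) / N) = 2 * (N - m : ℕ) / N := by
        field_simp
      rw [h6] at h5
      have h8 : Real.sin (Real.pi * (N - m : ℕ) / N) = Real.sin (Real.pi * m / N) := by
        rw [hpn, ← Real.sin_pi_sub]
        congr 1
        field_simp
        ring
      rw [h8] at h5
      refine le_trans ?_ h5
      have : (l : ℝ) ≤ (N - m : ℕ) := by exact_mod_cast min_le_right _ _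
      gcongr
  have hsin0 : 0 < Real.sin (Real.pi * m / N) := lt_of_lt_of_le (by positivity) hsin
  have hw1 : ‖ee ((m : ℝ) / N) - 1‖ = 2 * Real.sin (Real.pi * m / N) := by
    unfold ee
    have h3 : (2 * Real.pi * Complex.I * (((m : ℝ) / N : ℝ) : ℂ)) =
        Complex.I * ((2 * Real.pi * m / N : ℝ) : ℂ) := by
      push_cast
      ring
    rw [h3, Complex.norm_exp_I_mul_ofReal_sub_one]
    have h4 : (2 * Real.pi * m / N) / 2 = Real.pi * m / N := by ring
    rw [h4, norm_mul, Real.norm_eq_abs, Real.norm_eq_abs, abs_two, abs_of_pos hsin0]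
  have hwne : ee ((m : ℝ) / N) ≠ 1 := by
    intro h
    rw [h, sub_self, norm_zero] at hw1
    linarith
  have hS : ‖∑ i ∈ Finset.range L, ee ((m : ℝ) * i / N)‖ ≤ N / (2 * l) := by
    have h1 : ∀ i : ℕ, ee ((m : ℝ) * i / N) = ee ((m : ℝ) / N) ^ i := by
      intro i
      rw [← fej_pow]
      congr 1
      ring
    simp only [h1]
    rw [geom_sum_eq hwne, norm_div, hw1]
    have h2 : ‖ee ((m : ℝ) / N) ^ L - 1‖ ≤ 2 := by
      refine (norm_sub_le _ _).trans ?_
      rw [norm_pow, fej_norm, one_pow, norm_one]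
      norm_num
    calc ‖ee ((m : ℝ) / N) ^ L - 1‖ / (2 * Real.sin (Real.pi * m / N))
        ≤ 2 / (2 * (2 * (l : ℝ) / N)) := by gcongr
      _ = N / (2 * l) := by field_simp
  unfold wgt
  rw [← div_pow]
  have h9 : ‖∑ i ∈ Finset.range L, ee ((m : ℝ) * i / N)‖ / L ≤ (N : ℝ) / (2 * L * l : ℕ) := by
    rw [div_le_iff₀ hL']
    refine hS.trans (le_of_eq ?_)
    push_cast
    field_simp
  gcongr

/-- block FEJ: tails -/
theorem wgt_tail_pr {N L M₀ : ℕ} (hN : 0 < N) (hL : 0 < L) (hM : 0 < M₀) :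
    ∑ m ∈ (Finset.range N).filter (fun m => M₀ < min m (N - m)), wgt N L m ≤
      (N : ℝ) ^ 2 / (L ^ 2 * M₀) := by
  have hN' : (0 : ℝ) < N := by exact_mod_cast hN
  have hL' : (0 : ℝ) < L := by exact_mod_cast hL
  have hM' : (0 : ℝ) < M₀ := by exact_mod_cast hM
  set S := (Finset.range N).filter (fun m => M₀ < min m (N - m)) with hS
  have hmem : ∀ m ∈ S, M₀ < m ∧ M₀ < N - m ∧ m < N := by
    intro m hm
    rw [hS, Finset.mem_filter, Finset.mem_range, lt_min_iff] at hm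
    exact ⟨hm.2.1, hm.2.2, hm.1⟩
  have h1 : ∀ m ∈ S, wgt N L m ≤ (N : ℝ) ^ 2 / (4 * L ^ 2) *
      (((m : ℝ) ^ 2)⁻¹ + (((N - m : ℕ) : ℝ) ^ 2)⁻¹) := by
    intro m hm
    obtain ⟨h2, h3, h4⟩ := hmem m hm
    refine (wgt_le_pr hL (by omega) h4).trans ?_
    have hm0 : (0 : ℝ) < m := by exact_mod_cast (by omega : 0 < m)
    have hn0 : (0 : ℝ) < (N - m : ℕ) := by exact_mod_cast (by omega : 0 < N - m)
    have h5 : (((min m (N - m) : ℕ) : ℝ) ^ 2)⁻¹ ≤ ((m : ℝ) ^ 2)⁻¹ + (((N - m : ℕ) : ℝ) ^ 2)⁻¹ := by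
      rcases le_total m (N - m) with h | h
      · rw [min_eq_left h]
        have : 0 < (((N - m : ℕ) : ℝ) ^ 2)⁻¹ := by positivity
        linarith
      · rw [min_eq_right h]
        have : 0 < ((m : ℝ) ^ 2)⁻¹ := by positivity
        linarith
    calc ((N : ℝ) / (2 * L * min m (N - m) : ℕ)) ^ 2
        = (N : ℝ) ^ 2 / (4 * L ^ 2) * (((min m (N - m) : ℕ) : ℝ) ^ 2)⁻¹ := by
          push_cast
          rw [div_pow, mul_pow, mul_pow]
          ring
      _ ≤ _ := by gcongr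
  refine (Finset.sum_le_sum h1).trans ?_
  rw [← Finset.mul_sum, Finset.sum_add_distrib]
  have h2 : ∑ m ∈ S, ((m : ℝ) ^ 2)⁻¹ ≤ (M₀ : ℝ)⁻¹ := by
    rcases le_total M₀ N with h | h
    · calc ∑ m ∈ S, ((m : ℝ) ^ 2)⁻¹ ≤ ∑ m ∈ Finset.Ioc M₀ N, ((m : ℝ) ^ 2)⁻¹ := by
            refine Finset.sum_le_sum_of_subset_of_nonneg ?_ fun _ _ _ => by positivity
            intro m hm
            obtain ⟨h2, h3, h4⟩ := hmem m hm
            rw [Finset.mem_Ioc]
            omega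
        _ ≤ (M₀ : ℝ)⁻¹ - (N : ℝ)⁻¹ := sum_Ioc_inv_sq_le_sub hM.ne' h
        _ ≤ (M₀ : ℝ)⁻¹ := by
            have : 0 < (N : ℝ)⁻¹ := by positivity
            linarith
    · have : S = ∅ := by
        rw [Finset.eq_empty_iff_forall_notMem]
        intro m hm
        obtain ⟨h2, h3, h4⟩ := hmem m hm
        omega
      rw [this, Finset.sum_empty]
      positivity
  have h3 : ∑ m ∈ S, (((N - m : ℕ) : ℝ) ^ 2)⁻¹ ≤ (M₀ : ℝ)⁻¹ := by
    rcases le_total M₀ N with h | h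
    · have h4 : ∑ m ∈ S, (((N - m : ℕ) : ℝ) ^ 2)⁻¹ =
          ∑ m ∈ S.image (fun m => N - m), ((m : ℝ) ^ 2)⁻¹ := by
        rw [Finset.sum_image]
        intro a ha b hb hab
        obtain ⟨a2, a3, a4⟩ := hmem a ha
        obtain ⟨b2, b3, b4⟩ := hmem b hb
        have hab' : N - a = N - b := hab
        omega
      rw [h4]
      calc ∑ m ∈ S.image (fun m => N - m), ((m : ℝ) ^ 2)⁻¹
          ≤ ∑ m ∈ Finset.Ioc M₀ N, ((m : ℝ) ^ 2)⁻¹ := by
            refine Finset.sum_le_sum_of_subset_of_nonneg ?_ fun _ _ _ => by positivity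
            intro m hm
            obtain ⟨a, ha, rfl⟩ := Finset.mem_image.1 hm
            obtain ⟨h2, h3, h4⟩ := hmem a ha
            rw [Finset.mem_Ioc]
            omega
        _ ≤ (M₀ : ℝ)⁻¹ - (N : ℝ)⁻¹ := sum_Ioc_inv_sq_le_sub hM.ne' h
        _ ≤ (M₀ : ℝ)⁻¹ := by
            have : 0 < (N : ℝ)⁻¹ := by positivity
            linarith
    · have : S = ∅ := by
        rw [Finset.eq_empty_iff_forall_notMem]
        intro m hm
        obtain ⟨h2, h3, h4⟩ := hmem m hm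
        omega
      rw [this, Finset.sum_empty]
      positivity
  calc (N : ℝ) ^ 2 / (4 * L ^ 2) * (∑ m ∈ S, ((m : ℝ) ^ 2)⁻¹ + ∑ m ∈ S, (((N - m : ℕ) : ℝ) ^ 2)⁻¹)
      ≤ (N : ℝ) ^ 2 / (4 * L ^ 2) * ((M₀ : ℝ)⁻¹ + (M₀ : ℝ)⁻¹) := by gcongr
    _ = 1 / 2 * ((N : ℝ) ^ 2 / (L ^ 2 * M₀)) := by
        field_simp
        norm_num
    _ ≤ (N : ℝ) ^ 2 / (L ^ 2 * M₀) := by
        have : 0 ≤ (N : ℝ) ^ 2 / (L ^ 2 * M₀) := by positivity
        linarith

/-- points of a progression in an interval -/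
theorem fej_count {N : ℕ} (hN : 0 < N) (a₀ : ℤ) (M : ℕ) :
    (((Finset.Icc (-(M : ℤ)) M).filter (fun b => (N : ℤ) ∣ b - a₀)).card : ℝ) ≤
      (2 * (M : ℝ) + 1) / N + 1 := by
  have hN' : (0 : ℤ) < N := by exact_mod_cast hN
  have h1 : (Finset.Icc (-(M : ℤ)) M).filter (fun b => (N : ℤ) ∣ b - a₀) =
      (Finset.Ioc (-(M : ℤ) - 1) M).filter (fun b => b ≡ a₀ [ZMOD N]) := by
    ext b
    rw [Finset.mem_filter, Finset.mem_filter, Finset.mem_Icc, Finset.mem_Ioc,
      Int.modEq_comm, Int.modEq_iff_dvd]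
    constructor
    · rintro ⟨⟨h1, h2⟩, h3⟩
      exact ⟨⟨by omega, h2⟩, h3⟩
    · rintro ⟨⟨h1, h2⟩, h3⟩
      exact ⟨⟨by omega, h2⟩, h3⟩
  rw [h1]
  have h2 := Int.Ioc_filter_modEq_card (-(M : ℤ) - 1) M hN' a₀
  have h3 : ((((Finset.Ioc (-(M : ℤ) - 1) M).filter (fun b => b ≡ a₀ [ZMOD N])).card : ℤ) : ℝ) ≤
      (2 * (M : ℝ) + 1) / N + 1 := by
    rw [h2]
    push_cast
    rw [max_le_iff]
    constructor
    · have h4 := Int.floor_le (((M : ℤ) - a₀ : ℚ) / (N : ℤ))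
      have h5 := Int.lt_floor_add_one (((-(M : ℤ) - 1 : ℤ) - a₀ : ℚ) / (N : ℤ))
      have h4' : ((⌊(((M : ℤ) - a₀ : ℚ) / (N : ℤ))⌋ : ℤ) : ℝ) ≤ ((M : ℝ) - a₀) / N := by
        have := (Rat.cast_le (K := ℝ)).2 h4
        push_cast at this ⊢
        exact this
      have h5' : (-(M : ℝ) - 1 - a₀) / N < ((⌊(((-(M : ℤ) - 1 : ℤ) - a₀ : ℚ) / (N : ℤ))⌋ : ℤ) : ℝ) + 1 := by
        have := (Rat.cast_lt (K := ℝ)).2 h5
        push_cast at this ⊢
        exact this
      have h6 : ((M : ℝ) - a₀) / N - (-(M : ℝ) - 1 - a₀) / N = (2 * (M : ℝ) + 1) / N := by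
        rw [← sub_div]
        congr 1
        ring
      push_cast at h4' h5' ⊢
      linarith
    · positivity
  exact_mod_cast h3

open Classical in
/-- block FEJ: smoothing of the congruence -/
theorem fejer_pr (N L R : ℕ) (hN : 0 < N) (hL : 0 < L) (a₀ : ℤ) (g : ℤ → ℝ) (η : ℝ)
    (hs : ∀ a : ℤ, (R : ℤ) < |a| → g a = 0)
    (hη : ∀ a k : ℤ, |k| < L → |g (a + k) - g a| ≤ η) :
    ‖((∑ a ∈ (Finset.Icc (-(R : ℤ)) R).filter (fun a => (N : ℤ) ∣ a - a₀), g a : ℝ) : ℂ) -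
      1 / N * ∑ m ∈ Finset.range N, (wgt N L m : ℂ) * (ee (-(m * a₀) / N) *
        ∑ a ∈ Finset.Icc (-(R : ℤ)) R, ee (m * a / N) * (g a : ℂ))‖ ≤
      η * (2 * (R + L) / N + 1) := by
  have hN' : (0 : ℝ) < N := by exact_mod_cast hN
  have hL' : (0 : ℝ) < L := by exact_mod_cast hL
  have hLc : (L : ℂ) ≠ 0 := by exact_mod_cast hL.ne'
  have hη0 : 0 ≤ η := by
    have := hη 0 0 (by rw [abs_zero]; exact_mod_cast hL)
    exact (abs_nonneg _).trans this
  set M := R + L - 1 with hM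
  set I := Finset.Icc (-(M : ℤ)) (M : ℤ) with hI
  set T : ℝ := ∑ b ∈ I, (if (N : ℤ) ∣ b - a₀ then g b else 0) with hT
  set U : ℕ → ℕ → ℝ := fun i i' =>
    ∑ b ∈ I, (if (N : ℤ) ∣ b - a₀ then g (b + ((i' : ℤ) - i)) else 0) with hU
  have h1 : (∑ a ∈ (Finset.Icc (-(R : ℤ)) R).filter (fun a => (N : ℤ) ∣ a - a₀), g a) = T := by
    rw [Finset.sum_filter, hT]
    refine Finset.sum_subset ?_ ?_
    · intro a ha
      rw [Finset.mem_Icc] at ha
      rw [hI, Finset.mem_Icc]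
      constructor <;> omega
    · intro a _ ha
      have : g a = 0 := by
        refine hs a ?_
        by_contra h
        apply ha
        rw [Finset.mem_Icc]
        exact abs_le.1 (not_lt.1 h)
      rw [this, ite_self]
  have h2 : (1 / (N : ℂ) * ∑ m ∈ Finset.range N, (wgt N L m : ℂ) * (ee (-(m * a₀) / N) *
        ∑ a ∈ Finset.Icc (-(R : ℤ)) R, ee (m * a / N) * (g a : ℂ))) =
      ((1 / (L : ℝ) ^ 2 * ∑ i ∈ Finset.range L, ∑ i' ∈ Finset.range L, U i i' : ℝ) : ℂ) := by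
    have e1 : ∀ m ∈ Finset.range N, (wgt N L m : ℂ) * (ee (-(m * a₀) / N) *
        ∑ a ∈ Finset.Icc (-(R : ℤ)) R, ee (m * a / N) * (g a : ℂ)) =
        ∑ a ∈ Finset.Icc (-(R : ℤ)) R,
          (wgt N L m : ℂ) * ee ((m : ℝ) * ((a - a₀ : ℤ) : ℝ) / N) * (g a : ℂ) := by
      intro m _
      rw [Finset.mul_sum, Finset.mul_sum]
      refine Finset.sum_congr rfl fun a _ => ?_
      have : ee ((m : ℝ) * ((a - a₀ : ℤ) : ℝ) / N) = ee (-(m * a₀) / N) * ee (m * a / N) := by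
        rw [← fej_add]
        congr 1
        push_cast
        ring
      rw [this]
      ring
    rw [Finset.sum_congr rfl e1, Finset.sum_comm, Finset.mul_sum]
    have e2 : ∀ a ∈ Finset.Icc (-(R : ℤ)) (R : ℤ), 1 / (N : ℂ) * ∑ m ∈ Finset.range N,
        (wgt N L m : ℂ) * ee ((m : ℝ) * ((a - a₀ : ℤ) : ℝ) / N) * (g a : ℂ) =
        1 / (L : ℂ) ^ 2 * ∑ i ∈ Finset.range L, ∑ i' ∈ Finset.range L,
          ((if (N : ℤ) ∣ (a - a₀) + ((i : ℤ) - (i' : ℤ)) then g a else 0 : ℝ) : ℂ) := by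
      intro a _
      rw [← Finset.sum_mul, ← mul_assoc, fej_wgt hN, mul_assoc, Finset.sum_mul]
      congr 1
      refine Finset.sum_congr rfl fun i _ => ?_
      rw [Finset.sum_mul]
      refine Finset.sum_congr rfl fun i' _ => ?_
      split_ifs <;> simp
    rw [Finset.sum_congr rfl e2, ← Finset.mul_sum, Finset.sum_comm]
    push_cast
    congr 1
    refine Finset.sum_congr rfl fun i hi => ?_
    rw [Finset.sum_comm]
    refine Finset.sum_congr rfl fun i' hi' => ?_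
    rw [Finset.mem_range] at hi hi'
    -- shift
    have e3 : ∑ a ∈ Finset.Icc (-(R : ℤ)) (R : ℤ),
        (if (N : ℤ) ∣ (a - a₀) + ((i : ℤ) - (i' : ℤ)) then g a else 0) = U i i' := by
      have e4 : ∑' a : ℤ, (if (N : ℤ) ∣ (a - a₀) + ((i : ℤ) - (i' : ℤ)) then g a else 0) =
          ∑ a ∈ Finset.Icc (-(R : ℤ)) (R : ℤ),
            (if (N : ℤ) ∣ (a - a₀) + ((i : ℤ) - (i' : ℤ)) then g a else 0) := by
        rw [tsum_eq_sum]
        intro a ha
        have : g a = 0 := by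
          refine hs a ?_
          by_contra h
          apply ha
          rw [Finset.mem_Icc]
          exact abs_le.1 (not_lt.1 h)
        rw [this, ite_self]
      have e5 : ∑' b : ℤ, (if (N : ℤ) ∣ b - a₀ then g (b + ((i' : ℤ) - i)) else 0) = U i i' := by
        rw [hU, tsum_eq_sum]
        intro b hb
        have : g (b + ((i' : ℤ) - i)) = 0 := by
          refine hs _ ?_
          by_contra h
          apply hb
          have h' := abs_le.1 (not_lt.1 h)
          rw [hI, Finset.mem_Icc]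
          constructor <;> omega
        rw [this, ite_self]
      rw [← e4, ← e5, ← (Equiv.addRight ((i' : ℤ) - i)).tsum_eq
        (fun a : ℤ => (if (N : ℤ) ∣ (a - a₀) + ((i : ℤ) - (i' : ℤ)) then g a else 0))]
      refine tsum_congr fun b => ?_
      simp only [Equiv.coe_addRight]
      have : b + ((i' : ℤ) - i) - a₀ + ((i : ℤ) - i') = b - a₀ := by ring
      rw [this]
    rw [← e3]
    push_cast
    rfl
  have h3 : ∀ i ∈ Finset.range L, ∀ i' ∈ Finset.range L,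
      |U i i' - T| ≤ η * (2 * (R + L) / N + 1) := by
    intro i hi i' hi'
    rw [Finset.mem_range] at hi hi'
    rw [hU, hT, ← Finset.sum_sub_distrib]
    have e1 : ∀ b ∈ I, ((if (N : ℤ) ∣ b - a₀ then g (b + ((i' : ℤ) - i)) else 0) -
        (if (N : ℤ) ∣ b - a₀ then g b else 0)) =
        if (N : ℤ) ∣ b - a₀ then (g (b + ((i' : ℤ) - i)) - g b) else 0 := by
      intro b _
      split_ifs <;> simp
    rw [Finset.sum_congr rfl e1, ← Finset.sum_filter]
    refine (Finset.abs_sum_le_sum_abs _ _).trans ?_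
    have e2 : ∀ b ∈ I.filter (fun b => (N : ℤ) ∣ b - a₀), |g (b + ((i' : ℤ) - i)) - g b| ≤ η := by
      intro b _
      refine hη b _ ?_
      rw [abs_lt]
      constructor <;> omega
    refine (Finset.sum_le_sum e2).trans ?_
    rw [Finset.sum_const, nsmul_eq_mul, mul_comm]
    refine mul_le_mul_of_nonneg_left ((fej_count hN a₀ M).trans ?_) hη0
    have e3 : 2 * (M : ℝ) + 1 ≤ 2 * (R + L) := by
      have : 2 * M + 1 ≤ 2 * (R + L) := by omega
      exact_mod_cast this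
    gcongr
  rw [h1, h2, ← Complex.ofReal_sub, Complex.norm_real, Real.norm_eq_abs]
  have h4 : T - 1 / (L : ℝ) ^ 2 * ∑ i ∈ Finset.range L, ∑ i' ∈ Finset.range L, U i i' =
      -(1 / (L : ℝ) ^ 2 * ∑ i ∈ Finset.range L, ∑ i' ∈ Finset.range L, (U i i' - T)) := by
    simp only [Finset.sum_sub_distrib, Finset.sum_const, Finset.card_range, nsmul_eq_mul]
    field_simp
    ring
  rw [h4, abs_neg, abs_mul, abs_of_nonneg (by positivity : (0 : ℝ) ≤ 1 / (L : ℝ) ^ 2)]
  have h5 : |∑ i ∈ Finset.range L, ∑ i' ∈ Finset.range L, (U i i' - T)| ≤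
      (L : ℝ) ^ 2 * (η * (2 * (R + L) / N + 1)) := by
    refine (Finset.abs_sum_le_sum_abs _ _).trans ?_
    calc ∑ i ∈ Finset.range L, |∑ i' ∈ Finset.range L, (U i i' - T)|
        ≤ ∑ _i ∈ Finset.range L, (L : ℝ) * (η * (2 * (R + L) / N + 1)) := by
          refine Finset.sum_le_sum fun i hi => ?_
          refine (Finset.abs_sum_le_sum_abs _ _).trans ?_
          refine (Finset.sum_le_sum fun i' hi' => h3 i hi i' hi').trans (le_of_eq ?_)
          rw [Finset.sum_const, Finset.card_range, nsmul_eq_mul]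
      _ = (L : ℝ) ^ 2 * (η * (2 * (R + L) / N + 1)) := by
          rw [Finset.sum_const, Finset.card_range, nsmul_eq_mul]
          ring
  calc 1 / (L : ℝ) ^ 2 * |∑ i ∈ Finset.range L, ∑ i' ∈ Finset.range L, (U i i' - T)|
      ≤ 1 / (L : ℝ) ^ 2 * ((L : ℝ) ^ 2 * (η * (2 * (R + L) / N + 1))) := by gcongr
    _ = η * (2 * (R + L) / N + 1) := by field_simp


theorem wgt_zero : type_of% @wgt_zero_pr := @wgt_zero_pr
theorem wgt_nonneg : type_of% @wgt_nonneg_pr := @wgt_nonneg_pr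
theorem wgt_sum : type_of% @wgt_sum_pr := @wgt_sum_pr
theorem wgt_le : type_of% @wgt_le_pr := @wgt_le_pr
theorem wgt_tail : type_of% @wgt_tail_pr := @wgt_tail_pr
theorem fejer : type_of% @fejer_pr := @fejer_pr

end Pool.Agent.JOM
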