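import Pool.Agent.Lib_helper68.JOF.DefsF
import Pool.Agent.Lib_helper68.SEL.K2
import Pool.Agent.Lib_helper68.SEL.K3

/-! Block PHS (project JO, part M): existence and uniqueness of the upper left entry, and the
incomplete sum over the shifts `d + n s j`. -/

namespace Pool.Agent.JOM

open MeasureTheory Filter Topology UpperHalfPlane
open scoped MatrixGroups Modular ArithmeticFunction.Moebius

/-- block PHS: existence and uniqueness of `a` modulo `c n` -/
theorem Vp_exists_pr {n : ℕ} (hn : 0 < n) {A B C D c : ℤ} (hc : c ≠ 0) (h : Cls n A B C D)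
    (hcC : (n : ℤ) ∣ c - C) {d : ℤ} (hd : Adm n D c d) : ∃ a, Vp n A B D c a d := by
  obtain ⟨⟨x, y, hxy⟩, hdD⟩ := hd
  obtain ⟨e1, h1⟩ := h
  obtain ⟨e2, h2⟩ := hcC
  obtain ⟨e3, h3⟩ := hdD
  have h4 : A * d - 1 - c * B = n * (e1 + A * e3 - B * e2) := by
    linear_combination h1 + A * h3 - B * h2
  refine ⟨A + n * (-y * (e1 + A * e3 - B * e2)), ⟨-y * (e1 + A * e3 - B * e2), by ring⟩,
    ⟨e3, h3⟩, ⟨(e1 + A * e3 - B * e2) * x, ?_⟩⟩
  linear_combination h4 - (n * (e1 + A * e3 - B * e2)) * hxy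

/-- block PHS -/
theorem Vp_iff_pr {n : ℕ} (hn : 0 < n) {A B D c a a' d : ℤ} (hc : c ≠ 0) (h : Vp n A B D c a d)
    (hcd : IsCoprime c d) : Vp n A B D c a' d ↔ c * n ∣ a' - a := by
  obtain ⟨h1, h2, h3⟩ := h
  have hn' : (n : ℤ) ≠ 0 := by exact_mod_cast hn.ne'
  constructor
  · rintro ⟨g1, -, g3⟩
    obtain ⟨t, ht⟩ : (n : ℤ) ∣ a' - a := by
      have := dvd_sub g1 h1
      rwa [sub_sub_sub_cancel_right] at this
    have h4 : c * n ∣ n * (t * d) := by
      have := dvd_sub g3 h3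
      have e : a' * d - 1 - c * B - (a * d - 1 - c * B) = n * (t * d) := by
        linear_combination d * ht
      rwa [e] at this
    have h5 : c ∣ t * d := by
      rw [mul_comm c] at h4
      exact Int.dvd_of_mul_dvd_mul_left hn' h4
    have h6 : c ∣ t := hcd.dvd_of_dvd_mul_right h5
    rw [ht, mul_comm]
    exact mul_dvd_mul_left _ h6
  · intro h4
    refine ⟨?_, h2, ?_⟩
    · have h5 : (n : ℤ) ∣ a' - a := (Dvd.intro_left c rfl).trans h4
      have := dvd_add h5 h1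
      rwa [sub_add_sub_cancel] at this
    · have h5 := dvd_add (h4.mul_right d) h3
      have e : (a' - a) * d + (a * d - 1 - c * B) = a' * d - 1 - c * B := by ring
      rwa [e] at h5

/-- block PHS -/
theorem Vp_adm_pr {n : ℕ} (hn : 0 < n) {A B D c a d : ℤ} (h : Vp n A B D c a d) :
    Adm n D c d := by
  obtain ⟨-, h2, k, hk⟩ := h
  exact ⟨⟨-(B + n * k), a, by linear_combination hk⟩, h2⟩

theorem phs_mul_inv {r : ℕ} (x y : ZMod r) (hx : IsUnit x) (hy : IsUnit y) :
    (x * y)⁻¹ = x⁻¹ * y⁻¹ := by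
  obtain ⟨u, rfl⟩ := hx
  obtain ⟨v, rfl⟩ := hy
  rw [← Units.val_mul, ZMod.inv_coe_unit, ZMod.inv_coe_unit, ZMod.inv_coe_unit, mul_inv,
    Units.val_mul]

theorem phs_ee_add (x y : ℝ) : ee (x + y) = ee x * ee y := by
  unfold ee
  rw [← Complex.exp_add]
  congr 1
  push_cast
  ring

theorem phs_ee_int (k : ℤ) : ee k = 1 := by
  unfold ee
  rw [Complex.exp_eq_one_iff]
  exact ⟨k, by push_cast; ring⟩

theorem phs_ee_norm (x : ℝ) : ‖ee x‖ = 1 := by
  unfold ee
  have : (2 * Real.pi * Complex.I * x : ℂ) = ((2 * Real.pi * x : ℝ) : ℂ) * Complex.I := by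
    push_cast; ring
  rw [this, Complex.norm_exp_ofReal_mul_I]

theorem phs_ee_std {r : ℕ} [NeZero r] (k : ℤ) :
    ee ((k : ℝ) / r) = (ZMod.stdAddChar (N := r) (k : ZMod r) : ℂ) := by
  rw [ZMod.stdAddChar_coe]
  unfold ee
  congr 1
  push_cast
  ring

open Classical in
/-- block PHS: the incomplete sum over the shifts `d + n s j` -/
theorem phase_sum_pr {r s n : ℕ} (hr : Squarefree r) (hs : 0 < s) (hn : 0 < n)
    (h : r.Coprime (s * n)) (A B D m d : ℤ) (hm : IsCoprime m (r : ℤ)) (α : ℤ → ℤ)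
    (hα : ∀ j : ℤ, Adm n D (r * s : ℕ) j → Vp n A B D (r * s : ℕ) (α j) j)
    (J : ℕ) (hJ : J ≤ r) :
    ‖∑ j ∈ (Finset.range J).filter (fun j : ℕ => Adm n D (r * s : ℕ) (d + (n * s * j : ℕ))),
        ee (m * α (d + (n * s * j : ℕ)) / (r * s * n : ℕ))‖ ≤
      2 ^ r.primeFactors.card * (r : ℝ) ^ (3 / 4 : ℝ) * (3 + Real.log r) := by
  have hr0 : NeZero r := ⟨hr.ne_zero⟩
  have hr1 : 1 ≤ r := Nat.one_le_iff_ne_zero.2 hr.ne_zero
  have hRHS : 0 ≤ 2 ^ r.primeFactors.card * (r : ℝ) ^ (3 / 4 : ℝ) * (3 + Real.log r) := by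
    have : 0 ≤ Real.log r := Real.log_nonneg (by exact_mod_cast hr1)
    positivity
  rcases ((Finset.range J).filter
    (fun j : ℕ => Adm n D (r * s : ℕ) (d + (n * s * j : ℕ)))).eq_empty_or_nonempty with he | ⟨j₀, hj₀⟩
  · rw [he, Finset.sum_empty, norm_zero]
    exact hRHS
  rw [Finset.mem_filter] at hj₀
  obtain ⟨-, hj₀⟩ := hj₀
  have hn' : (n : ℤ) ≠ 0 := by exact_mod_cast hn.ne'
  have hrs : r.Coprime s := h.coprime_dvd_right (Dvd.intro _ rfl)
  have hrn : r.Coprime n := h.coprime_dvd_right (Dvd.intro_left _ rfl)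
  -- Bezout
  obtain ⟨u, v, huv⟩ : ∃ u v : ℤ, u * r + v * (s * n) = 1 := by
    obtain ⟨a, b, hab⟩ := (Nat.isCoprime_iff_coprime.2 h)
    exact ⟨a, b, by push_cast at hab; linear_combination hab⟩
  have hnr : IsUnit (n : ZMod r) := (ZMod.isUnit_iff_coprime n r).2 hrn.symm
  have hsr : IsUnit (s : ZMod r) := (ZMod.isUnit_iff_coprime s r).2 hrs.symm
  have hmr : IsUnit (m : ZMod r) := by
    rw [ZMod.coe_int_isUnit_iff_isCoprime]
    exact hm.symm
  have hvr : IsUnit (v : ZMod r) := by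
    have := congrArg (Int.cast : ℤ → ZMod r) huv
    push_cast at this
    rw [ZMod.natCast_self, mul_zero, zero_add] at this
    exact IsUnit.of_mul_eq_one _ this
  set κ : ZMod r := (n : ZMod r) * (s : ZMod r) with hκ
  have hκ0 : IsUnit κ := hnr.mul hsr
  have hκi : IsUnit κ⁻¹ := by
    obtain ⟨k, hk⟩ := hκ0
    rw [← hk, ZMod.inv_coe_unit]
    exact Units.isUnit _
  set b : ZMod r := (d : ZMod r) * κ⁻¹ with hb
  set α' : ZMod r := (m : ZMod r) * (v : ZMod r) * κ⁻¹ with hα'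
  have hα0 : IsUnit α' := (hmr.mul hvr).mul hκi
  have hDp : ∀ j : ℕ, ((d + (n * s * j : ℕ) : ℤ) : ZMod r) = κ * (b + (j : ZMod r)) := by
    intro j
    push_cast
    have h1 : κ * κ⁻¹ = 1 := ZMod.mul_inv_of_unit _ hκ0
    calc (d : ZMod r) + n * s * j = (κ * κ⁻¹) * d + n * s * j := by rw [h1, one_mul]
      _ = κ * (b + (j : ZMod r)) := by rw [hb, hκ]; ring
  -- admissibility
  have hadm : ∀ j : ℕ, Adm n D (r * s : ℕ) (d + (n * s * j : ℕ)) ↔ IsUnit (b + (j : ZMod r)) := by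
    intro j
    have h1 : IsCoprime (s : ℤ) (d + (n * s * j : ℕ)) := by
      have h2 : IsCoprime (s : ℤ) (d + (n * s * j₀ : ℕ)) := by
        have := hj₀.1
        push_cast at this
        push_cast
        exact this.of_mul_left_right
      obtain ⟨x, y, hxy⟩ := h2
      refine ⟨x + y * n * j₀ - y * n * j, y, ?_⟩
      push_cast at hxy ⊢
      linear_combination hxy
    have h2 : (n : ℤ) ∣ d + (n * s * j : ℕ) - D := by
      obtain ⟨k, hk⟩ := hj₀.2
      refine ⟨k + s * j - s * j₀, ?_⟩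
      push_cast at hk ⊢
      linear_combination hk
    have h3 : IsCoprime (r : ℤ) (d + (n * s * j : ℕ)) ↔ IsUnit (b + (j : ZMod r)) := by
      rw [← ZMod.coe_int_isUnit_iff_isCoprime, hDp]
      constructor
      · intro h3
        exact isUnit_of_mul_isUnit_right h3
      · intro h3
        exact hκ0.mul h3
    rw [← h3]
    constructor
    · rintro ⟨h4, -⟩
      push_cast at h4 ⊢
      exact h4.of_mul_left_left
    · intro h4
      refine ⟨?_, h2⟩
      have := IsCoprime.mul_left h4 h1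
      push_cast at this ⊢
      exact this
  -- the entries `a` modulo `s n`
  have hsn : ∀ j : ℕ, Adm n D (r * s : ℕ) (d + (n * s * j : ℕ)) →
      (s * n : ℤ) ∣ α (d + (n * s * j : ℕ)) - α (d + (n * s * j₀ : ℕ)) := by
    intro j hj
    obtain ⟨a1, -, a3⟩ := hα _ hj
    obtain ⟨b1, -, b3⟩ := hα _ hj₀
    obtain ⟨t, ht⟩ : (n : ℤ) ∣ α (d + (n * s * j : ℕ)) - α (d + (n * s * j₀ : ℕ)) := by
      have := dvd_sub a1 b1
      rwa [sub_sub_sub_cancel_right] at this
    have h2 : IsCoprime (s : ℤ) (d + (n * s * j₀ : ℕ)) := by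
      have := hj₀.1
      push_cast at this
      push_cast
      exact this.of_mul_left_right
    have h4 : (s : ℤ) ∣ t * (d + (n * s * j₀ : ℕ)) := by
      have h5 : (n * s : ℤ) ∣ n * (t * (d + (n * s * j₀ : ℕ))) := by
        obtain ⟨k1, hk1⟩ := a3
        obtain ⟨k2, hk2⟩ := b3
        refine ⟨r * (k1 - k2) - α (d + (n * s * j : ℕ)) * (j - j₀), ?_⟩
        push_cast at hk1 hk2 ht ⊢
        linear_combination hk1 - hk2 - (d + n * s * j₀) * ht
      exact Int.dvd_of_mul_dvd_mul_left hn' h5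
    have h6 : (s : ℤ) ∣ t := h2.dvd_of_dvd_mul_right h4
    rw [ht, mul_comm]
    exact mul_dvd_mul_left _ h6
  -- the entries `a` modulo `r`
  have hrr : ∀ j : ℕ, Adm n D (r * s : ℕ) (d + (n * s * j : ℕ)) →
      ((α (d + (n * s * j : ℕ)) : ℤ) : ZMod r) = κ⁻¹ * (b + (j : ZMod r))⁻¹ := by
    intro j hj
    obtain ⟨-, -, k, hk⟩ := hα _ hj
    have h1 : ((α (d + (n * s * j : ℕ)) : ℤ) : ZMod r) * ((d + (n * s * j : ℕ) : ℤ) : ZMod r) = 1 := by
      have h2 : α (d + (n * s * j : ℕ)) * (d + (n * s * j : ℕ)) = 1 + r * (s * (B + n * k)) := by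
        push_cast at hk ⊢
        linear_combination hk
      have := congrArg (Int.cast : ℤ → ZMod r) h2
      rw [Int.cast_mul] at this
      rw [this]
      push_cast
      simp
    have hub := (hadm j).1 hj
    rw [hDp] at h1
    rw [← phs_mul_inv _ _ hκ0 hub]
    have h3 : IsUnit (κ * (b + (j : ZMod r))) := hκ0.mul hub
    have h4 := ZMod.mul_inv_of_unit _ h3
    calc ((α (d + (n * s * j : ℕ)) : ℤ) : ZMod r)
        = ((α (d + (n * s * j : ℕ)) : ℤ) : ZMod r) *
          ((κ * (b + (j : ZMod r))) * (κ * (b + (j : ZMod r)))⁻¹) := by rw [h4, mul_one]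
      _ = (((α (d + (n * s * j : ℕ)) : ℤ) : ZMod r) * (κ * (b + (j : ZMod r)))) *
          (κ * (b + (j : ZMod r)))⁻¹ := by ring
      _ = (κ * (b + (j : ZMod r)))⁻¹ := by rw [h1, one_mul]
  have hrpos : (0 : ℝ) < r := by exact_mod_cast hr1
  have hspos : (0 : ℝ) < s := by exact_mod_cast hs
  have hnpos : (0 : ℝ) < n := by exact_mod_cast hn
  have hterm : ∀ j ∈ (Finset.range J).filter
      (fun j : ℕ => Adm n D (r * s : ℕ) (d + (n * s * j : ℕ))),
      ee (m * α (d + (n * s * j : ℕ)) / (r * s * n : ℕ)) =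
        (ZMod.stdAddChar (N := r) (α' * (b + (j : ZMod r))⁻¹) : ℂ) *
          ee (m * α (d + (n * s * j₀ : ℕ)) * u / (s * n)) := by
    intro j hj
    rw [Finset.mem_filter] at hj
    obtain ⟨k, hk⟩ := hsn j hj.2
    have hkR : (α (d + (n * s * j : ℕ)) : ℝ) = α (d + (n * s * j₀ : ℕ)) + s * n * k := by
      have := congrArg (Int.cast : ℤ → ℝ) hk
      push_cast at this ⊢
      linarith
    have huvR : (u : ℝ) * r + v * (s * n) = 1 := by exact_mod_cast huv
    have e1 : (m * α (d + (n * s * j : ℕ)) / (r * s * n : ℕ) : ℝ) =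
        ((m * v * α (d + (n * s * j : ℕ)) : ℤ) : ℝ) / r +
          (m * α (d + (n * s * j₀ : ℕ)) * u / (s * n) + ((m * u * k : ℤ) : ℝ)) := by
      have e2 : (m * α (d + (n * s * j₀ : ℕ)) * u / (s * n) + ((m * u * k : ℤ) : ℝ) : ℝ) =
          m * α (d + (n * s * j : ℕ)) * u / (s * n) := by
        rw [hkR]
        push_cast
        field_simp
      rw [e2]
      have e3 : (m * α (d + (n * s * j : ℕ)) / (r * s * n : ℕ) : ℝ) =
          m * α (d + (n * s * j : ℕ)) * (u * r + v * (s * n)) / (r * s * n) := by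
        rw [huvR]
        push_cast
        ring
      rw [e3]
      push_cast
      field_simp
      ring
    rw [e1, phs_ee_add, phs_ee_add, phs_ee_int, mul_one, phs_ee_std]
    congr 2
    rw [hα', Int.cast_mul, Int.cast_mul, hrr j hj.2]
    ring
  have hfin : ‖∑ j ∈ (Finset.range J).filter (fun j : ℕ => IsUnit (b + (j : ZMod r))),
      (ZMod.stdAddChar (N := r) (α' * (b + (j : ZMod r))⁻¹) : ℂ)‖ ≤
      2 ^ r.primeFactors.card * (r : ℝ) ^ (3 / 4 : ℝ) * (3 + Real.log r) :=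
    SEL.incomplete_sq hr α' b hα0 J hJ
  rw [Finset.sum_congr rfl hterm, ← Finset.sum_mul, norm_mul, phs_ee_norm, mul_one]
  refine le_trans (le_of_eq ?_) hfin
  congr 1
  refine Finset.sum_congr ?_ fun _ _ => rfl
  ext j
  rw [Finset.mem_filter, Finset.mem_filter, hadm j]


theorem Vp_exists : type_of% @Vp_exists_pr := @Vp_exists_pr
theorem Vp_iff : type_of% @Vp_iff_pr := @Vp_iff_pr
theorem Vp_adm : type_of% @Vp_adm_pr := @Vp_adm_pr
theorem phase_sum : type_of% @phase_sum_pr := @phase_sum_pr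

end Pool.Agent.JOM
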