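import Pool.Agent.Lib_helper68.JOF.DefsF
import Pool.Agent.Lib_helper68.JOF.PHS
import Pool.Agent.Lib_helper68.SEL.KA

/-! Block TWR (project JO, part M): the twisted sum over a row. -/

namespace Pool.Agent.JOM

open MeasureTheory Filter Topology UpperHalfPlane
open scoped MatrixGroups Modular ArithmeticFunction.Moebius

theorem twr_ee_norm (x : ℝ) : ‖ee x‖ = 1 := by
  unfold ee
  have : (2 * Real.pi * Complex.I * x : ℂ) = ((2 * Real.pi * x : ℝ) : ℂ) * Complex.I := by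
    push_cast; ring
  rw [this, Complex.norm_exp_ofReal_mul_I]

/-- averaging over shifts -/
theorem twr_shift (F : ℤ → ℂ) (g : ℤ → ℝ) (M q J : ℕ) (hJ : 0 < J) (P η : ℝ)
    (hF : ∀ d, ‖F d‖ ≤ 1) (hg : ∀ d, |g d| ≤ 1) (hs : ∀ d : ℤ, (M : ℤ) < |d| → g d = 0)
    (hη : ∀ (d : ℤ) (j : ℕ), j < J → |g (d + (q * j : ℕ)) - g d| ≤ η)
    (hP : ∀ d : ℤ, ‖∑ j ∈ Finset.range J, F (d + (q * j : ℕ))‖ ≤ P) :
    ‖∑ d ∈ Finset.Icc (-(M : ℤ)) (M : ℤ), F d * (g d : ℂ)‖ ≤
      (2 * ((M : ℝ) + q * J) + 1) * (P / J + η) := by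
  set T := ∑ d ∈ Finset.Icc (-(M : ℤ)) (M : ℤ), F d * (g d : ℂ) with hT
  set I := Finset.Icc (-((M : ℤ) + q * J)) ((M : ℤ) + q * J) with hI
  have h1 : ∀ j ∈ Finset.range J,
      ∑ d ∈ I, F (d + (q * j : ℕ)) * (g (d + (q * j : ℕ)) : ℂ) = T := by
    intro j hj
    rw [Finset.mem_range] at hj
    have hqj : (q * j : ℤ) ≤ q * J := by
      have : q * j ≤ q * J := Nat.mul_le_mul_left q hj.le
      exact_mod_cast this
    have hqj0 : (0 : ℤ) ≤ q * j := by positivity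
    have e1 : ∑' d : ℤ, F d * (g d : ℂ) = T := by
      rw [tsum_eq_sum (s := Finset.Icc (-(M : ℤ)) (M : ℤ))]
      intro d hd
      rw [hs d, Complex.ofReal_zero, mul_zero]
      by_contra h
      apply hd
      rw [Finset.mem_Icc]
      exact abs_le.1 (not_lt.1 h)
    have e2 : ∑' d : ℤ, F (d + (q * j : ℕ)) * (g (d + (q * j : ℕ)) : ℂ) =
        ∑ d ∈ I, F (d + (q * j : ℕ)) * (g (d + (q * j : ℕ)) : ℂ) := by
      rw [tsum_eq_sum]
      intro d hd
      rw [hs, Complex.ofReal_zero, mul_zero]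
      by_contra h
      apply hd
      have h2 := abs_le.1 (not_lt.1 h)
      push_cast at h2
      rw [hI, Finset.mem_Icc]
      constructor <;> [linarith [h2.1]; linarith [h2.2]]
    have e3 : ∑' d : ℤ, F (d + (q * j : ℕ)) * (g (d + (q * j : ℕ)) : ℂ) =
        ∑' d : ℤ, F d * (g d : ℂ) :=
      (Equiv.addRight ((q * j : ℕ) : ℤ)).tsum_eq (fun d : ℤ => F d * (g d : ℂ))
    rw [← e2, e3, e1]
  have h2 : (J : ℂ) * T = ∑ d ∈ I, ∑ j ∈ Finset.range J,
      F (d + (q * j : ℕ)) * (g (d + (q * j : ℕ)) : ℂ) := by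
    rw [Finset.sum_comm, Finset.sum_congr rfl h1, Finset.sum_const, Finset.card_range,
      nsmul_eq_mul]
  have h3 : ∀ d ∈ I, ‖∑ j ∈ Finset.range J,
      F (d + (q * j : ℕ)) * (g (d + (q * j : ℕ)) : ℂ)‖ ≤ P + J * η := by
    intro d _
    have e1 : ∑ j ∈ Finset.range J, F (d + (q * j : ℕ)) * (g (d + (q * j : ℕ)) : ℂ) =
        (∑ j ∈ Finset.range J, F (d + (q * j : ℕ))) * (g d : ℂ) +
        ∑ j ∈ Finset.range J, F (d + (q * j : ℕ)) * ((g (d + (q * j : ℕ)) - g d : ℝ) : ℂ) := by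
      rw [Finset.sum_mul, ← Finset.sum_add_distrib]
      refine Finset.sum_congr rfl fun j _ => ?_
      push_cast
      ring
    rw [e1]
    refine (norm_add_le _ _).trans (add_le_add ?_ ?_)
    · rw [norm_mul, Complex.norm_real, Real.norm_eq_abs]
      calc _ ≤ P * 1 := mul_le_mul (hP d) (hg d) (abs_nonneg _) ((norm_nonneg _).trans (hP d))
        _ = P := mul_one P
    · refine (norm_sum_le _ _).trans ?_
      calc ∑ j ∈ Finset.range J,
            ‖F (d + (q * j : ℕ)) * ((g (d + (q * j : ℕ)) - g d : ℝ) : ℂ)‖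
          ≤ ∑ _j ∈ Finset.range J, η := by
            refine Finset.sum_le_sum fun j hj => ?_
            rw [norm_mul, Complex.norm_real, Real.norm_eq_abs]
            have h4 := hη d j (Finset.mem_range.1 hj)
            calc _ ≤ 1 * η := mul_le_mul (hF _) h4 (abs_nonneg _) zero_le_one
              _ = η := one_mul η
        _ = J * η := by rw [Finset.sum_const, Finset.card_range, nsmul_eq_mul]
  have hcard : (I.card : ℝ) = 2 * ((M : ℝ) + q * J) + 1 := by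
    rw [hI, Int.card_Icc]
    have : ((M : ℤ) + q * J + 1 - -((M : ℤ) + q * J)).toNat = 2 * (M + q * J) + 1 := by
      have : (M : ℤ) + q * J + 1 - -((M : ℤ) + q * J) = ((2 * (M + q * J) + 1 : ℕ) : ℤ) := by
        push_cast; ring
      rw [this, Int.toNat_natCast]
    rw [this]
    push_cast
    ring
  have h4 : (J : ℝ) * ‖T‖ ≤ (2 * ((M : ℝ) + q * J) + 1) * (P + J * η) := by
    have : (J : ℝ) * ‖T‖ = ‖(J : ℂ) * T‖ := by
      rw [norm_mul, Complex.norm_natCast]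
    rw [this, h2]
    refine (norm_sum_le _ _).trans ((Finset.sum_le_sum h3).trans (le_of_eq ?_))
    rw [Finset.sum_const, nsmul_eq_mul, hcard]
  have hJ' : (0 : ℝ) < J := by exact_mod_cast hJ
  rw [← mul_le_mul_iff_right₀ hJ']
  refine h4.trans (le_of_eq ?_)
  field_simp

open Classical in
/-- block TWR: the twisted sum over a row -/
theorem twisted_row_pr : ∃ C₀ : ℝ, 0 < C₀ ∧ ∀ (n r s : ℕ) (A B D m : ℤ) (α : ℤ → ℤ) (R : ℕ) (Λ : ℝ)
    (g : ℤ → ℝ), 0 < n → 0 < s → Squarefree r → r.Coprime (s * n) → IsCoprime m (r : ℤ) →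
    (∀ j : ℤ, Adm n D (r * s : ℕ) j → Vp n A B D (r * s : ℕ) (α j) j) → 1 ≤ R → 0 ≤ Λ →
    (∀ d, |g d| ≤ 1) → (∀ d : ℤ, ((R * (r * s) : ℕ) : ℤ) < |d| → g d = 0) →
    (∀ d d' : ℤ, |g d - g d'| ≤ Λ * |(d : ℝ) - d'| / (r * s : ℕ)) →
    ‖∑ d ∈ (Finset.Icc (-((R * (r * s) : ℕ) : ℤ)) ((R * (r * s) : ℕ) : ℤ)).filter
        (fun d => Adm n D (r * s : ℕ) d), ee (m * α d / (r * s * n : ℕ)) * (g d : ℂ)‖ ≤
      C₀ * n ^ 2 * R * (1 + Λ) * (r * s) * (r : ℝ) ^ (-(1 / 16) : ℝ) := by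
  obtain ⟨C, hC, hdiv⟩ := SEL.divisor_bound (ε := 1 / 32) (by norm_num)
  refine ⟨5 * (35 * C + 2), by positivity, ?_⟩
  intro n r s A B D m α R Λ g hn hs hr hcop hm hα hR hΛ hg hgs hgl
  have hr1 : 1 ≤ r := Nat.one_le_iff_ne_zero.2 hr.ne_zero
  have hr1' : (1 : ℝ) ≤ r := by exact_mod_cast hr1
  have hr0' : (0 : ℝ) < r := by linarith
  have hs1' : (1 : ℝ) ≤ s := by exact_mod_cast hs
  have hn1' : (1 : ℝ) ≤ n := by exact_mod_cast hn
  have hR1' : (1 : ℝ) ≤ R := by exact_mod_cast hR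
  set J := ⌈(r : ℝ) ^ (7 / 8 : ℝ)⌉₊ with hJdef
  have hrp1 : (1 : ℝ) ≤ (r : ℝ) ^ (7 / 8 : ℝ) := Real.one_le_rpow hr1' (by norm_num)
  have hJ0 : 0 < J := Nat.ceil_pos.2 (by linarith)
  have hJr : J ≤ r := by
    refine Nat.ceil_le.2 ?_
    calc (r : ℝ) ^ (7 / 8 : ℝ) ≤ (r : ℝ) ^ (1 : ℝ) :=
          Real.rpow_le_rpow_of_exponent_le hr1' (by norm_num)
      _ = r := Real.rpow_one _
  have hJl : (r : ℝ) ^ (7 / 8 : ℝ) ≤ J := Nat.le_ceil _
  have hJu : (J : ℝ) ≤ 2 * (r : ℝ) ^ (7 / 8 : ℝ) := by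
    have := Nat.ceil_lt_add_one (a := (r : ℝ) ^ (7 / 8 : ℝ)) (by positivity)
    linarith
  have hJ' : (0 : ℝ) < J := by exact_mod_cast hJ0
  set P : ℝ := 2 ^ r.primeFactors.card * (r : ℝ) ^ (3 / 4 : ℝ) * (3 + Real.log r) with hP
  set F : ℤ → ℂ := fun d => if Adm n D (r * s : ℕ) d then ee (m * α d / (r * s * n : ℕ)) else 0
    with hF
  have hF1 : ∀ d, ‖F d‖ ≤ 1 := by
    intro d
    simp only [hF]
    split_ifs
    · rw [twr_ee_norm]
    · rw [norm_zero]; exact zero_le_one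
  have hFP : ∀ d : ℤ, ‖∑ j ∈ Finset.range J, F (d + (n * s * j : ℕ))‖ ≤ P := by
    intro d
    have := phase_sum hr hs hn hcop A B D m d hm α hα J hJr
    rw [Finset.sum_filter] at this
    exact this
  have key := twr_shift F g (R * (r * s)) (n * s) J hJ0 P (Λ * (n * J / r)) hF1 hg hgs ?_ hFP
  · rw [Finset.sum_filter]
    have e1 : ∑ d ∈ Finset.Icc (-((R * (r * s) : ℕ) : ℤ)) ((R * (r * s) : ℕ) : ℤ),
        (if Adm n D (r * s : ℕ) d then ee (m * α d / (r * s * n : ℕ)) * (g d : ℂ) else 0) =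
        ∑ d ∈ Finset.Icc (-((R * (r * s) : ℕ) : ℤ)) ((R * (r * s) : ℕ) : ℤ),
          F d * (g d : ℂ) := by
      refine Finset.sum_congr rfl fun d _ => ?_
      simp only [hF]
      split_ifs
      · rfl
      · rw [zero_mul]
    rw [e1]
    refine key.trans ?_
    -- numerical part
    have hx : (0 : ℝ) < (r : ℝ) ^ (-(1 / 16) : ℝ) := Real.rpow_pos_of_pos hr0' _
    have h1 : P / J ≤ 35 * C * (r : ℝ) ^ (-(1 / 16) : ℝ) := by
      rw [div_le_iff₀ hJ']
      have h2 : (2 : ℝ) ^ r.primeFactors.card ≤ C * (r : ℝ) ^ (1 / 32 : ℝ) := by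
        refine le_trans ?_ (hdiv r hr1)
        exact_mod_cast SEL.omega_le r hr1
      have h3 : 3 + Real.log r ≤ 35 * (r : ℝ) ^ (1 / 32 : ℝ) := by
        have h4 := Real.log_le_rpow_div hr0'.le (ε := 1 / 32) (by norm_num)
        have h5 : (1 : ℝ) ≤ (r : ℝ) ^ (1 / 32 : ℝ) := Real.one_le_rpow hr1' (by norm_num)
        have h6 : (r : ℝ) ^ (1 / 32 : ℝ) / (1 / 32) = 32 * (r : ℝ) ^ (1 / 32 : ℝ) := by ring
        rw [h6] at h4
        linarith
      have h4 : 0 ≤ 3 + Real.log r := by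
        have := Real.log_nonneg hr1'
        linarith
      calc P ≤ (C * (r : ℝ) ^ (1 / 32 : ℝ)) * (r : ℝ) ^ (3 / 4 : ℝ) *
            (35 * (r : ℝ) ^ (1 / 32 : ℝ)) := by
            rw [hP]
            gcongr
        _ = 35 * C * ((r : ℝ) ^ (1 / 32 : ℝ) * (r : ℝ) ^ (3 / 4 : ℝ) * (r : ℝ) ^ (1 / 32 : ℝ)) := by
            ring
        _ = 35 * C * ((r : ℝ) ^ (-(1 / 16) : ℝ) * (r : ℝ) ^ (7 / 8 : ℝ)) := by
            congr 1
            rw [← Real.rpow_add hr0', ← Real.rpow_add hr0', ← Real.rpow_add hr0']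
            norm_num
        _ ≤ 35 * C * ((r : ℝ) ^ (-(1 / 16) : ℝ) * J) := by gcongr
        _ = 35 * C * (r : ℝ) ^ (-(1 / 16) : ℝ) * J := by ring
    have h2 : Λ * (n * J / r) ≤ 2 * n * Λ * (r : ℝ) ^ (-(1 / 16) : ℝ) := by
      have h3 : (J : ℝ) / r ≤ 2 * (r : ℝ) ^ (-(1 / 16) : ℝ) := by
        rw [div_le_iff₀ hr0']
        calc (J : ℝ) ≤ 2 * (r : ℝ) ^ (7 / 8 : ℝ) := hJu
          _ ≤ 2 * (r : ℝ) ^ (15 / 16 : ℝ) :=
              mul_le_mul_of_nonneg_left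
                (Real.rpow_le_rpow_of_exponent_le hr1' (by norm_num)) (by norm_num)
          _ = 2 * (r : ℝ) ^ (-(1 / 16) : ℝ) * r := by
              have : (r : ℝ) ^ (15 / 16 : ℝ) = (r : ℝ) ^ (-(1 / 16) : ℝ) * (r : ℝ) ^ (1 : ℝ) := by
                rw [← Real.rpow_add hr0']
                norm_num
              rw [this, Real.rpow_one]
              ring
      calc Λ * (n * J / r) = Λ * n * (J / r) := by ring
        _ ≤ Λ * n * (2 * (r : ℝ) ^ (-(1 / 16) : ℝ)) := by gcongr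
        _ = _ := by ring
    have h3 : 2 * (((R * (r * s) : ℕ) : ℝ) + (n * s : ℕ) * J) + 1 ≤ 5 * R * n * (r * s) := by
      have hJr' : (J : ℝ) ≤ r := by exact_mod_cast hJr
      have hrs : (1 : ℝ) ≤ r * s := by nlinarith
      have e1 : (n : ℝ) * s * J ≤ R * n * (r * s) := by
        calc (n : ℝ) * s * J ≤ n * s * r := by gcongr
          _ = 1 * (n * (r * s)) := by ring
          _ ≤ R * (n * (r * s)) := by gcongr
          _ = _ := by ring
      have e2 : (R : ℝ) * (r * s) ≤ R * n * (r * s) := by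
        calc (R : ℝ) * (r * s) = R * 1 * (r * s) := by ring
          _ ≤ R * n * (r * s) := by gcongr
      have e3 : (1 : ℝ) ≤ R * n * (r * s) := by
        calc (1 : ℝ) = 1 * 1 * 1 := by norm_num
          _ ≤ R * n * (r * s) := by gcongr
      push_cast
      linarith
    have h4 : 0 ≤ P / J + Λ * (n * J / r) := by
      have := Real.log_nonneg hr1'
      positivity
    calc (2 * (((R * (r * s) : ℕ) : ℝ) + (n * s : ℕ) * J) + 1) * (P / J + Λ * (n * J / r))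
        ≤ (5 * R * n * (r * s)) * (35 * C * (r : ℝ) ^ (-(1 / 16) : ℝ) +
            2 * n * Λ * (r : ℝ) ^ (-(1 / 16) : ℝ)) := by
          gcongr
      _ = 5 * R * n * (r * s) * (r : ℝ) ^ (-(1 / 16) : ℝ) * (35 * C + 2 * n * Λ) := by ring
      _ ≤ 5 * R * n * (r * s) * (r : ℝ) ^ (-(1 / 16) : ℝ) * ((35 * C + 2) * (n * (1 + Λ))) := by
          gcongr
          have e1 : 35 * C ≤ 35 * C * (n * (1 + Λ)) := by
            have : (1 : ℝ) ≤ n * (1 + Λ) := by nlinarith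
            nlinarith
          have e2 : 2 * n * Λ ≤ 2 * (n * (1 + Λ)) := by nlinarith
          linarith
      _ = _ := by ring
  · intro d j hj
    refine (hgl _ _).trans ?_
    have hj' : (j : ℝ) ≤ J := by exact_mod_cast hj.le
    have e1 : |(((d + (n * s * j : ℕ) : ℤ) : ℝ)) - (d : ℝ)| = n * s * j := by
      push_cast
      rw [add_sub_cancel_left, abs_of_nonneg (by positivity)]
    rw [e1]
    have hs0 : (0 : ℝ) < s := by linarith
    calc Λ * ((n : ℝ) * s * j) / ((r * s : ℕ) : ℝ) ≤ Λ * ((n : ℝ) * s * J) / ((r * s : ℕ) : ℝ) := by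
          gcongr
      _ = Λ * (n * J / r) := by
          push_cast
          field_simp


theorem twisted_row : type_of% @twisted_row_pr := @twisted_row_pr

end Pool.Agent.JOM
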