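import Pool.Agent.Lib_helper68.JOF.DefsF
import Pool.Agent.Lib_helper68.JOF.PHS
import Pool.Agent.Lib_helper68.JOF.TWR
import Pool.Agent.Lib_helper68.JOF.FEJ

/-! Block ROW (project JO, part M): equidistribution of one good row. -/

namespace Pool.Agent.JOM

open MeasureTheory Filter Topology UpperHalfPlane
open scoped MatrixGroups Modular ArithmeticFunction.Moebius

theorem row_ee_norm (x : ℝ) : ‖ee x‖ = 1 := by
  unfold ee
  have : (2 * Real.pi * Complex.I * x : ℂ) = ((2 * Real.pi * x : ℝ) : ℂ) * Complex.I := by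
    push_cast; ring
  rw [this, Complex.norm_exp_ofReal_mul_I]

theorem row_ee_zero : ee 0 = 1 := by
  unfold ee
  simp

theorem row_card (M : ℕ) (hM : 0 < M) :
    ((Finset.Icc (-(M : ℤ)) (M : ℤ)).card : ℝ) ≤ 3 * M := by
  have h : (Finset.Icc (-(M : ℤ)) (M : ℤ)).card = 2 * M + 1 := by
    rw [Int.card_Icc]
    have : (M : ℤ) + 1 - -(M : ℤ) = ((2 * M + 1 : ℕ) : ℤ) := by push_cast; ring
    rw [this, Int.toNat_natCast]
  rw [h]
  have : (1 : ℝ) ≤ M := by exact_mod_cast hM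
  push_cast
  linarith

open Classical in
/-- block ROW: equidistribution of one good row -/
theorem row_est_pr : ∃ C₀ : ℝ, 0 < C₀ ∧ ∀ (n c K M₀ R : ℕ) (A B C D : ℤ) (Y Λ : ℝ) (h : ℤ → ℤ → ℝ),
    0 < n → 0 < c → Cls n A B C D → (n : ℤ) ∣ c - C → 1 ≤ K → K ≤ c → 1 ≤ M₀ → 1 ≤ Y →
    Good n M₀ Y c → 1 ≤ R → 0 ≤ Λ → (∀ a d, |h a d| ≤ 1) →
    (∀ a d : ℤ, (R * c < |a| ∨ R * c < |d|) → h a d = 0) →
    (∀ a a' d d' : ℤ, |h a d - h a' d'| ≤ Λ * (|(a : ℝ) - a'| + |(d : ℝ) - d'|) / c) →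
    |(∑ d ∈ Finset.Icc (-(R * c : ℤ)) (R * c), ∑ a ∈ Finset.Icc (-(R * c : ℤ)) (R * c),
        if Vp n A B D c a d then h a d else 0) -
      1 / (c * n) * ∑ a ∈ Finset.Icc (-(R * c : ℤ)) (R * c),
        ∑ d ∈ (Finset.Icc (-(R * c : ℤ)) (R * c)).filter (fun d => Adm n D c d), h a d| ≤
      C₀ * n ^ 3 * R ^ 3 * (1 + Λ) * c * (1 / K + K ^ 2 / M₀ + K * (Y / c) ^ (1 / 16 : ℝ)) := by
  obtain ⟨C', hC', htw⟩ := twisted_row
  refine ⟨30 + 9 + 3 * C', by positivity, ?_⟩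
  intro n c K M₀ R A B C D Y Λ h hn hc hcls hcC hK hKc hM₀ hY hgood hR hΛ hh1 hhs hhl
  have hn1 : (1 : ℝ) ≤ n := by exact_mod_cast hn
  have hc1 : (1 : ℝ) ≤ c := by exact_mod_cast hc
  have hK1 : (1 : ℝ) ≤ K := by exact_mod_cast hK
  have hR1 : (1 : ℝ) ≤ R := by exact_mod_cast hR
  have hM1 : (1 : ℝ) ≤ M₀ := by exact_mod_cast hM₀
  have hKc' : (K : ℝ) ≤ c := by exact_mod_cast hKc
  have hc0 : (0 : ℝ) < c := by linarith
  have hK0 : (0 : ℝ) < K := by linarith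
  have hn0 : (0 : ℝ) < n := by linarith
  have hR0 : (0 : ℝ) < R := by linarith
  have hcZ : (c : ℤ) ≠ 0 := by exact_mod_cast hc.ne'
  -- the inverse
  have hex : ∀ d : ℤ, ∃ a : ℤ, Adm n D c d → Vp n A B D c a d := by
    intro d
    by_cases hd : Adm n D c d
    · obtain ⟨a, ha⟩ := Vp_exists hn hcZ hcls hcC hd
      exact ⟨a, fun _ => ha⟩
    · exact ⟨0, fun h => absurd h hd⟩
  choose α hα using hex
  set N : ℕ := c * n with hNdef
  have hN : 0 < N := Nat.mul_pos hc hn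
  have hN0 : (0 : ℝ) < N := by exact_mod_cast hN
  have hNr : (N : ℝ) = c * n := by rw [hNdef]; push_cast; ring
  set L : ℕ := ⌈(c : ℝ) / K⌉₊ with hLdef
  have hL : 0 < L := Nat.ceil_pos.2 (by positivity)
  have hL0 : (0 : ℝ) < L := by exact_mod_cast hL
  have hLc : L ≤ c := by
    refine Nat.ceil_le.2 ?_
    rw [div_le_iff₀ hK0]
    nlinarith
  have hLN : L ≤ N := hLc.trans (Nat.le_mul_of_pos_right c hn)
  have hLc' : (L : ℝ) ≤ c := by exact_mod_cast hLc
  have hLlow : (c : ℝ) / K ≤ L := Nat.le_ceil _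
  have hLup : (L : ℝ) ≤ 2 * c / K := by
    have h1 := Nat.ceil_lt_add_one (a := (c : ℝ) / K) (by positivity)
    have h2 : (1 : ℝ) ≤ c / K := by rw [le_div_iff₀ hK0]; linarith
    have h3 : 2 * (c : ℝ) / K = c / K + c / K := by ring
    rw [h3]
    linarith
  have hLinv : 1 / (L : ℝ) ≤ K / c := by
    rw [div_le_div_iff₀ hL0 hc0]
    rw [div_le_iff₀ hK0] at hLlow
    linarith
  set Rc : ℕ := R * c with hRc
  have hRc0 : 0 < Rc := Nat.mul_pos hR hc
  have hRcr : (Rc : ℝ) = R * c := by rw [hRc]; push_cast; ring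
  set I : Finset ℤ := Finset.Icc (-(Rc : ℤ)) (Rc : ℤ) with hI
  have hIeq : Finset.Icc (-(R * c : ℤ)) (R * c) = I := by
    rw [hI, hRc]; push_cast; rfl
  rw [hIeq]
  have hIcard : (I.card : ℝ) ≤ 3 * (R * c) := by
    rw [← hRcr]; exact row_card Rc hRc0
  set Q : Finset ℤ := I.filter (fun d => Adm n D c d) with hQ
  have hQcard : (Q.card : ℝ) ≤ 3 * (R * c) := by
    refine le_trans ?_ hIcard
    exact_mod_cast Finset.card_filter_le _ _
  -- first step: the left side over the admissible `d`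
  have h1 : (∑ d ∈ I, ∑ a ∈ I, if Vp n A B D c a d then h a d else 0) =
      ∑ d ∈ Q, ∑ a ∈ I.filter (fun a => (N : ℤ) ∣ a - α d), h a d := by
    rw [hQ, Finset.sum_filter]
    refine Finset.sum_congr rfl fun d _ => ?_
    split_ifs with hd
    · rw [Finset.sum_filter]
      refine Finset.sum_congr rfl fun a _ => ?_
      have h2 := Vp_iff (a' := a) hn hcZ (hα d hd) hd.1
      have h3 : ((c : ℤ) * n ∣ a - α d) ↔ ((N : ℤ) ∣ a - α d) := by
        rw [hNdef]; push_cast; rfl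
      by_cases h4 : (N : ℤ) ∣ a - α d
      · rw [if_pos h4, if_pos (h2.2 (h3.2 h4))]
      · rw [if_neg h4, if_neg (fun h5 => h4 (h3.1 (h2.1 h5)))]
    · refine Finset.sum_eq_zero fun a _ => ?_
      rw [if_neg]
      intro h2
      exact hd (Vp_adm hn h2)
  rw [h1]
  -- the Fourier side
  set G : ℕ → ℂ := fun m => ∑ a ∈ I, ee (m * a / N) *
    ∑ d ∈ Q, ee (-(m * α d) / N) * (h a d : ℂ) with hG
  set F : ℤ → ℂ := fun d => 1 / (N : ℂ) * ∑ m ∈ Finset.range N, (wgt N L m : ℂ) *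
    (ee (-(m * α d) / N) * ∑ a ∈ I, ee (m * a / N) * (h a d : ℂ)) with hF
  have hfe : ∀ d ∈ Q, ‖((∑ a ∈ I.filter (fun a => (N : ℤ) ∣ a - α d), h a d : ℝ) : ℂ) - F d‖ ≤
      10 * R * Λ / K := by
    intro d _
    have h2 := fejer N L Rc hN hL (α d) (fun a => h a d) (Λ * L / c) ?_ ?_
    · refine h2.trans ?_
      have h3 : 2 * ((Rc : ℝ) + L) / N + 1 ≤ 5 * R := by
        rw [hNr, hRcr]
        have h4 : 2 * ((R : ℝ) * c + L) / (c * n) ≤ 4 * R := by
          rw [div_le_iff₀ (by positivity)]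
          have h5 : (R : ℝ) * c + L ≤ 2 * (R * c) := by nlinarith
          have h6 : (R : ℝ) * c ≤ R * c * n := by nlinarith [mul_pos hR0 hc0]
          nlinarith
        linarith
      calc Λ * L / c * (2 * ((Rc : ℝ) + L) / N + 1) ≤ Λ * (2 * c / K) / c * (5 * R) := by
            gcongr
        _ = 10 * R * Λ / K := by field_simp; ring
    · intro a ha
      refine hhs a d (Or.inl ?_)
      rw [hRc] at ha
      push_cast at ha
      exact ha
    · intro a k hk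
      refine (hhl _ _ _ _).trans ?_
      have hk' : |(k : ℝ)| ≤ L := by
        have : ((|k| : ℤ) : ℝ) ≤ L := by exact_mod_cast hk.le
        rwa [Int.cast_abs] at this
      have e1 : |(((a + k : ℤ) : ℝ)) - (a : ℝ)| + |(d : ℝ) - d| = |(k : ℝ)| := by
        rw [sub_self, abs_zero, add_zero]
        congr 1
        push_cast
        ring
      rw [e1]
      gcongr
  have hsumF : ∑ d ∈ Q, F d = 1 / (N : ℂ) * ∑ m ∈ Finset.range N, (wgt N L m : ℂ) * G m := by
    rw [hF, ← Finset.mul_sum, Finset.sum_comm]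
    congr 1
    refine Finset.sum_congr rfl fun m _ => ?_
    rw [← Finset.mul_sum, hG]
    congr 1
    simp only [Finset.mul_sum]
    rw [Finset.sum_comm]
    refine Finset.sum_congr rfl fun a _ => ?_
    refine Finset.sum_congr rfl fun d _ => ?_
    ring
  have hmain : ((1 / (c * n) * ∑ a ∈ I, ∑ d ∈ Q, h a d : ℝ) : ℂ) =
      1 / (N : ℂ) * ((wgt N L 0 : ℂ) * G 0) := by
    rw [wgt_zero hL, hG]
    simp only [Nat.cast_zero, zero_mul, neg_zero, zero_div, row_ee_zero, one_mul]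
    rw [hNdef]
    push_cast
    ring
  -- bounds for `G`
  have hGtriv : ∀ m, ‖G m‖ ≤ (3 * (R * c)) ^ 2 := by
    intro m
    rw [hG]
    refine (norm_sum_le _ _).trans ?_
    have h2 : ∀ a ∈ I, ‖ee (m * a / N) * ∑ d ∈ Q, ee (-(m * α d) / N) * (h a d : ℂ)‖ ≤
        3 * (R * c) := by
      intro a _
      rw [norm_mul, row_ee_norm, one_mul]
      refine (norm_sum_le _ _).trans ?_
      calc ∑ d ∈ Q, ‖ee (-(m * α d) / N) * (h a d : ℂ)‖ ≤ ∑ _d ∈ Q, (1 : ℝ) := by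
            refine Finset.sum_le_sum fun d _ => ?_
            rw [norm_mul, row_ee_norm, one_mul, Complex.norm_real, Real.norm_eq_abs]
            exact hh1 a d
        _ = Q.card := by simp
        _ ≤ 3 * (R * c) := hQcard
    refine (Finset.sum_le_sum h2).trans ?_
    rw [Finset.sum_const, nsmul_eq_mul, sq]
    gcongr
  set B1 : ℝ := C' * n ^ 2 * R * (1 + Λ) * c * (Y / c) ^ (1 / 16 : ℝ) with hB1
  have hB10 : 0 ≤ B1 := by rw [hB1]; positivity
  have hGgood : ∀ m, 0 < m → m < N → min m (N - m) ≤ M₀ → ‖G m‖ ≤ 3 * (R * c) * B1 := by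
    intro m hm hmN hl
    set l := min m (N - m) with hldef
    have hl1 : 1 ≤ l := by
      rw [hldef, Nat.succ_le_iff, lt_min_iff]
      omega
    obtain ⟨r, s, hcrs, hsq, hcop, hsY⟩ := hgood l hl1 hl
    have hs : 0 < s := by
      rcases Nat.eq_zero_or_pos s with h0 | h0
      · rw [h0, mul_zero] at hcrs; omega
      · exact h0
    have hr : 0 < r := by
      rcases Nat.eq_zero_or_pos r with h0 | h0
      · rw [h0, zero_mul] at hcrs; omega
      · exact h0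
    have hcop1 : r.Coprime (s * n) := by
      refine hcop.coprime_dvd_right ?_
      exact ⟨l, by ring⟩
    have hcopl : r.Coprime l := by
      refine hcop.coprime_dvd_right ?_
      exact ⟨s * n, by ring⟩
    have hml : IsCoprime (-(m : ℤ)) (r : ℤ) := by
      have h2 : IsCoprime (l : ℤ) (r : ℤ) := (Nat.isCoprime_iff_coprime.2 hcopl).symm
      rcases le_total m (N - m) with h3 | h3
      · have : l = m := min_eq_left h3
        rw [this] at h2
        exact h2.neg_left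
      · have h4 : l = N - m := min_eq_right h3
        have h5 : -(m : ℤ) = l + (-(s * n : ℕ) : ℤ) * r := by
          have h6 : (l : ℤ) = N - m := by rw [h4, Nat.cast_sub hmN.le]
          rw [h6, hNdef, hcrs]
          push_cast
          ring
        rw [h5]
        exact IsCoprime.add_mul_right_left_iff.2 h2
    have hrr : (0 : ℝ) < r := by exact_mod_cast hr
    have hss : (0 : ℝ) < s := by exact_mod_cast hs
    have hcr : (c : ℝ) = r * s := by rw [hcrs]; push_cast; ring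
    have hrp : (r : ℝ) ^ (-(1 / 16) : ℝ) ≤ (Y / c) ^ (1 / 16 : ℝ) := by
      rw [Real.rpow_neg hrr.le, ← Real.inv_rpow hrr.le]
      refine Real.rpow_le_rpow (by positivity) ?_ (by norm_num)
      rw [hcr, inv_eq_one_div, div_le_div_iff₀ hrr (by positivity)]
      nlinarith
    rw [hG]
    refine (norm_sum_le _ _).trans ?_
    have h2 : ∀ a ∈ I, ‖ee (m * a / N) * ∑ d ∈ Q, ee (-(m * α d) / N) * (h a d : ℂ)‖ ≤ B1 := by
      intro a _
      rw [norm_mul, row_ee_norm, one_mul]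
      have h3 := htw n r s A B D (-(m : ℤ)) α R Λ (fun d => h a d) hn hs hsq hcop1 hml
        (by
          intro j hj
          rw [← hcrs] at hj ⊢
          exact hα j hj) hR hΛ (fun d => hh1 a d)
        (by
          intro d hd
          refine hhs a d (Or.inr ?_)
          rw [← hcrs] at hd
          push_cast at hd
          exact hd)
        (by
          intro d d'
          refine (hhl a a d d').trans (le_of_eq ?_)
          rw [sub_self, abs_zero, zero_add, hcrs])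
      have h4 : ∑ d ∈ Q, ee (-(m * α d) / N) * (h a d : ℂ) =
          ∑ d ∈ (Finset.Icc (-((R * (r * s) : ℕ) : ℤ)) ((R * (r * s) : ℕ) : ℤ)).filter
            (fun d => Adm n D (r * s : ℕ) d),
            ee (((-(m : ℤ) : ℤ) : ℝ) * α d / (r * s * n : ℕ)) * (h a d : ℂ) := by
        rw [hQ, hI, hRc, hNdef]
        simp only [← hcrs]
        refine Finset.sum_congr rfl fun d _ => ?_
        congr 3
        push_cast
        ring
      rw [h4]
      refine h3.trans ?_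
      rw [hB1, ← hcr]
      gcongr
    refine (Finset.sum_le_sum h2).trans ?_
    rw [Finset.sum_const, nsmul_eq_mul]
    gcongr
  -- the sum over the frequencies
  have hfreq : ‖∑ m ∈ (Finset.range N).erase 0, (wgt N L m : ℂ) * G m‖ ≤
      (N : ℝ) / L * (3 * (R * c) * B1) + (N : ℝ) ^ 2 / (L ^ 2 * M₀) * (3 * (R * c)) ^ 2 := by
    refine (norm_sum_le _ _).trans ?_
    have h2 : ∀ m ∈ (Finset.range N).erase 0, ‖(wgt N L m : ℂ) * G m‖ ≤
        wgt N L m * (3 * (R * c) * B1) +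
          (if M₀ < min m (N - m) then wgt N L m * (3 * (R * c)) ^ 2 else 0) := by
      intro m hm
      rw [Finset.mem_erase, Finset.mem_range] at hm
      have hw := wgt_nonneg N L m
      rw [norm_mul, Complex.norm_real, Real.norm_eq_abs, abs_of_nonneg hw]
      split_ifs with h3
      · have h4 : wgt N L m * ‖G m‖ ≤ wgt N L m * (3 * (R * c)) ^ 2 :=
          mul_le_mul_of_nonneg_left (hGtriv m) hw
        have h5 : 0 ≤ wgt N L m * (3 * (R * c) * B1) := by positivity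
        linarith
      · rw [add_zero]
        exact mul_le_mul_of_nonneg_left
          (hGgood m (Nat.pos_of_ne_zero hm.1) hm.2 (not_lt.1 h3)) hw
    refine (Finset.sum_le_sum h2).trans ?_
    rw [Finset.sum_add_distrib, ← Finset.sum_mul]
    refine add_le_add ?_ ?_
    · refine mul_le_mul_of_nonneg_right ?_ (by positivity)
      rw [← wgt_sum hN hL hLN]
      refine Finset.sum_le_sum_of_subset_of_nonneg (Finset.erase_subset _ _) fun m _ _ => ?_
      exact wgt_nonneg N L m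
    · calc ∑ m ∈ (Finset.range N).erase 0,
            (if M₀ < min m (N - m) then wgt N L m * (3 * (R * c)) ^ 2 else 0)
          ≤ ∑ m ∈ Finset.range N,
            (if M₀ < min m (N - m) then wgt N L m * (3 * (R * c)) ^ 2 else 0) := by
            refine Finset.sum_le_sum_of_subset_of_nonneg (Finset.erase_subset _ _) fun m _ _ => ?_
            have := wgt_nonneg N L m
            split_ifs <;> positivity
        _ = (∑ m ∈ (Finset.range N).filter (fun m => M₀ < min m (N - m)), wgt N L m) *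
            (3 * (R * c)) ^ 2 := by
            rw [← Finset.sum_filter, Finset.sum_mul]
        _ ≤ (N : ℝ) ^ 2 / (L ^ 2 * M₀) * (3 * (R * c)) ^ 2 := by
            refine mul_le_mul_of_nonneg_right ?_ (by positivity)
            exact wgt_tail hN hL hM₀
  -- conclusion
  have hfin : |(∑ d ∈ Q, ∑ a ∈ I.filter (fun a => (N : ℤ) ∣ a - α d), h a d) -
      1 / (c * n) * ∑ a ∈ I, ∑ d ∈ Q, h a d| ≤
      3 * (R * c) * (10 * R * Λ / K) + 1 / N * ((N : ℝ) / L * (3 * (R * c) * B1) +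
        (N : ℝ) ^ 2 / (L ^ 2 * M₀) * (3 * (R * c)) ^ 2) := by
    rw [← Real.norm_eq_abs, ← Complex.norm_real, Complex.ofReal_sub, hmain]
    have h2 : ((∑ d ∈ Q, ∑ a ∈ I.filter (fun a => (N : ℤ) ∣ a - α d), h a d : ℝ) : ℂ) -
        1 / (N : ℂ) * ((wgt N L 0 : ℂ) * G 0) =
        (∑ d ∈ Q, (((∑ a ∈ I.filter (fun a => (N : ℤ) ∣ a - α d), h a d : ℝ) : ℂ) - F d)) +
        1 / (N : ℂ) * ∑ m ∈ (Finset.range N).erase 0, (wgt N L m : ℂ) * G m := by
      rw [Finset.sum_sub_distrib, hsumF,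
        ← Finset.add_sum_erase (Finset.range N) _ (Finset.mem_range.2 hN)]
      push_cast
      ring
    rw [h2]
    refine (norm_add_le _ _).trans (add_le_add ?_ ?_)
    · refine (norm_sum_le _ _).trans ((Finset.sum_le_sum hfe).trans ?_)
      rw [Finset.sum_const, nsmul_eq_mul]
      gcongr
    · rw [norm_mul, norm_div, norm_one, Complex.norm_natCast]
      gcongr
  refine hfin.trans ?_
  have e1 : 3 * ((R : ℝ) * c) * (10 * R * Λ / K) ≤
      30 * n ^ 3 * R ^ 3 * (1 + Λ) * c * (1 / K) := by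
    have h2 : Λ ≤ n ^ 3 * R * (1 + Λ) := by
      have : (1 : ℝ) ≤ n ^ 3 := one_le_pow₀ hn1
      have h3 : (1 : ℝ) * 1 ≤ n ^ 3 * R := mul_le_mul this hR1 zero_le_one (by positivity)
      nlinarith
    calc 3 * ((R : ℝ) * c) * (10 * R * Λ / K) = 30 * R ^ 2 * c * (1 / K) * Λ := by ring
      _ ≤ 30 * R ^ 2 * c * (1 / K) * (n ^ 3 * R * (1 + Λ)) := by gcongr
      _ = _ := by ring
  have e2 : 1 / (N : ℝ) * ((N : ℝ) / L * (3 * (R * c) * B1)) ≤
      3 * C' * n ^ 3 * R ^ 3 * (1 + Λ) * c * (K * (Y / c) ^ (1 / 16 : ℝ)) := by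
    have h2 : 1 / (N : ℝ) * ((N : ℝ) / L * (3 * (R * c) * B1)) =
        1 / L * (3 * (R * c) * B1) := by field_simp
    rw [h2]
    calc 1 / (L : ℝ) * (3 * (R * c) * B1) ≤ K / c * (3 * (R * c) * B1) := by gcongr
      _ = 3 * C' * (n ^ 2 * R ^ 2) * (1 + Λ) * c * (K * (Y / c) ^ (1 / 16 : ℝ)) := by
          rw [hB1]
          field_simp
      _ ≤ 3 * C' * (n ^ 3 * R ^ 3) * (1 + Λ) * c * (K * (Y / c) ^ (1 / 16 : ℝ)) := by
          have h3 : (n : ℝ) ^ 2 ≤ n ^ 3 := pow_le_pow_right₀ hn1 (by norm_num)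
          have h4 : (R : ℝ) ^ 2 ≤ R ^ 3 := pow_le_pow_right₀ hR1 (by norm_num)
          gcongr
      _ = _ := by ring
  have e3 : 1 / (N : ℝ) * ((N : ℝ) ^ 2 / (L ^ 2 * M₀) * (3 * (R * c)) ^ 2) ≤
      9 * n ^ 3 * R ^ 3 * (1 + Λ) * c * (K ^ 2 / M₀) := by
    have h2 : 1 / (N : ℝ) * ((N : ℝ) ^ 2 / (L ^ 2 * M₀) * (3 * (R * c)) ^ 2) =
        9 * R ^ 2 * c ^ 3 * n / M₀ * (1 / L) ^ 2 := by
      rw [hNr]
      field_simp
      ring
    rw [h2]
    calc 9 * (R : ℝ) ^ 2 * c ^ 3 * n / M₀ * (1 / L) ^ 2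
        ≤ 9 * (R : ℝ) ^ 2 * c ^ 3 * n / M₀ * ((K : ℝ) / c) ^ 2 := by gcongr
      _ = 9 * ((R : ℝ) ^ 2 * n) * 1 * c * ((K : ℝ) ^ 2 / M₀) := by
          field_simp
      _ ≤ 9 * ((R : ℝ) ^ 3 * n ^ 3) * (1 + Λ) * c * ((K : ℝ) ^ 2 / M₀) := by
          have h3 : (n : ℝ) ≤ n ^ 3 := by
            calc (n : ℝ) = n ^ 1 := (pow_one _).symm
              _ ≤ n ^ 3 := pow_le_pow_right₀ hn1 (by norm_num)
          have h4 : (R : ℝ) ^ 2 ≤ R ^ 3 := pow_le_pow_right₀ hR1 (by norm_num)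
          have h5 : (1 : ℝ) ≤ 1 + Λ := by linarith
          gcongr
      _ = _ := by ring
  have e4 : 0 ≤ (n : ℝ) ^ 3 * R ^ 3 * (1 + Λ) * c * (1 / K) := by positivity
  have e5 : 0 ≤ (n : ℝ) ^ 3 * R ^ 3 * (1 + Λ) * c * (K ^ 2 / M₀) := by positivity
  have e6 : 0 ≤ (n : ℝ) ^ 3 * R ^ 3 * (1 + Λ) * c * (K * (Y / c) ^ (1 / 16 : ℝ)) := by positivity
  have e7 : 0 ≤ C' * ((n : ℝ) ^ 3 * R ^ 3 * (1 + Λ) * c * (1 / K)) := by positivity
  have e8 : 0 ≤ C' * ((n : ℝ) ^ 3 * R ^ 3 * (1 + Λ) * c * (K ^ 2 / M₀)) := by positivity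
  have e9 : (30 + 9 + 3 * C') * (n : ℝ) ^ 3 * R ^ 3 * (1 + Λ) * c *
      (1 / K + K ^ 2 / M₀ + K * (Y / c) ^ (1 / 16 : ℝ)) =
      (30 + 9 + 3 * C') * ((n : ℝ) ^ 3 * R ^ 3 * (1 + Λ) * c * (1 / K)) +
      (30 + 9 + 3 * C') * ((n : ℝ) ^ 3 * R ^ 3 * (1 + Λ) * c * (K ^ 2 / M₀)) +
      (30 + 9 + 3 * C') * ((n : ℝ) ^ 3 * R ^ 3 * (1 + Λ) * c * (K * (Y / c) ^ (1 / 16 : ℝ))) := by
    ring
  rw [e9, mul_add (1 / (N : ℝ))]
  have e1' : 30 * (n : ℝ) ^ 3 * R ^ 3 * (1 + Λ) * c * (1 / K) =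
    30 * ((n : ℝ) ^ 3 * R ^ 3 * (1 + Λ) * c * (1 / K)) := by ring
  have e2' : 3 * C' * (n : ℝ) ^ 3 * R ^ 3 * (1 + Λ) * c * (K * (Y / c) ^ (1 / 16 : ℝ)) =
    3 * C' * ((n : ℝ) ^ 3 * R ^ 3 * (1 + Λ) * c * (K * (Y / c) ^ (1 / 16 : ℝ))) := by ring
  have e3' : 9 * (n : ℝ) ^ 3 * R ^ 3 * (1 + Λ) * c * (K ^ 2 / M₀) =
    9 * ((n : ℝ) ^ 3 * R ^ 3 * (1 + Λ) * c * (K ^ 2 / M₀)) := by ring
  rw [e1'] at e1
  rw [e2'] at e2
  rw [e3'] at e3
  linarith


theorem row_est : type_of% @row_est_pr := @row_est_pr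

end Pool.Agent.JOM
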