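import Pool.Agent.Lib_helper68.JOF.DefsF
import Pool.Agent.Lib_helper68.JOF.ROW
import Pool.Agent.Lib_helper68.JOF.COP
import Pool.Agent.Lib_helper68.JOF.GEO

/-! Block ASM, part A: one row. -/

namespace Pool.Agent.JOM

open MeasureTheory Filter Topology UpperHalfPlane
open scoped MatrixGroups Modular ArithmeticFunction.Moebius

open Classical in
theorem asm_row {β : ℝ → ℝ} {Λ κ : ℝ} (hβ : Tst β Λ κ) : ∃ C₀ : ℝ, 0 < C₀ ∧
    ∀ (n c K M₀ R' : ℕ) (A B C D : ℤ) (X x y u v R Y : ℝ),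
    0 < n → 0 < c → Cls n A B C D → (n : ℤ) ∣ c - C → 1 ≤ K → K ≤ c → 1 ≤ M₀ → 1 ≤ Y →
    Good n M₀ Y c → 1 ≤ X → 1 / 2 ≤ y → 1 / 2 ≤ v → 1 ≤ R → 3 * √(κ * X * (y * v)) ≤ R * c →
    R + |x| + |u| ≤ R' →
    |(∑ d ∈ Finset.Icc (-(R' * c : ℤ)) (R' * c), ∑ a ∈ Finset.Icc (-(R' * c : ℤ)) (R' * c),
        if Vp n A B D c a d then β ((c : ℝ) ^ 2 * WF y v (a / c - x) (d / c + u) / X) else 0) -
      c * ff n c / n ^ 2 * ∫ p : ℝ, ∫ q : ℝ, β ((c : ℝ) ^ 2 * WF y v p q / X)| ≤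
    C₀ * (n ^ 3 * R' ^ 3 * (R' + y + v) ^ 3) * (c * (1 / K + K ^ 2 / M₀ +
      K * (Y / c) ^ (1 / 16 : ℝ)) + c.divisors.card) := by
  obtain ⟨C₁, hC₁, h1⟩ := row_est
  obtain ⟨C₂, hC₂, h2⟩ := row_main
  obtain ⟨C₃, hC₃, h3⟩ := WF_lip hβ
  refine ⟨C₃ * (2 * C₁ + C₂), by positivity, ?_⟩
  intro n c K M₀ R' A B C D X x y u v R Y hn hc hcls hcC hK hKc hM hY hgood hX hy hv hR hRc hRR
  have hcR : (0 : ℝ) < c := by exact_mod_cast hc
  have hnR : (1 : ℝ) ≤ n := by exact_mod_cast hn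
  have hKR : (1 : ℝ) ≤ K := by exact_mod_cast hK
  have hMR : (1 : ℝ) ≤ M₀ := by exact_mod_cast hM
  obtain ⟨hb, hs, hl⟩ := h3 X y v c R hX hy hv hcR hR hRc
  have hax : 0 ≤ |x| := abs_nonneg x
  have hau : 0 ≤ |u| := abs_nonneg u
  have hRR' : R ≤ R' := by linarith
  have hR'1 : (1 : ℝ) ≤ R' := by linarith
  have hR'n : 1 ≤ R' := by exact_mod_cast hR'1
  have hsupp : ∀ a d : ℤ, ((R' * c : ℤ) < |a| ∨ (R' * c : ℤ) < |d|) →
      β ((c : ℝ) ^ 2 * WF y v (a / c - x) (d / c + u) / X) = 0 := by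
    intro a d had
    apply hs
    rcases had with h | h
    · left
      have h' : (R' : ℝ) * c < |(a : ℝ)| := by exact_mod_cast h
      have h4 : (R' : ℝ) < |(a : ℝ) / c| := by
        rw [abs_div, abs_of_pos hcR, lt_div_iff₀ hcR]; exact h'
      have h5 : |(a : ℝ) / c| ≤ |(a : ℝ) / c - x| + |x| := by
        have := abs_add_le ((a : ℝ) / c - x) x
        simpa using this
      linarith
    · right
      have h' : (R' : ℝ) * c < |(d : ℝ)| := by exact_mod_cast h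
      have h4 : (R' : ℝ) < |(d : ℝ) / c| := by
        rw [abs_div, abs_of_pos hcR, lt_div_iff₀ hcR]; exact h'
      have h5 : |(d : ℝ) / c| ≤ |(d : ℝ) / c + u| + |u| := by
        have := abs_add_le ((d : ℝ) / c + u) (-u)
        simpa using this
      linarith
  set E : ℝ := (R' + y + v) ^ 3 with hE
  have hE1 : 1 ≤ E := by
    rw [hE]; apply one_le_pow₀; linarith
  have hRE : (R + y + v) ^ 3 ≤ E := by
    rw [hE]; gcongr
  set h : ℤ → ℤ → ℝ := fun a d => β ((c : ℝ) ^ 2 * WF y v (a / c - x) (d / c + u) / X) / C₃ with hh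
  have e1 := h1 n c K M₀ R' A B C D Y E h hn hc hcls hcC hK hKc hM hY hgood hR'n (by positivity)
    (by
      intro a d
      simp only [hh]
      rw [abs_div, abs_of_pos hC₃, div_le_one hC₃]
      exact hb _ _)
    (by
      intro a d had
      simp only [hh]
      rw [hsupp a d had, zero_div])
    (by
      intro a a' d d'
      simp only [hh]
      rw [← sub_div, abs_div, abs_of_pos hC₃, div_le_iff₀ hC₃]
      refine (hl _ _ _ _).trans ?_
      have e2 : |(a : ℝ) / c - x - (a' / c - x)| = |(a : ℝ) - a'| / c := by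
        rw [show (a : ℝ) / c - x - (a' / c - x) = (a - a') / c by ring, abs_div, abs_of_pos hcR]
      have e3 : |(d : ℝ) / c + u - (d' / c + u)| = |(d : ℝ) - d'| / c := by
        rw [show (d : ℝ) / c + u - (d' / c + u) = (d - d') / c by ring, abs_div, abs_of_pos hcR]
      rw [e2, e3, ← add_div]
      have e4 : (0 : ℝ) ≤ (|(a : ℝ) - a'| + |(d : ℝ) - d'|) / c := by positivity
      calc C₃ * (R + y + v) ^ 3 * ((|(a : ℝ) - a'| + |(d : ℝ) - d'|) / c) ≤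
          C₃ * E * ((|(a : ℝ) - a'| + |(d : ℝ) - d'|) / c) := by gcongr
        _ = _ := by ring)
  have e2 := h2 n c A B C D R (C₃ * E) x u (fun p q => β ((c : ℝ) ^ 2 * WF y v p q / X))
    (Finset.Icc (-(R' * c : ℤ)) (R' * c)) hn hc hcls hcC hR (by positivity)
    (by
      intro p p' q q'
      refine (hl p p' q q').trans ?_
      have : 0 ≤ |p - p'| + |q - q'| := by positivity
      gcongr)
    (fun p q hpq => hs p q hpq)
    (by
      intro d hd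
      rw [Finset.mem_Icc, ← abs_le]
      have : |(d : ℝ)| ≤ R' * c := hd.trans (by gcongr)
      exact_mod_cast this)
  -- rewrite `e1`
  have f1 : (∑ d ∈ Finset.Icc (-(R' * c : ℤ)) (R' * c), ∑ a ∈ Finset.Icc (-(R' * c : ℤ)) (R' * c),
        if Vp n A B D c a d then h a d else 0) = (∑ d ∈ Finset.Icc (-(R' * c : ℤ)) (R' * c),
        ∑ a ∈ Finset.Icc (-(R' * c : ℤ)) (R' * c), if Vp n A B D c a d then
          β ((c : ℝ) ^ 2 * WF y v (a / c - x) (d / c + u) / X) else 0) / C₃ := by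
    rw [Finset.sum_div]
    refine Finset.sum_congr rfl fun d _ => ?_
    rw [Finset.sum_div]
    refine Finset.sum_congr rfl fun a _ => ?_
    split_ifs
    · rfl
    · simp
  have f2 : ∑ a ∈ Finset.Icc (-(R' * c : ℤ)) (R' * c),
        ∑ d ∈ (Finset.Icc (-(R' * c : ℤ)) (R' * c)).filter (fun d => Adm n D c d), h a d =
      (∑ a ∈ Finset.Icc (-(R' * c : ℤ)) (R' * c),
        ∑ d ∈ (Finset.Icc (-(R' * c : ℤ)) (R' * c)).filter (fun d => Adm n D c d),
          β ((c : ℝ) ^ 2 * WF y v (a / c - x) (d / c + u) / X)) / C₃ := by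
    rw [Finset.sum_div]
    refine Finset.sum_congr rfl fun d _ => ?_
    rw [Finset.sum_div]
  rw [f1, f2] at e1
  set U := ∑ d ∈ Finset.Icc (-(R' * c : ℤ)) (R' * c),
        ∑ a ∈ Finset.Icc (-(R' * c : ℤ)) (R' * c), if Vp n A B D c a d then
          β ((c : ℝ) ^ 2 * WF y v (a / c - x) (d / c + u) / X) else 0 with hU
  set V := ∑ a ∈ Finset.Icc (-(R' * c : ℤ)) (R' * c),
        ∑ d ∈ (Finset.Icc (-(R' * c : ℤ)) (R' * c)).filter (fun d => Adm n D c d),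
          β ((c : ℝ) ^ 2 * WF y v (a / c - x) (d / c + u) / X) with hV
  have e3 : |U - 1 / (c * n) * V| ≤ C₃ * (C₁ * n ^ 3 * R' ^ 3 * (1 + E) * c *
      (1 / K + K ^ 2 / M₀ + K * (Y / c) ^ (1 / 16 : ℝ))) := by
    have : U - 1 / (c * n) * V = C₃ * (U / C₃ - 1 / (c * n) * (V / C₃)) := by
      field_simp
    rw [this, abs_mul, abs_of_pos hC₃]
    gcongr
  have hYc : (0 : ℝ) ≤ (Y / c) ^ (1 / 16 : ℝ) := by positivity
  set W : ℝ := 1 / K + K ^ 2 / M₀ + K * (Y / c) ^ (1 / 16 : ℝ) with hW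
  have hW0 : 0 ≤ W := by positivity
  set τ : ℝ := (c.divisors.card : ℝ) with hτ
  have hτ0 : 0 ≤ τ := by positivity
  set J := c * ff n c / n ^ 2 * ∫ p : ℝ, ∫ q : ℝ, β ((c : ℝ) ^ 2 * WF y v p q / X) with hJ
  have e4 : |1 / (c * n) * V - J| ≤ C₂ * (C₃ * E) * n * R ^ 2 * τ := e2
  calc |U - J| ≤ |U - 1 / (c * n) * V| + |1 / (c * n) * V - J| := abs_sub_le _ _ _
    _ ≤ C₃ * (C₁ * n ^ 3 * R' ^ 3 * (1 + E) * c * W) + C₂ * (C₃ * E) * n * R ^ 2 * τ :=
        add_le_add e3 e4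
    _ ≤ C₃ * (C₁ * n ^ 3 * R' ^ 3 * (E + E) * c * W) + C₂ * (C₃ * E) * n ^ 3 * R' ^ 3 * τ := by
        have g1 : (n : ℝ) ≤ n ^ 3 := le_self_pow₀ hnR (by norm_num)
        have g2 : R ^ 2 ≤ (R' : ℝ) ^ 3 :=
          (pow_le_pow_left₀ (by linarith) hRR' 2).trans
            (pow_le_pow_right₀ hR'1 (by norm_num))
        gcongr
    _ ≤ C₃ * (2 * C₁ + C₂) * (n ^ 3 * R' ^ 3 * E) * (c * W + τ) := by
        have g3 : 0 ≤ C₃ * C₂ * (n ^ 3 * R' ^ 3 * E) * (c * W) := by positivity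
        have g4 : 0 ≤ C₃ * (2 * C₁) * (n ^ 3 * R' ^ 3 * E) * τ := by positivity
        nlinarith [g3, g4]

end Pool.Agent.JOM
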