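import Pool.Agent.Lib_helper68.JOF.DefsF
import Pool.Agent.Lib_helper68.SEL.KA

/-! Project JO, part M, block CRU. -/

namespace Pool.Agent.JOM

open MeasureTheory Filter Topology UpperHalfPlane
open scoped MatrixGroups Modular ArithmeticFunction.Moebius

/-- a fibre with `1 + b c ≠ 0` -/
theorem cru_fib (c b : ℤ) (hbc : 1 + b * c ≠ 0) (S : Finset (ℤ × ℤ × ℤ))
    (hS : ∀ t ∈ S, t.2.1 = b ∧ t.1 * t.2.2 - t.2.1 * c = 1) :
    S.card ≤ 2 * (1 + b * c).natAbs.divisors.card := by
  classical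
  have h1 : S.card ≤ ((1 + b * c).natAbs.divisors ×ˢ (Finset.univ : Finset Bool)).card := by
    apply Finset.card_le_card_of_injOn (fun t => (t.1.natAbs, decide (0 ≤ t.1)))
    · intro t ht
      rw [Finset.mem_coe] at ht
      obtain ⟨e1, e2⟩ := hS t ht
      rw [Finset.mem_coe, Finset.mem_product]
      refine ⟨?_, Finset.mem_univ _⟩
      rw [Nat.mem_divisors]
      refine ⟨?_, by rwa [Ne, Int.natAbs_eq_zero]⟩
      rw [Int.natAbs_dvd_natAbs]
      refine ⟨t.2.2, ?_⟩
      rw [e1] at e2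
      linarith
    · intro t ht t' ht' heq
      rw [Finset.mem_coe] at ht ht'
      obtain ⟨e1, e2⟩ := hS t ht
      obtain ⟨f1, f2⟩ := hS t' ht'
      simp only [Prod.mk.injEq] at heq
      have h3 : t.1 = t'.1 := by
        have hd := heq.2
        rw [decide_eq_decide] at hd
        have hn := heq.1
        omega
      have h4 : t.1 ≠ 0 := by
        intro h0
        rw [h0, e1] at e2
        apply hbc
        linarith
      have h5 : t.2.2 = t'.2.2 := by
        rw [e1] at e2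
        rw [f1, ← h3] at f2
        have : t.1 * t.2.2 = t.1 * t'.2.2 := by linarith
        exact mul_left_cancel₀ h4 this
      exact Prod.ext h3 (Prod.ext (by rw [e1, f1]) h5)
  rw [Finset.card_product, Finset.card_univ, Fintype.card_bool] at h1
  omega

/-- the exceptional part -/
theorem cru_exc (M : ℕ) (hM : 1 ≤ M) (c : ℤ) (S : Finset (ℤ × ℤ × ℤ))
    (hS : ∀ t ∈ S, |t.1| ≤ M ∧ |t.2.1| ≤ M ∧ |t.2.2| ≤ M ∧ t.1 * t.2.2 - t.2.1 * c = 1 ∧
      1 + t.2.1 * c = 0) :
    S.card ≤ 6 * M := by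
  classical
  have h1 : S ⊆ (Finset.Icc (-(M : ℤ)) M).image (fun x => ((0 : ℤ), -c, x)) ∪
      (Finset.Icc (-(M : ℤ)) M).image (fun x => (x, -c, (0 : ℤ))) := by
    intro t ht
    obtain ⟨h1, h2, h3, h4, h5⟩ := hS t ht
    have hb : t.2.1 = -c := by
      have h6 : t.2.1 * (-c) = 1 := by linarith
      rcases Int.eq_one_or_neg_one_of_mul_eq_one' h6 with h7 | h7
      · rw [h7.1, h7.2]
      · rw [h7.1, h7.2]
    have had : t.1 * t.2.2 = 0 := by linarith
    rw [Finset.mem_union, Finset.mem_image, Finset.mem_image]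
    rcases mul_eq_zero.mp had with h6 | h6
    · left
      refine ⟨t.2.2, ?_, ?_⟩
      · rw [Finset.mem_Icc]; exact abs_le.mp h3
      · exact Prod.ext h6.symm (Prod.ext hb.symm rfl)
    · right
      refine ⟨t.1, ?_, ?_⟩
      · rw [Finset.mem_Icc]; exact abs_le.mp h1
      · exact Prod.ext rfl (Prod.ext hb.symm h6.symm)
  have h2 := Finset.card_le_card h1
  have h3 := Finset.card_union_le ((Finset.Icc (-(M : ℤ)) M).image (fun x => ((0 : ℤ), -c, x)))
    ((Finset.Icc (-(M : ℤ)) M).image (fun x => (x, -c, (0 : ℤ))))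
  have h4 := Finset.card_image_le (s := Finset.Icc (-(M : ℤ)) M) (f := fun x => ((0 : ℤ), -c, x))
  have h5 := Finset.card_image_le (s := Finset.Icc (-(M : ℤ)) M) (f := fun x => (x, -c, (0 : ℤ)))
  rw [Int.card_Icc] at h4 h5
  omega

theorem crude_row_pr {ε : ℝ} (hε : 0 < ε) : ∃ C : ℝ, 0 < C ∧
    ∀ (M : ℕ) (c : ℤ) (S : Finset (ℤ × ℤ × ℤ)), 1 ≤ M → |c| ≤ M →
      (∀ t ∈ S, |t.1| ≤ M ∧ |t.2.1| ≤ M ∧ |t.2.2| ≤ M ∧ t.1 * t.2.2 - t.2.1 * c = 1) →
      (S.card : ℝ) ≤ C * (M : ℝ) ^ (1 + ε) := by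
  classical
  obtain ⟨C₁, hC₁, hdiv⟩ := Pool.Agent.SEL.divisor_bound (half_pos hε)
  obtain ⟨D, hD⟩ : ∃ D : ℝ, D = (2 : ℝ) ^ (ε / 2) := ⟨_, rfl⟩
  have hD0 : 0 < D := by rw [hD]; positivity
  refine ⟨6 * C₁ * D + 6, by positivity, ?_⟩
  intro M c S hM hc hS
  have hM1 : (1 : ℝ) ≤ M := by exact_mod_cast hM
  have hM0 : (0 : ℝ) < M := by linarith
  have hsplit := Finset.card_filter_add_card_filter_not (s := S) (fun t => 1 + t.2.1 * c = 0)
  have hexc := cru_exc M hM c (S.filter (fun t => 1 + t.2.1 * c = 0)) (by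
    intro t ht
    rw [Finset.mem_filter] at ht
    obtain ⟨h1, h2, h3, h4⟩ := hS t ht.1
    exact ⟨h1, h2, h3, h4, ht.2⟩)
  have hmain : ((S.filter (fun t => ¬ (1 + t.2.1 * c = 0))).card : ℝ) ≤
      (2 * M + 1) * (2 * (C₁ * (D * (M : ℝ) ^ ε))) := by
    have hfw := Finset.card_eq_sum_card_fiberwise
      (s := S.filter (fun t => ¬ (1 + t.2.1 * c = 0))) (t := Finset.Icc (-(M : ℤ)) M)
      (f := fun t => t.2.1) (by
        intro t ht
        rw [Finset.mem_coe, Finset.mem_filter] at ht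
        rw [Finset.mem_coe, Finset.mem_Icc]
        exact abs_le.mp (hS t ht.1).2.1)
    rw [hfw, Nat.cast_sum]
    have hb : ∀ b ∈ Finset.Icc (-(M : ℤ)) M,
        ((((S.filter (fun t => ¬ (1 + t.2.1 * c = 0))).filter (fun t => t.2.1 = b)).card : ℕ) : ℝ) ≤
          2 * (C₁ * (D * (M : ℝ) ^ ε)) := by
      intro b hb
      by_cases hbc : 1 + b * c = 0
      · have he : (S.filter (fun t => ¬ (1 + t.2.1 * c = 0))).filter (fun t => t.2.1 = b) = ∅ := by
          rw [Finset.filter_eq_empty_iff]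
          intro t ht h1
          rw [Finset.mem_filter] at ht
          apply ht.2
          rw [h1]
          exact hbc
        rw [he, Finset.card_empty, Nat.cast_zero]
        positivity
      · have h1 := cru_fib c b hbc ((S.filter (fun t => ¬ (1 + t.2.1 * c = 0))).filter
          (fun t => t.2.1 = b)) (by
            intro t ht
            rw [Finset.mem_filter, Finset.mem_filter] at ht
            exact ⟨ht.2, (hS t ht.1.1).2.2.2⟩)
        have h2 : ((((S.filter (fun t => ¬ (1 + t.2.1 * c = 0))).filter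
            (fun t => t.2.1 = b)).card : ℕ) : ℝ) ≤ 2 * ((1 + b * c).natAbs.divisors.card : ℝ) := by
          exact_mod_cast h1
        refine le_trans h2 ?_
        apply mul_le_mul_of_nonneg_left _ (by norm_num)
        have hpos : 0 < (1 + b * c).natAbs := Int.natAbs_pos.mpr hbc
        refine le_trans (hdiv _ hpos) ?_
        apply mul_le_mul_of_nonneg_left _ hC₁.le
        have hle : (((1 + b * c).natAbs : ℕ) : ℝ) ≤ 2 * (M : ℝ) ^ 2 := by
          rw [Nat.cast_natAbs]
          push_cast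
          rw [Finset.mem_Icc] at hb
          have hbM : |(b : ℝ)| ≤ M := by
            have : |b| ≤ (M : ℤ) := abs_le.mpr hb
            exact_mod_cast this
          have hcM : |(c : ℝ)| ≤ M := by exact_mod_cast hc
          calc |1 + (b : ℝ) * c| ≤ |(1 : ℝ)| + |(b : ℝ) * c| := abs_add_le _ _
            _ = 1 + |(b : ℝ)| * |(c : ℝ)| := by rw [abs_one, abs_mul]
            _ ≤ 1 + M * M := by
                have := mul_le_mul hbM hcM (abs_nonneg _) hM0.le
                linarith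
            _ ≤ 2 * (M : ℝ) ^ 2 := by nlinarith
        calc (((1 + b * c).natAbs : ℕ) : ℝ) ^ (ε / 2) ≤ (2 * (M : ℝ) ^ 2) ^ (ε / 2) :=
              Real.rpow_le_rpow (Nat.cast_nonneg _) hle (by positivity)
          _ = D * (M : ℝ) ^ ε := by
              rw [Real.mul_rpow (by norm_num) (by positivity), ← hD, ← Real.rpow_natCast,
                ← Real.rpow_mul hM0.le]
              congr 2
              push_cast
              ring
    refine le_trans (Finset.sum_le_sum hb) ?_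
    rw [Finset.sum_const, Int.card_Icc, nsmul_eq_mul]
    apply mul_le_mul_of_nonneg_right _ (by positivity)
    have : ((M : ℤ) + 1 - -(M : ℤ)).toNat = 2 * M + 1 := by omega
    rw [this]
    push_cast
    exact le_refl _
  have htot : (S.card : ℝ) ≤ 6 * M + (2 * M + 1) * (2 * (C₁ * (D * (M : ℝ) ^ ε))) := by
    have h1 : (S.card : ℝ) = ((S.filter (fun t => 1 + t.2.1 * c = 0)).card : ℝ) +
        ((S.filter (fun t => ¬ (1 + t.2.1 * c = 0))).card : ℝ) := by
      rw [← hsplit]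
      push_cast
      rfl
    have h2 : ((S.filter (fun t => 1 + t.2.1 * c = 0)).card : ℝ) ≤ 6 * M := by
      exact_mod_cast hexc
    linarith
  refine le_trans htot ?_
  have hMe : (1 : ℝ) ≤ (M : ℝ) ^ ε := Real.one_le_rpow hM1 hε.le
  rw [Real.rpow_add hM0, Real.rpow_one]
  have h3 : (6 : ℝ) * M ≤ 6 * (M * (M : ℝ) ^ ε) := by nlinarith
  have h4 : (2 * (M : ℝ) + 1) * (2 * (C₁ * (D * (M : ℝ) ^ ε))) ≤
      (3 * M) * (2 * (C₁ * (D * (M : ℝ) ^ ε))) := by
    apply mul_le_mul_of_nonneg_right _ (by positivity)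
    linarith
  calc 6 * (M : ℝ) + (2 * M + 1) * (2 * (C₁ * (D * (M : ℝ) ^ ε))) ≤
      6 * (M * (M : ℝ) ^ ε) + (3 * M) * (2 * (C₁ * (D * (M : ℝ) ^ ε))) := add_le_add h3 h4
    _ = (6 * C₁ * D + 6) * (M * (M : ℝ) ^ ε) := by ring

theorem crude_row : type_of% @crude_row_pr := @crude_row_pr

end Pool.Agent.JOM
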