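import Pool.Agent.Lib_helper68.JOF.DefsF
import Pool.Agent.Lib_helper68.JOF.ASMA
import Pool.Agent.Lib_helper68.JOF.CRU
import Pool.Agent.Lib_helper68.JOF.GEO

/-! Block ASM, part B: comparison of a row of the lattice count with the simplified row. -/

namespace Pool.Agent.JOM

open MeasureTheory Filter Topology UpperHalfPlane
open scoped MatrixGroups Modular ArithmeticFunction.Moebius

theorem asm_beta_bd {β : ℝ → ℝ} {Λ κ : ℝ} (hβ : Tst β Λ κ) {t : ℝ} (ht : 0 ≤ t) :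
    |β t| ≤ Λ * κ := by
  obtain ⟨h0, h1, h2, h3⟩ := hβ
  by_cases h : κ ≤ t
  · rw [h3 t h, abs_zero]
    exact mul_nonneg h0 (by linarith)
  · push Not at h
    have h4 := h2 t κ
    rw [h3 κ le_rfl, sub_zero] at h4
    refine h4.trans ?_
    rw [abs_sub_comm, abs_of_nonneg (by linarith)]
    exact mul_le_mul_of_nonneg_left (by linarith) h0

open Classical in
theorem asm_cmp {β : ℝ → ℝ} {Λ κ : ℝ} (hβ : Tst β Λ κ) {ε : ℝ} (hε : 0 < ε) :
    ∃ C₀ : ℝ, 0 < C₀ ∧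
    ∀ (n c R' : ℕ) (A B C D : ℤ) (X x y u v R : ℝ) (S : Finset (ℤ × ℤ × ℤ × ℤ)),
    0 < n → 0 < c → Cls n A B C D → (n : ℤ) ∣ c - C → 1 ≤ X → 1 / 2 ≤ y → 1 / 2 ≤ v →
    1 ≤ R → 3 * √(κ * X * (y * v)) ≤ R * c → R + |x| + |u| ≤ R' →
    (∀ t : ℤ × ℤ × ℤ × ℤ, t ∈ S ↔ t.1 * t.2.2.2 - t.2.1 * t.2.2.1 = 1 ∧ (n : ℤ) ∣ t.1 - A ∧
        (n : ℤ) ∣ t.2.1 - B ∧ t.2.2.1 = c ∧ (n : ℤ) ∣ t.2.2.2 - D ∧
        QF x y u v t.1 t.2.1 t.2.2.1 t.2.2.2 ≤ 2 * y * v * (κ * X)) →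
    |∑ t ∈ S, β (QF x y u v t.1 t.2.1 t.2.2.1 t.2.2.2 / (2 * y * v) / X) -
      ∑ d ∈ Finset.Icc (-(R' * c : ℤ)) (R' * c), ∑ a ∈ Finset.Icc (-(R' * c : ℤ)) (R' * c),
        if Vp n A B D c a d then β ((c : ℝ) ^ 2 * WF y v (a / c - x) (d / c + u) / X) else 0| ≤
    C₀ * R' ^ 2 / X * (R' ^ 2 * c) ^ (1 + ε) := by
  obtain ⟨C₁, hC₁, h1⟩ := crude_row hε
  refine ⟨20 * (Λ + 1) * C₁ * 2 ^ (1 + ε), ?_, ?_⟩
  · have := hβ.1; positivity
  intro n c R' A B C D X x y u v R S hn hc hcls hcC hX hy hv hR hRc hRR hS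
  have hΛ := hβ.1
  have hκ := hβ.2.1
  have hcR : (0 : ℝ) < c := by exact_mod_cast hc
  have hc1 : (1 : ℝ) ≤ c := by exact_mod_cast hc
  have hcZ : (c : ℤ) ≠ 0 := by exact_mod_cast hc.ne'
  have hX0 : 0 < X := by linarith
  have hax : 0 ≤ |x| := abs_nonneg x
  have hau : 0 ≤ |u| := abs_nonneg u
  have hRR' : R ≤ R' := by linarith
  have hR'1 : (1 : ℝ) ≤ R' := by linarith
  have hyv : 0 < 2 * y * v := by positivity
  set I : Finset ℤ := Finset.Icc (-(R' * c : ℤ)) (R' * c) with hI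
  set P : Finset (ℤ × ℤ) := (I ×ˢ I).filter (fun t => Vp n A B D c t.1 t.2) with hP
  set φ : ℤ × ℤ → ℤ × ℤ × ℤ × ℤ := fun t => (t.1, (t.1 * t.2 - 1) / c, (c : ℤ), t.2) with hφ
  have hφi : Function.Injective φ := by
    intro s t hst
    simp only [hφ, Prod.mk.injEq] at hst
    exact Prod.ext hst.1 hst.2.2.2
  have hPd : ∀ t ∈ P, |t.1| ≤ R' * c ∧ |t.2| ≤ R' * c ∧ Vp n A B D c t.1 t.2 := by
    intro t ht
    rw [hP, Finset.mem_filter, Finset.mem_product, hI, Finset.mem_Icc, Finset.mem_Icc,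
      ← abs_le, ← abs_le] at ht
    exact ⟨ht.1.1, ht.1.2, ht.2⟩
  have hb : ∀ t ∈ P, t.1 * t.2 - (t.1 * t.2 - 1) / c * c = 1 ∧
      (n : ℤ) ∣ (t.1 * t.2 - 1) / c - B := by
    intro t ht
    obtain ⟨-, -, -, -, hv3⟩ := hPd t ht
    obtain ⟨k, hk⟩ := hv3
    have e1 : t.1 * t.2 - 1 = c * (B + n * k) := by linear_combination hk
    have e2 : (t.1 * t.2 - 1) / (c : ℤ) = B + n * k := by
      rw [e1, Int.mul_ediv_cancel_left _ hcZ]
    rw [e2]
    constructor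
    · linear_combination e1
    · exact ⟨k, by ring⟩
  -- first: S versus P
  have hsub : S ⊆ P.image φ := by
    intro t ht
    rw [hS] at ht
    obtain ⟨g1, g2, g3, g4, g5, g6⟩ := ht
    rw [Finset.mem_image]
    have hab := QF_bound hy hv (by positivity : (0 : ℝ) ≤ κ * X) g6
    have hc0 : (t.2.2.1 : ℝ) ≠ 0 := by rw [g4]; exact_mod_cast hcZ
    obtain ⟨h5, h6⟩ := hab.2.2.2.2 hc0
    rw [g4] at h5 h6
    push_cast at h5 h6
    rw [abs_of_pos hcR] at h5 h6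
    have hq : 3 * √(κ * X * (y * v)) / c ≤ R := by rw [div_le_iff₀ hcR]; exact hRc
    refine ⟨(t.1, t.2.2.2), ?_, ?_⟩
    · rw [hP, Finset.mem_filter, Finset.mem_product, hI, Finset.mem_Icc, Finset.mem_Icc,
        ← abs_le, ← abs_le]
      refine ⟨⟨?_, ?_⟩, g2, g5, ?_⟩
      · have e1 : |(t.1 : ℝ) / c| ≤ R + |x| := by
          have := abs_add_le ((t.1 : ℝ) / c - x) x
          rw [sub_add_cancel] at this
          linarith
        rw [abs_div, abs_of_pos hcR, div_le_iff₀ hcR] at e1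
        have e2 : |(t.1 : ℝ)| ≤ R' * c := e1.trans (by gcongr; linarith)
        exact_mod_cast e2
      · have e1 : |(t.2.2.2 : ℝ) / c| ≤ R + |u| := by
          have := abs_add_le ((t.2.2.2 : ℝ) / c + u) (-u)
          rw [add_neg_cancel_right, abs_neg] at this
          linarith
        rw [abs_div, abs_of_pos hcR, div_le_iff₀ hcR] at e1
        have e2 : |(t.2.2.2 : ℝ)| ≤ R' * c := e1.trans (by gcongr; linarith)
        exact_mod_cast e2
      · obtain ⟨k, hk⟩ := g3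
        refine ⟨k, ?_⟩
        rw [g4] at g1
        show t.1 * t.2.2.2 - 1 - c * B = _
        linear_combination g1 + (c : ℤ) * hk
    · simp only [hφ]
      rw [g4] at g1
      have e1 : t.1 * t.2.2.2 - 1 = c * t.2.1 := by linear_combination g1
      rw [e1, Int.mul_ediv_cancel_left _ hcZ, ← g4]
  have hzero : ∀ t ∈ P.image φ, t ∉ S →
      β (QF x y u v t.1 t.2.1 t.2.2.1 t.2.2.2 / (2 * y * v) / X) = 0 := by
    intro t ht hnS
    rw [Finset.mem_image] at ht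
    obtain ⟨s, hs, rfl⟩ := ht
    apply hβ.2.2.2
    by_contra hcon
    push Not at hcon
    apply hnS
    rw [hS]
    have hb' := hb s hs
    obtain ⟨-, -, hv1, hv2, -⟩ := hPd s hs
    refine ⟨hb'.1, hv1, hb'.2, rfl, hv2, ?_⟩
    rw [div_lt_iff₀ hX0, div_lt_iff₀ hyv] at hcon
    linarith
  rw [Finset.sum_subset hsub hzero, Finset.sum_image (fun a _ b _ hab => hφi hab)]
  -- second sum over P
  have hsum2 : (∑ d ∈ I, ∑ a ∈ I, if Vp n A B D c a d then
      β ((c : ℝ) ^ 2 * WF y v (a / c - x) (d / c + u) / X) else 0) =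
      ∑ t ∈ P, β ((c : ℝ) ^ 2 * WF y v (t.1 / c - x) (t.2 / c + u) / X) := by
    rw [hP, Finset.sum_filter, Finset.sum_product, Finset.sum_comm]
  rw [hsum2, ← Finset.sum_sub_distrib]
  -- termwise bound
  have hterm : ∀ t ∈ P, |β (QF x y u v (φ t).1 (φ t).2.1 (φ t).2.2.1 (φ t).2.2.2 /
      (2 * y * v) / X) - β ((c : ℝ) ^ 2 * WF y v (t.1 / c - x) (t.2 / c + u) / X)| ≤
      20 * (Λ + 1) * R' ^ 2 / X := by
    intro t ht
    obtain ⟨ha, hd, -⟩ := hPd t ht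
    have hb' := (hb t ht).1
    refine (hβ.2.2.1 _ _).trans ?_
    have hdet : (t.1 : ℝ) * (t.2 : ℝ) - ((t.1 * t.2 - 1) / c : ℤ) * ((c : ℤ) : ℝ) = 1 := by
      exact_mod_cast hb'
    have e1 : QF x y u v (φ t).1 (φ t).2.1 (φ t).2.2.1 (φ t).2.2.2 =
        c ^ 2 * (((t.1 / c - x) ^ 2 + y ^ 2) * ((t.2 / c + u) ^ 2 + v ^ 2)) -
        2 * (t.1 / c - x) * (t.2 / c + u) + 1 / c ^ 2 := by
      have := QF_row (x := x) (y := y) (u := u) (v := v) (c := ((c : ℤ) : ℝ))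
        (by exact_mod_cast hcZ) hdet
      simp only [hφ]
      rw [this]
      push_cast
      ring
    rw [e1]
    have e2 : (c ^ 2 * (((t.1 / c - x) ^ 2 + y ^ 2) * ((t.2 / c + u) ^ 2 + v ^ 2)) -
        2 * (t.1 / c - x) * (t.2 / c + u) + 1 / c ^ 2) / (2 * y * v) / X -
        (c : ℝ) ^ 2 * WF y v (t.1 / c - x) (t.2 / c + u) / X =
        (- 2 * (t.1 / c - x) * (t.2 / c + u) + 1 / c ^ 2) / (2 * y * v) / X := by
      unfold WF
      field_simp
      ring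
    rw [e2]
    have hpa : |(t.1 : ℝ) / c| ≤ R' := by
      rw [abs_div, abs_of_pos hcR, div_le_iff₀ hcR]; exact_mod_cast ha
    have hpd : |(t.2 : ℝ) / c| ≤ R' := by
      rw [abs_div, abs_of_pos hcR, div_le_iff₀ hcR]; exact_mod_cast hd
    have hp : |(t.1 : ℝ) / c - x| ≤ 2 * R' := by
      have := abs_sub (t.1 / (c : ℝ)) x
      linarith
    have hq : |(t.2 : ℝ) / c + u| ≤ 2 * R' := by
      have := abs_add_le ((t.2 : ℝ) / c) u
      linarith
    have hpq : |(- 2 * (t.1 / c - x) * (t.2 / c + u) + 1 / (c : ℝ) ^ 2)| ≤ 9 * (R' : ℝ) ^ 2 := by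
      have h7 : |(1 : ℝ) / c ^ 2| ≤ 1 := by
        rw [abs_of_pos (by positivity), div_le_one (by positivity)]
        exact one_le_pow₀ hc1
      have h8 : |-2 * ((t.1 : ℝ) / c - x) * (t.2 / c + u)| ≤ 2 * (2 * R') * (2 * R') := by
        rw [abs_mul, abs_mul]
        have : |(-2 : ℝ)| = 2 := by norm_num
        rw [this]
        gcongr
      have h9 := abs_add_le (-2 * ((t.1 : ℝ) / c - x) * (t.2 / c + u)) (1 / (c : ℝ) ^ 2)
      have h10 : (1 : ℝ) ≤ (R' : ℝ) ^ 2 := one_le_pow₀ hR'1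
      calc _ ≤ _ := h9
        _ ≤ 2 * (2 * R') * (2 * R') + 1 := add_le_add h8 h7
        _ ≤ _ := by nlinarith
    rw [abs_div, abs_div, abs_of_pos hyv, abs_of_pos hX0]
    have h11 : |(- 2 * (t.1 / c - x) * (t.2 / c + u) + 1 / (c : ℝ) ^ 2)| / (2 * y * v) ≤
        20 * (R' : ℝ) ^ 2 := by
      rw [div_le_iff₀ hyv]
      refine hpq.trans ?_
      have : 1 / 2 ≤ 2 * y * v := by nlinarith
      nlinarith [sq_nonneg (R' : ℝ)]
    calc Λ * (|(- 2 * (t.1 / c - x) * (t.2 / c + u) + 1 / (c : ℝ) ^ 2)| / (2 * y * v) / X) ≤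
        (Λ + 1) * (20 * (R' : ℝ) ^ 2 / X) := by
          gcongr
          linarith
      _ = _ := by ring
  refine (Finset.abs_sum_le_sum_abs _ _).trans ((Finset.sum_le_card_nsmul _ _ _ hterm).trans ?_)
  rw [nsmul_eq_mul]
  -- the number of elements of `P`
  have hcard : (P.card : ℝ) ≤ C₁ * ((2 * R' ^ 2 * c : ℕ) : ℝ) ^ (1 + ε) := by
    have hinj2 : Function.Injective (fun t : ℤ × ℤ => (t.1, (t.1 * t.2 - 1) / (c : ℤ), t.2)) := by
      intro s t hst
      simp only [Prod.mk.injEq] at hst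
      exact Prod.ext hst.1 hst.2.2
    rw [← Finset.card_image_of_injective P hinj2]
    have hR'Z : (1 : ℤ) ≤ R' := by exact_mod_cast hR'1
    have hcZ1 : (1 : ℤ) ≤ c := by exact_mod_cast hc
    have hMM : (R' : ℤ) * c ≤ ((2 * R' ^ 2 * c : ℕ) : ℤ) := by
      push_cast
      nlinarith [mul_nonneg (by linarith : (0 : ℤ) ≤ R') (by linarith : (0 : ℤ) ≤ c),
        mul_nonneg (mul_nonneg (by linarith : (0 : ℤ) ≤ R') (by linarith : (0 : ℤ) ≤ c))
          (by linarith : (0 : ℤ) ≤ R' - 1)]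
    apply h1 (2 * R' ^ 2 * c) c
    · have : 0 < R' := by exact_mod_cast (by linarith : (0 : ℝ) < R')
      exact Nat.succ_le_of_lt (by positivity)
    · have hc2 : |((c : ℕ) : ℤ)| = c := abs_of_nonneg (by positivity)
      rw [hc2]
      refine le_trans ?_ hMM
      nlinarith
    · intro t ht
      rw [Finset.mem_image] at ht
      obtain ⟨s, hs, rfl⟩ := ht
      obtain ⟨ha, hd, -⟩ := hPd s hs
      have hb' := (hb s hs).1
      refine ⟨ha.trans hMM, ?_, hd.trans hMM, hb'⟩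
      show |(s.1 * s.2 - 1) / (c : ℤ)| ≤ _
      have k1 : |(s.1 * s.2 - 1) / (c : ℤ)| * c ≤ ((2 * R' ^ 2 * c : ℕ) : ℤ) * c := by
        have k2 : |(s.1 * s.2 - 1) / (c : ℤ)| * c = |s.1 * s.2 - 1| := by
          have : (c : ℤ) = |(c : ℤ)| := (abs_of_nonneg (by positivity)).symm
          conv_lhs => rw [show |(s.1 * s.2 - 1) / (c : ℤ)| * (c : ℤ) =
            |(s.1 * s.2 - 1) / (c : ℤ)| * |(c : ℤ)| by rw [← this]]
          rw [← abs_mul]
          congr 1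
          linear_combination -hb'
        rw [k2]
        have k3 : |s.1 * s.2 - 1| ≤ |s.1| * |s.2| + 1 := by
          have := abs_sub (s.1 * s.2) 1
          rw [abs_mul] at this
          simpa using this
        have k4 : |s.1| * |s.2| ≤ (R' * c) * (R' * c) :=
          mul_le_mul ha hd (abs_nonneg _) (by positivity)
        push_cast
        nlinarith [mul_pos (by linarith : (0 : ℤ) < R') (by linarith : (0 : ℤ) < c)]
      exact le_of_mul_le_mul_right k1 (by linarith)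
  have hX' : 0 ≤ 20 * (Λ + 1) * (R' : ℝ) ^ 2 / X := by positivity
  calc (P.card : ℝ) * (20 * (Λ + 1) * (R' : ℝ) ^ 2 / X) ≤
      (C₁ * ((2 * R' ^ 2 * c : ℕ) : ℝ) ^ (1 + ε)) * (20 * (Λ + 1) * (R' : ℝ) ^ 2 / X) := by gcongr
    _ = _ := by
      have : ((2 * R' ^ 2 * c : ℕ) : ℝ) = 2 * ((R' : ℝ) ^ 2 * c) := by push_cast; ring
      rw [this, Real.mul_rpow (by norm_num) (by positivity)]
      ring

end Pool.Agent.JOM
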