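import Pool.Agent.Lib_helper68.JOF.DefsF
import Pool.Agent.Lib_helper68.JOF.ASMB

/-! Block ASM, part C: summation over the rows. -/

namespace Pool.Agent.JOM

open MeasureTheory Filter Topology UpperHalfPlane
open scoped MatrixGroups Modular ArithmeticFunction.Moebius

theorem asm_inv_sqrt (N : ℕ) : ∑ c ∈ Finset.Icc 1 N, (c : ℝ) ^ (-(1 / 2) : ℝ) ≤ 2 * √N := by
  induction N with
  | zero => simp
  | succ N ih =>
    rw [Finset.sum_Icc_succ_top (by omega)]
    refine (add_le_add ih le_rfl).trans ?_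
    have h0 : (0 : ℝ) ≤ N := by positivity
    have h1 : ((N + 1 : ℕ) : ℝ) ^ (-(1 / 2) : ℝ) = (√((N + 1 : ℕ) : ℝ))⁻¹ := by
      rw [Real.rpow_neg (by positivity), Real.sqrt_eq_rpow]
    rw [h1]
    push_cast
    set a := √(N : ℝ) with ha
    set b := √((N : ℝ) + 1) with hb
    have ha0 : 0 ≤ a := Real.sqrt_nonneg _
    have hb0 : 0 < b := Real.sqrt_pos.mpr (by linarith)
    have ha2 : a ^ 2 = N := Real.sq_sqrt h0
    have hb2 : b ^ 2 = N + 1 := Real.sq_sqrt (by linarith)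
    have hab : a ≤ b := Real.sqrt_le_sqrt (by linarith)
    rw [← sub_nonneg]
    have e : 2 * b - (2 * a + b⁻¹) = (b - a) ^ 2 / b := by
      field_simp
      nlinarith
    rw [e]
    positivity

open Classical in
theorem asm_split (I : Finset ℕ) (M : ℕ) (hI : ∀ c ∈ I, 1 ≤ c ∧ c ≤ M) (f J : ℕ → ℝ)
    (bad : ℕ → Prop) (F J₀ T G B : ℝ) (hF : ∀ c ∈ I, |f c| ≤ F)
    (hJ : ∀ c ∈ I, |J c| ≤ J₀ * (c : ℝ) ^ (-(1 / 2) : ℝ)) (hT : 1 ≤ T)
    (hF0 : 0 ≤ F) (hJ0 : 0 ≤ J₀) (hG0 : 0 ≤ G)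
    (hG : ∀ c ∈ I, T ≤ c → ¬ bad c → |f c - J c| ≤ G)
    (hB : ((I.filter (fun c => bad c)).card : ℝ) ≤ B) :
    |∑ c ∈ I, f c - ∑ c ∈ I, J c| ≤
      T * F + J₀ * (2 * √T) + B * (F + J₀ * T ^ (-(1 / 2) : ℝ)) + M * G := by
  have hT0 : 0 < T := by linarith
  have hTT : (0 : ℝ) ≤ T ^ (-(1 / 2) : ℝ) := by positivity
  have hterm : ∀ c ∈ I, |f c - J c| ≤ (if (c : ℝ) < T then F + J₀ * (c : ℝ) ^ (-(1 / 2) : ℝ) else 0) +
      (if bad c then F + J₀ * T ^ (-(1 / 2) : ℝ) else 0) + G := by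
    intro c hc
    have hc0 : (0 : ℝ) ≤ (c : ℝ) ^ (-(1 / 2) : ℝ) := by positivity
    by_cases h1 : (c : ℝ) < T
    · rw [if_pos h1]
      have h2 : (0 : ℝ) ≤ if bad c then F + J₀ * T ^ (-(1 / 2) : ℝ) else 0 := by
        split_ifs <;> positivity
      have h3 := abs_sub (f c) (J c)
      have h4 := hF c hc
      have h5 := hJ c hc
      linarith
    · rw [if_neg h1]
      push Not at h1
      by_cases h2 : bad c
      · rw [if_pos h2]
        have h3 := abs_sub (f c) (J c)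
        have h4 := hF c hc
        have h5 := hJ c hc
        have h6 : (c : ℝ) ^ (-(1 / 2) : ℝ) ≤ T ^ (-(1 / 2) : ℝ) :=
          Real.rpow_le_rpow_of_nonpos hT0 h1 (by norm_num)
        have h7 : J₀ * (c : ℝ) ^ (-(1 / 2) : ℝ) ≤ J₀ * T ^ (-(1 / 2) : ℝ) := by gcongr
        linarith
      · rw [if_neg h2]
        have := hG c hc h1 h2
        linarith
  rw [← Finset.sum_sub_distrib]
  refine (Finset.abs_sum_le_sum_abs _ _).trans ((Finset.sum_le_sum hterm).trans ?_)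
  rw [Finset.sum_add_distrib, Finset.sum_add_distrib]
  have hIM : I ⊆ Finset.Icc 1 M := fun c hc => Finset.mem_Icc.mpr (hI c hc)
  have e3 : ∑ c ∈ I, G ≤ M * G := by
    rw [Finset.sum_const, nsmul_eq_mul]
    have : (I.card : ℝ) ≤ M := by
      have h := Finset.card_le_card hIM
      rw [Nat.card_Icc] at h
      exact_mod_cast h
    gcongr
  have e2 : ∑ c ∈ I, (if bad c then F + J₀ * T ^ (-(1 / 2) : ℝ) else 0) ≤
      B * (F + J₀ * T ^ (-(1 / 2) : ℝ)) := by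
    rw [← Finset.sum_filter, Finset.sum_const, nsmul_eq_mul]
    gcongr
  have e1 : ∑ c ∈ I, (if (c : ℝ) < T then F + J₀ * (c : ℝ) ^ (-(1 / 2) : ℝ) else 0) ≤
      T * F + J₀ * (2 * √T) := by
    rw [← Finset.sum_filter, Finset.sum_add_distrib]
    have hsub : I.filter (fun c : ℕ => (c : ℝ) < T) ⊆ Finset.Icc 1 ⌊T⌋₊ := by
      intro c hc
      rw [Finset.mem_filter] at hc
      rw [Finset.mem_Icc]
      exact ⟨(hI c hc.1).1, Nat.le_floor hc.2.le⟩
    have hfl : ((⌊T⌋₊ : ℕ) : ℝ) ≤ T := Nat.floor_le hT0.le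
    apply add_le_add
    · rw [Finset.sum_const, nsmul_eq_mul]
      have : ((I.filter (fun c : ℕ => (c : ℝ) < T)).card : ℝ) ≤ ⌊T⌋₊ := by
        have h := Finset.card_le_card hsub
        rw [Nat.card_Icc] at h
        exact_mod_cast h
      gcongr
      linarith
    · rw [← Finset.mul_sum]
      gcongr
      refine (Finset.sum_le_sum_of_subset_of_nonneg hsub
        (fun c _ _ => by positivity)).trans ((asm_inv_sqrt _).trans ?_)
      gcongr
  linarith

end Pool.Agent.JOM
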