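import Pool.Agent.Lib_helper68.JOF.DefsF
import Pool.Agent.Lib_helper68.JOF.ASMC

/-! Block ASM, part D: parameters. -/

namespace Pool.Agent.JOM

open MeasureTheory Filter Topology UpperHalfPlane
open scoped MatrixGroups Modular ArithmeticFunction.Moebius

/-- rational powers of powers -/
theorem asm_rpow {Z : ℝ} (hZ : 1 ≤ Z) (a : ℕ) (r : ℝ) : (Z ^ a) ^ r = Z ^ ((a : ℝ) * r) := by
  rw [← Real.rpow_natCast Z a, ← Real.rpow_mul (by linarith)]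

theorem asm_rpow_le {Z : ℝ} (hZ : 1 ≤ Z) {a b : ℕ} {r : ℝ} (h : (a : ℝ) * r ≤ b) :
    (Z ^ a) ^ r ≤ Z ^ b := by
  rw [asm_rpow hZ, ← Real.rpow_natCast Z b]
  exact Real.rpow_le_rpow_of_exponent_le hZ h

/-- the size of the matrices -/
theorem asm_M {κ G P Z : ℝ} {M : ℕ} (hκ : 1 ≤ κ) (hG : 1 ≤ G) (hP1 : 1 ≤ P) (hP : P ≤ G ^ 2)
    (hZ : 1 ≤ Z) (hM : M = ⌈20 * P * √(κ * Z ^ 2000)⌉₊) :
    20 * P * √(κ * Z ^ 2000) ≤ M ∧ (M : ℝ) ≤ 21 * κ * G ^ 2 * Z ^ 1000 ∧ 1 ≤ M ∧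
      1 ≤ √(κ * Z ^ 2000) ∧ √(κ * Z ^ 2000) ≤ κ * Z ^ 1000 := by
  have hZ1 : 1 ≤ Z ^ 1000 := one_le_pow₀ hZ
  have e : κ * Z ^ 2000 = κ * (Z ^ 1000) ^ 2 := by rw [← pow_mul]
  have h1 : √(κ * Z ^ 2000) ≤ κ * Z ^ 1000 := by
    rw [e]
    apply Real.sqrt_le_iff.mpr
    refine ⟨by positivity, ?_⟩
    have : 0 ≤ (κ ^ 2 - κ) * (Z ^ 1000) ^ 2 := by
      apply mul_nonneg
      · nlinarith
      · positivity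
    nlinarith
  have h2 : 1 ≤ √(κ * Z ^ 2000) := by
    rw [Real.one_le_sqrt, e]
    have : 1 ≤ (Z ^ 1000) ^ 2 := one_le_pow₀ hZ1
    nlinarith
  have h3 : 1 ≤ P * √(κ * Z ^ 2000) := one_le_mul_of_one_le_of_one_le hP1 h2
  have h4 : 20 * P * √(κ * Z ^ 2000) ≤ M := by rw [hM]; exact Nat.le_ceil _
  refine ⟨h4, ?_, ?_, h2, h1⟩
  · have h5 : (M : ℝ) ≤ 20 * P * √(κ * Z ^ 2000) + 1 := by
      rw [hM]; exact (Nat.ceil_lt_add_one (by positivity)).le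
    calc (M : ℝ) ≤ 21 * (P * √(κ * Z ^ 2000)) := by linarith
      _ ≤ 21 * (G ^ 2 * (κ * Z ^ 1000)) := by gcongr
      _ = _ := by ring
  · have : (1 : ℝ) ≤ M := by linarith
    exact_mod_cast this

theorem asm_F {κ G Z : ℝ} {M : ℕ} (hκ : 1 ≤ κ) (hG : 1 ≤ G) (hZ : 1 ≤ Z)
    (hM : (M : ℝ) ≤ 21 * κ * G ^ 2 * Z ^ 1000) :
    (M : ℝ) ^ (1 + 1 / 2000 : ℝ) ≤ (21 * κ * G ^ 2) ^ 2 * Z ^ 1001 := by
  have h1 : 1 ≤ 21 * κ * G ^ 2 := by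
    have : 1 ≤ κ * G ^ 2 := one_le_mul_of_one_le_of_one_le hκ (one_le_pow₀ hG)
    linarith
  calc (M : ℝ) ^ (1 + 1 / 2000 : ℝ) ≤ (21 * κ * G ^ 2 * Z ^ 1000) ^ (1 + 1 / 2000 : ℝ) := by gcongr
    _ = (21 * κ * G ^ 2) ^ (1 + 1 / 2000 : ℝ) * (Z ^ 1000) ^ (1 + 1 / 2000 : ℝ) :=
        Real.mul_rpow (by positivity) (by positivity)
    _ ≤ (21 * κ * G ^ 2) ^ (2 : ℝ) * Z ^ 1001 := by
        gcongr
        · norm_num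
        · exact asm_rpow_le hZ (by norm_num)
    _ = _ := by norm_cast

/-- the auxiliary length `K` -/
theorem asm_K {Z : ℝ} {K : ℕ} (hZ : 1 ≤ Z) (hK : K = ⌈Z ^ 14⌉₊) :
    Z ^ 14 ≤ K ∧ (K : ℝ) ≤ 2 * Z ^ 14 ∧ 1 ≤ K := by
  have h1 : 1 ≤ Z ^ 14 := one_le_pow₀ hZ
  have h2 : Z ^ 14 ≤ K := by rw [hK]; exact Nat.le_ceil _
  refine ⟨h2, ?_, ?_⟩
  · have : (K : ℝ) ≤ Z ^ 14 + 1 := by
      rw [hK]; exact (Nat.ceil_lt_add_one (by positivity)).le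
    linarith
  · have : (1 : ℝ) ≤ K := by linarith
    exact_mod_cast this

/-- the number of bad rows -/
theorem asm_B {κ G Z C₆ : ℝ} {M K n : ℕ} (hκ : 1 ≤ κ) (hG : 1 ≤ G) (hZ : 1 ≤ Z) (hC₆ : 0 < C₆)
    (hn : 0 < n) (hnG : (n : ℝ) ≤ G)
    (hM : (M : ℝ) ≤ 21 * κ * G ^ 2 * Z ^ 1000) (hK : (K : ℝ) ≤ 2 * Z ^ 14) (hK1 : 1 ≤ K) :
    C₆ * M * ((K ^ 3 : ℕ) : ℝ) * (((K ^ 3 : ℕ) : ℝ) * n) ^ (1 / 42 : ℝ) *
      (Z ^ 270) ^ (-(1 / 6) : ℝ) ≤ 1344 * C₆ * κ * G ^ 3 * Z ^ 998 := by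
  have hZ0 : 0 < Z := by linarith
  have h1 : ((K ^ 3 : ℕ) : ℝ) ≤ 8 * Z ^ 42 := by
    push_cast
    calc (K : ℝ) ^ 3 ≤ (2 * Z ^ 14) ^ 3 := by gcongr
      _ = 8 * Z ^ 42 := by ring
  have hn1 : (1 : ℝ) ≤ n := by exact_mod_cast hn
  have h2 : (((K ^ 3 : ℕ) : ℝ) * n) ^ (1 / 42 : ℝ) ≤ 8 * G * Z := by
    calc (((K ^ 3 : ℕ) : ℝ) * n) ^ (1 / 42 : ℝ) ≤ (8 * Z ^ 42 * G) ^ (1 / 42 : ℝ) := by gcongr
      _ = (8 * G) ^ (1 / 42 : ℝ) * (Z ^ 42) ^ (1 / 42 : ℝ) := by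
          rw [show 8 * Z ^ 42 * G = (8 * G) * Z ^ 42 by ring]
          exact Real.mul_rpow (by positivity) (by positivity)
      _ ≤ (8 * G) ^ (1 : ℝ) * Z ^ 1 := by
          gcongr
          · linarith
          · norm_num
          · exact asm_rpow_le hZ (by norm_num)
      _ = _ := by rw [Real.rpow_one, pow_one]
  have h3 : (Z ^ 270) ^ (-(1 / 6) : ℝ) = (Z ^ 45)⁻¹ := by
    rw [asm_rpow hZ, show ((270 : ℕ) : ℝ) * (-(1 / 6)) = -((45 : ℕ) : ℝ) by norm_num,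
      Real.rpow_neg hZ0.le, Real.rpow_natCast]
  rw [h3]
  have hZ45 : 0 < Z ^ 45 := by positivity
  calc C₆ * M * ((K ^ 3 : ℕ) : ℝ) * (((K ^ 3 : ℕ) : ℝ) * n) ^ (1 / 42 : ℝ) * (Z ^ 45)⁻¹ ≤
      C₆ * (21 * κ * G ^ 2 * Z ^ 1000) * (8 * Z ^ 42) * (8 * G * Z) * (Z ^ 45)⁻¹ := by
        gcongr
    _ = 1344 * C₆ * κ * G ^ 3 * (Z ^ 1000 * Z ^ 42 * Z ^ 1 * (Z ^ 45)⁻¹) := by ring
    _ = _ := by
        have key : Z ^ 1000 * Z ^ 42 * Z ^ 1 * (Z ^ 45)⁻¹ = Z ^ 998 := by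
          rw [mul_inv_eq_iff_eq_mul₀ hZ45.ne', ← pow_add, ← pow_add, ← pow_add]
        rw [key]

/-- the good rows -/
theorem asm_good {κ G Z C₂ C₃ C₇ E W N τ R' c M K : ℝ} (hκ : 1 ≤ κ) (hG : 1 ≤ G) (hZ : 1 ≤ Z)
    (hC₂ : 0 < C₂) (hC₃ : 0 < C₃) (hC₇ : 0 < C₇)
    (hM : M ≤ 21 * κ * G ^ 2 * Z ^ 1000) (hc1 : 1 ≤ c) (hc : 2 * Z ^ 998 ≤ c) (hcM : c ≤ M)
    (hK1 : Z ^ 14 ≤ K) (hK2 : K ≤ 2 * Z ^ 14)
    (hR0 : 1 ≤ R') (hR : R' ≤ 7 * κ * G * Z ^ 2) (hE0 : 0 ≤ E) (hE : E ≤ 8 * κ * G * Z ^ 2)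
    (hN0 : 0 ≤ N) (hN : N ≤ G) (hτ : τ ≤ C₇ * c ^ (1 / 2 : ℝ))
    (hW : W = 1 / K + K ^ 2 / K ^ 3 + K * (Z ^ 270 / c) ^ (1 / 16 : ℝ)) :
    C₂ * (N ^ 3 * R' ^ 3 * E ^ 3) * (c * W + τ) + C₃ * R' ^ 2 / Z ^ 2000 * (R' ^ 2 * c) ^ (1 + 1 : ℝ) ≤
      (C₂ * 175616 * κ ^ 7 * (84 + 21 * C₇) + C₃ * 51883209 * κ ^ 8) * G ^ 11 * Z ^ 998 := by
  have hZ0 : 0 < Z := by linarith
  have hG0 : 0 < G := by linarith
  have hκ0 : 0 < κ := by linarith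
  have hK0 : 0 < K := lt_of_lt_of_le (by positivity) hK1
  have hc0 : 0 < c := by linarith
  have hM0 : 0 < M := by linarith
  -- W
  have w1 : 1 / K ≤ (Z ^ 14)⁻¹ := by
    rw [one_div]
    exact inv_anti₀ (by positivity) hK1
  have w2 : K ^ 2 / K ^ 3 ≤ (Z ^ 14)⁻¹ := by
    have : K ^ 2 / K ^ 3 = 1 / K := by field_simp
    rw [this]; exact w1
  have w3 : K * (Z ^ 270 / c) ^ (1 / 16 : ℝ) ≤ 2 * (Z ^ 14)⁻¹ := by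
    have e1 : Z ^ 270 / c ≤ (Z ^ 728)⁻¹ := by
      rw [div_le_iff₀ hc0, inv_mul_eq_div, le_div_iff₀ (by positivity), ← pow_add]
      have : (0 : ℝ) ≤ Z ^ 998 := by positivity
      norm_num
      linarith
    have e2 : ((Z ^ 728)⁻¹ : ℝ) ^ (1 / 16 : ℝ) ≤ (Z ^ 28)⁻¹ := by
      rw [Real.inv_rpow (by positivity)]
      apply inv_anti₀ (by positivity)
      rw [asm_rpow hZ, ← Real.rpow_natCast Z 28]
      apply Real.rpow_le_rpow_of_exponent_le hZ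
      norm_num
    calc K * (Z ^ 270 / c) ^ (1 / 16 : ℝ) ≤ (2 * Z ^ 14) * ((Z ^ 728)⁻¹) ^ (1 / 16 : ℝ) := by
          gcongr
      _ ≤ (2 * Z ^ 14) * (Z ^ 28)⁻¹ := by gcongr
      _ = _ := by
          rw [show Z ^ 28 = Z ^ 14 * Z ^ 14 by rw [← pow_add]]
          field_simp
  have hW4 : W ≤ 4 * (Z ^ 14)⁻¹ := by rw [hW]; linarith
  have hW0 : 0 ≤ W := by rw [hW]; positivity
  have hcW : c * W ≤ 84 * κ * G ^ 2 * Z ^ 986 := by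
    calc c * W ≤ (21 * κ * G ^ 2 * Z ^ 1000) * (4 * (Z ^ 14)⁻¹) := by
          gcongr
          exact hcM.trans hM
      _ = _ := by
          rw [show Z ^ 1000 = Z ^ 986 * Z ^ 14 by rw [← pow_add]]
          field_simp
          ring
  have hτ2 : τ ≤ 21 * C₇ * κ * G ^ 2 * Z ^ 986 := by
    have h1 : 1 ≤ 21 * κ * G ^ 2 := by
      have : 1 ≤ κ * G ^ 2 := one_le_mul_of_one_le_of_one_le hκ (one_le_pow₀ hG)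
      linarith
    calc τ ≤ C₇ * c ^ (1 / 2 : ℝ) := hτ
      _ ≤ C₇ * (21 * κ * G ^ 2 * Z ^ 1000) ^ (1 / 2 : ℝ) := by
          gcongr
          exact hcM.trans hM
      _ = C₇ * ((21 * κ * G ^ 2) ^ (1 / 2 : ℝ) * (Z ^ 1000) ^ (1 / 2 : ℝ)) := by
          rw [Real.mul_rpow (by positivity) (by positivity)]
      _ ≤ C₇ * ((21 * κ * G ^ 2) ^ (1 : ℝ) * Z ^ 986) := by
          gcongr
          · norm_num
          · exact asm_rpow_le hZ (by norm_num)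
      _ = _ := by rw [Real.rpow_one]; ring
  have hNRE : N ^ 3 * R' ^ 3 * E ^ 3 ≤ 175616 * κ ^ 6 * G ^ 9 * Z ^ 12 := by
    calc N ^ 3 * R' ^ 3 * E ^ 3 ≤ G ^ 3 * (7 * κ * G * Z ^ 2) ^ 3 * (8 * κ * G * Z ^ 2) ^ 3 := by
          gcongr
      _ = _ := by ring
  have hNRE0 : 0 ≤ N ^ 3 * R' ^ 3 * E ^ 3 := by positivity
  have hsum : c * W + τ ≤ (84 + 21 * C₇) * κ * G ^ 2 * Z ^ 986 := by nlinarith
  have first : C₂ * (N ^ 3 * R' ^ 3 * E ^ 3) * (c * W + τ) ≤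
      C₂ * 175616 * κ ^ 7 * (84 + 21 * C₇) * G ^ 11 * Z ^ 998 := by
    calc C₂ * (N ^ 3 * R' ^ 3 * E ^ 3) * (c * W + τ) ≤
        C₂ * (N ^ 3 * R' ^ 3 * E ^ 3) * ((84 + 21 * C₇) * κ * G ^ 2 * Z ^ 986) := by gcongr
      _ ≤ C₂ * (175616 * κ ^ 6 * G ^ 9 * Z ^ 12) * ((84 + 21 * C₇) * κ * G ^ 2 * Z ^ 986) := by
          gcongr
      _ = C₂ * 175616 * κ ^ 7 * (84 + 21 * C₇) * G ^ 11 * (Z ^ 12 * Z ^ 986) := by ring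
      _ = _ := by rw [← pow_add]
  have second : C₃ * R' ^ 2 / Z ^ 2000 * (R' ^ 2 * c) ^ (1 + 1 : ℝ) ≤
      C₃ * 51883209 * κ ^ 8 * G ^ 11 * Z ^ 998 := by
    have e0 : (R' ^ 2 * c) ^ (1 + 1 : ℝ) = (R' ^ 2 * c) ^ 2 := by
      rw [show (1 + 1 : ℝ) = ((2 : ℕ) : ℝ) by norm_num, Real.rpow_natCast]
    rw [e0]
    have e1 : R' ^ 2 * (R' ^ 2 * c) ^ 2 ≤ 51883209 * κ ^ 8 * G ^ 10 * Z ^ 2012 := by
      calc R' ^ 2 * (R' ^ 2 * c) ^ 2 ≤ (7 * κ * G * Z ^ 2) ^ 2 *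
            ((7 * κ * G * Z ^ 2) ^ 2 * (21 * κ * G ^ 2 * Z ^ 1000)) ^ 2 := by
            gcongr
            exact hcM.trans hM
        _ = 51883209 * κ ^ 8 * G ^ 10 * ((Z ^ 2) ^ 6 * (Z ^ 1000) ^ 2) := by ring
        _ = _ := by rw [← pow_mul, ← pow_mul, ← pow_add]
    have e2 : C₃ * R' ^ 2 / Z ^ 2000 * (R' ^ 2 * c) ^ 2 =
        C₃ * (R' ^ 2 * (R' ^ 2 * c) ^ 2) / Z ^ 2000 := by ring
    rw [e2, div_le_iff₀ (by positivity)]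
    calc C₃ * (R' ^ 2 * (R' ^ 2 * c) ^ 2) ≤ C₃ * (51883209 * κ ^ 8 * G ^ 10 * Z ^ 2012) := by
          gcongr
      _ ≤ C₃ * (51883209 * κ ^ 8 * G ^ 11 * Z ^ 2998) := by
          gcongr <;> norm_num
      _ = _ := by
          rw [show Z ^ 2998 = Z ^ 998 * Z ^ 2000 by rw [← pow_add]]
          ring
  calc _ ≤ _ := add_le_add first second
    _ = _ := by ring

end Pool.Agent.JOM
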