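import Pool.Agent.Lib_helper68.JOF.DefsF
import Pool.Agent.Lib_helper68.SEL.KA

/-! Project JO, block BAD: the number of bad rows. -/

set_option autoImplicit false

namespace Pool.Agent.JOM

open MeasureTheory Filter Topology UpperHalfPlane
open scoped MatrixGroups Modular ArithmeticFunction.Moebius

/-- block BAD: the number of bad rows -/
theorem bad_count_pr {ε : ℝ} (hε : 0 < ε) : ∃ C₀ : ℝ, 0 < C₀ ∧ ∀ (n M₀ M : ℕ) (Y : ℝ)
    (S : Finset ℕ), 0 < n → 1 ≤ M₀ → 1 ≤ Y → (∀ c ∈ S, 1 ≤ c ∧ c ≤ M ∧ ¬ Good n M₀ Y c) →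
    (S.card : ℝ) ≤ C₀ * M * M₀ * ((M₀ : ℝ) * n) ^ ε * Y ^ (-(1 / 6) : ℝ) := by
  classical
  obtain ⟨C, hC, hdiv⟩ := Pool.Agent.SEL.divisor_bound hε
  refine ⟨4 * C, by positivity, ?_⟩
  intro n M₀ M Y S hn hM₀ hY hS
  have hY0 : 0 ≤ Y ^ (-(1 / 6) : ℝ) := Real.rpow_nonneg (by linarith) _
  have hsub : S ⊆ (Finset.Icc 1 M₀).biUnion (fun l => (Finset.Icc 1 M).filter (fun c : ℕ =>
      ¬ ∃ r s : ℕ, c = r * s ∧ Squarefree r ∧ r.Coprime (s * l * n) ∧ (s : ℝ) ≤ Y)) := by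
    intro c hc
    obtain ⟨h1, h2, h3⟩ := hS c hc
    unfold Good at h3
    push Not at h3
    obtain ⟨l, hl1, hl2, hl3⟩ := h3
    refine Finset.mem_biUnion.mpr ⟨l, Finset.mem_Icc.mpr ⟨hl1, hl2⟩, ?_⟩
    refine Finset.mem_filter.mpr ⟨Finset.mem_Icc.mpr ⟨h1, h2⟩, ?_⟩
    rintro ⟨r, s, e1, e2, e3, e4⟩
    exact absurd e4 (not_le.mpr (hl3 r s e1 e2 e3))
  have hcard : (S.card : ℝ) ≤ ∑ l ∈ Finset.Icc 1 M₀, (((Finset.Icc 1 M).filter (fun c : ℕ =>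
      ¬ ∃ r s : ℕ, c = r * s ∧ Squarefree r ∧ r.Coprime (s * l * n) ∧ (s : ℝ) ≤ Y)).card : ℝ) := by
    have := (Finset.card_le_card hsub).trans Finset.card_biUnion_le
    exact_mod_cast this
  refine hcard.trans ?_
  have hterm : ∀ l ∈ Finset.Icc 1 M₀, (((Finset.Icc 1 M).filter (fun c : ℕ =>
      ¬ ∃ r s : ℕ, c = r * s ∧ Squarefree r ∧ r.Coprime (s * l * n) ∧ (s : ℝ) ≤ Y)).card : ℝ) ≤
      4 * M * (C * ((M₀ : ℝ) * n) ^ ε) * Y ^ (-(1 / 6) : ℝ) := by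
    intro l hl
    obtain ⟨hl1, hl2⟩ := Finset.mem_Icc.mp hl
    have h1 := Pool.Agent.SEL.good_sq l n hl1 hn Y hY M
    refine h1.trans ?_
    have h2 : ((l * n).divisors.card : ℝ) ≤ C * ((M₀ : ℝ) * n) ^ ε := by
      refine (hdiv (l * n) (Nat.mul_pos hl1 hn)).trans ?_
      refine mul_le_mul_of_nonneg_left ?_ hC.le
      refine Real.rpow_le_rpow (by positivity) ?_ hε.le
      push_cast
      have : (l : ℝ) ≤ M₀ := by exact_mod_cast hl2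
      gcongr
    gcongr
  refine (Finset.sum_le_sum hterm).trans ?_
  rw [Finset.sum_const, Nat.card_Icc, nsmul_eq_mul, Nat.add_sub_cancel]
  apply le_of_eq
  ring


theorem bad_count : type_of% @bad_count_pr := @bad_count_pr

end Pool.Agent.JOM
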