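import Pool.Agent.Lib_helper68.JOF.DefsF
import Pool.Agent.Lib_helper68.JOF.CSU

/-! Block INT of project JO, part M (helper75). -/

namespace Pool.Agent.JOM

open MeasureTheory Filter Topology UpperHalfPlane
open scoped MatrixGroups Modular ArithmeticFunction.Moebius

theorem int_one_form {y : ℝ} (hy : 0 < y) (p : ℝ) :
    (p ^ 2 + y ^ 2)⁻¹ = (y ^ 2)⁻¹ * (1 + (p / y) ^ 2)⁻¹ := by
  rw [← mul_inv]
  congr 1
  field_simp
  ring

theorem int_one_integrable {y : ℝ} (hy : 0 < y) : Integrable (fun p : ℝ => (p ^ 2 + y ^ 2)⁻¹) := by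
  simp_rw [int_one_form hy]
  exact (integrable_inv_one_add_sq.comp_div hy.ne').const_mul _

theorem int_one {y : ℝ} (hy : 0 < y) : ∫ p : ℝ, (p ^ 2 + y ^ 2)⁻¹ = Real.pi / y := by
  simp_rw [int_one_form hy]
  rw [integral_const_mul, Measure.integral_comp_div (fun x : ℝ => (1 + x ^ 2)⁻¹) y,
    integral_univ_inv_one_add_sq, abs_of_pos hy, smul_eq_mul]
  field_simp

theorem int_WF_inv_form {y v : ℝ} (p q : ℝ) :
    (WF y v p q)⁻¹ = 2 * y * v * (p ^ 2 + y ^ 2)⁻¹ * (q ^ 2 + v ^ 2)⁻¹ := by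
  unfold WF
  rw [inv_div, div_eq_mul_inv, mul_inv]
  ring

theorem int_WF_inv_pr {y v : ℝ} (hy : 0 < y) (hv : 0 < v) :
    ∫ p : ℝ, ∫ q : ℝ, (WF y v p q)⁻¹ = 2 * Real.pi ^ 2 := by
  have h1 : ∀ p : ℝ, ∫ q : ℝ, (WF y v p q)⁻¹ = 2 * y * v * (Real.pi / v) * (p ^ 2 + y ^ 2)⁻¹ := by
    intro p
    simp_rw [int_WF_inv_form]
    rw [integral_const_mul, int_one hv]
    ring
  simp_rw [h1]
  rw [integral_const_mul, int_one hy]
  field_simp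

/-- the constant -/
noncomputable def int_J : ℝ := ∫ p : ℝ, (1 + ‖p‖ ^ 2) ^ (-(3 / 2 : ℝ) / 2)

theorem int_J_integrable : Integrable (fun p : ℝ => (1 + ‖p‖ ^ 2) ^ (-(3 / 2 : ℝ) / 2)) := by
  apply integrable_rpow_neg_one_add_norm_sq
  simp
  norm_num

theorem int_J_nonneg : 0 ≤ int_J := by
  apply integral_nonneg
  intro p
  positivity

theorem int_pt {y : ℝ} (hy : 1 / 2 ≤ y) (p : ℝ) :
    (p ^ 2 + y ^ 2) ^ (-(3 / 4) : ℝ) ≤ 4 * (1 + ‖p‖ ^ 2) ^ (-(3 / 2 : ℝ) / 2) := by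
  have h1 : (1 + ‖p‖ ^ 2) / 4 ≤ p ^ 2 + y ^ 2 := by
    rw [Real.norm_eq_abs, sq_abs]
    nlinarith [sq_nonneg p]
  have h0 : 0 < (1 + ‖p‖ ^ 2) / 4 := by positivity
  calc (p ^ 2 + y ^ 2) ^ (-(3 / 4) : ℝ) ≤ ((1 + ‖p‖ ^ 2) / 4) ^ (-(3 / 4) : ℝ) :=
        Real.rpow_le_rpow_of_nonpos h0 h1 (by norm_num)
    _ = (1 + ‖p‖ ^ 2) ^ (-(3 / 4) : ℝ) * (4 : ℝ) ^ (3 / 4 : ℝ) := by
        rw [Real.div_rpow (by positivity) (by norm_num), Real.rpow_neg (by norm_num : (0 : ℝ) ≤ 4),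
          div_inv_eq_mul]
    _ ≤ (1 + ‖p‖ ^ 2) ^ (-(3 / 4) : ℝ) * 4 := by
        apply mul_le_mul_of_nonneg_left _ (by positivity)
        calc (4 : ℝ) ^ (3 / 4 : ℝ) ≤ (4 : ℝ) ^ (1 : ℝ) :=
              Real.rpow_le_rpow_of_exponent_le (by norm_num) (by norm_num)
          _ = 4 := Real.rpow_one 4
    _ = 4 * (1 + ‖p‖ ^ 2) ^ (-(3 / 2 : ℝ) / 2) := by
        rw [mul_comm]
        norm_num

theorem int_pow_integrable {y : ℝ} (hy : 1 / 2 ≤ y) :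
    Integrable (fun p : ℝ => (p ^ 2 + y ^ 2) ^ (-(3 / 4) : ℝ)) := by
  have hy0 : 0 < y := by linarith
  refine (int_J_integrable.const_mul 4).mono' ?_ (Eventually.of_forall fun p => ?_)
  · apply Continuous.aestronglyMeasurable
    apply Continuous.rpow_const (by fun_prop)
    intro p
    left
    positivity
  · rw [Real.norm_of_nonneg (by positivity)]
    exact int_pt hy p

theorem int_pow_le {y : ℝ} (hy : 1 / 2 ≤ y) :
    ∫ p : ℝ, (p ^ 2 + y ^ 2) ^ (-(3 / 4) : ℝ) ≤ 4 * int_J := by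
  unfold int_J
  rw [← integral_const_mul]
  exact integral_mono (int_pow_integrable hy) (int_J_integrable.const_mul 4) (fun p => int_pt hy p)

theorem int_WF_pow_form {y v : ℝ} (hy : 0 < y) (hv : 0 < v) (p q : ℝ) :
    WF y v p q ^ (-(3 / 4) : ℝ) = (2 * y * v) ^ (3 / 4 : ℝ) *
      ((p ^ 2 + y ^ 2) ^ (-(3 / 4) : ℝ) * (q ^ 2 + v ^ 2) ^ (-(3 / 4) : ℝ)) := by
  unfold WF
  rw [Real.div_rpow (by positivity) (by positivity), Real.mul_rpow (by positivity) (by positivity),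
    Real.rpow_neg (by positivity : (0 : ℝ) ≤ 2 * y * v), div_inv_eq_mul]
  ring

theorem int_WF_pow_integrable {y v : ℝ} (hy : 1 / 2 ≤ y) (hv : 1 / 2 ≤ v) :
    Integrable (fun s : ℝ × ℝ => WF y v s.1 s.2 ^ (-(3 / 4) : ℝ)) := by
  simp_rw [int_WF_pow_form (show 0 < y by linarith) (show 0 < v by linarith)]
  apply Integrable.const_mul
  exact (int_pow_integrable hy).mul_prod (int_pow_integrable hv)

theorem int_WF_inv_integrable {y v : ℝ} (hy : 0 < y) (hv : 0 < v) :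
    Integrable (fun s : ℝ × ℝ => (WF y v s.1 s.2)⁻¹) := by
  simp_rw [int_WF_inv_form, mul_assoc (2 * y * v)]
  apply Integrable.const_mul
  exact (int_one_integrable hy).mul_prod (int_one_integrable hv)

theorem int_WF_pow_le {y v : ℝ} (hy : 1 / 2 ≤ y) (hv : 1 / 2 ≤ v) :
    ∫ s : ℝ × ℝ, WF y v s.1 s.2 ^ (-(3 / 4) : ℝ) ≤ (64 * int_J ^ 2 + 1) * y * v := by
  have hy0 : 0 < y := by linarith
  have hv0 : 0 < v := by linarith
  have hJ := int_J_nonneg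
  simp_rw [int_WF_pow_form hy0 hv0]
  rw [integral_const_mul, Measure.volume_eq_prod, integral_prod_mul
    (fun p : ℝ => (p ^ 2 + y ^ 2) ^ (-(3 / 4) : ℝ)) (fun q : ℝ => (q ^ 2 + v ^ 2) ^ (-(3 / 4) : ℝ))]
  have h1 : (∫ p : ℝ, (p ^ 2 + y ^ 2) ^ (-(3 / 4) : ℝ)) * ∫ q : ℝ, (q ^ 2 + v ^ 2) ^ (-(3 / 4) : ℝ)
      ≤ (4 * int_J) * (4 * int_J) := by
    apply mul_le_mul (int_pow_le hy) (int_pow_le hv) _ (by positivity)
    apply integral_nonneg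
    intro q
    positivity
  have hyv : 1 / 4 ≤ y * v := by nlinarith
  have h2 : (2 * y * v) ^ (3 / 4 : ℝ) ≤ 4 * (y * v) := by
    have e : (2 * y * v) ^ (3 / 4 : ℝ) = (2 * y * v) * (2 * y * v) ^ (-(1 / 4) : ℝ) := by
      rw [show (3 / 4 : ℝ) = 1 + -(1 / 4) by norm_num, Real.rpow_add (by positivity), Real.rpow_one]
    rw [e]
    have h3 : (2 * y * v) ^ (-(1 / 4) : ℝ) ≤ (1 / 2 : ℝ) ^ (-(1 / 4) : ℝ) :=
      Real.rpow_le_rpow_of_nonpos (by norm_num) (by nlinarith) (by norm_num)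
    have h4 : (1 / 2 : ℝ) ^ (-(1 / 4) : ℝ) ≤ 2 := by
      rw [Real.rpow_neg (by norm_num), ← Real.inv_rpow (by norm_num)]
      calc ((1 / 2 : ℝ)⁻¹) ^ (1 / 4 : ℝ) ≤ ((1 / 2 : ℝ)⁻¹) ^ (1 : ℝ) :=
            Real.rpow_le_rpow_of_exponent_le (by norm_num) (by norm_num)
        _ = 2 := by norm_num
    calc (2 * y * v) * (2 * y * v) ^ (-(1 / 4) : ℝ) ≤ (2 * y * v) * 2 :=
          mul_le_mul_of_nonneg_left (h3.trans h4) (by positivity)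
      _ = 4 * (y * v) := by ring
  calc _ ≤ (4 * (y * v)) * ((4 * int_J) * (4 * int_J)) := by
        apply mul_le_mul h2 h1 _ (by positivity)
        apply mul_nonneg
        · apply integral_nonneg; intro q; positivity
        · apply integral_nonneg; intro q; positivity
    _ = 64 * int_J ^ 2 * (y * v) := by ring
    _ ≤ (64 * int_J ^ 2 + 1) * y * v := by
        have : 0 < y * v := by positivity
        nlinarith

theorem int_WF_pow_pr : ∃ C₀ : ℝ, 0 < C₀ ∧ ∀ y v : ℝ, 1 / 2 ≤ y → 1 / 2 ≤ v →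
    Integrable (fun s : ℝ × ℝ => WF y v s.1 s.2 ^ (-(3 / 4) : ℝ)) ∧
    Integrable (fun s : ℝ × ℝ => (WF y v s.1 s.2)⁻¹) ∧
    ∫ s : ℝ × ℝ, WF y v s.1 s.2 ^ (-(3 / 4) : ℝ) ≤ C₀ * y * v := by
  refine ⟨64 * int_J ^ 2 + 1, by positivity, fun y v hy hv => ⟨int_WF_pow_integrable hy hv,
    int_WF_inv_integrable (by linarith) (by linarith), int_WF_pow_le hy hv⟩⟩

/-! the test function -/

theorem int_cont {β : ℝ → ℝ} {Λ κ : ℝ} (hβ : Tst β Λ κ) : Continuous β := by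
  obtain ⟨hΛ, hκ, hL, hz⟩ := hβ
  have h : LipschitzWith (Real.toNNReal Λ) β := by
    apply LipschitzWith.of_dist_le_mul
    intro s t
    rw [Real.coe_toNNReal Λ hΛ, Real.dist_eq, Real.dist_eq]
    exact hL s t
  exact h.continuous

theorem int_bd {β : ℝ → ℝ} {Λ κ : ℝ} (hβ : Tst β Λ κ) {t : ℝ} (ht : 0 < t) :
    |β t| ≤ Λ * κ * κ ^ (3 / 4 : ℝ) * t ^ (-(3 / 4) : ℝ) := by
  obtain ⟨hΛ, hκ, hL, hz⟩ := hβ
  have hκ0 : 0 < κ := by linarith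
  rcases le_total κ t with h | h
  · rw [hz t h, abs_zero]
    positivity
  · have h1 := hL t κ
    rw [hz κ le_rfl, sub_zero] at h1
    have h2 : |β t| ≤ Λ * κ := by
      refine h1.trans (mul_le_mul_of_nonneg_left ?_ hΛ)
      rw [abs_le]
      constructor <;> linarith
    have h3 : 1 ≤ κ ^ (3 / 4 : ℝ) * t ^ (-(3 / 4) : ℝ) := by
      rw [Real.rpow_neg ht.le, ← div_eq_mul_inv, ← Real.div_rpow hκ0.le ht.le]
      apply Real.one_le_rpow _ (by norm_num)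
      rw [one_le_div ht]
      exact h
    calc |β t| ≤ Λ * κ * 1 := by linarith
      _ ≤ Λ * κ * (κ ^ (3 / 4 : ℝ) * t ^ (-(3 / 4) : ℝ)) :=
          mul_le_mul_of_nonneg_left h3 (by positivity)
      _ = _ := by ring

theorem int_WF_pos {y v : ℝ} (hy : 0 < y) (hv : 0 < v) (p q : ℝ) : 0 < WF y v p q := by
  unfold WF
  positivity

theorem int_WF_cont (y v : ℝ) : Continuous (fun s : ℝ × ℝ => WF y v s.1 s.2) := by
  unfold WF
  fun_prop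

theorem int_beta_pt {β : ℝ → ℝ} {Λ κ : ℝ} (hβ : Tst β Λ κ) {X y v c : ℝ} (hX : 0 < X)
    (hy : 0 < y) (hv : 0 < v) (hc : 0 < c) (s : ℝ × ℝ) :
    |β (c ^ 2 * WF y v s.1 s.2 / X)| ≤
      (Λ * κ * κ ^ (3 / 4 : ℝ) * (c ^ 2 / X) ^ (-(3 / 4) : ℝ)) * WF y v s.1 s.2 ^ (-(3 / 4) : ℝ) := by
  have hW := int_WF_pos hy hv s.1 s.2
  have h := int_bd hβ (t := c ^ 2 * WF y v s.1 s.2 / X) (by positivity)
  refine h.trans (le_of_eq ?_)
  rw [show c ^ 2 * WF y v s.1 s.2 / X = (c ^ 2 / X) * WF y v s.1 s.2 by ring,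
    Real.mul_rpow (by positivity) hW.le]
  ring

theorem int_beta_integrable {β : ℝ → ℝ} {Λ κ : ℝ} (hβ : Tst β Λ κ) {X y v c : ℝ} (hX : 0 < X)
    (hy : 1 / 2 ≤ y) (hv : 1 / 2 ≤ v) (hc : 0 < c) :
    Integrable (fun s : ℝ × ℝ => β (c ^ 2 * WF y v s.1 s.2 / X)) := by
  refine ((int_WF_pow_integrable hy hv).const_mul
    (Λ * κ * κ ^ (3 / 4 : ℝ) * (c ^ 2 / X) ^ (-(3 / 4) : ℝ))).mono' ?_ (Eventually.of_forall fun s => ?_)
  · apply Continuous.aestronglyMeasurable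
    exact (int_cont hβ).comp ((continuous_const.mul (int_WF_cont y v)).div_const X)
  · rw [Real.norm_eq_abs]
    exact int_beta_pt hβ hX (by linarith) (by linarith) hc s

theorem int_beta_iter {β : ℝ → ℝ} {Λ κ : ℝ} (hβ : Tst β Λ κ) {X y v c : ℝ} (hX : 0 < X)
    (hy : 1 / 2 ≤ y) (hv : 1 / 2 ≤ v) (hc : 0 < c) :
    ∫ p : ℝ, ∫ q : ℝ, β (c ^ 2 * WF y v p q / X) =
      ∫ s : ℝ × ℝ, β (c ^ 2 * WF y v s.1 s.2 / X) := by
  have h := int_beta_integrable hβ hX hy hv hc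
  rw [Measure.volume_eq_prod] at h ⊢
  rw [integral_prod _ h]

theorem int_beta_abs {β : ℝ → ℝ} {Λ κ : ℝ} (hβ : Tst β Λ κ) {X y v c : ℝ} (hX : 0 < X)
    (hy : 1 / 2 ≤ y) (hv : 1 / 2 ≤ v) (hc : 0 < c) :
    |∫ s : ℝ × ℝ, β (c ^ 2 * WF y v s.1 s.2 / X)| ≤
      (Λ * κ * κ ^ (3 / 4 : ℝ) * (c ^ 2 / X) ^ (-(3 / 4) : ℝ)) * ((64 * int_J ^ 2 + 1) * y * v) := by
  have hβ' := hβ
  obtain ⟨hΛ, hκ, hL, hz⟩ := hβ'
  refine abs_integral_le_integral_abs.trans ?_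
  calc ∫ s : ℝ × ℝ, |β (c ^ 2 * WF y v s.1 s.2 / X)|
      ≤ ∫ s : ℝ × ℝ, (Λ * κ * κ ^ (3 / 4 : ℝ) * (c ^ 2 / X) ^ (-(3 / 4) : ℝ))
          * WF y v s.1 s.2 ^ (-(3 / 4) : ℝ) :=
        integral_mono (int_beta_integrable hβ hX hy hv hc).abs
          ((int_WF_pow_integrable hy hv).const_mul _)
          (fun s => int_beta_pt hβ hX (by linarith) (by linarith) hc s)
    _ = (Λ * κ * κ ^ (3 / 4 : ℝ) * (c ^ 2 / X) ^ (-(3 / 4) : ℝ))
          * ∫ s : ℝ × ℝ, WF y v s.1 s.2 ^ (-(3 / 4) : ℝ) := integral_const_mul _ _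
    _ ≤ _ := by
        apply mul_le_mul_of_nonneg_left (int_WF_pow_le hy hv)
        positivity

theorem main_sum_pr {β : ℝ → ℝ} {Λ κ : ℝ} (hβ : Tst β Λ κ) : ∃ C₀ : ℝ, 0 < C₀ ∧
    ∀ (n : ℕ) (C : ℤ) (X y v : ℝ) (M : ℕ), 0 < n → 1 ≤ X → 1 / 2 ≤ y → 1 / 2 ≤ v →
      2 * κ * X ≤ (M : ℝ) ^ 2 * (y * v) →
      |∑ c ∈ (Finset.Icc 1 M).filter (fun c : ℕ => (n : ℤ) ∣ c - C),
          (c : ℝ) * ff n c / n ^ 2 * (∫ p : ℝ, ∫ q : ℝ, β ((c : ℝ) ^ 2 * WF y v p q / X)) -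
        Real.pi ^ 2 * kk n / n ^ 3 * X * ∫ t in (0 : ℝ)..κ, β t| ≤
      C₀ * y * v * X ^ (3 / 4 : ℝ) := by
  obtain ⟨C₁, hC₁, hsum⟩ := c_sum hβ
  refine ⟨C₁ * (64 * int_J ^ 2 + 1), by positivity, ?_⟩
  intro n C X y v M hn hX hy hv hM
  have hX0 : 0 < X := by linarith
  have hy0 : 0 < y := by linarith
  have hv0 : 0 < v := by linarith
  have hn0 : (0 : ℝ) < n := by exact_mod_cast hn
  have hn1 : (1 : ℝ) ≤ n := by exact_mod_cast hn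
  set I := ∫ t in (0 : ℝ)..κ, β t with hI
  set S := (Finset.Icc 1 M).filter (fun c : ℕ => (n : ℤ) ∣ c - C) with hS
  have hSc : ∀ c ∈ S, (0 : ℝ) < c := by
    intro c hc
    rw [hS, Finset.mem_filter, Finset.mem_Icc] at hc
    exact_mod_cast (show 0 < c by omega)
  -- pointwise
  have hpt : ∀ s : ℝ × ℝ, |∑ c ∈ S, (c : ℝ) * ff n c * β ((c : ℝ) ^ 2 * WF y v s.1 s.2 / X)
      - (kk n * I * X / (2 * n)) * (WF y v s.1 s.2)⁻¹|
      ≤ (C₁ * n * X ^ (3 / 4 : ℝ)) * WF y v s.1 s.2 ^ (-(3 / 4) : ℝ) := by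
    intro s
    have hW := int_WF_pos hy0 hv0 s.1 s.2
    have hW1 : y * v / 2 ≤ WF y v s.1 s.2 := by
      unfold WF
      rw [div_le_div_iff₀ (by norm_num) (by positivity)]
      have q1 : 0 ≤ s.1 ^ 2 * v ^ 2 := by positivity
      have q2 : 0 ≤ s.2 ^ 2 * y ^ 2 := by positivity
      have q4 : 0 ≤ s.1 ^ 2 * s.2 ^ 2 := by positivity
      nlinarith
    have h1 : κ ≤ (M : ℝ) ^ 2 * (WF y v s.1 s.2 / X) := by
      have h2 : (M : ℝ) ^ 2 * (y * v / 2) ≤ (M : ℝ) ^ 2 * WF y v s.1 s.2 :=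
        mul_le_mul_of_nonneg_left hW1 (sq_nonneg _)
      rw [mul_div_assoc', le_div_iff₀ hX0]
      linarith
    have h3 := hsum n C (WF y v s.1 s.2 / X) M hn (by positivity) h1
    have e1 : ∀ c : ℕ, (c : ℝ) ^ 2 * (WF y v s.1 s.2 / X) = (c : ℝ) ^ 2 * WF y v s.1 s.2 / X := by
      intro c
      ring
    simp_rw [e1] at h3
    have e2 : kk n / (2 * n * (WF y v s.1 s.2 / X)) * I
        = (kk n * I * X / (2 * n)) * (WF y v s.1 s.2)⁻¹ := by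
      field_simp
    have e3 : C₁ * n * (WF y v s.1 s.2 / X) ^ (-(3 / 4) : ℝ)
        = (C₁ * n * X ^ (3 / 4 : ℝ)) * WF y v s.1 s.2 ^ (-(3 / 4) : ℝ) := by
      rw [Real.div_rpow hW.le hX0.le, Real.rpow_neg hX0.le, div_inv_eq_mul]
      ring
    rw [e2, e3] at h3
    exact h3
  -- integrate
  have hint1 : Integrable (fun s : ℝ × ℝ => ∑ c ∈ S,
      (c : ℝ) * ff n c * β ((c : ℝ) ^ 2 * WF y v s.1 s.2 / X)) := by
    apply integrable_finsetSum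
    intro c hc
    exact (int_beta_integrable hβ hX0 hy hv (hSc c hc)).const_mul _
  have hint2 : Integrable (fun s : ℝ × ℝ => (kk n * I * X / (2 * n)) * (WF y v s.1 s.2)⁻¹) :=
    (int_WF_inv_integrable hy0 hv0).const_mul _
  have hT : ∫ s : ℝ × ℝ, (kk n * I * X / (2 * n)) * (WF y v s.1 s.2)⁻¹
      = Real.pi ^ 2 * kk n / n * X * I := by
    rw [integral_const_mul]
    have h := int_WF_inv_integrable hy0 hv0
    rw [Measure.volume_eq_prod] at h ⊢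
    rw [integral_prod _ h]
    have h2 := int_WF_inv_pr hy0 hv0
    simp only at h2 ⊢
    rw [h2]
    field_simp
  have hSs : ∫ s : ℝ × ℝ, ∑ c ∈ S, (c : ℝ) * ff n c * β ((c : ℝ) ^ 2 * WF y v s.1 s.2 / X)
      = ∑ c ∈ S, (c : ℝ) * ff n c * ∫ s : ℝ × ℝ, β ((c : ℝ) ^ 2 * WF y v s.1 s.2 / X) := by
    rw [integral_finsetSum]
    · apply Finset.sum_congr rfl
      intro c _
      rw [integral_const_mul]
    · intro c hc
      exact (int_beta_integrable hβ hX0 hy hv (hSc c hc)).const_mul _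
  have hmain : |(∑ c ∈ S, (c : ℝ) * ff n c * ∫ s : ℝ × ℝ, β ((c : ℝ) ^ 2 * WF y v s.1 s.2 / X))
      - Real.pi ^ 2 * kk n / n * X * I|
      ≤ (C₁ * n * X ^ (3 / 4 : ℝ)) * ((64 * int_J ^ 2 + 1) * y * v) := by
    rw [← hSs, ← hT, ← integral_sub hint1 hint2]
    refine abs_integral_le_integral_abs.trans ?_
    calc _ ≤ ∫ s : ℝ × ℝ, (C₁ * n * X ^ (3 / 4 : ℝ)) * WF y v s.1 s.2 ^ (-(3 / 4) : ℝ) :=
          integral_mono (hint1.sub hint2).abs ((int_WF_pow_integrable hy hv).const_mul _) hpt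
      _ = (C₁ * n * X ^ (3 / 4 : ℝ)) * ∫ s : ℝ × ℝ, WF y v s.1 s.2 ^ (-(3 / 4) : ℝ) :=
          integral_const_mul _ _
      _ ≤ _ := by
          apply mul_le_mul_of_nonneg_left (int_WF_pow_le hy hv)
          positivity
  have e : (∑ c ∈ S, (c : ℝ) * ff n c / n ^ 2 * (∫ p : ℝ, ∫ q : ℝ, β ((c : ℝ) ^ 2 * WF y v p q / X)))
      - Real.pi ^ 2 * kk n / n ^ 3 * X * I
      = (1 / (n : ℝ) ^ 2) * ((∑ c ∈ S, (c : ℝ) * ff n c
          * ∫ s : ℝ × ℝ, β ((c : ℝ) ^ 2 * WF y v s.1 s.2 / X)) - Real.pi ^ 2 * kk n / n * X * I) := by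
    rw [mul_sub, Finset.mul_sum]
    congr 1
    · apply Finset.sum_congr rfl
      intro c hc
      rw [int_beta_iter hβ hX0 hy hv (hSc c hc)]
      ring
    · field_simp
  rw [e, abs_mul, abs_of_pos (by positivity : (0 : ℝ) < 1 / (n : ℝ) ^ 2)]
  calc 1 / (n : ℝ) ^ 2 * _ ≤ 1 / (n : ℝ) ^ 2 * ((C₁ * n * X ^ (3 / 4 : ℝ)) * ((64 * int_J ^ 2 + 1) * y * v)) :=
        mul_le_mul_of_nonneg_left hmain (by positivity)
    _ = (1 / (n : ℝ)) * (C₁ * (64 * int_J ^ 2 + 1) * y * v * X ^ (3 / 4 : ℝ)) := by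
        field_simp
    _ ≤ 1 * (C₁ * (64 * int_J ^ 2 + 1) * y * v * X ^ (3 / 4 : ℝ)) := by
        apply mul_le_mul_of_nonneg_right _ (by positivity)
        rw [div_le_one hn0]
        exact hn1
    _ = _ := one_mul _

theorem main_row_le_pr {β : ℝ → ℝ} {Λ κ : ℝ} (hβ : Tst β Λ κ) : ∃ C₀ : ℝ, 0 < C₀ ∧
    ∀ (n c : ℕ) (X y v : ℝ), 0 < n → 0 < c → 1 ≤ X → 1 / 2 ≤ y → 1 / 2 ≤ v →
      |(c : ℝ) * ff n c / n ^ 2 * (∫ p : ℝ, ∫ q : ℝ, β ((c : ℝ) ^ 2 * WF y v p q / X))| ≤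
      C₀ * y * v * X ^ (3 / 4 : ℝ) * (c : ℝ) ^ (-(1 / 2) : ℝ) := by
  have hβ' := hβ
  obtain ⟨hΛ, hκ, hL, hz⟩ := hβ'
  set B := Λ * κ * κ ^ (3 / 4 : ℝ) with hB
  have hB0 : 0 ≤ B := by positivity
  refine ⟨(B + 1) * (64 * int_J ^ 2 + 1), by positivity, ?_⟩
  intro n c X y v hn hc hX hy hv
  have hX0 : 0 < X := by linarith
  have hy0 : 0 < y := by linarith
  have hv0 : 0 < v := by linarith
  have hn1 : (1 : ℝ) ≤ n := by exact_mod_cast hn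
  have hc0 : (0 : ℝ) < c := by exact_mod_cast hc
  rw [int_beta_iter hβ hX0 hy hv hc0, abs_mul]
  have h1 := int_beta_abs hβ hX0 hy hv hc0
  have h2 : |(c : ℝ) * ff n c / n ^ 2| ≤ c := by
    rw [abs_div, abs_mul, abs_of_pos hc0, abs_of_nonneg (ff_nonneg n c),
      abs_of_pos (by positivity : (0 : ℝ) < (n : ℝ) ^ 2), div_le_iff₀ (by positivity)]
    have h3 := ff_le_one n c
    have h4 : (1 : ℝ) ≤ (n : ℝ) ^ 2 := one_le_pow₀ hn1
    calc (c : ℝ) * ff n c ≤ c * 1 := mul_le_mul_of_nonneg_left h3 hc0.le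
      _ ≤ c * (n : ℝ) ^ 2 := mul_le_mul_of_nonneg_left h4 hc0.le
  have e1 : (c : ℝ) * ((c : ℝ) ^ 2 / X) ^ (-(3 / 4) : ℝ) = X ^ (3 / 4 : ℝ) * (c : ℝ) ^ (-(1 / 2) : ℝ) := by
    rw [Real.div_rpow (by positivity) hX0.le, Real.rpow_neg hX0.le, div_inv_eq_mul,
      ← Real.rpow_natCast (c : ℝ) 2, ← Real.rpow_mul hc0.le]
    have : (c : ℝ) * (c : ℝ) ^ (((2 : ℕ) : ℝ) * -(3 / 4)) = (c : ℝ) ^ (-(1 / 2) : ℝ) := by
      nth_rewrite 1 [← Real.rpow_one (c : ℝ)]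
      rw [← Real.rpow_add hc0]
      norm_num
    rw [← mul_assoc, this]
    ring
  calc |(c : ℝ) * ff n c / n ^ 2| * |∫ s : ℝ × ℝ, β ((c : ℝ) ^ 2 * WF y v s.1 s.2 / X)|
      ≤ c * ((B * ((c : ℝ) ^ 2 / X) ^ (-(3 / 4) : ℝ)) * ((64 * int_J ^ 2 + 1) * y * v)) :=
        mul_le_mul h2 h1 (abs_nonneg _) hc0.le
    _ = B * (64 * int_J ^ 2 + 1) * y * v * (c * ((c : ℝ) ^ 2 / X) ^ (-(3 / 4) : ℝ)) := by ring
    _ = B * ((64 * int_J ^ 2 + 1) * y * v * X ^ (3 / 4 : ℝ) * (c : ℝ) ^ (-(1 / 2) : ℝ)) := by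
        rw [e1]; ring
    _ ≤ (B + 1) * ((64 * int_J ^ 2 + 1) * y * v * X ^ (3 / 4 : ℝ) * (c : ℝ) ^ (-(1 / 2) : ℝ)) := by
        apply mul_le_mul_of_nonneg_right (by linarith)
        positivity
    _ = _ := by ring

theorem int_WF_inv : type_of% @int_WF_inv_pr := @int_WF_inv_pr
theorem int_WF_pow : type_of% @int_WF_pow_pr := @int_WF_pow_pr
theorem main_sum : type_of% @main_sum_pr := @main_sum_pr
theorem main_row_le : type_of% @main_row_le_pr := @main_row_le_pr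

end Pool.Agent.JOM
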