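import Pool.Agent.Lib_helper68.JOF.DefsF
import Pool.Agent.Lib_helper68.JOF.ASMD
import Pool.Agent.Lib_helper68.JOF.INT
import Pool.Agent.Lib_helper68.JOF.BAD
import Pool.Agent.Lib_helper68.SEL.KA

/-! Block ASM, part E: rows with positive lower left entry. -/

namespace Pool.Agent.JOM

open MeasureTheory Filter Topology UpperHalfPlane
open scoped MatrixGroups Modular ArithmeticFunction.Moebius

/-- elementary inequalities for the size parameter -/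
theorem asm_G {n : ℕ} {x y u v G : ℝ} (hn : 0 < n) (hy : 1 / 2 ≤ y) (hv : 1 / 2 ≤ v)
    (hG : G = n * ((1 + y) * (1 + v) * (1 + |x|) * (1 + |u|))) :
    1 ≤ G ∧ (n : ℝ) ≤ G ∧ y * v ≤ G ∧ y + v ≤ G ∧ |x| ≤ G ∧ |u| ≤ G ∧
      1 ≤ (1 + |x|) * (1 + |u|) * (y + v) ^ 2 ∧
      (1 + |x|) * (1 + |u|) * (y + v) ^ 2 ≤ G ^ 2 := by
  have hn1 : (1 : ℝ) ≤ n := by exact_mod_cast hn
  have hx : 0 ≤ |x| := abs_nonneg x
  have hu : 0 ≤ |u| := abs_nonneg u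
  set a := 1 + |x| with ha
  set b := 1 + |u| with hb
  have ha1 : 1 ≤ a := by linarith
  have hb1 : 1 ≤ b := by linarith
  set w := (1 + y) * (1 + v) with hw
  have hw1 : 1 ≤ w := by rw [hw]; nlinarith
  have hyv : y * v ≤ w := by rw [hw]; nlinarith
  have hyv2 : y + v ≤ w := by rw [hw]; nlinarith
  have hyv3 : 1 ≤ y + v := by linarith
  have hG' : G = n * (w * a * b) := by rw [hG]
  have hab : 1 ≤ a * b := one_le_mul_of_one_le_of_one_le ha1 hb1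
  have hwab : w ≤ w * a * b := by
    rw [mul_assoc]; exact le_mul_of_one_le_right (by linarith) hab
  have hw0 : 0 ≤ w * a * b := by positivity
  have hwG : w * a * b ≤ G := by rw [hG']; exact le_mul_of_one_le_left hw0 hn1
  have haG : a ≤ G := by
    refine le_trans ?_ hwG
    calc a ≤ a * (w * b) := le_mul_of_one_le_right (by linarith)
          (one_le_mul_of_one_le_of_one_le hw1 hb1)
      _ = _ := by ring
  have hbG : b ≤ G := by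
    refine le_trans ?_ hwG
    exact le_mul_of_one_le_left (by linarith) (one_le_mul_of_one_le_of_one_le hw1 ha1)
  refine ⟨by linarith, ?_, by linarith, by linarith, by linarith, by linarith, ?_, ?_⟩
  · rw [hG']
    exact le_mul_of_one_le_right (by linarith) (by linarith)
  · exact one_le_mul_of_one_le_of_one_le hab (one_le_pow₀ hyv3)
  · calc a * b * (y + v) ^ 2 ≤ (a * b) * (a * b) * w ^ 2 := by
          have : a * b ≤ (a * b) * (a * b) := le_mul_of_one_le_right (by linarith) hab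
          gcongr
      _ = (w * a * b) ^ 2 := by ring
      _ ≤ G ^ 2 := by gcongr

/-- all rows which contribute are counted -/
theorem asm_Mc {κ X P y v M : ℝ} (hy : 1 / 2 ≤ y) (hv : 1 / 2 ≤ v) (hP : 1 ≤ P) (h0 : 0 ≤ κ * X)
    (hM : 20 * P * √(κ * X) ≤ M) : 2 * κ * X ≤ M ^ 2 * (y * v) := by
  have e1 : (20 * P * √(κ * X)) ^ 2 ≤ M ^ 2 := by gcongr
  have e2 : (20 * P * √(κ * X)) ^ 2 = 400 * P ^ 2 * (κ * X) := by
    rw [mul_pow, Real.sq_sqrt h0]; ring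
  have e3 : 1 ≤ P ^ 2 := one_le_pow₀ hP
  have e4 : 1 / 4 ≤ y * v := by nlinarith
  calc 2 * κ * X ≤ (400 * 1 * (κ * X)) * (1 / 4) := by linarith
    _ ≤ (400 * P ^ 2 * (κ * X)) * (y * v) := by gcongr
    _ ≤ M ^ 2 * (y * v) := by
        rw [← e2]; gcongr

/-- the size of the supports -/
theorem asm_R {κ G Z x y u v : ℝ} (hκ : 1 ≤ κ) (hG : 1 ≤ G) (hZ : 1 ≤ Z) (hyv0 : 0 ≤ y * v)
    (hyv : y * v ≤ G) (hyv' : y + v ≤ G) (hx : |x| ≤ G) (hu : |u| ≤ G) :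
    ∃ (R : ℝ) (R' : ℕ), 1 ≤ R ∧ R + |x| + |u| ≤ R' ∧ (R' : ℝ) ≤ 7 * κ * G * Z ^ 2 ∧
      (R' : ℝ) + y + v ≤ 8 * κ * G * Z ^ 2 ∧
      ∀ c : ℝ, 2 * Z ^ 998 ≤ c → 3 * √(κ * Z ^ 2000 * (y * v)) ≤ R * c := by
  have hG0 : 0 < G := by linarith
  have hZ0 : 0 < Z := by linarith
  have hx0 : 0 ≤ |x| := abs_nonneg x
  have hu0 : 0 ≤ |u| := abs_nonneg u
  have hsq : √(κ * (y * v)) ≤ κ * G := by
    apply Real.sqrt_le_iff.mpr
    refine ⟨by positivity, ?_⟩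
    calc κ * (y * v) ≤ κ * G := by gcongr
      _ ≤ (κ * G) * (κ * G) :=
          le_mul_of_one_le_right (by positivity) (one_le_mul_of_one_le_of_one_le hκ hG)
      _ = _ := by ring
  have hZ2 : 1 ≤ Z ^ 2 := one_le_pow₀ hZ
  have hGZ : G ≤ κ * G * Z ^ 2 := by
    calc G ≤ κ * G := le_mul_of_one_le_left hG0.le hκ
      _ ≤ _ := le_mul_of_one_le_right (by positivity) hZ2
  have h1Z : 1 ≤ κ * G * Z ^ 2 := hG.trans hGZ
  obtain ⟨q, hq⟩ : ∃ q, q = √(κ * (y * v)) := ⟨_, rfl⟩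
  have hq0 : 0 ≤ q := by rw [hq]; exact Real.sqrt_nonneg _
  have hqG : q ≤ κ * G := by rw [hq]; exact hsq
  have h3 : 3 * q * Z ^ 2 ≤ 3 * (κ * G) * Z ^ 2 := by gcongr
  have hqZ : 0 ≤ 3 * q * Z ^ 2 := by positivity
  refine ⟨3 * q * Z ^ 2 + 1, ⌈3 * q * Z ^ 2 + 1 + |x| + |u|⌉₊, by linarith, Nat.le_ceil _, ?_, ?_, ?_⟩
  · have := (Nat.ceil_lt_add_one (show 0 ≤ 3 * q * Z ^ 2 + 1 + |x| + |u| by positivity)).le
    linarith
  · have := (Nat.ceil_lt_add_one (show 0 ≤ 3 * q * Z ^ 2 + 1 + |x| + |u| by positivity)).le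
    linarith
  · intro c hc
    have e1 : √(κ * Z ^ 2000 * (y * v)) = q * Z ^ 1000 := by
      rw [show κ * Z ^ 2000 * (y * v) = (κ * (y * v)) * (Z ^ 1000) ^ 2 by
        rw [← pow_mul]; ring, Real.sqrt_mul (by positivity), Real.sqrt_sq (by positivity), hq]
    rw [e1]
    have hZ998 : 0 ≤ Z ^ 998 := by positivity
    calc 3 * (q * Z ^ 1000) = 3 * q * (Z ^ 2 * Z ^ 998) := by rw [← pow_add]; ring
      _ = (3 * q * Z ^ 2) * Z ^ 998 := by ring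
      _ ≤ (3 * q * Z ^ 2 + 1) * Z ^ 998 := by
          gcongr
          linarith
      _ ≤ (3 * q * Z ^ 2 + 1) * c := by
          gcongr
          linarith

/-- the sum of the bounds for the bad rows -/
theorem asm_bad1 {G Z F C₄ cF y v : ℝ} (hG : 1 ≤ G) (hZ : 1 ≤ Z) (hC₄ : 0 < C₄) (hy : 0 ≤ y)
    (hv : 0 ≤ v)
    (hyv : y * v ≤ G) (hF : F ≤ cF * G ^ 4 * Z ^ 1001) (hcF : 0 ≤ cF) :
    F + C₄ * y * v * Z ^ 1500 * (2 * Z ^ 998) ^ (-(1 / 2) : ℝ) ≤ (cF + C₄) * G ^ 4 * Z ^ 1001 := by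
  have hG0 : 0 < G := by linarith
  have hZ0 : 0 < Z := by linarith
  have hT : (2 * Z ^ 998) ^ (-(1 / 2) : ℝ) ≤ (Z ^ 499)⁻¹ := by
    rw [Real.rpow_neg (by positivity)]
    apply inv_anti₀ (by positivity)
    rw [← Real.sqrt_eq_rpow]
    apply Real.le_sqrt_of_sq_le
    rw [← pow_mul]
    norm_num
    linarith [show 0 ≤ Z ^ 998 by positivity]
  have e2 : C₄ * y * v * Z ^ 1500 * (2 * Z ^ 998) ^ (-(1 / 2) : ℝ) ≤ C₄ * G ^ 4 * Z ^ 1001 := by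
    calc C₄ * y * v * Z ^ 1500 * (2 * Z ^ 998) ^ (-(1 / 2) : ℝ) =
        C₄ * (y * v) * Z ^ 1500 * (2 * Z ^ 998) ^ (-(1 / 2) : ℝ) := by ring
      _ ≤ C₄ * G * Z ^ 1500 * (Z ^ 499)⁻¹ := by gcongr
      _ = C₄ * G * Z ^ 1001 := by
          rw [show Z ^ 1500 = Z ^ 1001 * Z ^ 499 by rw [← pow_add]]
          field_simp
      _ ≤ _ := by
          have : G ≤ G ^ 4 := le_self_pow₀ hG (by norm_num)
          gcongr
  calc _ ≤ cF * G ^ 4 * Z ^ 1001 + C₄ * G ^ 4 * Z ^ 1001 := add_le_add hF e2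
    _ = _ := by ring

/-- bounds for the entries -/
theorem asm_ent {x y u v T : ℝ} {a b c d : ℤ} {M : ℕ} (hy : 1 / 2 ≤ y) (hv : 1 / 2 ≤ v) (hT : 0 ≤ T)
    (h : QF x y u v a b c d ≤ 2 * y * v * T)
    (hM : 20 * ((1 + |x|) * (1 + |u|) * (y + v) ^ 2) * √T ≤ M) :
    |a| ≤ M ∧ |b| ≤ M ∧ |c| ≤ M ∧ |d| ≤ M := by
  obtain ⟨q1, q2, q3, q4, -⟩ := QF_bound hy hv hT h
  have hx0 : 0 ≤ |x| := abs_nonneg x
  have hu0 : 0 ≤ |u| := abs_nonneg u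
  have hyv1 : 1 ≤ y + v := by linarith
  have hs0 : 0 ≤ √T := Real.sqrt_nonneg _
  generalize √T = s at *
  obtain ⟨P, hP⟩ : ∃ P, P = (1 + |x|) * (1 + |u|) * (y + v) ^ 2 := ⟨_, rfl⟩
  rw [← hP] at hM
  have hP' : (1 + |x|) * (1 + |u|) * (y + v) ≤ P := by
    rw [hP]
    have : y + v ≤ (y + v) ^ 2 := le_self_pow₀ hyv1 (by norm_num)
    gcongr
  have ha : (1 + |x|) * (y + v) ≤ P := by
    refine le_trans ?_ hP'
    have : (1 + |x|) ≤ (1 + |x|) * (1 + |u|) := le_mul_of_one_le_right (by linarith) (by linarith)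
    gcongr
  have hd : (1 + |u|) * (y + v) ≤ P := by
    refine le_trans ?_ hP'
    have : (1 + |u|) ≤ (1 + |x|) * (1 + |u|) := le_mul_of_one_le_left (by linarith) (by linarith)
    gcongr
  have hP1 : 1 ≤ P := by
    refine le_trans ?_ ha
    exact one_le_mul_of_one_le_of_one_le (by linarith) hyv1
  have hPs : s ≤ P * s := le_mul_of_one_le_left hs0 hP1
  have has : (1 + |x|) * (y + v) * s ≤ P * s := by gcongr
  have hds : (1 + |u|) * (y + v) * s ≤ P * s := by gcongr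
  refine ⟨?_, ?_, ?_, ?_⟩
  · have : |(a : ℝ)| ≤ M := by
      calc |(a : ℝ)| ≤ _ := q2
        _ = 3 * ((1 + |x|) * (y + v) * s) + 3 * s := by ring
        _ ≤ 20 * P * s := by linarith
        _ ≤ M := hM
    exact_mod_cast this
  · have : |(b : ℝ)| ≤ M := by
      calc |(b : ℝ)| ≤ _ := q4
        _ = 20 * P * s := by rw [hP]; ring
        _ ≤ M := hM
    exact_mod_cast this
  · have : |(c : ℝ)| ≤ M := by
      calc |(c : ℝ)| ≤ _ := q1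
        _ ≤ 20 * P * s := by linarith
        _ ≤ M := hM
    exact_mod_cast this
  · have : |(d : ℝ)| ≤ M := by
      calc |(d : ℝ)| ≤ _ := q3
        _ = 3 * ((1 + |u|) * (y + v) * s) + 3 * s := by ring
        _ ≤ 20 * P * s := by linarith
        _ ≤ M := hM
    exact_mod_cast this

/-- the size of the matrices, second form -/
theorem asm_M' {κ G P Z X : ℝ} {M : ℕ} (hκ : 1 ≤ κ) (hG : 1 ≤ G) (hP1 : 1 ≤ P) (hP : P ≤ G ^ 2)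
    (hZ : 1 ≤ Z) (hX : Z ^ 2000 = X) (hM : M = ⌈20 * P * √(κ * X)⌉₊) :
    20 * P * √(κ * X) ≤ M ∧ (M : ℝ) ≤ 21 * κ * G ^ 2 * Z ^ 1000 ∧ 1 ≤ M := by
  rw [← hX] at hM ⊢
  obtain ⟨h1, h2, h3, -, -⟩ := asm_M hκ hG hP1 hP hZ hM
  exact ⟨h1, h2, h3⟩

theorem asm_F' {κ G Z Λ C₁ cF : ℝ} {M : ℕ} (hκ : 1 ≤ κ) (hG : 1 ≤ G) (hZ : 1 ≤ Z) (hΛ : 0 ≤ Λ)
    (hC₁ : 0 < C₁) (hcF : cF = Λ * κ * C₁ * (21 * κ) ^ 2)
    (hM : (M : ℝ) ≤ 21 * κ * G ^ 2 * Z ^ 1000) :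
    Λ * κ * (C₁ * (M : ℝ) ^ (1 + 1 / 2000 : ℝ)) ≤ cF * G ^ 4 * Z ^ 1001 := by
  have h := asm_F hκ hG hZ hM
  have hκ0 : 0 < κ := by linarith
  generalize Z ^ 1001 = q at *
  calc Λ * κ * (C₁ * (M : ℝ) ^ (1 + 1 / 2000 : ℝ)) ≤
      Λ * κ * (C₁ * ((21 * κ * G ^ 2) ^ 2 * q)) := by gcongr
    _ = _ := by rw [hcF]; ring

theorem asm_fin {κ G Z M F C₄ C₅ C₆ cF cg y v : ℝ} (hκ : 1 ≤ κ) (hG1 : 1 ≤ G) (hZ : 1 ≤ Z)
    (hy : 0 ≤ y) (hv : 0 ≤ v) (hyvG : y * v ≤ G) (hC₄ : 0 < C₄) (hC₅ : 0 < C₅) (hC₆ : 0 < C₆)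
    (hcF0 : 0 ≤ cF) (hcg0 : 0 < cg) (hM2 : M ≤ 21 * κ * G ^ 2 * Z ^ 1000)
    (hFle : F ≤ cF * G ^ 4 * Z ^ 1001) :
    2 * Z ^ 998 * F + C₄ * y * v * Z ^ 1500 * (2 * √(2 * Z ^ 998)) +
      1344 * C₆ * κ * G ^ 3 * Z ^ 998 *
        (F + C₄ * y * v * Z ^ 1500 * (2 * Z ^ 998) ^ (-(1 / 2) : ℝ)) +
      M * (cg * G ^ 11 * Z ^ 998) + C₅ * y * v * Z ^ 1500 ≤
    (2 * cF + 4 * C₄ + 1344 * C₆ * κ * (cF + C₄) + 21 * κ * cg + C₅) * G ^ 13 * Z ^ 1999 := by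
  have hG0 : 0 < G := by linarith
  have hZ0 : 0 < Z := by linarith
  have hκ0 : 0 < κ := by linarith
  have hG13 : ∀ k : ℕ, k ≤ 13 → G ^ k ≤ G ^ 13 := fun k hk => pow_le_pow_right₀ hG1 hk
  have hsT : √(2 * Z ^ 998) ≤ 2 * Z ^ 499 := by
    apply Real.sqrt_le_iff.mpr
    refine ⟨by positivity, ?_⟩
    rw [mul_pow, ← pow_mul]
    norm_num
    linarith [show 0 ≤ Z ^ 998 by positivity]
  have t1 : 2 * Z ^ 998 * F ≤ 2 * cF * G ^ 13 * Z ^ 1999 := by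
    calc 2 * Z ^ 998 * F ≤ 2 * Z ^ 998 * (cF * G ^ 4 * Z ^ 1001) := by gcongr
      _ = 2 * cF * G ^ 4 * (Z ^ 998 * Z ^ 1001) := by
          generalize Z ^ 998 = a
          generalize Z ^ 1001 = b
          ring
      _ = 2 * cF * G ^ 4 * Z ^ 1999 := by rw [← pow_add]
      _ ≤ _ := by
          have := hG13 4 (by norm_num)
          gcongr
  have t2 : C₄ * y * v * Z ^ 1500 * (2 * √(2 * Z ^ 998)) ≤ 4 * C₄ * G ^ 13 * Z ^ 1999 := by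
    calc C₄ * y * v * Z ^ 1500 * (2 * √(2 * Z ^ 998)) =
        C₄ * (y * v) * Z ^ 1500 * (2 * √(2 * Z ^ 998)) := by
          generalize Z ^ 1500 = a
          generalize √(2 * Z ^ 998) = b
          ring
      _ ≤ C₄ * G * Z ^ 1500 * (2 * (2 * Z ^ 499)) := by
          gcongr
      _ = 4 * C₄ * G * (Z ^ 1500 * Z ^ 499) := by
          generalize Z ^ 1500 = a
          generalize Z ^ 499 = b
          ring
      _ = 4 * C₄ * G ^ 1 * Z ^ 1999 := by rw [← pow_add, pow_one]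
      _ ≤ _ := by
          have := hG13 1 (by norm_num)
          gcongr
  have t3 : 1344 * C₆ * κ * G ^ 3 * Z ^ 998 *
      (F + C₄ * y * v * Z ^ 1500 * (2 * Z ^ 998) ^ (-(1 / 2) : ℝ)) ≤
      1344 * C₆ * κ * (cF + C₄) * G ^ 13 * Z ^ 1999 := by
    have e1 := asm_bad1 hG1 hZ hC₄ hy hv hyvG hFle hcF0
    calc _ ≤ 1344 * C₆ * κ * G ^ 3 * Z ^ 998 * ((cF + C₄) * G ^ 4 * Z ^ 1001) := by gcongr
      _ = 1344 * C₆ * κ * (cF + C₄) * G ^ 7 * (Z ^ 998 * Z ^ 1001) := by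
          generalize Z ^ 998 = a
          generalize Z ^ 1001 = b
          ring
      _ = 1344 * C₆ * κ * (cF + C₄) * G ^ 7 * Z ^ 1999 := by rw [← pow_add]
      _ ≤ _ := by
          have := hG13 7 (by norm_num)
          gcongr
  have t4 : M * (cg * G ^ 11 * Z ^ 998) ≤ 21 * κ * cg * G ^ 13 * Z ^ 1999 := by
    calc M * (cg * G ^ 11 * Z ^ 998) ≤ (21 * κ * G ^ 2 * Z ^ 1000) * (cg * G ^ 11 * Z ^ 998) := by
          gcongr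
      _ = 21 * κ * cg * G ^ 13 * (Z ^ 1000 * Z ^ 998) := by
          generalize Z ^ 1000 = a
          generalize Z ^ 998 = b
          ring
      _ = 21 * κ * cg * G ^ 13 * Z ^ 1998 := by rw [← pow_add]
      _ ≤ _ := by
          have : Z ^ 1998 ≤ Z ^ 1999 := pow_le_pow_right₀ hZ (by norm_num)
          gcongr
  have t5 : C₅ * y * v * Z ^ 1500 ≤ C₅ * G ^ 13 * Z ^ 1999 := by
    calc C₅ * y * v * Z ^ 1500 = C₅ * (y * v) * Z ^ 1500 := by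
          generalize Z ^ 1500 = a
          ring
      _ ≤ C₅ * G * Z ^ 1500 := by gcongr
      _ ≤ C₅ * G ^ 13 * Z ^ 1999 := by
          have e1 := hG13 1 (by norm_num)
          rw [pow_one] at e1
          have e2 : Z ^ 1500 ≤ Z ^ 1999 := pow_le_pow_right₀ hZ (by norm_num)
          gcongr
  have hsum := add_le_add (add_le_add (add_le_add (add_le_add t1 t2) t3) t4) t5
  refine hsum.trans (le_of_eq ?_)
  generalize Z ^ 1999 = a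
  ring

open Classical in
/-- one good row -/
theorem asm_row_good {β : ℝ → ℝ} {Λ κ : ℝ} (hβ : Tst β Λ κ) : ∃ cg : ℝ, 0 < cg ∧
    ∀ (n c K M : ℕ) (A B C D : ℤ) (X Z x y u v G : ℝ) (S : Finset (ℤ × ℤ × ℤ × ℤ)), 0 < n →
      Cls n A B C D → (n : ℤ) ∣ c - C → 1 ≤ Z → Z ^ 2000 = X → 1 / 2 ≤ y → 1 / 2 ≤ v →
      1 ≤ G → (n : ℝ) ≤ G → y * v ≤ G → y + v ≤ G → |x| ≤ G → |u| ≤ G →
      (M : ℝ) ≤ 21 * κ * G ^ 2 * Z ^ 1000 → 1 ≤ c → c ≤ M → 2 * Z ^ 998 ≤ (c : ℝ) →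
      Z ^ 14 ≤ K → (K : ℝ) ≤ 2 * Z ^ 14 → 1 ≤ K → Good n (K ^ 3) (Z ^ 270) c →
      (∀ t : ℤ × ℤ × ℤ × ℤ, t ∈ S ↔ t.1 * t.2.2.2 - t.2.1 * t.2.2.1 = 1 ∧ (n : ℤ) ∣ t.1 - A ∧
        (n : ℤ) ∣ t.2.1 - B ∧ t.2.2.1 = c ∧ (n : ℤ) ∣ t.2.2.2 - D ∧
        QF x y u v t.1 t.2.1 t.2.2.1 t.2.2.2 ≤ 2 * y * v * (κ * X)) →
      |∑ t ∈ S, β (QF x y u v t.1 t.2.1 t.2.2.1 t.2.2.2 / (2 * y * v) / X) -
        (c : ℝ) * ff n c / n ^ 2 * (∫ p : ℝ, ∫ q : ℝ, β ((c : ℝ) ^ 2 * WF y v p q / X))| ≤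
      cg * G ^ 11 * Z ^ 998 := by
  obtain ⟨C₂, hC₂, h2⟩ := asm_row hβ
  obtain ⟨C₃, hC₃, h3⟩ := asm_cmp hβ (show (0 : ℝ) < 1 by norm_num)
  obtain ⟨C₇, hC₇, h7⟩ := SEL.divisor_bound (show (0 : ℝ) < 1 / 2 by norm_num)
  have hκ := hβ.2.1
  have hκ0 : 0 < κ := by linarith
  refine ⟨C₂ * 175616 * κ ^ 7 * (84 + 21 * C₇) + C₃ * 51883209 * κ ^ 8, by positivity, ?_⟩
  intro n c K M A B C D X Z x y u v G S hn hcls hcC hZ hX hy hv hG1 hnG hyvG hyvG' hxG huG hM2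
    hc1 hc2 hcT hK1 hK2 hK3 hgood hS
  have hX1 : 1 ≤ X := by rw [← hX]; exact one_le_pow₀ hZ
  have hyv0 : 0 ≤ y * v := by positivity
  obtain ⟨R, R', hR1, hRR, hR'7, hE8, hRcc⟩ := asm_R (x := x) (u := u) hκ hG1 hZ hyv0 hyvG
    hyvG' hxG huG
  have hRc : 3 * √(κ * X * (y * v)) ≤ R * c := by
    have := hRcc c hcT
    rwa [hX] at this
  have hKc : K ≤ c := by
    have e1 : (K : ℝ) ≤ c := by
      have : Z ^ 14 ≤ Z ^ 998 := pow_le_pow_right₀ hZ (by norm_num)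
      linarith
    exact_mod_cast e1
  have r1 := h2 n c K (K ^ 3) R' A B C D X x y u v R (Z ^ 270) hn hc1 hcls hcC hK3 hKc
    (Nat.one_le_pow _ _ hK3) (one_le_pow₀ hZ) hgood hX1 hy hv hR1 hRc hRR
  have r2 := h3 n c R' A B C D X x y u v R S hn hc1 hcls hcC hX1 hy hv hR1 hRc hRR hS
  have hcR1 : (1 : ℝ) ≤ c := by exact_mod_cast hc1
  have hcM : (c : ℝ) ≤ M := by exact_mod_cast hc2
  have hx0 := abs_nonneg x
  have hu0 := abs_nonneg u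
  have hR'1 : (1 : ℝ) ≤ R' := by linarith
  have key := asm_good (κ := κ) (G := G) (Z := Z) (C₂ := C₂) (C₃ := C₃) (C₇ := C₇)
    (E := R' + y + v) (W := 1 / K + K ^ 2 / K ^ 3 + K * (Z ^ 270 / c) ^ (1 / 16 : ℝ))
    (N := n) (τ := c.divisors.card) (R' := R') (c := c) (M := M) (K := K) hκ hG1 hZ hC₂ hC₃ hC₇
    hM2 hcR1 hcT hcM hK1 hK2 hR'1 hR'7 (by linarith) hE8
    (by positivity) hnG (h7 c hc1) rfl
  have hcast : (((K ^ 3 : ℕ) : ℕ) : ℝ) = (K : ℝ) ^ 3 := by push_cast; ring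
  rw [hcast] at r1
  rw [hX] at key
  refine (abs_sub_le _ _ _).trans ((add_le_add r2 r1).trans ?_)
  rw [add_comm]
  exact key

open Classical in
theorem asm_pos {β : ℝ → ℝ} {Λ κ : ℝ} (hβ : Tst β Λ κ) : ∃ C₀ : ℝ, 0 < C₀ ∧
    ∀ (n : ℕ) (A B C D : ℤ) (X Z x y u v G : ℝ) (S : Finset (ℤ × ℤ × ℤ × ℤ)), 0 < n →
      Cls n A B C D → 1 ≤ Z → Z ^ 2000 = X → 1 / 2 ≤ y → 1 / 2 ≤ v →
      G = n * ((1 + y) * (1 + v) * (1 + |x|) * (1 + |u|)) →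
      (∀ t : ℤ × ℤ × ℤ × ℤ, t ∈ S ↔ t.1 * t.2.2.2 - t.2.1 * t.2.2.1 = 1 ∧ (n : ℤ) ∣ t.1 - A ∧
        (n : ℤ) ∣ t.2.1 - B ∧ (n : ℤ) ∣ t.2.2.1 - C ∧ (n : ℤ) ∣ t.2.2.2 - D ∧ 0 < t.2.2.1 ∧
        QF x y u v t.1 t.2.1 t.2.2.1 t.2.2.2 ≤ 2 * y * v * (κ * X)) →
      |∑ t ∈ S, β (QF x y u v t.1 t.2.1 t.2.2.1 t.2.2.2 / (2 * y * v) / X) -
        Real.pi ^ 2 * kk n / n ^ 3 * X * ∫ t in (0 : ℝ)..κ, β t| ≤
      C₀ * G ^ 13 * Z ^ 1999 := by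
  obtain ⟨C₁, hC₁, h1⟩ := crude_row (show (0 : ℝ) < 1 / 2000 by norm_num)
  obtain ⟨cg, hcg0, hrow⟩ := asm_row_good hβ
  obtain ⟨C₄, hC₄, h4⟩ := main_row_le hβ
  obtain ⟨C₅, hC₅, h5⟩ := main_sum hβ
  obtain ⟨C₆, hC₆, h6⟩ := bad_count (show (0 : ℝ) < 1 / 42 by norm_num)
  have hΛ := hβ.1
  have hκ := hβ.2.1
  have hκ0 : 0 < κ := by linarith
  obtain ⟨cF, hcF⟩ : ∃ cF : ℝ, cF = Λ * κ * C₁ * (21 * κ) ^ 2 := ⟨_, rfl⟩
  have hcF0 : 0 ≤ cF := by rw [hcF]; positivity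
  refine ⟨2 * cF + 4 * C₄ + 1344 * C₆ * κ * (cF + C₄) + 21 * κ * cg + C₅, by positivity, ?_⟩
  intro n A B C D X Z x y u v G S hn hcls hZ hX hy hv hG hS
  obtain ⟨hG1, hnG, hyvG, hyvG', hxG, huG, hP1, hPG⟩ := asm_G hn hy hv hG
  obtain ⟨P, hP⟩ : ∃ P : ℝ, P = (1 + |x|) * (1 + |u|) * (y + v) ^ 2 := ⟨_, rfl⟩
  have hP1' : 1 ≤ P := by rw [hP]; exact hP1
  have hPG' : P ≤ G ^ 2 := by rw [hP]; exact hPG
  obtain ⟨M, hMdef⟩ : ∃ M : ℕ, M = ⌈20 * P * √(κ * X)⌉₊ := ⟨_, rfl⟩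
  obtain ⟨hM1, hM2, hM3⟩ := asm_M' hκ hG1 hP1' hPG' hZ hX hMdef
  obtain ⟨K, hKdef⟩ : ∃ K : ℕ, K = ⌈Z ^ 14⌉₊ := ⟨_, rfl⟩
  obtain ⟨hK1, hK2, hK3⟩ := asm_K hZ hKdef
  have hX1 : 1 ≤ X := by rw [← hX]; exact one_le_pow₀ hZ
  have hκX : 0 ≤ κ * X := by positivity
  obtain ⟨F, hF⟩ : ∃ F : ℝ, F = Λ * κ * (C₁ * (M : ℝ) ^ (1 + 1 / 2000 : ℝ)) := ⟨_, rfl⟩
  have hF0 : 0 ≤ F := by rw [hF]; positivity
  have hFle : F ≤ cF * G ^ 4 * Z ^ 1001 := by rw [hF]; exact asm_F' hκ hG1 hZ hΛ hC₁ hcF hM2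
  -- entries
  have hM1' : 20 * ((1 + |x|) * (1 + |u|) * (y + v) ^ 2) * √(κ * X) ≤ M := by
    rw [← hP]; exact hM1
  have hent : ∀ t ∈ S, |t.1| ≤ M ∧ |t.2.1| ≤ M ∧ |t.2.2.1| ≤ M ∧ |t.2.2.2| ≤ M := by
    intro t ht
    exact asm_ent hy hv hκX ((hS t).mp ht).2.2.2.2.2.2 hM1'
  -- rows
  obtain ⟨I, hI⟩ : ∃ I : Finset ℕ, I = (Finset.Icc 1 M).filter (fun c : ℕ => (n : ℤ) ∣ c - C) :=
    ⟨_, rfl⟩
  have hIM : ∀ c ∈ I, 1 ≤ c ∧ c ≤ M := by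
    intro c hc
    rw [hI, Finset.mem_filter, Finset.mem_Icc] at hc
    exact hc.1
  obtain ⟨f, hf⟩ : ∃ f : ℕ → ℝ, ∀ c, f c = ∑ t ∈ S.filter (fun t => t.2.2.1 = (c : ℤ)),
    β (QF x y u v t.1 t.2.1 t.2.2.1 t.2.2.2 / (2 * y * v) / X) := ⟨_, fun _ => rfl⟩
  obtain ⟨J, hJ⟩ : ∃ J : ℕ → ℝ, ∀ c, J c = (c : ℝ) * ff n c / n ^ 2 *
    (∫ p : ℝ, ∫ q : ℝ, β ((c : ℝ) ^ 2 * WF y v p q / X)) := ⟨_, fun _ => rfl⟩
  have hfib : ∑ t ∈ S, β (QF x y u v t.1 t.2.1 t.2.2.1 t.2.2.2 / (2 * y * v) / X) =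
      ∑ c ∈ I, f c := by
    have hmaps : ∀ t ∈ S, t.2.2.1.toNat ∈ I := by
      intro t ht
      obtain ⟨-, -, g3, -⟩ := hent t ht
      obtain ⟨-, -, -, g4, -, g5, -⟩ := (hS t).mp ht
      rw [hI, Finset.mem_filter, Finset.mem_Icc, Int.toNat_of_nonneg g5.le]
      refine ⟨⟨by omega, ?_⟩, g4⟩
      rw [abs_of_pos g5] at g3
      omega
    rw [← Finset.sum_fiberwise_of_maps_to hmaps]
    refine Finset.sum_congr rfl fun c hc => ?_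
    rw [hf]
    apply Finset.sum_congr _ fun _ _ => rfl
    ext t
    simp only [Finset.mem_filter]
    refine and_congr_right fun ht => ?_
    obtain ⟨-, -, -, -, -, g5, -⟩ := (hS t).mp ht
    constructor
    · intro h; omega
    · intro h; omega
  rw [hfib]
  have hmain := h5 n C X y v M hn hX1 hy hv (asm_Mc hy hv hP1' hκX hM1)
  have hX34 : X ^ (3 / 4 : ℝ) = Z ^ 1500 := by
    rw [← hX, asm_rpow hZ, ← Real.rpow_natCast Z 1500]; norm_num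
  rw [hX34, ← hI] at hmain
  have hmain' : |∑ c ∈ I, J c - Real.pi ^ 2 * kk n / n ^ 3 * X * ∫ t in (0 : ℝ)..κ, β t| ≤
      C₅ * y * v * Z ^ 1500 := by
    refine le_trans (le_of_eq ?_) hmain
    congr 2
    exact Finset.sum_congr rfl fun c _ => hJ c
  have hF' : ∀ c ∈ I, |f c| ≤ F := by
    intro c hc
    obtain ⟨hc1, hc2⟩ := hIM c hc
    rw [hf]
    refine (Finset.abs_sum_le_sum_abs _ _).trans ?_
    have hbd : ∀ t ∈ S.filter (fun t => t.2.2.1 = (c : ℤ)),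
        |β (QF x y u v t.1 t.2.1 t.2.2.1 t.2.2.2 / (2 * y * v) / X)| ≤ Λ * κ := by
      intro t _
      apply asm_beta_bd hβ
      have : 0 ≤ QF x y u v t.1 t.2.1 t.2.2.1 t.2.2.2 := by unfold QF; positivity
      positivity
    refine (Finset.sum_le_card_nsmul _ _ _ hbd).trans ?_
    rw [nsmul_eq_mul, mul_comm, hF]
    have hinj : Set.InjOn (fun t : ℤ × ℤ × ℤ × ℤ => (t.1, t.2.1, t.2.2.2))
        (S.filter (fun t => t.2.2.1 = (c : ℤ)) : Finset (ℤ × ℤ × ℤ × ℤ)) := by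
      intro s hs t ht hst
      rw [Finset.mem_coe, Finset.mem_filter] at hs ht
      simp only [Prod.mk.injEq] at hst
      exact Prod.ext hst.1 (Prod.ext hst.2.1 (Prod.ext (hs.2.trans ht.2.symm) hst.2.2))
    rw [← Finset.card_image_of_injOn hinj]
    have : |((c : ℕ) : ℤ)| ≤ M := by
      rw [abs_of_nonneg (by positivity)]; exact_mod_cast hc2
    have hcr := h1 M c ((S.filter (fun t => t.2.2.1 = (c : ℤ))).image
      (fun t : ℤ × ℤ × ℤ × ℤ => (t.1, t.2.1, t.2.2.2))) hM3 this (by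
        intro t ht
        rw [Finset.mem_image] at ht
        obtain ⟨s, hs, rfl⟩ := ht
        rw [Finset.mem_filter] at hs
        obtain ⟨g1, g2, g3, g4⟩ := hent s hs.1
        have g5 := ((hS s).mp hs.1).1
        rw [hs.2] at g5
        exact ⟨g1, g2, g4, g5⟩)
    gcongr
  have hJ' : ∀ c ∈ I, |J c| ≤ C₄ * y * v * Z ^ 1500 * (c : ℝ) ^ (-(1 / 2) : ℝ) := by
    intro c hc
    obtain ⟨hc1, hc2⟩ := hIM c hc
    have := h4 n c X y v hn hc1 hX1 hy hv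
    rw [hX34] at this
    rw [hJ]
    exact this
  have hgood' : ∀ c ∈ I, 2 * Z ^ 998 ≤ (c : ℝ) → ¬ (¬ Good n (K ^ 3) (Z ^ 270) c) →
      |f c - J c| ≤ cg * G ^ 11 * Z ^ 998 := by
    intro c hc hcT hgood
    rw [not_not] at hgood
    obtain ⟨hc1, hc2⟩ := hIM c hc
    have hcC : (n : ℤ) ∣ c - C := by
      rw [hI, Finset.mem_filter] at hc; exact hc.2
    rw [hf, hJ]
    refine hrow n c K M A B C D X Z x y u v G (S.filter (fun t => t.2.2.1 = (c : ℤ))) hn hcls hcC hZ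
      hX hy hv hG1 hnG hyvG hyvG' hxG huG hM2 hc1 hc2 hcT hK1 hK2 hK3 hgood ?_
    intro t
    rw [Finset.mem_filter, hS]
    constructor
    · rintro ⟨⟨g1, g2, g3, g4, g5, g6, g7⟩, g8⟩
      exact ⟨g1, g2, g3, g8, g5, g7⟩
    · rintro ⟨g1, g2, g3, g4, g5, g6⟩
      refine ⟨⟨g1, g2, g3, ?_, g5, ?_, g6⟩, g4⟩
      · rw [g4]; exact hcC
      · rw [g4]; exact_mod_cast hc1
  have hbad' : ((I.filter (fun c => ¬ Good n (K ^ 3) (Z ^ 270) c)).card : ℝ) ≤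
      1344 * C₆ * κ * G ^ 3 * Z ^ 998 := by
    have hb := h6 n (K ^ 3) M (Z ^ 270)
      (I.filter (fun c => ¬ Good n (K ^ 3) (Z ^ 270) c)) hn
      (Nat.one_le_pow _ _ hK3) (one_le_pow₀ hZ) (by
        intro c hc
        rw [Finset.mem_filter] at hc
        exact ⟨(hIM c hc.1).1, (hIM c hc.1).2, hc.2⟩)
    exact hb.trans (asm_B hκ hG1 hZ hC₆ hn hnG hM2 hK2 hK3)
  have hZ998 : 1 ≤ 2 * Z ^ 998 := by
    have : 1 ≤ Z ^ 998 := one_le_pow₀ hZ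
    linarith
  have hG0 : 0 ≤ G := by linarith
  have hZ0 : 0 ≤ Z := by linarith
  have hJ00 : 0 ≤ C₄ * y * v * Z ^ 1500 := by positivity
  have hg00 : 0 ≤ cg * G ^ 11 * Z ^ 998 := by positivity
  have hsplit := asm_split I M hIM f J (fun c => ¬ Good n (K ^ 3) (Z ^ 270) c) F
    (C₄ * y * v * Z ^ 1500) (2 * Z ^ 998) (cg * G ^ 11 * Z ^ 998)
    (1344 * C₆ * κ * G ^ 3 * Z ^ 998) hF' hJ' hZ998 hF0 hJ00 hg00 hgood'
    (by convert hbad')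
  exact (abs_sub_le _ _ _).trans ((add_le_add hsplit hmain').trans
    (asm_fin hκ hG1 hZ (by linarith) (by linarith) hyvG hC₄ hC₅ hC₆ hcF0 hcg0 hM2 hFle))

end Pool.Agent.JOM
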