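import Pool.Agent.Lib_helper68.JOF.DefsF
import Pool.Agent.Lib_helper68.JOF.ASME

/-! Block ASM: the lattice point count for integer matrices. -/

namespace Pool.Agent.JOM

open MeasureTheory Filter Topology UpperHalfPlane
open scoped MatrixGroups Modular ArithmeticFunction.Moebius

theorem asm_neg_QF (x y u v a b c d : ℝ) : QF x y u v (-a) (-b) (-c) (-d) = QF x y u v a b c d := by
  unfold QF; ring

theorem lattice_int_pr {β : ℝ → ℝ} {Λ κ : ℝ} (hβ : Tst β Λ κ) : ∃ C₀ δ : ℝ, 0 < C₀ ∧ 0 < δ ∧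
    ∀ (n : ℕ) (A B C D : ℤ) (X x y u v : ℝ) (S : Finset (ℤ × ℤ × ℤ × ℤ)), 0 < n →
      Cls n A B C D → 1 ≤ X → 1 / 2 ≤ y → 1 / 2 ≤ v →
      (∀ t : ℤ × ℤ × ℤ × ℤ, t ∈ S ↔ t.1 * t.2.2.2 - t.2.1 * t.2.2.1 = 1 ∧ (n : ℤ) ∣ t.1 - A ∧
        (n : ℤ) ∣ t.2.1 - B ∧ (n : ℤ) ∣ t.2.2.1 - C ∧ (n : ℤ) ∣ t.2.2.2 - D ∧
        QF x y u v t.1 t.2.1 t.2.2.1 t.2.2.2 ≤ 2 * y * v * (κ * X)) →
      |∑ t ∈ S, β (QF x y u v t.1 t.2.1 t.2.2.1 t.2.2.2 / (2 * y * v) / X) -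
        2 * Real.pi ^ 2 * kk n / n ^ 3 * X * ∫ t in (0 : ℝ)..κ, β t| ≤
      C₀ * (n * ((1 + y) * (1 + v) * (1 + |x|) * (1 + |u|))) ^ C₀ * X ^ (1 - δ) := by
  classical
  obtain ⟨C₁, hC₁, h1⟩ := crude_row (show (0 : ℝ) < 1 / 2000 by norm_num)
  obtain ⟨C₂, hC₂, h2⟩ := asm_pos hβ
  have hΛ := hβ.1
  have hκ := hβ.2.1
  have hκ0 : 0 < κ := by linarith
  set cF : ℝ := Λ * κ * C₁ * (21 * κ) ^ 2 with hcF
  have hcF0 : 0 ≤ cF := by positivity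
  refine ⟨2 * C₂ + cF + 13, 1 / 2000, by positivity, by norm_num, ?_⟩
  intro n A B C D X x y u v S hn hcls hX1 hy hv hS
  obtain ⟨Z, hZdef⟩ : ∃ Z : ℝ, Z = X ^ (1 / 2000 : ℝ) := ⟨_, rfl⟩
  have hX0 : 0 < X := by linarith
  have hZ : 1 ≤ Z := by rw [hZdef]; exact Real.one_le_rpow hX1 (by norm_num)
  have hZX : Z ^ 2000 = X := by
    rw [hZdef, ← Real.rpow_natCast, ← Real.rpow_mul hX0.le]; norm_num
  have hZ2 : X ^ (1 - 1 / 2000 : ℝ) = Z ^ 1999 := by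
    rw [hZdef, ← Real.rpow_natCast, ← Real.rpow_mul hX0.le]; norm_num
  obtain ⟨G, hG⟩ : ∃ G : ℝ, G = n * ((1 + y) * (1 + v) * (1 + |x|) * (1 + |u|)) := ⟨_, rfl⟩
  obtain ⟨hG1, hnG, hyvG, hyvG', hxG, huG, hP1, hPG⟩ := asm_G hn hy hv hG
  obtain ⟨P, hP⟩ : ∃ P : ℝ, P = (1 + |x|) * (1 + |u|) * (y + v) ^ 2 := ⟨_, rfl⟩
  rw [← hP] at hP1 hPG
  obtain ⟨M, hMdef⟩ : ∃ M : ℕ, M = ⌈20 * P * √(κ * X)⌉₊ := ⟨_, rfl⟩
  obtain ⟨hM1, hM2, hM3⟩ := asm_M' hκ hG1 hP1 hPG hZ hZX hMdef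
  rw [hP] at hM1
  rw [hZ2, ← hG]
  have hG0 : 0 < G := by linarith
  -- split
  obtain ⟨g, hg⟩ : ∃ g : ℤ × ℤ × ℤ × ℤ → ℝ, ∀ t, g t =
    β (QF x y u v t.1 t.2.1 t.2.2.1 t.2.2.2 / (2 * y * v) / X) := ⟨_, fun _ => rfl⟩
  obtain ⟨Sp, hSp⟩ : ∃ Sp, Sp = S.filter (fun t => 0 < t.2.2.1) := ⟨_, rfl⟩
  obtain ⟨Sz, hSz⟩ : ∃ Sz, Sz = S.filter (fun t => t.2.2.1 = 0) := ⟨_, rfl⟩
  obtain ⟨Sn, hSn⟩ : ∃ Sn, Sn = S.filter (fun t => t.2.2.1 < 0) := ⟨_, rfl⟩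
  have hgS : ∑ t ∈ S, β (QF x y u v t.1 t.2.1 t.2.2.1 t.2.2.2 / (2 * y * v) / X) =
      ∑ t ∈ S, g t := Finset.sum_congr rfl fun t _ => (hg t).symm
  have hsplit : ∑ t ∈ S, g t = ∑ t ∈ Sp, g t + ∑ t ∈ Sz, g t + ∑ t ∈ Sn, g t := by
    rw [hSp, hSz, hSn, Finset.sum_filter, Finset.sum_filter, Finset.sum_filter,
      ← Finset.sum_add_distrib, ← Finset.sum_add_distrib]
    refine Finset.sum_congr rfl fun t _ => ?_
    rcases lt_trichotomy t.2.2.1 0 with h | h | h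
    · rw [if_neg (by omega), if_neg (by omega), if_pos h]; ring
    · rw [if_neg (by omega), if_pos h, if_neg (by omega)]; ring
    · rw [if_pos h, if_neg (by omega), if_neg (by omega)]; ring
  have ep := h2 n A B C D X Z x y u v G Sp hn hcls hZ hZX hy hv hG (by
    intro t
    rw [hSp, Finset.mem_filter, hS]
    tauto)
  -- negative part
  let ν : ℤ × ℤ × ℤ × ℤ → ℤ × ℤ × ℤ × ℤ := fun t => (-t.1, -t.2.1, -t.2.2.1, -t.2.2.2)
  have hνν : ∀ t, ν (ν t) = t := by intro t; simp [ν]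
  have hνi : Function.Injective ν := fun s t h => by rw [← hνν s, h, hνν]
  have en := h2 n (-A) (-B) (-C) (-D) X Z x y u v G (Sn.image ν) hn (by
      unfold Cls at hcls ⊢
      have : -A * -D - -B * -C - 1 = A * D - B * C - 1 := by ring
      rwa [this]) hZ hZX hy hv hG (by
    intro t
    have hmem : t ∈ Sn.image ν ↔ ν t ∈ Sn := by
      rw [Finset.mem_image]
      constructor
      · rintro ⟨s, hs, rfl⟩; rw [hνν]; exact hs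
      · intro h; exact ⟨ν t, h, hνν t⟩
    rw [hmem, hSn, Finset.mem_filter, hS]
    simp only [ν]
    push_cast
    rw [asm_neg_QF]
    have d1 : ∀ a b : ℤ, (n : ℤ) ∣ -a - b ↔ (n : ℤ) ∣ a - -b := by
      intro a b
      rw [← dvd_neg, show -(-a - b) = a - -b by ring]
    rw [d1, d1, d1, d1, show -t.1 * -t.2.2.2 - -t.2.1 * -t.2.2.1 =
      t.1 * t.2.2.2 - t.2.1 * t.2.2.1 by ring]
    constructor
    · rintro ⟨⟨g1, g2, g3, g4, g5, g6⟩, g7⟩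
      exact ⟨g1, g2, g3, g4, g5, by omega, g6⟩
    · rintro ⟨g1, g2, g3, g4, g5, g6, g7⟩
      exact ⟨⟨g1, g2, g3, g4, g5, g7⟩, by omega⟩)
  rw [Finset.sum_image (fun a _ b _ hab => hνi hab)] at en
  have en' : ∑ t ∈ Sn, β (QF x y u v (ν t).1 (ν t).2.1 (ν t).2.2.1 (ν t).2.2.2 / (2 * y * v) / X) =
      ∑ t ∈ Sn, g t := by
    refine Finset.sum_congr rfl fun t _ => ?_
    simp only [ν, hg]
    push_cast
    rw [asm_neg_QF]
  rw [en'] at en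
  -- zero row
  have ez : |∑ t ∈ Sz, g t| ≤ cF * G ^ 13 * Z ^ 1999 := by
    refine (Finset.abs_sum_le_sum_abs _ _).trans ?_
    have hbd : ∀ t ∈ Sz, |g t| ≤ Λ * κ := by
      intro t _
      rw [hg]
      apply asm_beta_bd hβ
      have : 0 ≤ QF x y u v t.1 t.2.1 t.2.2.1 t.2.2.2 := by unfold QF; positivity
      positivity
    refine (Finset.sum_le_card_nsmul _ _ _ hbd).trans ?_
    rw [nsmul_eq_mul, mul_comm]
    have hinj : Set.InjOn (fun t : ℤ × ℤ × ℤ × ℤ => (t.1, t.2.1, t.2.2.2))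
        (Sz : Finset (ℤ × ℤ × ℤ × ℤ)) := by
      intro s hs t ht hst
      rw [hSz, Finset.mem_coe, Finset.mem_filter] at hs ht
      simp only [Prod.mk.injEq] at hst
      exact Prod.ext hst.1 (Prod.ext hst.2.1 (Prod.ext (hs.2.trans ht.2.symm) hst.2.2))
    have hcr := h1 M 0 (Sz.image (fun t : ℤ × ℤ × ℤ × ℤ => (t.1, t.2.1, t.2.2.2))) hM3
      (by simp) (by
        intro t ht
        rw [Finset.mem_image] at ht
        obtain ⟨s, hs, rfl⟩ := ht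
        rw [hSz, Finset.mem_filter] at hs
        obtain ⟨g1, -, -, -, -, g6⟩ := (hS s).mp hs.1
        obtain ⟨k1, k2, -, k4⟩ := asm_ent hy hv (by positivity : (0 : ℝ) ≤ κ * X) g6 hM1
        rw [hs.2] at g1
        exact ⟨k1, k2, k4, g1⟩)
    rw [Finset.card_image_of_injOn hinj] at hcr
    have hMF := asm_F hκ hG1 hZ hM2
    calc Λ * κ * (Sz.card : ℝ) ≤ Λ * κ * (C₁ * ((21 * κ * G ^ 2) ^ 2 * Z ^ 1001)) := by
          have := hcr.trans (mul_le_mul_of_nonneg_left hMF hC₁.le)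
          gcongr
      _ = cF * G ^ 4 * Z ^ 1001 := by rw [hcF]; ring
      _ ≤ cF * G ^ 13 * Z ^ 1999 := by
          have e1 : G ^ 4 ≤ G ^ 13 := pow_le_pow_right₀ hG1 (by norm_num)
          have e2 : Z ^ 1001 ≤ Z ^ 1999 := pow_le_pow_right₀ hZ (by norm_num)
          gcongr
  rw [hgS, hsplit]
  obtain ⟨U, hU⟩ : ∃ U, U = Real.pi ^ 2 * kk n / n ^ 3 * X * ∫ t in (0 : ℝ)..κ, β t := ⟨_, rfl⟩
  have hU2 : 2 * Real.pi ^ 2 * kk n / n ^ 3 * X * ∫ t in (0 : ℝ)..κ, β t = U + U := by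
    rw [hU]; ring
  rw [hU2]
  have htri : |∑ t ∈ Sp, g t + ∑ t ∈ Sz, g t + ∑ t ∈ Sn, g t - (U + U)| ≤
      |∑ t ∈ Sp, g t - U| + |∑ t ∈ Sz, g t| + |∑ t ∈ Sn, g t - U| := by
    have := abs_add_three (∑ t ∈ Sp, g t - U) (∑ t ∈ Sz, g t) (∑ t ∈ Sn, g t - U)
    refine le_trans (le_of_eq ?_) this
    congr 1; ring
  have hgSp : ∑ t ∈ Sp, β (QF x y u v t.1 t.2.1 t.2.2.1 t.2.2.2 / (2 * y * v) / X) =
      ∑ t ∈ Sp, g t := Finset.sum_congr rfl fun t _ => (hg t).symm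
  have ep' : |∑ t ∈ Sp, g t - U| ≤ C₂ * G ^ 13 * Z ^ 1999 := by rw [← hgSp, hU]; exact ep
  have en2 : |∑ t ∈ Sn, g t - U| ≤ C₂ * G ^ 13 * Z ^ 1999 := by rw [hU]; exact en
  have hpow : G ^ 13 ≤ G ^ (2 * C₂ + cF + 13) := by
    rw [← Real.rpow_natCast G 13]
    apply Real.rpow_le_rpow_of_exponent_le hG1
    push_cast
    linarith
  have hZp : 0 ≤ Z ^ 1999 := by positivity
  calc _ ≤ _ := htri
    _ ≤ (2 * C₂ + cF) * G ^ 13 * Z ^ 1999 := by linarith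
    _ ≤ (2 * C₂ + cF + 13) * G ^ (2 * C₂ + cF + 13) * Z ^ 1999 :=
        mul_le_mul_of_nonneg_right
          (mul_le_mul (by linarith) hpow (by positivity) (by positivity)) hZp

theorem lattice_int : type_of% @lattice_int_pr := @lattice_int_pr

end Pool.Agent.JOM
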