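import Pool.Agent.Lib_helper68.JO.Defs

/-! Project JO, part M: families. -/

namespace Pool.Agent.JOM

open MeasureTheory Filter Topology UpperHalfPlane
open scoped MatrixGroups Modular ArithmeticFunction.Moebius

open Classical in
/-- the average over the orbit of `j` of the integrals over the fundamental domain -/
noncomputable def oavg {Q : Type} [Fintype Q] [MulAction SL(2, ℤ) Q] (A : Q → ℍ → ℂ) (j : Q) : ℂ :=
  (∑ i ∈ Finset.univ.filter (fun i => i ∈ MulAction.orbit SL(2, ℤ) j), ∫ z in 𝒟ᵒ, A i z) /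
    (Finset.univ.filter (fun i => i ∈ MulAction.orbit SL(2, ℤ) j)).card

/-- equivariant bounded measurable families -/
structure Fam (n : ℕ) (Q : Type) [MulAction SL(2, ℤ) Q] (A : Q → ℍ → ℂ) : Prop where
  triv : ∀ g : SL(2, ℤ), red n g = 1 → ∀ j : Q, g • j = j
  meas : ∀ j, Measurable (A j)
  bdd : ∀ j z, ‖A j z‖ ≤ 1
  equi : ∀ (g : SL(2, ℤ)) (j : Q) (z : ℍ), A (g • j) (g • z) = A j z

end Pool.Agent.JOM
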