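import Pool.Agent.Lib_helper68.JOF.DefsF
import Pool.Agent.Lib_helper68.GL2.RSA

/-! Project JO, part M, block KER (kernel_int). -/

namespace Pool.Agent.JOM

open MeasureTheory Filter Topology UpperHalfPlane
open scoped MatrixGroups Modular ArithmeticFunction.Moebius ENNReal

theorem ker_int_y {a B : ℝ} (ha : 0 < a) (hB : 0 ≤ B) :
    ∫⁻ v in Set.Ioi a, ENNReal.ofReal (2 * √(B * v)) * ENNReal.ofReal (1 / v ^ 2) =
      ENNReal.ofReal (4 * √(B / a)) := by
  have h3 : IntegrableOn (fun y : ℝ => y ^ (-(3 / 2) : ℝ)) (Set.Ioi a) :=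
    integrableOn_Ioi_rpow_of_lt (by norm_num) ha
  have e : ∀ v ∈ Set.Ioi a, ENNReal.ofReal (2 * √(B * v)) * ENNReal.ofReal (1 / v ^ 2) =
      ENNReal.ofReal (2 * √B * v ^ (-(3 / 2) : ℝ)) := by
    intro v hv
    have hv0 : (0 : ℝ) < v := lt_trans ha hv
    rw [← ENNReal.ofReal_mul (by positivity), Real.sqrt_mul hB]
    congr 1
    have : v ^ (-(3 / 2) : ℝ) = √v / v ^ 2 := by
      rw [Real.sqrt_eq_rpow, ← Real.rpow_natCast v 2, ← Real.rpow_sub hv0]
      norm_num
    rw [this]
    ring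
  rw [setLIntegral_congr_fun measurableSet_Ioi e,
    ← ofReal_integral_eq_lintegral_ofReal (h3.const_mul _)
      ((ae_restrict_iff' measurableSet_Ioi).2 (Eventually.of_forall fun v hv => by
        have : (0 : ℝ) < v := lt_trans ha hv
        positivity)), integral_const_mul, integral_Ioi_rpow_of_lt (by norm_num) ha]
  congr 1
  have h4 : a ^ (-(3 / 2) + 1 : ℝ) = (√a)⁻¹ := by
    rw [Real.sqrt_eq_rpow, ← Real.rpow_neg ha.le]
    norm_num
  rw [h4, Real.sqrt_div hB]
  have : √a ≠ 0 := (Real.sqrt_pos.2 ha).ne'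
  field_simp
  ring

theorem ker_bd {z w : ℍ} {T : ℝ} (h : Real.cosh (dist z w) ≤ T) :
    z.im / (2 * T) ≤ w.im ∧ |w.re - z.re| ≤ √(2 * z.im * T * w.im) := by
  have hz := z.im_pos
  have hw := w.im_pos
  have hT : 1 ≤ T := (Real.one_le_cosh _).trans h
  rw [UpperHalfPlane.cosh_dist] at h
  have h1 : dist (z : ℂ) (w : ℂ) ^ 2 = (z.re - w.re) ^ 2 + (z.im - w.im) ^ 2 := by
    rw [Complex.dist_eq, ← Complex.normSq_eq_norm_sq, Complex.normSq_apply]
    simp only [Complex.sub_re, Complex.sub_im, UpperHalfPlane.coe_re, UpperHalfPlane.coe_im]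
    ring
  rw [h1] at h
  have h2 : (z.re - w.re) ^ 2 + (z.im - w.im) ^ 2 ≤ (T - 1) * (2 * z.im * w.im) := by
    rw [← div_le_iff₀ (by positivity)]
    linarith
  constructor
  · rw [div_le_iff₀ (by positivity)]
    have h3 : z.im * z.im ≤ z.im * (w.im * (2 * T)) := by nlinarith [sq_nonneg (z.re - w.re), sq_nonneg w.im]
    exact le_of_mul_le_mul_left h3 hz
  · refine Real.le_sqrt_of_sq_le ?_
    rw [sq_abs]
    nlinarith [sq_nonneg (z.im - w.im), mul_pos hz hw]

theorem ker_ms (z : ℍ) (T : ℝ) : MeasurableSet {w : ℍ | Real.cosh (dist z w) ≤ T} :=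
  (isClosed_le (by fun_prop) continuous_const).measurableSet

theorem ker_vol (z : ℍ) {T : ℝ} (hT : 1 ≤ T) :
    (volume : Measure ℍ) {w : ℍ | Real.cosh (dist z w) ≤ T} ≤ ENNReal.ofReal (8 * T) := by
  have hz := z.im_pos
  rw [← setLIntegral_one, ← lintegral_indicator (ker_ms z T)]
  set a : ℝ := z.im / (2 * T) with ha
  have ha0 : 0 < a := by positivity
  set B : ℝ := 2 * z.im * T with hB
  have hB0 : 0 ≤ B := by positivity
  set Sc : Set ℂ := {ζ : ℂ | a ≤ ζ.im ∧ |ζ.re - z.re| ≤ √(B * ζ.im)} with hSc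
  have h1 : ∀ w : ℍ, {w : ℍ | Real.cosh (dist z w) ≤ T}.indicator (fun _ => (1 : ℝ≥0∞)) w ≤
      Sc.indicator (fun _ => (1 : ℝ≥0∞)) (w : ℂ) := by
    intro w
    by_cases hw : w ∈ {w : ℍ | Real.cosh (dist z w) ≤ T}
    · rw [Set.indicator_of_mem hw, Set.indicator_of_mem (by exact ker_bd hw)]
    · rw [Set.indicator_of_notMem hw]
      exact zero_le
  refine (lintegral_mono h1).trans ?_
  rw [Pool.Agent.GL2.RSA_lint, ← lintegral_indicator
    (isOpen_lt continuous_const Complex.continuous_im).measurableSet]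
  set F : ℝ × ℝ → ℝ≥0∞ := fun p => {p : ℝ × ℝ | a ≤ p.2 ∧ |p.1 - z.re| ≤ √(B * p.2)}.indicator
    (fun p => ENNReal.ofReal (1 / p.2 ^ 2)) p with hF
  have h2 : ∫⁻ ζ : ℂ, {z : ℂ | 0 < z.im}.indicator (fun z =>
      Sc.indicator (fun _ => (1 : ℝ≥0∞)) z * ENNReal.ofReal (1 / z.im ^ 2)) ζ =
      ∫⁻ p : ℝ × ℝ, F p := by
    rw [(Complex.volume_preserving_equiv_real_prod.symm).lintegral_map_equiv]
    apply lintegral_congr
    rintro ⟨x, t⟩
    have e : Complex.measurableEquivRealProd.symm (x, t) = (⟨x, t⟩ : ℂ) := rfl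
    rw [e, hF]
    simp only
    by_cases hx : (x, t) ∈ {p : ℝ × ℝ | a ≤ p.2 ∧ |p.1 - z.re| ≤ √(B * p.2)}
    · have ht0 : 0 < t := lt_of_lt_of_le ha0 hx.1
      rw [Set.indicator_of_mem (by exact ht0), Set.indicator_of_mem (by exact ⟨hx.1, hx.2⟩),
        Set.indicator_of_mem hx, one_mul]
    · rw [Set.indicator_of_notMem hx]
      by_cases ht0 : 0 < t
      · rw [Set.indicator_of_mem (by exact ht0),
          Set.indicator_of_notMem (by exact fun h => hx ⟨h.1, h.2⟩), zero_mul]
      · rw [Set.indicator_of_notMem (by exact ht0)]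
  have hms : MeasurableSet {p : ℝ × ℝ | a ≤ p.2 ∧ |p.1 - z.re| ≤ √(B * p.2)} := by
    refine MeasurableSet.inter (measurableSet_le measurable_const measurable_snd) ?_
    exact measurableSet_le (by fun_prop : Measurable (fun p : ℝ × ℝ => |p.1 - z.re|))
      (by fun_prop : Measurable (fun p : ℝ × ℝ => √(B * p.2)))
  have hm : Measurable F := (by fun_prop : Measurable (fun p : ℝ × ℝ =>
    ENNReal.ofReal (1 / p.2 ^ 2))).indicator hms
  rw [h2, Measure.volume_eq_prod, lintegral_prod_symm _ hm.aemeasurable]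
  have h3 : ∀ v : ℝ, ∫⁻ x : ℝ, F (x, v) ≤ (Set.Ici a).indicator (fun v =>
      ENNReal.ofReal (2 * √(B * v)) * ENNReal.ofReal (1 / v ^ 2)) v := by
    intro v
    by_cases hv : v ∈ Set.Ici a
    · rw [Set.indicator_of_mem hv]
      have h4 : ∀ x : ℝ, F (x, v) = (Set.Icc (z.re - √(B * v)) (z.re + √(B * v))).indicator
          (fun _ => ENNReal.ofReal (1 / v ^ 2)) x := by
        intro x
        by_cases hx : x ∈ Set.Icc (z.re - √(B * v)) (z.re + √(B * v))
        · rw [Set.indicator_of_mem hx, hF]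
          simp only
          rw [Set.indicator_of_mem]
          exact ⟨hv, by rw [abs_le]; constructor <;> simp only [Set.mem_Icc] at hx <;> linarith [hx.1, hx.2]⟩
        · rw [Set.indicator_of_notMem hx, hF]
          simp only
          rw [Set.indicator_of_notMem]
          rintro ⟨-, h⟩
          rw [abs_le] at h
          exact hx ⟨by linarith [h.1], by linarith [h.2]⟩
      rw [lintegral_congr h4, lintegral_indicator measurableSet_Icc, setLIntegral_const,
        Real.volume_Icc, mul_comm]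
      refine le_of_eq ?_
      congr 2
      ring
    · rw [Set.indicator_of_notMem hv]
      have h4 : ∀ x : ℝ, F (x, v) = 0 := by
        intro x
        rw [hF]
        simp only
        rw [Set.indicator_of_notMem]
        exact fun h => hv h.1
      rw [lintegral_congr h4, lintegral_zero]
  refine (lintegral_mono h3).trans ?_
  rw [lintegral_indicator measurableSet_Ici, setLIntegral_congr (Ioi_ae_eq_Ici).symm,
    ker_int_y ha0 hB0]
  refine ENNReal.ofReal_le_ofReal ?_
  have h5 : B / a = (2 * T) ^ 2 := by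
    rw [hB, ha]
    field_simp
  rw [h5, Real.sqrt_sq (by positivity)]
  linarith

/-- block KER -/
theorem kernel_int_pr {β : ℝ → ℝ} {Λ κ : ℝ} (hβ : Tst β Λ κ) : ∃ C₀ : ℝ, 0 < C₀ ∧
    ∀ (X : ℝ) (z : ℍ), 1 ≤ X → Integrable (fun w : ℍ => β (Real.cosh (dist z w) / X)) ∧
      ∫ w, |β (Real.cosh (dist z w) / X)| ≤ C₀ * X := by
  obtain ⟨hΛ, hκ, hlip, hsup⟩ := hβ
  refine ⟨Λ * κ * (8 * κ) + 1, by positivity, fun X z hX => ?_⟩
  have hX0 : 0 < X := by linarith
  have hcβ : Continuous β := by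
    have : LipschitzWith ⟨Λ, hΛ⟩ β := LipschitzWith.of_dist_le_mul (fun s t => by
      rw [Real.dist_eq, Real.dist_eq]
      exact hlip s t)
    exact this.continuous
  have hc : Continuous (fun w : ℍ => β (Real.cosh (dist z w) / X)) := by fun_prop
  have hT : 1 ≤ κ * X := by nlinarith
  set E : Set ℍ := {w : ℍ | Real.cosh (dist z w) ≤ κ * X} with hE
  have hEm : MeasurableSet E := ker_ms z _
  have hEv := ker_vol z hT
  have hEf : (volume : Measure ℍ) E ≠ ∞ := ne_top_of_le_ne_top ENNReal.ofReal_ne_top hEv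
  have hbd : ∀ w : ℍ, |β (Real.cosh (dist z w) / X)| ≤ E.indicator (fun _ => Λ * κ) w := by
    intro w
    by_cases hw : w ∈ E
    · rw [Set.indicator_of_mem hw]
      have h1 : 0 ≤ Real.cosh (dist z w) / X := by positivity
      have h2 : Real.cosh (dist z w) / X ≤ κ := by rw [div_le_iff₀ hX0]; exact hw
      have h3 := hlip (Real.cosh (dist z w) / X) κ
      rw [hsup κ le_rfl, sub_zero] at h3
      refine h3.trans (mul_le_mul_of_nonneg_left ?_ hΛ)
      rw [abs_le]
      constructor <;> linarith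
    · rw [Set.indicator_of_notMem hw]
      have h2 : κ ≤ Real.cosh (dist z w) / X := by
        rw [le_div_iff₀ hX0]
        simp only [hE, Set.mem_ofPred_eq, not_le] at hw
        exact hw.le
      rw [hsup _ h2, abs_zero]
  have hind : Integrable (E.indicator (fun _ => Λ * κ)) (volume : Measure ℍ) :=
    (integrable_indicator_iff hEm).2 (integrableOn_const hEf)
  have hint : Integrable (fun w : ℍ => β (Real.cosh (dist z w) / X)) :=
    hind.mono' hc.aestronglyMeasurable (Eventually.of_forall fun w => by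
      rw [Real.norm_eq_abs]
      exact hbd w)
  refine ⟨hint, ?_⟩
  have h1 : ∫ w : ℍ, |β (Real.cosh (dist z w) / X)| ≤ ∫ w : ℍ, E.indicator (fun _ => Λ * κ) w :=
    integral_mono hint.abs hind hbd
  refine h1.trans ?_
  rw [integral_indicator hEm, setIntegral_const, smul_eq_mul]
  have h2 : (volume : Measure ℍ).real E ≤ 8 * (κ * X) := by
    rw [Measure.real]
    exact ENNReal.toReal_le_of_le_ofReal (by positivity) hEv
  calc (volume : Measure ℍ).real E * (Λ * κ) ≤ 8 * (κ * X) * (Λ * κ) :=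
        mul_le_mul_of_nonneg_right h2 (by positivity)
    _ ≤ (Λ * κ * (8 * κ) + 1) * X := by nlinarith

theorem kernel_int : type_of% @kernel_int_pr := @kernel_int_pr

end Pool.Agent.JOM
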