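import Pool.Agent.Lib_helper68.JOF.DefsF
import Pool.Agent.Lib_helper68.JOF.GEO
import Pool.Agent.Lib_helper68.JOF.PHS
import Pool.Agent.Lib_helper68.JOF.ASM

/-! Block SLT (project JO, part M): from integer matrices to classes in `SL(2, ZMod n)`. -/

namespace Pool.Agent.JOM

open MeasureTheory Filter Topology UpperHalfPlane
open scoped MatrixGroups Modular ArithmeticFunction.Moebius

theorem slt_box (M : ℤ) : {g : SL(2, ℤ) | ∀ i j, |g i j| ≤ M}.Finite := by
  have h1 : {A : Matrix (Fin 2) (Fin 2) ℤ | ∀ i, A i ∈ {r : Fin 2 → ℤ | ∀ j, r j ∈ Set.Icc (-M) M}}.Finite :=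
    Set.Finite.pi' fun _ => Set.Finite.pi' fun _ => Set.finite_Icc (-M) M
  have h2 : Function.Injective (fun g : SL(2, ℤ) => (g : Matrix (Fin 2) (Fin 2) ℤ)) :=
    Subtype.val_injective
  refine (h1.preimage h2.injOn).subset ?_
  intro g hg
  rw [Set.mem_preimage]
  intro i j
  rw [Set.mem_Icc]
  exact abs_le.1 (hg i j)

/-- block SLT: finiteness -/
theorem finite_ball_pr (z w : ℍ) (T : ℝ) :
    {g : SL(2, ℤ) | Real.cosh (dist z (g • w)) ≤ T}.Finite := by
  set x := z.re with hx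
  set y := z.im with hy
  set u := w.re with hu
  set v := w.im with hv
  have hy0 : 0 < y := z.im_pos
  have hv0 : 0 < v := w.im_pos
  set P : ℝ := √(2 * y * v * T) with hP
  have hP0 : 0 ≤ P := Real.sqrt_nonneg _
  set Mc : ℝ := P / (y * v) with hMc
  set Ma : ℝ := P / v + |x| * Mc with hMa
  set Md : ℝ := P / y + |u| * Mc with hMd
  set Mb : ℝ := P + P / v * |u| + |x| * Md with hMb
  obtain ⟨M, hM⟩ : ∃ M : ℕ, Ma ≤ M ∧ Mb ≤ M ∧ Mc ≤ M ∧ Md ≤ M := by
    obtain ⟨M1, h1⟩ := exists_nat_ge Ma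
    obtain ⟨M2, h2⟩ := exists_nat_ge Mb
    obtain ⟨M3, h3⟩ := exists_nat_ge Mc
    obtain ⟨M4, h4⟩ := exists_nat_ge Md
    refine ⟨M1 + M2 + M3 + M4, ?_, ?_, ?_, ?_⟩ <;> push_cast
    · have := Nat.cast_nonneg (α := ℝ) M2
      have := Nat.cast_nonneg (α := ℝ) M3
      have := Nat.cast_nonneg (α := ℝ) M4
      linarith
    · have := Nat.cast_nonneg (α := ℝ) M1
      have := Nat.cast_nonneg (α := ℝ) M3
      have := Nat.cast_nonneg (α := ℝ) M4
      linarith
    · have := Nat.cast_nonneg (α := ℝ) M2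
      have := Nat.cast_nonneg (α := ℝ) M1
      have := Nat.cast_nonneg (α := ℝ) M4
      linarith
    · have := Nat.cast_nonneg (α := ℝ) M2
      have := Nat.cast_nonneg (α := ℝ) M3
      have := Nat.cast_nonneg (α := ℝ) M1
      linarith
  refine (slt_box (M : ℤ)).subset ?_
  intro g hg
  have hg' : Real.cosh (dist z (g • w)) ≤ T := hg
  have hQ := cosh_dist_smul z w g
  set a : ℝ := (g 0 0 : ℝ) with ha
  set b : ℝ := (g 0 1 : ℝ) with hb
  set c : ℝ := (g 1 0 : ℝ) with hc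
  set d : ℝ := (g 1 1 : ℝ) with hd
  have hQ2 : QF x y u v a b c d ≤ 2 * y * v * T := by
    rw [← hQ]
    exact mul_le_mul_of_nonneg_left hg' (by positivity)
  unfold QF at hQ2
  have s1 : 0 ≤ (a - x * c) ^ 2 * v ^ 2 := by positivity
  have s2 : 0 ≤ ((a - x * c) * u + b - x * d) ^ 2 := by positivity
  have s3 : 0 ≤ y ^ 2 * c ^ 2 * v ^ 2 := by positivity
  have s4 : 0 ≤ y ^ 2 * (c * u + d) ^ 2 := by positivity
  have t1 : |(a - x * c) * v| ≤ P := by
    refine Real.abs_le_sqrt ?_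
    nlinarith
  have t2 : |(a - x * c) * u + b - x * d| ≤ P := by
    refine Real.abs_le_sqrt ?_
    nlinarith
  have t3 : |c * (y * v)| ≤ P := by
    refine Real.abs_le_sqrt ?_
    nlinarith
  have t4 : |(c * u + d) * y| ≤ P := by
    refine Real.abs_le_sqrt ?_
    nlinarith
  have c1 : |c| ≤ Mc := by
    rw [hMc, le_div_iff₀ (by positivity)]
    rwa [abs_mul, abs_of_pos (by positivity : 0 < y * v)] at t3
  have a1 : |a - x * c| ≤ P / v := by
    rw [le_div_iff₀ hv0]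
    rwa [abs_mul, abs_of_pos hv0] at t1
  have a2 : |a| ≤ Ma := by
    have e : a = (a - x * c) + x * c := by ring
    rw [e]
    refine (abs_add_le _ _).trans ?_
    rw [hMa, abs_mul x c]
    gcongr
  have d1 : |c * u + d| ≤ P / y := by
    rw [le_div_iff₀ hy0]
    rwa [abs_mul, abs_of_pos hy0] at t4
  have d2 : |d| ≤ Md := by
    have e : d = (c * u + d) + -(u * c) := by ring
    rw [e]
    refine (abs_add_le _ _).trans ?_
    rw [hMd, abs_neg, abs_mul u c]
    gcongr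
  have b2 : |b| ≤ Mb := by
    have e : b = ((a - x * c) * u + b - x * d) + (-((a - x * c) * u)) + x * d := by ring
    rw [e]
    refine (abs_add_three _ _ _).trans ?_
    rw [hMb, abs_neg, abs_mul (a - x * c) u, abs_mul x d]
    gcongr
  have key : ∀ (k : ℤ), |(k : ℝ)| ≤ M → |k| ≤ (M : ℤ) := by
    intro k hk
    have : ((|k| : ℤ) : ℝ) ≤ ((M : ℤ) : ℝ) := by
      rw [Int.cast_abs]
      exact_mod_cast hk
    exact_mod_cast this
  intro i j
  fin_cases i <;> fin_cases j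
  · exact key _ (a2.trans hM.1)
  · exact key _ (b2.trans hM.2.1)
  · exact key _ (c1.trans hM.2.2.1)
  · exact key _ (d2.trans hM.2.2.2)

/-- coprime lifts -/
theorem slt_coprime {n : ℕ} (hn : 0 < n) {A B C D : ℤ} (h : Cls n A B C D) :
    ∃ c d : ℤ, c ≠ 0 ∧ (n : ℤ) ∣ c - C ∧ (n : ℤ) ∣ d - D ∧ IsCoprime c d := by
  obtain ⟨c, hc0, hcC⟩ : ∃ c : ℤ, c ≠ 0 ∧ (n : ℤ) ∣ c - C := by
    by_cases hC : C = 0
    · refine ⟨n, by exact_mod_cast hn.ne', ?_⟩
      rw [hC, sub_zero]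
    · exact ⟨C, hC, by rw [sub_self]; exact dvd_zero _⟩
  set t : ℕ := ∏ p ∈ c.natAbs.primeFactors.filter (fun p : ℕ => ¬ (p : ℤ) ∣ D), p with ht
  refine ⟨c, D + n * t, hc0, hcC, ⟨t, by ring⟩, ?_⟩
  rw [Int.isCoprime_iff_gcd_eq_one]
  refine Nat.coprime_of_dvd fun p hp hpc hpd => ?_
  have hpc' : (p : ℤ) ∣ c := Int.natCast_dvd.2 hpc
  have hpd' : (p : ℤ) ∣ D + n * t := Int.natCast_dvd.2 hpd
  have hpP : Prime (p : ℤ) := Nat.prime_iff_prime_int.1 hp
  by_cases hD : (p : ℤ) ∣ D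
  · have h1 : (p : ℤ) ∣ n * t := (dvd_add_right hD).1 hpd'
    rcases hpP.dvd_or_dvd h1 with h2 | h2
    · have h3 : (p : ℤ) ∣ C := by
        have h4 : (p : ℤ) ∣ c - C := h2.trans hcC
        have h5 := dvd_sub hpc' h4
        rwa [sub_sub_cancel] at h5
      have h6 : (p : ℤ) ∣ A * D - B * C - 1 := h2.trans h
      have h7 : (p : ℤ) ∣ A * D - B * C := dvd_sub (hD.mul_left A) (h3.mul_left B)
      have h8 := dvd_sub h7 h6
      rw [sub_sub_cancel] at h8
      exact hpP.not_isUnit (isUnit_of_dvd_one h8)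
    · have h3 : p ∣ t := by exact_mod_cast h2
      rw [ht, Prime.dvd_finsetProd_iff hp.prime] at h3
      obtain ⟨q, hq, hpq⟩ := h3
      rw [Finset.mem_filter, Nat.mem_primeFactors] at hq
      have : p = q := (Nat.prime_dvd_prime_iff_eq hp hq.1.1).1 hpq
      rw [← this] at hq
      exact hq.2 hD
  · have h1 : p ∣ t := by
      rw [ht]
      refine Finset.dvd_prod_of_mem _ ?_
      rw [Finset.mem_filter, Nat.mem_primeFactors]
      exact ⟨⟨hp, hpc, Int.natAbs_ne_zero.2 hc0⟩, hD⟩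
    have h2 : (p : ℤ) ∣ n * t := (Int.natCast_dvd_natCast.2 h1).mul_left _
    exact hD ((dvd_add_left h2).1 hpd')

/-- block SLT: reduction is surjective -/
theorem red_surj_pr (n : ℕ) (hn : 0 < n) : Function.Surjective (red n) := by
  intro σ
  obtain ⟨A, hA⟩ := ZMod.intCast_surjective (σ 0 0)
  obtain ⟨B, hB⟩ := ZMod.intCast_surjective (σ 0 1)
  obtain ⟨C, hC⟩ := ZMod.intCast_surjective (σ 1 0)
  obtain ⟨D, hD⟩ := ZMod.intCast_surjective (σ 1 1)
  have hcls : Cls n A B C D := by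
    unfold Cls
    rw [← ZMod.intCast_zmod_eq_zero_iff_dvd]
    push_cast
    rw [hA, hB, hC, hD]
    have := σ.det_coe
    rw [Matrix.det_fin_two] at this
    rw [this, sub_self]
  obtain ⟨c, d, hc0, hcC, hdD, hcd⟩ := slt_coprime hn hcls
  obtain ⟨a, ha1, -, k, hk⟩ := Vp_exists hn hc0 hcls hcC (d := d) ⟨hcd, hdD⟩
  have hdet : a * d - (B + n * k) * c = 1 := by linear_combination hk
  have hcast : ∀ {s t : ℤ}, (n : ℤ) ∣ s - t → (s : ZMod n) = (t : ZMod n) := by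
    intro s t hst
    rw [← sub_eq_zero, ← Int.cast_sub, ZMod.intCast_zmod_eq_zero_iff_dvd]
    exact hst
  refine ⟨⟨!![a, B + n * k; c, d], by rw [Matrix.det_fin_two_of]; exact hdet⟩, ?_⟩
  ext i j
  fin_cases i <;> fin_cases j
  · simp only [red, Fin.zero_eta, Matrix.SpecialLinearGroup.map_apply_coe, RingHom.mapMatrix_apply,
      Matrix.map_apply, Matrix.of_apply, Matrix.cons_val', Matrix.cons_val_zero,
      Matrix.cons_val_fin_one, Int.coe_castRingHom]
    rw [← hA]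
    exact hcast ha1
  · simp only [red, Fin.zero_eta, Fin.mk_one, Matrix.SpecialLinearGroup.map_apply_coe,
      RingHom.mapMatrix_apply, Matrix.map_apply, Matrix.of_apply, Matrix.cons_val',
      Matrix.cons_val_one, Matrix.cons_val_zero, Matrix.cons_val_fin_one, Int.coe_castRingHom]
    rw [← hB]
    exact hcast ⟨k, by ring⟩
  · simp only [red, Fin.zero_eta, Fin.mk_one, Matrix.SpecialLinearGroup.map_apply_coe,
      RingHom.mapMatrix_apply, Matrix.map_apply, Matrix.of_apply, Matrix.cons_val',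
      Matrix.cons_val_one, Matrix.cons_val_zero, Matrix.cons_val_fin_one, Int.coe_castRingHom]
    rw [← hC]
    exact hcast hcC
  · simp only [red, Fin.mk_one, Matrix.SpecialLinearGroup.map_apply_coe,
      RingHom.mapMatrix_apply, Matrix.map_apply, Matrix.of_apply, Matrix.cons_val',
      Matrix.cons_val_one, Matrix.cons_val_fin_one, Int.coe_castRingHom]
    rw [← hD]
    exact hcast hdD

theorem slt_red_iff {n : ℕ} (g g₀ : SL(2, ℤ)) : red n g = red n g₀ ↔
    (n : ℤ) ∣ g 0 0 - g₀ 0 0 ∧ (n : ℤ) ∣ g 0 1 - g₀ 0 1 ∧ (n : ℤ) ∣ g 1 0 - g₀ 1 0 ∧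
      (n : ℤ) ∣ g 1 1 - g₀ 1 1 := by
  have hcast : ∀ {s t : ℤ}, (n : ℤ) ∣ s - t ↔ (s : ZMod n) = (t : ZMod n) := by
    intro s t
    rw [← sub_eq_zero, ← Int.cast_sub, ZMod.intCast_zmod_eq_zero_iff_dvd]
  rw [hcast, hcast, hcast, hcast]
  have hval : ∀ (g : SL(2, ℤ)) i j, red n g i j = ((g i j : ℤ) : ZMod n) := by
    intro g i j
    simp [red]
  constructor
  · intro h
    refine ⟨?_, ?_, ?_, ?_⟩ <;> rw [← hval, ← hval, h]
  · rintro ⟨h1, h2, h3, h4⟩
    ext i j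
    rw [hval, hval]
    fin_cases i <;> fin_cases j
    · exact h1
    · exact h2
    · exact h3
    · exact h4

theorem slt_class {β : ℝ → ℝ} {Λ κ : ℝ} (hβ : Tst β Λ κ) : ∃ C₀ δ : ℝ, 0 < C₀ ∧ 0 < δ ∧
    ∀ (n : ℕ) (σ : SL(2, ZMod n)) (X : ℝ) (z w : ℍ) (S : Finset SL(2, ℤ)), 0 < n → 1 ≤ X →
      1 / 2 ≤ z.im → 1 / 2 ≤ w.im →
      (∀ g, g ∈ S ↔ red n g = σ ∧ Real.cosh (dist z (g • w)) ≤ κ * X) →
      |∑ g ∈ S, β (Real.cosh (dist z (g • w)) / X) -
        2 * Real.pi ^ 2 * kk n / n ^ 3 * X * ∫ t in (0 : ℝ)..κ, β t| ≤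
      C₀ * (n * ((1 + z.im) * (1 + w.im) * (1 + |z.re|) * (1 + |w.re|))) ^ C₀ * X ^ (1 - δ) := by
  obtain ⟨C₀, δ, hC, hδ, H⟩ := lattice_int hβ
  refine ⟨C₀, δ, hC, hδ, ?_⟩
  intro n σ X z w S hn hX hz hw hS
  obtain ⟨g₀, hg₀⟩ := red_surj_pr n hn σ
  have hz0 := z.im_pos
  have hw0 := w.im_pos
  have hQ := cosh_dist_smul z w
  set φ : SL(2, ℤ) → ℤ × ℤ × ℤ × ℤ := fun g => (g 0 0, g 0 1, g 1 0, g 1 1) with hφ
  have hφi : Function.Injective φ := by
    intro g h hgh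
    simp only [hφ, Prod.mk.injEq] at hgh
    ext i j
    fin_cases i <;> fin_cases j
    · exact hgh.1
    · exact hgh.2.1
    · exact hgh.2.2.1
    · exact hgh.2.2.2
  have hdet : ∀ g : SL(2, ℤ), g 0 0 * g 1 1 - g 0 1 * g 1 0 = 1 := by
    intro g
    have := g.det_coe
    rw [Matrix.det_fin_two] at this
    exact this
  have key := H n (g₀ 0 0) (g₀ 0 1) (g₀ 1 0) (g₀ 1 1) X z.re z.im w.re w.im (S.image φ) hn
    (by
      unfold Cls
      rw [hdet g₀, sub_self]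
      exact dvd_zero _) hX hz hw
    (by
      intro t
      rw [Finset.mem_image]
      constructor
      · rintro ⟨g, hg, rfl⟩
        rw [hS, ← hg₀, slt_red_iff] at hg
        simp only [hφ]
        refine ⟨hdet g, hg.1.1, hg.1.2.1, hg.1.2.2.1, hg.1.2.2.2, ?_⟩
        rw [← hQ g]
        exact mul_le_mul_of_nonneg_left hg.2 (by positivity)
      · rintro ⟨h1, h2, h3, h4, h5, h6⟩
        obtain ⟨g, hg⟩ : ∃ g : SL(2, ℤ), φ g = t :=
          ⟨⟨!![t.1, t.2.1; t.2.2.1, t.2.2.2], by rw [Matrix.det_fin_two_of]; exact h1⟩, rfl⟩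
        refine ⟨g, ?_, hg⟩
        rw [← hg] at h2 h3 h4 h5 h6
        rw [hS, ← hg₀, slt_red_iff]
        refine ⟨⟨h2, h3, h4, h5⟩, ?_⟩
        have h7 : 2 * z.im * w.im * Real.cosh (dist z (g • w)) ≤ 2 * z.im * w.im * (κ * X) := by
          rw [hQ]
          exact h6
        exact le_of_mul_le_mul_left h7 (by positivity))
  rw [Finset.sum_image hφi.injOn] at key
  have e1 : ∀ g ∈ S, β (QF z.re z.im w.re w.im (φ g).1 (φ g).2.1 (φ g).2.2.1 (φ g).2.2.2 /
      (2 * z.im * w.im) / X) = β (Real.cosh (dist z (g • w)) / X) := by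
    intro g _
    congr 2
    simp only [hφ]
    rw [← hQ g]
    field_simp
  rw [Finset.sum_congr rfl e1] at key
  exact key

/-- a test function -/
theorem slt_tst : Tst (fun t : ℝ => max 0 (1 - t)) 1 1 := by
  refine ⟨zero_le_one, le_refl _, ?_, ?_⟩
  · intro s t
    have h1 := abs_max_sub_max_le_abs (1 - s) (1 - t) 0
    rw [max_comm (1 - s), max_comm (1 - t)] at h1
    refine h1.trans (le_of_eq ?_)
    rw [one_mul, ← abs_neg]
    congr 1
    ring
  · intro t ht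
    exact max_eq_left (by linarith)

theorem slt_int : ∫ t in (0 : ℝ)..1, max 0 (1 - t) = 1 / 2 := by
  have h1 : ∫ t in (0 : ℝ)..1, max 0 (1 - t) = ∫ t in (0 : ℝ)..1, (1 - t) := by
    refine intervalIntegral.integral_congr fun t ht => ?_
    rw [Set.uIcc_of_le zero_le_one, Set.mem_Icc] at ht
    exact max_eq_right (by linarith [ht.2])
  rw [h1, intervalIntegral.integral_sub (by simp) (by simp)]
  simp
  norm_num

/-- block SLT: the density -/
theorem kk_card_pr (n : ℕ) [NeZero n] :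
    kk n / n ^ 3 = kk 1 / Nat.card SL(2, ZMod n) := by
  classical
  obtain ⟨C₀, δ, hC, hδ, H⟩ := slt_class slt_tst
  have hn : 0 < n := NeZero.pos n
  have : Fintype SL(2, ZMod n) := Fintype.ofFinite _
  set G : ℕ := Nat.card SL(2, ZMod n) with hG
  have hG0 : 0 < G := Nat.card_pos
  have hGc : G = Fintype.card SL(2, ZMod n) := Nat.card_eq_fintype_card
  set E : ℝ := C₀ * (n * ((1 + (UpperHalfPlane.I : ℍ).im) * (1 + (UpperHalfPlane.I : ℍ).im) *
    (1 + |(UpperHalfPlane.I : ℍ).re|) * (1 + |(UpperHalfPlane.I : ℍ).re|))) ^ C₀ with hE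
  set E1 : ℝ := C₀ * ((1 : ℕ) * ((1 + (UpperHalfPlane.I : ℍ).im) * (1 + (UpperHalfPlane.I : ℍ).im) *
    (1 + |(UpperHalfPlane.I : ℍ).re|) * (1 + |(UpperHalfPlane.I : ℍ).re|))) ^ C₀ with hE1
  have him : (1 : ℝ) / 2 ≤ (UpperHalfPlane.I : ℍ).im := by
    rw [UpperHalfPlane.I_im]; norm_num
  have main : ∀ X : ℝ, 1 ≤ X → |G * (kk n / n ^ 3) - kk 1| * (Real.pi ^ 2 * X) ≤
      (G * E + E1) * X ^ (1 - δ) := by
    intro X hX
    set U : Finset SL(2, ℤ) := (finite_ball_pr UpperHalfPlane.I UpperHalfPlane.I (1 * X)).toFinset with hU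
    have hU' : ∀ g, g ∈ U ↔ Real.cosh (dist UpperHalfPlane.I (g • UpperHalfPlane.I)) ≤ 1 * X := by
      intro g
      rw [hU, Set.Finite.mem_toFinset]
      rfl
    set ψ : SL(2, ℤ) → ℝ := fun g =>
      max 0 (1 - Real.cosh (dist UpperHalfPlane.I (g • UpperHalfPlane.I)) / X) with hψ
    have h1 : |∑ g ∈ U, ψ g - 2 * Real.pi ^ 2 * kk 1 / (1 : ℕ) ^ 3 * X * (1 / 2)| ≤
        E1 * X ^ (1 - δ) := by
      have := H 1 1 X UpperHalfPlane.I UpperHalfPlane.I U one_pos hX him him (by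
        intro g
        rw [hU' g]
        constructor
        · intro h
          refine ⟨?_, h⟩
          ext i j
          exact Subsingleton.elim _ _
        · exact fun h => h.2)
      rw [slt_int] at this
      exact this
    have h2 : ∀ σ : SL(2, ZMod n), |∑ g ∈ U.filter (fun g => red n g = σ), ψ g -
        2 * Real.pi ^ 2 * kk n / n ^ 3 * X * (1 / 2)| ≤ E * X ^ (1 - δ) := by
      intro σ
      have := H n σ X UpperHalfPlane.I UpperHalfPlane.I (U.filter (fun g => red n g = σ)) hn hX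
        him him (by
          intro g
          rw [Finset.mem_filter, hU' g, and_comm])
      rw [slt_int] at this
      exact this
    have h3 : ∑ g ∈ U, ψ g = ∑ σ : SL(2, ZMod n), ∑ g ∈ U.filter (fun g => red n g = σ), ψ g :=
      (Finset.sum_fiberwise U (red n) ψ).symm
    have h4 : |∑ g ∈ U, ψ g - G * (2 * Real.pi ^ 2 * kk n / n ^ 3 * X * (1 / 2))| ≤
        G * (E * X ^ (1 - δ)) := by
      rw [h3, hGc]
      have e1 : (Fintype.card SL(2, ZMod n) : ℝ) * (2 * Real.pi ^ 2 * kk n / n ^ 3 * X * (1 / 2)) =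
          ∑ _σ : SL(2, ZMod n), (2 * Real.pi ^ 2 * kk n / n ^ 3 * X * (1 / 2)) := by
        rw [Finset.sum_const, Finset.card_univ, nsmul_eq_mul]
      have e2 : (Fintype.card SL(2, ZMod n) : ℝ) * (E * X ^ (1 - δ)) =
          ∑ _σ : SL(2, ZMod n), (E * X ^ (1 - δ)) := by
        rw [Finset.sum_const, Finset.card_univ, nsmul_eq_mul]
      rw [e1, e2, ← Finset.sum_sub_distrib]
      exact (Finset.abs_sum_le_sum_abs _ _).trans (Finset.sum_le_sum fun σ _ => h2 σ)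
    have h5 : |G * (kk n / n ^ 3) - kk 1| * (Real.pi ^ 2 * X) =
        |(∑ g ∈ U, ψ g - 2 * Real.pi ^ 2 * kk 1 / (1 : ℕ) ^ 3 * X * (1 / 2)) -
          (∑ g ∈ U, ψ g - G * (2 * Real.pi ^ 2 * kk n / n ^ 3 * X * (1 / 2)))| := by
      have e1 : Real.pi ^ 2 * X = |Real.pi ^ 2 * X| :=
        (abs_of_nonneg (by positivity : 0 ≤ Real.pi ^ 2 * X)).symm
      calc |G * (kk n / n ^ 3) - kk 1| * (Real.pi ^ 2 * X)
          = |(G * (kk n / n ^ 3) - kk 1) * (Real.pi ^ 2 * X)| := by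
            rw [abs_mul, ← e1]
        _ = _ := by
            congr 1
            push_cast
            ring
    rw [h5]
    refine (abs_sub _ _).trans ?_
    linarith
  -- let `X` tend to infinity
  have hz : |G * (kk n / n ^ 3) - kk 1| = 0 := by
    by_contra hne
    have hpos : 0 < |G * (kk n / n ^ 3) - kk 1| := lt_of_le_of_ne (abs_nonneg _) (Ne.symm hne)
    set q := |G * (kk n / n ^ 3) - kk 1| * Real.pi ^ 2 with hq
    have hq0 : 0 < q := by positivity
    have h1 : ∀ X : ℝ, 1 ≤ X → q * X ^ δ ≤ G * E + E1 := by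
      intro X hX
      have hX0 : 0 < X := by linarith
      have h2 := main X hX
      have h3 : X = X ^ δ * X ^ (1 - δ) := by
        rw [← Real.rpow_add hX0]
        norm_num
      have h4 : 0 < X ^ (1 - δ) := Real.rpow_pos_of_pos hX0 _
      have h5 : (q * X ^ δ) * X ^ (1 - δ) ≤ (G * E + E1) * X ^ (1 - δ) := by
        calc (q * X ^ δ) * X ^ (1 - δ) = q * (X ^ δ * X ^ (1 - δ)) := by ring
          _ = q * X := by rw [← h3]
          _ = |G * (kk n / n ^ 3) - kk 1| * (Real.pi ^ 2 * X) := by rw [hq]; ring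
          _ ≤ _ := h2
      exact le_of_mul_le_mul_right h5 h4
    have h2 : Tendsto (fun X : ℝ => q * X ^ δ) atTop atTop :=
      (tendsto_rpow_atTop hδ).const_mul_atTop hq0
    obtain ⟨X, hX1, hX2⟩ := ((eventually_ge_atTop (1 : ℝ)).and
      (h2.eventually (eventually_gt_atTop (G * E + E1)))).exists
    exact absurd (h1 X hX1) (not_le.2 hX2)
  have hG' : (G : ℝ) ≠ 0 := by exact_mod_cast hG0.ne'
  rw [eq_div_iff hG', mul_comm]
  exact sub_eq_zero.1 (abs_eq_zero.1 hz)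

/-- block SLT: **the lattice point count in residue classes** -/
theorem lattice_class_pr {β : ℝ → ℝ} {Λ κ : ℝ} (hβ : Tst β Λ κ) : ∃ C₀ δ : ℝ, 0 < C₀ ∧ 0 < δ ∧
    ∀ (n : ℕ) (σ : SL(2, ZMod n)) (X : ℝ) (z w : ℍ) (S : Finset SL(2, ℤ)), 0 < n → 1 ≤ X →
      1 / 2 ≤ z.im → 1 / 2 ≤ w.im →
      (∀ g, g ∈ S ↔ red n g = σ ∧ Real.cosh (dist z (g • w)) ≤ κ * X) →
      |∑ g ∈ S, β (Real.cosh (dist z (g • w)) / X) -
        2 * Real.pi ^ 2 * kk 1 * (∫ t in (0 : ℝ)..κ, β t) * X / Nat.card SL(2, ZMod n)| ≤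
      C₀ * (n * ((1 + z.im) * (1 + w.im) * (1 + |z.re|) * (1 + |w.re|))) ^ C₀ * X ^ (1 - δ) := by
  obtain ⟨C₀, δ, hC, hδ, H⟩ := slt_class hβ
  refine ⟨C₀, δ, hC, hδ, ?_⟩
  intro n σ X z w S hn hX hz hw hS
  have : NeZero n := ⟨hn.ne'⟩
  have h1 := H n σ X z w S hn hX hz hw hS
  have h2 : 2 * Real.pi ^ 2 * kk 1 * (∫ t in (0 : ℝ)..κ, β t) * X / Nat.card SL(2, ZMod n) =
      2 * Real.pi ^ 2 * kk n / n ^ 3 * X * ∫ t in (0 : ℝ)..κ, β t := by
    calc 2 * Real.pi ^ 2 * kk 1 * (∫ t in (0 : ℝ)..κ, β t) * X / Nat.card SL(2, ZMod n)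
        = 2 * Real.pi ^ 2 * (∫ t in (0 : ℝ)..κ, β t) * X * (kk 1 / Nat.card SL(2, ZMod n)) := by
          ring
      _ = 2 * Real.pi ^ 2 * (∫ t in (0 : ℝ)..κ, β t) * X * (kk n / n ^ 3) := by
          rw [kk_card_pr n]
      _ = _ := by ring
  rw [h2]
  exact h1


theorem finite_ball : type_of% @finite_ball_pr := @finite_ball_pr
theorem red_surj : type_of% @red_surj_pr := @red_surj_pr
theorem kk_card : type_of% @kk_card_pr := @kk_card_pr
theorem lattice_class : type_of% @lattice_class_pr := @lattice_class_pr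

end Pool.Agent.JOM
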