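import Pool.Agent.Lib_helper68.JOF.DefsF
import Pool.Agent.Lib_helper68.JOF.SLT
import Pool.Agent.Lib_helper68.JOF.KER
import Pool.Agent.Lib_helper68.JOF.GEO
import Pool.Agent.Lib_helper41.DIMF.UNF

/-! Project JO, part M, block MIX: effective mixing of radial averages. -/

namespace Pool.Agent.JOM

open MeasureTheory Filter Topology UpperHalfPlane ModularGroup
open scoped MatrixGroups Modular ArithmeticFunction.Moebius ENNReal ComplexConjugate

/-- the kernel -/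
noncomputable def mixK (β : ℝ → ℝ) (X : ℝ) (z w : ℍ) : ℝ := β (Real.cosh (dist z w) / X)

/-- the sum of the absolute values over the group -/
noncomputable def mixN (β : ℝ → ℝ) (X : ℝ) (z w : ℍ) : ℝ≥0∞ :=
  ∑' g : SL(2, ℤ), ‖mixK β X z (g • w)‖ₑ

theorem mix_countable : Countable SL(2, ℤ) := by
  have : Countable (Matrix (Fin 2) (Fin 2) ℤ) := inferInstanceAs (Countable (Fin 2 → Fin 2 → ℤ))
  exact inferInstanceAs (Countable {A : Matrix (Fin 2) (Fin 2) ℤ // A.det = 1})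

theorem mix_dist (g : SL(2, ℤ)) (z w : ℍ) : dist (g • z) (g • w) = dist z w := by
  have := dist_smul (Matrix.SpecialLinearGroup.map (Int.castRingHom ℝ) g) z w
  exact this

theorem mix_cont {β : ℝ → ℝ} {Λ κ : ℝ} (hβ : Tst β Λ κ) : Continuous β := by
  obtain ⟨hΛ, hκ, hlip, hsup⟩ := hβ
  have : LipschitzWith ⟨Λ, hΛ⟩ β := LipschitzWith.of_dist_le_mul (fun s t => by
    rw [Real.dist_eq, Real.dist_eq]
    exact hlip s t)
  exact this.continuous

theorem mix_K_cont {β : ℝ → ℝ} {Λ κ : ℝ} (hβ : Tst β Λ κ) (X : ℝ) :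
    Continuous (fun p : ℍ × ℍ => mixK β X p.1 p.2) := by
  have := mix_cont hβ
  unfold mixK
  fun_prop

theorem mix_K_symm (β : ℝ → ℝ) (X : ℝ) (z w : ℍ) : mixK β X z w = mixK β X w z := by
  unfold mixK
  rw [dist_comm]

theorem mix_K_smul (β : ℝ → ℝ) (X : ℝ) (g : SL(2, ℤ)) (z w : ℍ) :
    mixK β X (g • z) (g • w) = mixK β X z w := by
  unfold mixK
  rw [mix_dist]

theorem mix_N_symm (β : ℝ → ℝ) (X : ℝ) (z w : ℍ) : mixN β X z w = mixN β X w z := by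
  unfold mixN
  rw [← (Equiv.inv SL(2, ℤ)).tsum_eq (fun g => ‖mixK β X z (g • w)‖ₑ)]
  refine tsum_congr fun g => ?_
  rw [Equiv.inv_apply, mix_K_symm β X w (g • z), ← mix_K_smul β X g⁻¹ (g • z) w, inv_smul_smul]

theorem mix_N_meas {β : ℝ → ℝ} {Λ κ : ℝ} (hβ : Tst β Λ κ) (X : ℝ) :
    Measurable (fun p : ℍ × ℍ => mixN β X p.1 p.2) := by
  have := mix_countable
  unfold mixN
  refine Measurable.tsum fun g => ?_
  have h1 : Measurable (fun p : ℍ × ℍ => ((p.1, g • p.2) : ℍ × ℍ)) :=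
    measurable_fst.prodMk ((Pool.Agent.GL2.RSA_mp g).measurable.comp measurable_snd)
  exact ((mix_K_cont hβ X).measurable.comp h1).enorm

theorem mix_fdo_meas : MeasurableSet (𝒟ᵒ : Set ℍ) := isOpen_fdo.measurableSet

theorem mix_N_int {β : ℝ → ℝ} {Λ κ : ℝ} (hβ : Tst β Λ κ) {X C : ℝ}
    (hC : ∀ z : ℍ, Integrable (fun w : ℍ => β (Real.cosh (dist z w) / X)) ∧
      ∫ w, |β (Real.cosh (dist z w) / X)| ≤ C) (z : ℍ) :
    ∫⁻ w in 𝒟ᵒ, mixN β X z w ≤ 2 * ENNReal.ofReal C := by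
  have := mix_countable
  have hm : Measurable (fun w : ℍ => mixK β X z w) :=
    ((mix_K_cont hβ X).comp (by fun_prop : Continuous (fun w : ℍ => (z, w)))).measurable
  unfold mixN
  rw [lintegral_tsum (f := fun (g : SL(2, ℤ)) (w : ℍ) => ‖mixK β X z (g • w)‖ₑ)
    (fun g => ((hm.comp (Pool.Agent.GL2.RSA_mp g).measurable).enorm).aemeasurable)]
  have h1 := Pool.Agent.DIMK.UNF_lint (fun w : ℍ => ‖mixK β X z w‖ₑ) hm.enorm.aemeasurable
  rw [h1]
  refine mul_le_mul_right ?_ 2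
  have h2 : ∫⁻ w : ℍ, ‖mixK β X z w‖ₑ = ENNReal.ofReal (∫ w : ℍ, ‖mixK β X z w‖) :=
    (ofReal_integral_norm_eq_lintegral_enorm (hC z).1).symm
  rw [h2]
  exact ENNReal.ofReal_le_ofReal (hC z).2

theorem mix_int_rpow {Y : ℝ} (hY : 0 < Y) :
    ∫⁻ v in Set.Ioi Y, ENNReal.ofReal (1 / v ^ 2) = ENNReal.ofReal (1 / Y) := by
  have h3 : IntegrableOn (fun y : ℝ => y ^ (-2 : ℝ)) (Set.Ioi Y) :=
    integrableOn_Ioi_rpow_of_lt (by norm_num) hY
  have e : ∀ v ∈ Set.Ioi Y, ENNReal.ofReal (1 / v ^ 2) = ENNReal.ofReal (v ^ (-2 : ℝ)) := by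
    intro v hv
    have hv0 : (0 : ℝ) < v := lt_trans hY hv
    rw [Real.rpow_neg hv0.le, one_div]
    norm_cast
  rw [setLIntegral_congr_fun measurableSet_Ioi e,
    ← ofReal_integral_eq_lintegral_ofReal h3
      ((ae_restrict_iff' measurableSet_Ioi).2 (Eventually.of_forall fun v hv => by
        have : (0 : ℝ) < v := lt_trans hY hv
        positivity)), integral_Ioi_rpow_of_lt (by norm_num) hY]
  congr 1
  have h4 : Y ^ (-2 + 1 : ℝ) = Y⁻¹ := by
    rw [← Real.rpow_neg_one]; norm_num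
  rw [h4]
  field_simp
  norm_num

/-- the volume of the cuspidal part -/
theorem mix_cusp {Y : ℝ} (hY : 0 < Y) :
    (volume : Measure ℍ) (𝒟ᵒ ∩ {z : ℍ | Y < z.im}) ≤ ENNReal.ofReal (1 / Y) := by
  have hms : MeasurableSet (𝒟ᵒ ∩ {z : ℍ | Y < z.im}) :=
    mix_fdo_meas.inter (measurableSet_lt measurable_const UpperHalfPlane.continuous_im.measurable)
  rw [← setLIntegral_one, ← lintegral_indicator hms]
  set Sc : Set ℂ := {ζ : ℂ | ζ.re ∈ Set.Icc (-(1 / 2) : ℝ) (1 / 2) ∧ ζ.im ∈ Set.Ioi Y} with hSc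
  have h1 : ∀ w : ℍ, (𝒟ᵒ ∩ {z : ℍ | Y < z.im}).indicator (fun _ => (1 : ℝ≥0∞)) w ≤
      Sc.indicator (fun _ => (1 : ℝ≥0∞)) (w : ℂ) := by
    intro w
    by_cases hw : w ∈ 𝒟ᵒ ∩ {z : ℍ | Y < z.im}
    · rw [Set.indicator_of_mem hw, Set.indicator_of_mem]
      refine ⟨?_, hw.2⟩
      have h3 := abs_lt.mp hw.1.2
      exact ⟨by show -(1 / 2) ≤ w.re; linarith [h3.1], by show w.re ≤ 1 / 2; linarith [h3.2]⟩
    · rw [Set.indicator_of_notMem hw]
      exact zero_le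
  refine (lintegral_mono h1).trans ?_
  rw [Pool.Agent.GL2.RSA_lint, ← lintegral_indicator
    (isOpen_lt continuous_const Complex.continuous_im).measurableSet,
    (Complex.volume_preserving_equiv_real_prod.symm).lintegral_map_equiv]
  have h2 : ∀ p : ℝ × ℝ, {z : ℂ | 0 < z.im}.indicator (fun z : ℂ =>
      Sc.indicator (fun _ => (1 : ℝ≥0∞)) z * ENNReal.ofReal (1 / z.im ^ 2))
        (Complex.measurableEquivRealProd.symm p) =
      (Set.Icc (-(1 / 2) : ℝ) (1 / 2)).indicator (fun _ => (1 : ℝ≥0∞)) p.1 *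
      (Set.Ioi Y).indicator (fun y => ENNReal.ofReal (1 / y ^ 2)) p.2 := by
    rintro ⟨x, y⟩
    have e : Complex.measurableEquivRealProd.symm (x, y) = (⟨x, y⟩ : ℂ) := rfl
    rw [e]
    by_cases hx : x ∈ Set.Icc (-(1 / 2) : ℝ) (1 / 2)
    · by_cases hy : y ∈ Set.Ioi Y
      · have hy0 : 0 < y := lt_trans hY hy
        rw [Set.indicator_of_mem (by exact hy0), Set.indicator_of_mem (by exact ⟨hx, hy⟩),
          Set.indicator_of_mem hx, Set.indicator_of_mem hy]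
      · rw [Set.indicator_of_notMem hy, mul_zero]
        by_cases hy0 : 0 < y
        · rw [Set.indicator_of_mem (by exact hy0),
            Set.indicator_of_notMem (by exact fun h => hy h.2), zero_mul]
        · rw [Set.indicator_of_notMem (by exact hy0)]
    · rw [Set.indicator_of_notMem hx, zero_mul]
      by_cases hy0 : 0 < y
      · rw [Set.indicator_of_mem (by exact hy0),
          Set.indicator_of_notMem (by exact fun h => hx h.1), zero_mul]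
      · rw [Set.indicator_of_notMem (by exact hy0)]
  rw [lintegral_congr h2, Measure.volume_eq_prod, lintegral_prod_mul
    (measurable_const.indicator measurableSet_Icc).aemeasurable
    ((by fun_prop : Measurable (fun y : ℝ => ENNReal.ofReal (1 / y ^ 2))).indicator
      measurableSet_Ioi).aemeasurable, lintegral_indicator measurableSet_Icc,
    lintegral_indicator measurableSet_Ioi, mix_int_rpow hY, setLIntegral_one, Real.volume_Icc]
  norm_num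

theorem mix_fdo_im {z : ℍ} (hz : z ∈ 𝒟ᵒ) : 1 / 2 ≤ z.im := by
  have h := ModularGroup.three_lt_four_mul_im_sq_of_mem_fdo hz
  have := z.im_pos
  nlinarith

theorem mix_vol : (volume : Measure ℍ) 𝒟ᵒ ≤ 2 := by
  have h1 := mix_cusp (Y := 1 / 2) (by norm_num)
  have h2 : (𝒟ᵒ : Set ℍ) ∩ {z : ℍ | (1 / 2 : ℝ) < z.im} = 𝒟ᵒ := by
    apply Set.inter_eq_left.mpr
    intro z hz
    have h := ModularGroup.three_lt_four_mul_im_sq_of_mem_fdo hz
    have := z.im_pos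
    show (1 / 2 : ℝ) < z.im
    nlinarith
  rw [h2] at h1
  refine h1.trans ?_
  norm_num

/-- the total bound -/
theorem mix_tot {β : ℝ → ℝ} {Λ κ : ℝ} (hβ : Tst β Λ κ) {X Y C : ℝ} (hY : 0 < Y)
    (hC : ∀ z : ℍ, Integrable (fun w : ℍ => β (Real.cosh (dist z w) / X)) ∧
      ∫ w, |β (Real.cosh (dist z w) / X)| ≤ C) (e q : ℝ≥0∞) :
    ∫⁻ z in 𝒟ᵒ, ∫⁻ w in 𝒟ᵒ, (e + ((if Y < z.im then 1 else 0) * (mixN β X z w + q) +
      (if Y < w.im then 1 else 0) * (mixN β X z w + q))) ≤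
      4 * e + 2 * (ENNReal.ofReal (1 / Y) * (2 * ENNReal.ofReal C + 2 * q)) := by
  have hfin : IsFiniteMeasure ((volume : Measure ℍ).restrict 𝒟ᵒ) :=
    ⟨by rw [Measure.restrict_apply_univ]; exact lt_of_le_of_lt mix_vol (by norm_num)⟩
  set ν : Measure ℍ := (volume : Measure ℍ).restrict 𝒟ᵒ with hμ
  have hμ2 : ν Set.univ ≤ 2 := by rw [hμ, Measure.restrict_apply_univ]; exact mix_vol
  have hNm := mix_N_meas hβ X
  have hNz : ∀ z : ℍ, Measurable (fun w : ℍ => mixN β X z w) := fun z => hNm.of_uncurry_left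
  have him : Measurable (fun z : ℍ => z.im) := UpperHalfPlane.continuous_im.measurable
  have hi : Measurable (fun z : ℍ => (if Y < z.im then 1 else 0 : ℝ≥0∞)) :=
    Measurable.ite (measurableSet_lt measurable_const him) measurable_const measurable_const
  -- the integral of the inner function
  have hin : ∀ z : ℍ, ∫⁻ w, (mixN β X z w + q) ∂ν ≤ 2 * ENNReal.ofReal C + 2 * q := by
    intro z
    rw [lintegral_add_left (hNz z), lintegral_const]
    refine add_le_add (mix_N_int hβ hC z) ?_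
    rw [mul_comm]
    exact mul_le_mul_left hμ2 q
  have hi2 : ∫⁻ z, (if Y < z.im then 1 else 0 : ℝ≥0∞) ∂ν ≤ ENNReal.ofReal (1 / Y) := by
    have h1 : (fun z : ℍ => (if Y < z.im then 1 else 0 : ℝ≥0∞)) =
        {z : ℍ | Y < z.im}.indicator (fun _ => (1 : ℝ≥0∞)) := by
      funext z
      by_cases hz : Y < z.im
      · rw [if_pos hz, Set.indicator_of_mem (by exact hz)]
      · rw [if_neg hz, Set.indicator_of_notMem (by exact hz)]
    rw [h1, lintegral_indicator (measurableSet_lt measurable_const him), setLIntegral_one, hμ,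
      Measure.restrict_apply (measurableSet_lt measurable_const him), Set.inter_comm]
    exact mix_cusp hY
  have hf1 : ∀ z : ℍ, Measurable (fun w : ℍ => (if Y < z.im then 1 else 0 : ℝ≥0∞) * (mixN β X z w + q)) :=
    fun z => measurable_const.mul ((hNz z).add measurable_const)
  have hA : ∫⁻ z, ∫⁻ w, (if Y < z.im then 1 else 0 : ℝ≥0∞) * (mixN β X z w + q) ∂ν ∂ν ≤
      ENNReal.ofReal (1 / Y) * (2 * ENNReal.ofReal C + 2 * q) := by
    calc ∫⁻ z, ∫⁻ w, (if Y < z.im then 1 else 0 : ℝ≥0∞) * (mixN β X z w + q) ∂ν ∂ν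
        ≤ ∫⁻ z, (if Y < z.im then 1 else 0 : ℝ≥0∞) * (2 * ENNReal.ofReal C + 2 * q) ∂ν := by
          refine lintegral_mono fun z => ?_
          rw [lintegral_const_mul _ (f := fun w => mixN β X z w + q) ((hNz z).add measurable_const)]
          exact mul_le_mul_right (hin z) _
      _ ≤ _ := by
          rw [lintegral_mul_const _ hi]
          exact mul_le_mul_left hi2 _
  have hB : ∫⁻ z, ∫⁻ w, (if Y < w.im then 1 else 0 : ℝ≥0∞) * (mixN β X z w + q) ∂ν ∂ν ≤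
      ENNReal.ofReal (1 / Y) * (2 * ENNReal.ofReal C + 2 * q) := by
    rw [lintegral_lintegral_swap]
    · refine le_trans (le_of_eq ?_) hA
      refine lintegral_congr fun w => lintegral_congr fun z => ?_
      rw [mix_N_symm]
    · refine ((hi.comp measurable_snd).mul ?_).aemeasurable
      exact hNm.add measurable_const
  have hsum : ∫⁻ z, ∫⁻ w, (e + ((if Y < z.im then 1 else 0) * (mixN β X z w + q) +
      (if Y < w.im then 1 else 0) * (mixN β X z w + q))) ∂ν ∂ν =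
      ∫⁻ z, ∫⁻ _w, e ∂ν ∂ν +
      (∫⁻ z, ∫⁻ w, (if Y < z.im then 1 else 0 : ℝ≥0∞) * (mixN β X z w + q) ∂ν ∂ν +
      ∫⁻ z, ∫⁻ w, (if Y < w.im then 1 else 0 : ℝ≥0∞) * (mixN β X z w + q) ∂ν ∂ν) := by
    rw [← lintegral_add_left, ← lintegral_add_left]
    · refine lintegral_congr fun z => ?_
      rw [lintegral_add_left measurable_const, lintegral_add_left (hf1 z)]
    · exact measurable_const.lintegral_prod_right'
    · refine Measurable.lintegral_prod_right' (f := fun p : ℍ × ℍ =>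
        (if Y < p.1.im then 1 else 0 : ℝ≥0∞) * (mixN β X p.1 p.2 + q)) ?_
      exact (hi.comp measurable_fst).mul (hNm.add measurable_const)
  rw [hsum]
  refine add_le_add ?_ ?_
  · rw [lintegral_const, lintegral_const]
    calc e * ν Set.univ * ν Set.univ ≤ e * 2 * 2 := by gcongr
      _ = 4 * e := by ring
  · rw [two_mul (ENNReal.ofReal (1 / Y) * _)]
    exact add_le_add hA hB

/-- elements with the same reduction act in the same way -/
theorem mix_same {n : ℕ} {Q : Type} [MulAction SL(2, ℤ) Q]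
    (h : ∀ g : SL(2, ℤ), red n g = 1 → ∀ j : Q, g • j = j) {g g' : SL(2, ℤ)}
    (hg : red n g = red n g') (j : Q) : g⁻¹ • j = g'⁻¹ • j := by
  have h1 : red n (g' * g⁻¹) = 1 := by
    rw [map_mul, map_inv, hg, mul_inv_cancel]
  have h2 := h _ h1 j
  rw [eq_inv_smul_iff, ← mul_smul]
  exact h2

open Classical in
/-- the average over the residue classes is the average over the orbit -/
theorem mix_orb {n : ℕ} {Q : Type} [Fintype Q] [MulAction SL(2, ℤ) Q]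
    [Fintype SL(2, ZMod n)]
    (h : ∀ g : SL(2, ℤ), red n g = 1 → ∀ j : Q, g • j = j)
    (s : SL(2, ZMod n) → SL(2, ℤ)) (hs : ∀ σ, red n (s σ) = σ) (φ : Q → ℂ) (j : Q) :
    (∑ σ : SL(2, ZMod n), φ ((s σ)⁻¹ • j)) / (Fintype.card SL(2, ZMod n) : ℂ) =
      (∑ i ∈ Finset.univ.filter (fun i => i ∈ MulAction.orbit SL(2, ℤ) j), φ i) /
        ((Finset.univ.filter (fun i : Q => i ∈ MulAction.orbit SL(2, ℤ) j)).card : ℂ) := by
  set O : Finset Q := Finset.univ.filter (fun i => i ∈ MulAction.orbit SL(2, ℤ) j) with hO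
  have hinv : ∀ (k : SL(2, ℤ)) (i : Q), ∑ σ : SL(2, ZMod n), φ ((s σ)⁻¹ • (k • i)) =
      ∑ σ : SL(2, ZMod n), φ ((s σ)⁻¹ • i) := by
    intro k i
    rw [← Equiv.sum_comp (Equiv.mulLeft (red n k)⁻¹) (fun σ => φ ((s σ)⁻¹ • i))]
    refine Finset.sum_congr rfl fun σ _ => ?_
    congr 1
    rw [Equiv.coe_mulLeft]
    have e1 : (s σ)⁻¹ • (k • i) = (k⁻¹ * s σ)⁻¹ • i := by
      rw [mul_inv_rev, inv_inv, mul_smul]
    rw [e1]
    apply mix_same h
    rw [map_mul, map_inv, hs, hs]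
  have hG : (Fintype.card SL(2, ZMod n) : ℂ) ≠ 0 := by
    exact_mod_cast Fintype.card_ne_zero
  have hOc : (O.card : ℂ) ≠ 0 := by
    have : j ∈ O := by
      rw [hO, Finset.mem_filter]
      exact ⟨Finset.mem_univ _, MulAction.mem_orbit_self j⟩
    exact_mod_cast (Finset.card_pos.mpr ⟨j, this⟩).ne'
  rw [div_eq_div_iff hG hOc]
  have h1 : (∑ σ : SL(2, ZMod n), φ ((s σ)⁻¹ • j)) * (O.card : ℂ) =
      ∑ i ∈ O, ∑ σ : SL(2, ZMod n), φ ((s σ)⁻¹ • i) := by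
    have : ∀ i ∈ O, ∑ σ : SL(2, ZMod n), φ ((s σ)⁻¹ • i) =
        ∑ σ : SL(2, ZMod n), φ ((s σ)⁻¹ • j) := by
      intro i hi
      rw [hO, Finset.mem_filter] at hi
      obtain ⟨k, hk⟩ := hi.2
      rw [← hk]
      exact hinv k j
    rw [Finset.sum_congr rfl this, Finset.sum_const, nsmul_eq_mul, mul_comm]
  rw [h1, Finset.sum_comm]
  have h2 : ∀ σ : SL(2, ZMod n), ∑ i ∈ O, φ ((s σ)⁻¹ • i) = ∑ i ∈ O, φ i := by
    intro σ
    refine Finset.sum_equiv (MulAction.toPerm (s σ)⁻¹) ?_ (fun i _ => rfl)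
    intro i
    rw [hO, Finset.mem_filter, Finset.mem_filter]
    simp only [Finset.mem_univ, true_and, MulAction.toPerm_apply]
    constructor
    · rintro ⟨k, hk⟩
      exact ⟨(s σ)⁻¹ * k, by simp only [mul_smul] at hk ⊢; rw [hk]⟩
    · rintro ⟨k, hk⟩
      refine ⟨s σ * k, ?_⟩
      simp only at hk ⊢
      rw [mul_smul, hk, smul_inv_smul]
  rw [Finset.sum_congr rfl (fun σ _ => h2 σ), Finset.sum_const, nsmul_eq_mul, Finset.card_univ,
    mul_comm]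

/-- the folded kernel applied to a family -/
noncomputable def mixG {Q : Type} [MulAction SL(2, ℤ) Q] (β : ℝ → ℝ) (X : ℝ) (B : Q → ℍ → ℂ)
    (j : Q) (z w : ℍ) : ℂ :=
  ∑' g : SL(2, ℤ), (mixK β X z (g • w) : ℂ) * B (g⁻¹ • j) w

theorem mix_Phi {β : ℝ → ℝ} {Λ κ : ℝ} (hβ : Tst β Λ κ) {X C : ℝ}
    (hC : ∀ z : ℍ, Integrable (fun w : ℍ => β (Real.cosh (dist z w) / X)) ∧
      ∫ w, |β (Real.cosh (dist z w) / X)| ≤ C) {n : ℕ} {Q : Type} [MulAction SL(2, ℤ) Q]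
    {B : Q → ℍ → ℂ} (hB : Fam n Q B) (j : Q) (z : ℍ) :
    Integrable (fun w : ℍ => (mixK β X z w : ℂ) * B j w) := by
  refine (hC z).1.norm.mono' ?_ ?_
  · have hm : Measurable (fun w : ℍ => mixK β X z w) :=
      ((mix_K_cont hβ X).comp (by fun_prop : Continuous (fun w : ℍ => (z, w)))).measurable
    exact ((Complex.measurable_ofReal.comp hm).mul (hB.meas j)).aestronglyMeasurable
  · refine Eventually.of_forall fun w => ?_
    rw [norm_mul, Complex.norm_real]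
    calc ‖mixK β X z w‖ * ‖B j w‖ ≤ ‖mixK β X z w‖ * 1 :=
          mul_le_mul_of_nonneg_left (hB.bdd j w) (norm_nonneg _)
      _ = _ := mul_one _

theorem mix_unf {β : ℝ → ℝ} {Λ κ : ℝ} (hβ : Tst β Λ κ) {X C : ℝ}
    (hC : ∀ z : ℍ, Integrable (fun w : ℍ => β (Real.cosh (dist z w) / X)) ∧
      ∫ w, |β (Real.cosh (dist z w) / X)| ≤ C) {n : ℕ} {Q : Type} [MulAction SL(2, ℤ) Q]
    {B : Q → ℍ → ℂ} (hB : Fam n Q B) (j : Q) (z : ℍ) :
    IntegrableOn (mixG β X B j z) 𝒟ᵒ ∧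
      ∫ w in 𝒟ᵒ, mixG β X B j z w = 2 * ∫ w : ℍ, (mixK β X z w : ℂ) * B j w := by
  have := mix_countable
  have hΦ := mix_Phi hβ hC hB j z
  have e : ∀ (g : SL(2, ℤ)) (w : ℍ), (mixK β X z (g • w) : ℂ) * B j (g • w) =
      (mixK β X z (g • w) : ℂ) * B (g⁻¹ • j) w := by
    intro g w
    have := hB.equi g (g⁻¹ • j) w
    rw [smul_inv_smul] at this
    rw [this]
  have h1 := Pool.Agent.DIMK.UNF_int _ hΦ
  have h2 := Pool.Agent.DIMK.UNF_fin _ hΦ
  simp only [e] at h1 h2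
  have hm : ∀ g : SL(2, ℤ), Measurable (fun w : ℍ => (mixK β X z (g • w) : ℂ) * B (g⁻¹ • j) w) := by
    intro g
    have hm : Measurable (fun w : ℍ => mixK β X z w) :=
      ((mix_K_cont hβ X).comp (by fun_prop : Continuous (fun w : ℍ => (z, w)))).measurable
    exact (Complex.measurable_ofReal.comp (hm.comp (Pool.Agent.GL2.RSA_mp g).measurable)).mul
      (hB.meas _)
  have h3 : ∫ w in 𝒟ᵒ, ∑' g : SL(2, ℤ), (mixK β X z (g • w) : ℂ) * B (g⁻¹ • j) w =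
      ∑' g : SL(2, ℤ), ∫ w in 𝒟ᵒ, (mixK β X z (g • w) : ℂ) * B (g⁻¹ • j) w :=
    integral_tsum (fun g => (hm g).aestronglyMeasurable) h2
  refine ⟨⟨?_, ?_⟩, ?_⟩
  · exact AEStronglyMeasurable.tsum fun g => (hm g).aestronglyMeasurable
  · show ∫⁻ w in 𝒟ᵒ, ‖mixG β X B j z w‖ₑ < ⊤
    refine lt_of_le_of_lt (lintegral_mono fun w => enorm_tsum_le_tsum_enorm) ?_
    rw [lintegral_tsum (fun g => (hm g).enorm.aemeasurable)]
    exact lt_top_iff_ne_top.mpr h2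
  · unfold mixG
    rw [h3, h1.tsum_eq]

/-- the folded kernel is a finite sum -/
theorem mix_fin {β : ℝ → ℝ} {Λ κ : ℝ} (hβ : Tst β Λ κ) {X : ℝ} (hX : 0 < X) (z w : ℍ)
    (F : SL(2, ℤ) → ℂ) : ∑' g : SL(2, ℤ), (mixK β X z (g • w) : ℂ) * F g =
      ∑ g ∈ (finite_ball z w (κ * X)).toFinset, (mixK β X z (g • w) : ℂ) * F g := by
  refine tsum_eq_sum fun g hg => ?_
  rw [Set.Finite.mem_toFinset, Set.mem_ofPred_eq, not_le] at hg
  have : mixK β X z (g • w) = 0 := by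
    unfold mixK
    apply hβ.2.2.2
    rw [le_div_iff₀ hX]
    exact hg.le
  rw [this]
  simp

open Classical in
/-- the pointwise estimate -/
theorem mix_pt1 {β : ℝ → ℝ} {Λ κ C₀ δ : ℝ} (hβ : Tst β Λ κ) (hC₀ : 0 < C₀)
    (H : ∀ (n : ℕ) (σ : SL(2, ZMod n)) (X : ℝ) (z w : ℍ) (S : Finset SL(2, ℤ)), 0 < n → 1 ≤ X →
      1 / 2 ≤ z.im → 1 / 2 ≤ w.im →
      (∀ g, g ∈ S ↔ red n g = σ ∧ Real.cosh (dist z (g • w)) ≤ κ * X) →
      |∑ g ∈ S, β (Real.cosh (dist z (g • w)) / X) -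
        2 * Real.pi ^ 2 * kk 1 * (∫ t in (0 : ℝ)..κ, β t) * X / Nat.card SL(2, ZMod n)| ≤
      C₀ * (n * ((1 + z.im) * (1 + w.im) * (1 + |z.re|) * (1 + |w.re|))) ^ C₀ * X ^ (1 - δ))
    {n : ℕ} (hn : 0 < n) {X Y : ℝ} (hX : 1 ≤ X) {Q : Type} [MulAction SL(2, ℤ) Q]
    {B : Q → ℍ → ℂ} (hB : Fam n Q B) [Fintype SL(2, ZMod n)]
    (s : SL(2, ZMod n) → SL(2, ℤ)) (hs : ∀ σ, red n (s σ) = σ) (j : Q) {z w : ℍ} (hz : z ∈ 𝒟ᵒ)
    (hw : w ∈ 𝒟ᵒ) (hzY : z.im ≤ Y) (hwY : w.im ≤ Y) :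
    ‖mixG β X B j z w - ∑ σ : SL(2, ZMod n),
      ((2 * Real.pi ^ 2 * kk 1 * (∫ t in (0 : ℝ)..κ, β t) * X / Nat.card SL(2, ZMod n) : ℝ) : ℂ) *
        B ((s σ)⁻¹ • j) w‖ ≤ Fintype.card SL(2, ZMod n) *
          (C₀ * (n * ((1 + Y) * (1 + Y) * (3 / 2) * (3 / 2))) ^ C₀ * X ^ (1 - δ)) := by
  have hX0 : 0 < X := by linarith
  set c : ℝ := 2 * Real.pi ^ 2 * kk 1 * (∫ t in (0 : ℝ)..κ, β t) * X / Nat.card SL(2, ZMod n) with hc
  set S : Finset SL(2, ℤ) := (finite_ball z w (κ * X)).toFinset with hS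
  have hmem : ∀ g, g ∈ S ↔ Real.cosh (dist z (g • w)) ≤ κ * X := by
    intro g
    rw [hS, Set.Finite.mem_toFinset, Set.mem_ofPred_eq]
  have h1 : mixG β X B j z w = ∑ σ : SL(2, ZMod n),
      ((∑ g ∈ S.filter (fun g => red n g = σ), mixK β X z (g • w) : ℝ) : ℂ) *
        B ((s σ)⁻¹ • j) w := by
    unfold mixG
    rw [mix_fin hβ hX0 z w (fun g => B (g⁻¹ • j) w), ← Finset.sum_fiberwise S (red n)]
    refine Finset.sum_congr rfl fun σ _ => ?_
    rw [Complex.ofReal_sum, Finset.sum_mul]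
    refine Finset.sum_congr rfl fun g hg => ?_
    rw [Finset.mem_filter] at hg
    rw [mix_same hB.triv (g := g) (g' := s σ) (by rw [hg.2, hs]) j]
  rw [h1, ← Finset.sum_sub_distrib]
  refine (norm_sum_le _ _).trans ?_
  rw [← nsmul_eq_mul, ← Finset.card_univ, ← Finset.sum_const]
  refine Finset.sum_le_sum fun σ _ => ?_
  rw [← sub_mul, ← Complex.ofReal_sub, norm_mul, Complex.norm_real, Real.norm_eq_abs]
  have h2 := H n σ X z w (S.filter (fun g => red n g = σ)) hn hX (mix_fdo_im hz) (mix_fdo_im hw)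
    (by
      intro g
      rw [Finset.mem_filter, hmem, and_comm])
  have h3 : |(∑ g ∈ S.filter (fun g => red n g = σ), mixK β X z (g • w)) - c| * ‖B ((s σ)⁻¹ • j) w‖ ≤
      |(∑ g ∈ S.filter (fun g => red n g = σ), mixK β X z (g • w)) - c| * 1 :=
    mul_le_mul_of_nonneg_left (hB.bdd _ _) (abs_nonneg _)
  refine h3.trans ?_
  rw [mul_one]
  refine h2.trans ?_
  have hz1 : |z.re| ≤ 1 / 2 := hz.2.le
  have hw1 : |w.re| ≤ 1 / 2 := hw.2.le
  have hz0 := z.im_pos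
  have hw0 := w.im_pos
  have hY0 : 0 < Y := hz0.trans_le hzY
  have h4 : (1 + z.im) * (1 + w.im) * (1 + |z.re|) * (1 + |w.re|) ≤
      (1 + Y) * (1 + Y) * (3 / 2) * (3 / 2) := by
    have e1 : 1 + |z.re| ≤ 3 / 2 := by linarith
    have e2 : 1 + |w.re| ≤ 3 / 2 := by linarith
    gcongr
  have h5 : (n * ((1 + z.im) * (1 + w.im) * (1 + |z.re|) * (1 + |w.re|))) ^ C₀ ≤
      (n * ((1 + Y) * (1 + Y) * (3 / 2) * (3 / 2))) ^ C₀ := by
    apply Real.rpow_le_rpow (by positivity) _ hC₀.le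
    exact mul_le_mul_of_nonneg_left h4 (by positivity)
  exact mul_le_mul_of_nonneg_right (mul_le_mul_of_nonneg_left h5 hC₀.le) (by positivity)

/-- the trivial pointwise estimate -/
theorem mix_pt2 {β : ℝ → ℝ} {X : ℝ} {n : ℕ} {Q : Type} [MulAction SL(2, ℤ) Q]
    {B : Q → ℍ → ℂ} (hB : Fam n Q B) [Fintype SL(2, ZMod n)]
    (s : SL(2, ZMod n) → SL(2, ℤ)) (j : Q) (z w : ℍ) (c : ℝ) :
    ‖mixG β X B j z w - ∑ σ : SL(2, ZMod n),
      ((c / Nat.card SL(2, ZMod n) : ℝ) : ℂ) * B ((s σ)⁻¹ • j) w‖ₑ ≤ mixN β X z w + ‖c‖ₑ := by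
  refine (enorm_sub_le).trans ?_
  refine add_le_add ?_ ?_
  · refine (enorm_tsum_le_tsum_enorm).trans ?_
    refine ENNReal.tsum_le_tsum fun g => ?_
    rw [enorm_mul]
    have h1 : ‖B (g⁻¹ • j) w‖ₑ ≤ 1 := by
      rw [← ofReal_norm, ← ENNReal.ofReal_one]
      exact ENNReal.ofReal_le_ofReal (hB.bdd _ _)
    have h2 : ‖(mixK β X z (g • w) : ℂ)‖ₑ = ‖mixK β X z (g • w)‖ₑ := by
      rw [← ofReal_norm, ← ofReal_norm, Complex.norm_real]
    rw [h2]
    calc ‖mixK β X z (g • w)‖ₑ * ‖B (g⁻¹ • j) w‖ₑ ≤ ‖mixK β X z (g • w)‖ₑ * 1 :=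
          mul_le_mul_right h1 _
      _ = _ := mul_one _
  · rw [← ofReal_norm, ← ofReal_norm]
    apply ENNReal.ofReal_le_ofReal
    refine (norm_sum_le _ _).trans ?_
    have h1 : ∀ σ ∈ (Finset.univ : Finset SL(2, ZMod n)),
        ‖((c / Nat.card SL(2, ZMod n) : ℝ) : ℂ) * B ((s σ)⁻¹ • j) w‖ ≤
          ‖c‖ / Nat.card SL(2, ZMod n) := by
      intro σ _
      rw [norm_mul, Complex.norm_real, norm_div]
      have h3 : ‖(Nat.card SL(2, ZMod n) : ℝ)‖ = Nat.card SL(2, ZMod n) := by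
        rw [Real.norm_eq_abs, Nat.abs_cast]
      rw [h3]
      calc ‖c‖ / (Nat.card SL(2, ZMod n)) * ‖B ((s σ)⁻¹ • j) w‖ ≤
            ‖c‖ / (Nat.card SL(2, ZMod n)) * 1 :=
            mul_le_mul_of_nonneg_left (hB.bdd _ _) (by positivity)
        _ = _ := mul_one _
    refine (Finset.sum_le_sum h1).trans ?_
    rw [Finset.sum_const, Finset.card_univ, nsmul_eq_mul, Nat.card_eq_fintype_card]
    have : (Fintype.card SL(2, ZMod n) : ℝ) ≠ 0 := by exact_mod_cast Fintype.card_ne_zero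
    field_simp
    exact le_refl _

theorem mix_card {n : ℕ} (hn : 0 < n) [Fintype SL(2, ZMod n)] :
    (Fintype.card SL(2, ZMod n) : ℝ) ≤ (n : ℝ) ^ 4 := by
  have : NeZero n := ⟨hn.ne'⟩
  have h1 : Fintype.card SL(2, ZMod n) ≤ Fintype.card (Matrix (Fin 2) (Fin 2) (ZMod n)) :=
    Fintype.card_le_of_injective (fun g : SL(2, ZMod n) => (g : Matrix (Fin 2) (Fin 2) (ZMod n)))
      Subtype.val_injective
  have h2 : Fintype.card (Matrix (Fin 2) (Fin 2) (ZMod n)) = n ^ 4 := by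
    show Fintype.card (Fin 2 → Fin 2 → ZMod n) = n ^ 4
    simp [ZMod.card]
    ring
  rw [h2] at h1
  exact_mod_cast h1

/-- the difference of the averages -/
theorem mix_diff {β : ℝ → ℝ} {Λ κ C₀ δ : ℝ} (hβ : Tst β Λ κ) (hC₀ : 0 < C₀)
    (H : ∀ (n : ℕ) (σ : SL(2, ZMod n)) (X : ℝ) (z w : ℍ) (S : Finset SL(2, ℤ)), 0 < n → 1 ≤ X →
      1 / 2 ≤ z.im → 1 / 2 ≤ w.im →
      (∀ g, g ∈ S ↔ red n g = σ ∧ Real.cosh (dist z (g • w)) ≤ κ * X) →
      |∑ g ∈ S, β (Real.cosh (dist z (g • w)) / X) -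
        2 * Real.pi ^ 2 * kk 1 * (∫ t in (0 : ℝ)..κ, β t) * X / Nat.card SL(2, ZMod n)| ≤
      C₀ * (n * ((1 + z.im) * (1 + w.im) * (1 + |z.re|) * (1 + |w.re|))) ^ C₀ * X ^ (1 - δ))
    {n : ℕ} (hn : 0 < n) {X Y C : ℝ} (hX : 1 ≤ X) 
    (hC : ∀ z : ℍ, Integrable (fun w : ℍ => β (Real.cosh (dist z w) / X)) ∧
      ∫ w, |β (Real.cosh (dist z w) / X)| ≤ C) {Q : Type} [Fintype Q] [MulAction SL(2, ℤ) Q]
    {B : Q → ℍ → ℂ} (hB : Fam n Q B) (j : Q) {z : ℍ} (hz : z ∈ 𝒟ᵒ) :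
    ‖(∫ w : ℍ, (mixK β X z w : ℂ) * B j w) -
      ((Real.pi ^ 2 * kk 1 * (∫ t in (0 : ℝ)..κ, β t) * X : ℝ) : ℂ) * oavg B j‖ₑ ≤
    ∫⁻ w in 𝒟ᵒ, (ENNReal.ofReal ((n : ℝ) ^ 4 *
          (C₀ * (n * ((1 + Y) * (1 + Y) * (3 / 2) * (3 / 2))) ^ C₀ * X ^ (1 - δ))) +
      ((if Y < z.im then 1 else 0) * (mixN β X z w +
        ‖2 * Real.pi ^ 2 * kk 1 * (∫ t in (0 : ℝ)..κ, β t) * X‖ₑ) +
      (if Y < w.im then 1 else 0) * (mixN β X z w +
        ‖2 * Real.pi ^ 2 * kk 1 * (∫ t in (0 : ℝ)..κ, β t) * X‖ₑ))) := by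
  classical
  have : NeZero n := ⟨hn.ne'⟩
  have : Fintype SL(2, ZMod n) := Fintype.ofFinite _
  set c : ℝ := 2 * Real.pi ^ 2 * kk 1 * (∫ t in (0 : ℝ)..κ, β t) * X with hc
  choose s hs using red_surj n hn
  obtain ⟨hG1, hG2⟩ := mix_unf hβ hC hB j z
  have hfin : IsFiniteMeasure ((volume : Measure ℍ).restrict 𝒟ᵒ) :=
    ⟨by rw [Measure.restrict_apply_univ]; exact lt_of_le_of_lt mix_vol (by norm_num)⟩
  have hBi : ∀ i : Q, IntegrableOn (B i) 𝒟ᵒ := by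
    intro i
    refine Integrable.mono' (integrable_const (1 : ℝ)) (hB.meas i).aestronglyMeasurable ?_
    exact Eventually.of_forall fun w => hB.bdd i w
  have hHi : ∀ σ ∈ (Finset.univ : Finset SL(2, ZMod n)), IntegrableOn (fun w =>
      ((c / Nat.card SL(2, ZMod n) : ℝ) : ℂ) * B ((s σ)⁻¹ • j) w) 𝒟ᵒ :=
    fun σ _ => (hBi _).const_mul _
  have hHs : IntegrableOn (fun w => ∑ σ : SL(2, ZMod n),
      ((c / Nat.card SL(2, ZMod n) : ℝ) : ℂ) * B ((s σ)⁻¹ • j) w) 𝒟ᵒ := integrable_finsetSum _ hHi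
  have h1 : 2 * ((∫ w : ℍ, (mixK β X z w : ℂ) * B j w) -
      ((Real.pi ^ 2 * kk 1 * (∫ t in (0 : ℝ)..κ, β t) * X : ℝ) : ℂ) * oavg B j) =
      ∫ w in 𝒟ᵒ, (mixG β X B j z w - ∑ σ : SL(2, ZMod n),
      ((c / Nat.card SL(2, ZMod n) : ℝ) : ℂ) * B ((s σ)⁻¹ • j) w) := by
    rw [integral_sub hG1 hHs, hG2, integral_finsetSum _ hHi]
    simp_rw [integral_const_mul]
    have h2 := mix_orb hB.triv s hs (fun i => ∫ w in 𝒟ᵒ, B i w) j
    have h3 : oavg B j = (∑ σ : SL(2, ZMod n), ∫ w in 𝒟ᵒ, B ((s σ)⁻¹ • j) w) /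
        (Fintype.card SL(2, ZMod n) : ℂ) := by
      rw [h2]
      unfold oavg
      congr!
    rw [h3, ← Finset.mul_sum, Nat.card_eq_fintype_card, hc]
    push_cast
    ring
  have h2 : ‖(∫ w : ℍ, (mixK β X z w : ℂ) * B j w) -
      ((Real.pi ^ 2 * kk 1 * (∫ t in (0 : ℝ)..κ, β t) * X : ℝ) : ℂ) * oavg B j‖ₑ ≤
      ‖2 * ((∫ w : ℍ, (mixK β X z w : ℂ) * B j w) -
      ((Real.pi ^ 2 * kk 1 * (∫ t in (0 : ℝ)..κ, β t) * X : ℝ) : ℂ) * oavg B j)‖ₑ := by
    rw [← ofReal_norm, ← ofReal_norm]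
    apply ENNReal.ofReal_le_ofReal
    rw [norm_mul, Complex.norm_two]
    linarith [norm_nonneg ((∫ w : ℍ, (mixK β X z w : ℂ) * B j w) -
      ((Real.pi ^ 2 * kk 1 * (∫ t in (0 : ℝ)..κ, β t) * X : ℝ) : ℂ) * oavg B j)]
  refine h2.trans ?_
  rw [h1]
  refine (enorm_integral_le_lintegral_enorm _).trans ?_
  refine setLIntegral_mono' mix_fdo_meas fun w hw => ?_
  by_cases hzY : Y < z.im
  · rw [if_pos hzY, one_mul]
    refine (mix_pt2 hB s j z w c).trans ?_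
    exact le_add_left (le_add_right le_rfl)
  · by_cases hwY : Y < w.im
    · rw [if_pos hwY, one_mul]
      refine (mix_pt2 hB s j z w c).trans ?_
      exact le_add_left (le_add_left le_rfl)
    · refine le_add_right ?_
      rw [← ofReal_norm]
      apply ENNReal.ofReal_le_ofReal
      refine (mix_pt1 hβ hC₀ H hn hX hB s hs j hz hw (not_lt.mp hzY) (not_lt.mp hwY)).trans ?_
      have hz0 := z.im_pos
      have hY0 : 0 < Y := hz0.trans_le (not_lt.mp hzY)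
      exact mul_le_mul_of_nonneg_right (mix_card hn) (by positivity)

/-- block MIX: **effective mixing of radial averages** -/
theorem mixing_pr {β : ℝ → ℝ} {Λ κ : ℝ} (hβ : Tst β Λ κ) : ∃ C₀ δ : ℝ, 0 < C₀ ∧ 0 < δ ∧
    ∀ (n : ℕ) (Q : Type) [Fintype Q] [MulAction SL(2, ℤ) Q] (A B : Q → ℍ → ℂ) (X : ℝ), 0 < n →
      Fam n Q A → Fam n Q B → 1 ≤ X →
      ‖∑ j : Q, (∫ z in 𝒟ᵒ, A j z *
          (starRingEnd ℂ) (∫ w, (β (Real.cosh (dist z w) / X) : ℂ) * B j w)) -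
        ((Real.pi ^ 2 * kk 1 * (∫ t in (0 : ℝ)..κ, β t) * X : ℝ) : ℂ) *
          ∑ j : Q, (∫ z in 𝒟ᵒ, A j z) * (starRingEnd ℂ) (oavg B j)‖ ≤
      C₀ * Fintype.card Q * (n : ℝ) ^ C₀ * X ^ (1 - δ) := by
  obtain ⟨C₀, δ, hC₀, hδ, H⟩ := lattice_class hβ
  obtain ⟨C₁, hC₁, H1⟩ := kernel_int hβ
  set J : ℝ := Real.pi ^ 2 * kk 1 * (∫ t in (0 : ℝ)..κ, β t) with hJ
  set η : ℝ := δ / (4 * C₀) with hη
  have hη0 : 0 < η := by positivity
  set K₁ : ℝ := 4 * (C₀ * 9 ^ C₀) with hK₁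
  set K₂ : ℝ := 2 * (2 * C₁ + 2 * (2 * |J|)) with hK₂
  have hK₁0 : 0 < K₁ := by positivity
  have hK₂0 : 0 < K₂ := by positivity
  refine ⟨K₁ + K₂ + C₀ + 4, min (δ / 2) η, by positivity, lt_min (by positivity) hη0, ?_⟩
  intro n Q _ _ A B X hn hA hB hX
  have hX0 : 0 < X := by linarith
  have hn1 : (1 : ℝ) ≤ n := by exact_mod_cast hn
  have hfin : IsFiniteMeasure ((volume : Measure ℍ).restrict 𝒟ᵒ) :=
    ⟨by rw [Measure.restrict_apply_univ]; exact lt_of_le_of_lt mix_vol (by norm_num)⟩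
  have hC : ∀ z : ℍ, Integrable (fun w : ℍ => β (Real.cosh (dist z w) / X)) ∧
      ∫ w, |β (Real.cosh (dist z w) / X)| ≤ C₁ * X := fun z => H1 X z hX
  -- measurability and boundedness of the averages
  have hLm : ∀ j : Q, StronglyMeasurable (fun z : ℍ => ∫ w : ℍ, (mixK β X z w : ℂ) * B j w) := by
    intro j
    have hm : Measurable (fun p : ℍ × ℍ => (mixK β X p.1 p.2 : ℂ) * B j p.2) :=
      (Complex.measurable_ofReal.comp (mix_K_cont hβ X).measurable).mul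
        ((hB.meas j).comp measurable_snd)
    exact hm.stronglyMeasurable.integral_prod_right
  have hLb : ∀ (j : Q) (z : ℍ), ‖∫ w : ℍ, (mixK β X z w : ℂ) * B j w‖ ≤ C₁ * X := by
    intro j z
    refine (norm_integral_le_integral_norm _).trans ?_
    refine le_trans (integral_mono (mix_Phi hβ hC hB j z).norm (hC z).1.norm ?_) (hC z).2
    intro w
    simp only
    rw [norm_mul, Complex.norm_real]
    calc ‖mixK β X z w‖ * ‖B j w‖ ≤ ‖mixK β X z w‖ * 1 :=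
          mul_le_mul_of_nonneg_left (hB.bdd j w) (norm_nonneg _)
      _ = _ := mul_one _
  have hAi : ∀ j : Q, IntegrableOn (A j) 𝒟ᵒ := by
    intro j
    refine Integrable.mono' (integrable_const (1 : ℝ)) (hA.meas j).aestronglyMeasurable ?_
    exact Eventually.of_forall fun w => hA.bdd j w
  have hALi : ∀ j : Q, IntegrableOn (fun z => A j z *
      (starRingEnd ℂ) (∫ w : ℍ, (mixK β X z w : ℂ) * B j w)) 𝒟ᵒ := by
    intro j
    refine Integrable.mono' (integrable_const (C₁ * X)) ?_ ?_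
    · exact (hA.meas j).aestronglyMeasurable.mul
        (Complex.continuous_conj.comp_stronglyMeasurable (hLm j)).aestronglyMeasurable
    · refine Eventually.of_forall fun z => ?_
      rw [norm_mul, RCLike.norm_conj]
      calc ‖A j z‖ * ‖∫ w : ℍ, (mixK β X z w : ℂ) * B j w‖ ≤ 1 * (C₁ * X) :=
            mul_le_mul (hA.bdd j z) (hLb j z) (norm_nonneg _) zero_le_one
        _ = _ := one_mul _
  -- the difference
  set c : ℝ := J * X with hc
  have h1 : ∑ j : Q, (∫ z in 𝒟ᵒ, A j z *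
      (starRingEnd ℂ) (∫ w, (β (Real.cosh (dist z w) / X) : ℂ) * B j w)) -
        (c : ℂ) * ∑ j : Q, (∫ z in 𝒟ᵒ, A j z) * (starRingEnd ℂ) (oavg B j) =
      ∑ j : Q, ∫ z in 𝒟ᵒ, A j z * (starRingEnd ℂ) ((∫ w : ℍ, (mixK β X z w : ℂ) * B j w) -
        (c : ℂ) * oavg B j) := by
    rw [Finset.mul_sum, ← Finset.sum_sub_distrib]
    refine Finset.sum_congr rfl fun j _ => ?_
    have e1 : (c : ℂ) * ((∫ z in 𝒟ᵒ, A j z) * (starRingEnd ℂ) (oavg B j)) =
        ∫ z in 𝒟ᵒ, A j z * ((c : ℂ) * (starRingEnd ℂ) (oavg B j)) := by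
      rw [integral_mul_const]
      ring
    rw [e1]
    have e2 := integral_sub (hALi j) ((hAi j).mul_const ((c : ℂ) * (starRingEnd ℂ) (oavg B j)))
    refine Eq.trans e2.symm ?_
    refine integral_congr_ae (Eventually.of_forall fun z => ?_)
    simp only [map_sub, map_mul, Complex.conj_ofReal]
    ring
  set Y : ℝ := X ^ η with hY
  have hY1 : 1 ≤ Y := Real.one_le_rpow hX hη0.le
  have hY0 : 0 < Y := by linarith
  set e : ℝ := (n : ℝ) ^ 4 *
    (C₀ * (n * ((1 + Y) * (1 + Y) * (3 / 2) * (3 / 2))) ^ C₀ * X ^ (1 - δ)) with he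
  have he0 : 0 ≤ e := by positivity
  have hq : ‖2 * Real.pi ^ 2 * kk 1 * (∫ t in (0 : ℝ)..κ, β t) * X‖ₑ =
      ENNReal.ofReal (2 * |J| * X) := by
    rw [← ofReal_norm]
    congr 1
    have : 2 * Real.pi ^ 2 * kk 1 * (∫ t in (0 : ℝ)..κ, β t) * X = 2 * (J * X) := by
      rw [hJ]; ring
    rw [this, Real.norm_eq_abs, abs_mul, abs_mul, abs_of_pos hX0, abs_two, mul_assoc]
  have h2 : ‖∑ j : Q, ∫ z in 𝒟ᵒ, A j z * (starRingEnd ℂ) ((∫ w : ℍ, (mixK β X z w : ℂ) * B j w) -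
        (c : ℂ) * oavg B j)‖ₑ ≤ Fintype.card Q * (4 * ENNReal.ofReal e +
          2 * (ENNReal.ofReal (1 / Y) * (2 * ENNReal.ofReal (C₁ * X) +
            2 * ENNReal.ofReal (2 * |J| * X)))) := by
    refine (enorm_sum_le _ _).trans ?_
    rw [← nsmul_eq_mul, ← Finset.card_univ, ← Finset.sum_const]
    refine Finset.sum_le_sum fun j _ => ?_
    refine (enorm_integral_le_lintegral_enorm _).trans ?_
    refine le_trans ?_ (mix_tot hβ hY0 hC (ENNReal.ofReal e) (ENNReal.ofReal (2 * |J| * X)))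
    refine setLIntegral_mono' mix_fdo_meas fun z hz => ?_
    have h3 := mix_diff (Y := Y) hβ hC₀ H hn hX hC hB j hz
    rw [hq] at h3
    refine le_trans ?_ h3
    rw [← ofReal_norm, ← ofReal_norm]
    apply ENNReal.ofReal_le_ofReal
    rw [norm_mul, RCLike.norm_conj]
    calc ‖A j z‖ * ‖(∫ w : ℍ, (mixK β X z w : ℂ) * B j w) - (c : ℂ) * oavg B j‖ ≤
          1 * ‖(∫ w : ℍ, (mixK β X z w : ℂ) * B j w) - (c : ℂ) * oavg B j‖ :=
          mul_le_mul_of_nonneg_right (hA.bdd j z) (norm_nonneg _)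
      _ = _ := one_mul _
  rw [← h1, ← ofReal_norm] at h2
  have h3 : (Fintype.card Q : ℝ≥0∞) * (4 * ENNReal.ofReal e +
      2 * (ENNReal.ofReal (1 / Y) * (2 * ENNReal.ofReal (C₁ * X) +
        2 * ENNReal.ofReal (2 * |J| * X)))) =
      ENNReal.ofReal (Fintype.card Q * (4 * e + 2 * (1 / Y * (2 * (C₁ * X) + 2 * (2 * |J| * X))))) := by
    have hp1 : 0 ≤ 2 * (C₁ * X) := by positivity
    have hp2 : 0 ≤ 2 * (2 * |J| * X) := by positivity
    rw [ENNReal.ofReal_mul (p := (Fintype.card Q : ℝ)) (by positivity),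
      ENNReal.ofReal_add (p := 4 * e) (by positivity) (by positivity),
      ENNReal.ofReal_mul (p := 4) (by norm_num), ENNReal.ofReal_mul (p := 2) (q := 1 / Y * _)
      (by norm_num), ENNReal.ofReal_mul (p := 1 / Y) (by positivity), ENNReal.ofReal_add hp1 hp2,
      ENNReal.ofReal_mul (p := 2) (q := C₁ * X) (by norm_num),
      ENNReal.ofReal_mul (p := 2) (q := 2 * |J| * X) (by norm_num), ENNReal.ofReal_natCast]
    norm_num
  rw [h3] at h2
  have h4 := (ENNReal.ofReal_le_ofReal_iff (by positivity)).mp h2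
  refine h4.trans ?_
  -- the real inequality
  have h5 : 4 * e ≤ K₁ * (n : ℝ) ^ (C₀ + 4) * X ^ (1 - δ / 2) := by
    have e1 : (1 + Y) * (1 + Y) * (3 / 2) * (3 / 2) ≤ 9 * Y ^ 2 := by nlinarith
    have e2 : (n * ((1 + Y) * (1 + Y) * (3 / 2) * (3 / 2))) ^ C₀ ≤ (n * (9 * Y ^ 2)) ^ C₀ :=
      Real.rpow_le_rpow (by positivity) (mul_le_mul_of_nonneg_left e1 (by positivity)) hC₀.le
    have e3 : (n * (9 * Y ^ 2)) ^ C₀ = (n : ℝ) ^ C₀ * 9 ^ C₀ * X ^ (δ / 2) := by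
      rw [Real.mul_rpow (by positivity) (by positivity), Real.mul_rpow (by norm_num) (by positivity),
        ← Real.rpow_natCast Y 2, hY, ← Real.rpow_mul hX0.le, ← Real.rpow_mul hX0.le]
      have : η * ((2 : ℕ) : ℝ) * C₀ = δ / 2 := by
        rw [hη]; push_cast; field_simp; norm_num
      rw [this]
      ring
    have e4 : X ^ (δ / 2) * X ^ (1 - δ) = X ^ (1 - δ / 2) := by
      rw [← Real.rpow_add hX0]; congr 1; ring
    have e5 : (n : ℝ) ^ (C₀ + 4) = (n : ℝ) ^ C₀ * (n : ℝ) ^ 4 := by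
      rw [Real.rpow_add (by linarith)]
      norm_cast
    rw [e3] at e2
    calc 4 * e = 4 * ((n : ℝ) ^ 4 * C₀ * X ^ (1 - δ)) *
          (n * ((1 + Y) * (1 + Y) * (3 / 2) * (3 / 2))) ^ C₀ := by rw [he]; ring
      _ ≤ 4 * ((n : ℝ) ^ 4 * C₀ * X ^ (1 - δ)) * ((n : ℝ) ^ C₀ * 9 ^ C₀ * X ^ (δ / 2)) :=
          mul_le_mul_of_nonneg_left e2 (by positivity)
      _ = 4 * (C₀ * 9 ^ C₀) * ((n : ℝ) ^ C₀ * (n : ℝ) ^ 4) * (X ^ (δ / 2) * X ^ (1 - δ)) := by ring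
      _ = _ := by rw [e4, ← e5]
  have h6 : 2 * (1 / Y * (2 * (C₁ * X) + 2 * (2 * |J| * X))) = K₂ * X ^ (1 - η) := by
    have e1 : 1 / Y * X = X ^ (1 - η) := by
      rw [Real.rpow_sub hX0, Real.rpow_one, hY]
      ring
    rw [← e1, hK₂]
    ring
  have hXm : ∀ t : ℝ, min (δ / 2) η ≤ t → X ^ (1 - t) ≤ X ^ (1 - min (δ / 2) η) := fun t ht =>
    Real.rpow_le_rpow_of_exponent_le hX (by linarith)
  have hnm : ∀ t : ℝ, t ≤ K₁ + K₂ + C₀ + 4 → (n : ℝ) ^ t ≤ (n : ℝ) ^ (K₁ + K₂ + C₀ + 4) :=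
    fun t ht => Real.rpow_le_rpow_of_exponent_le hn1 ht
  set E : ℝ := X ^ (1 - min (δ / 2) η) with hE
  set N : ℝ := (n : ℝ) ^ (K₁ + K₂ + C₀ + 4) with hN
  have hE0 : 0 < E := by positivity
  have hN0 : 0 < N := by positivity
  have h7 : K₁ * (n : ℝ) ^ (C₀ + 4) * X ^ (1 - δ / 2) ≤ K₁ * N * E := by
    have := hnm (C₀ + 4) (by linarith)
    have := hXm (δ / 2) (min_le_left _ _)
    gcongr
  have h8 : K₂ * X ^ (1 - η) ≤ K₂ * N * E := by
    have e1 : 1 ≤ N := by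
      have := hnm 0 (by positivity)
      rwa [Real.rpow_zero] at this
    have e2 := hXm η (min_le_right _ _)
    calc K₂ * X ^ (1 - η) ≤ K₂ * E := mul_le_mul_of_nonneg_left e2 hK₂0.le
      _ = K₂ * 1 * E := by ring
      _ ≤ K₂ * N * E := by gcongr
  have h9 : 0 ≤ (C₀ + 4) * N * E := by positivity
  calc (Fintype.card Q : ℝ) * (4 * e + 2 * (1 / Y * (2 * (C₁ * X) + 2 * (2 * |J| * X)))) ≤
        Fintype.card Q * (K₁ * N * E + K₂ * N * E) := by
        apply mul_le_mul_of_nonneg_left _ (by positivity)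
        rw [h6]
        linarith
    _ ≤ Fintype.card Q * ((K₁ + K₂ + C₀ + 4) * N * E) := by
        apply mul_le_mul_of_nonneg_left _ (by positivity)
        linarith
    _ = _ := by ring


theorem mixing : type_of% @mixing_pr := @mixing_pr

end Pool.Agent.JOM
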